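import Pool.Agent.P.MP_1a5a6a_pr.FI.Basic

set_option autoImplicit false
set_option linter.unusedSectionVars false
open MeasureTheory ProbabilityTheory Filter Set
open scoped ENNReal Classical

namespace Pool.Agent.P.MP_1a5a6a_pr

variable {d : ℕ}

section ISO
variable {S T U : Type} [MeasurableSpace S] [MeasurableSpace T] [MeasurableSpace U]

theorem FinMap.tendsto {μ : Measure (Cf d S)} (hμ : Stat μ) {φ : Cf d S → Cf d T}
    (h : FinMap μ φ) : ∀ᵐ x ∂μ, Tendsto φ (nb x) (nb (φ x)) := by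
  filter_upwards [hμ.ae_sh h.lc] with x hx
  refine tendsto_nb.2 fun v => (hx v).comp_sh.mono fun y hy => ?_
  simpa only [h.equiv, sh_apply, zero_add] using hy

theorem map_inv_eq {μ : Measure (Cf d S)} {μ' : Measure (Cf d T)} {φ : Cf d S → Cf d T}
    {ψ : Cf d T → Cf d S} (hφ : Measurable φ) (hψ : Measurable ψ) (hm : μ.map φ = μ')
    (hi : ∀ᵐ x ∂μ, ψ (φ x) = x) : μ'.map ψ = μ := by
  rw [← hm, Measure.map_map hψ hφ, Measure.map_congr (f := ψ ∘ φ) (g := id) hi,
    Measure.map_id]

theorem ae_inv_eq [StandardBorelSpace T] {μ : Measure (Cf d S)} {μ' : Measure (Cf d T)}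
    {φ : Cf d S → Cf d T} {ψ : Cf d T → Cf d S} (hφ : Measurable φ) (hψ : Measurable ψ)
    (hm : μ.map φ = μ') (hi : ∀ᵐ x ∂μ, ψ (φ x) = x) : ∀ᵐ y ∂μ', φ (ψ y) = y := by
  rw [← hm]
  refine (ae_map_iff hφ.aemeasurable (measurableSet_eq_fun (hφ.comp hψ) measurable_id)).2 ?_
  filter_upwards [hi] with x hx
  exact congrArg φ hx

theorem FinIso.symm [StandardBorelSpace T] {μ : Measure (Cf d S)} {μ' : Measure (Cf d T)}
    (h : FinIso μ μ') : FinIso μ' μ := by
  obtain ⟨φ, ψ, hφ, hψ, hm, hi⟩ := h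
  exact ⟨ψ, φ, hψ, hφ, map_inv_eq hφ.meas hψ.meas hm hi, ae_inv_eq hφ.meas hψ.meas hm hi⟩

theorem FinMap.comp {μ : Measure (Cf d S)} {μ' : Measure (Cf d T)} (hμ : Stat μ)
    {φ : Cf d S → Cf d T} {φ' : Cf d T → Cf d U} (h : FinMap μ φ) (h' : FinMap μ' φ')
    (hm : μ.map φ = μ') : FinMap μ (fun x => φ' (φ x)) := by
  refine ⟨h'.meas.comp h.meas, fun a x => by rw [h.equiv, h'.equiv], ?_⟩
  filter_upwards [h.tendsto hμ, ae_of_ae_map h.meas.aemeasurable (hm ▸ h'.lc)] with x h1 h2
  exact h2.comp h1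

theorem FinIso.trans {μ : Measure (Cf d S)} {μ' : Measure (Cf d T)} {μ'' : Measure (Cf d U)}
    (hμ : Stat μ) (hμ'' : Stat μ'') [StandardBorelSpace T] [StandardBorelSpace U]
    (h : FinIso μ μ') (h' : FinIso μ' μ'') : FinIso μ μ'' := by
  obtain ⟨φ, ψ, hφ, hψ, hm, hi⟩ := h
  obtain ⟨φ', ψ', hφ', hψ', hm', hi'⟩ := h'
  refine ⟨fun x => φ' (φ x), fun z => ψ (ψ' z), hφ.comp hμ hφ' hm,
    hψ'.comp hμ'' hψ (map_inv_eq hφ'.meas hψ'.meas hm' hi'), ?_, ?_⟩
  · rw [← hm', ← hm, Measure.map_map hφ'.meas hφ.meas]; rfl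
  · filter_upwards [hi, ae_of_ae_map hφ.meas.aemeasurable (hm ▸ hi')] with x h1 h2
    rw [h2, h1]

theorem measurable_site {f : S → T} (hf : Measurable f) :
    Measurable fun (x : Cf d S) (v : V d) => f (x v) :=
  measurable_pi_lambda _ fun v => hf.comp (measurable_pi_apply v)

theorem finMap_site (μ : Measure (Cf d S)) {f : S → T} (hf : Measurable f) :
    FinMap μ fun x v => f (x v) :=
  ⟨measurable_site hf, fun _ _ => rfl, Eventually.of_forall fun x => (lc_apply 0 x).post f⟩

theorem finIso_site {μ : Measure (Cf d S)} (hμ : Stat μ) {f : S → T} {g : T → S}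
    (hf : Measurable f) (hg : Measurable g) (h : ∀ᵐ x ∂μ, g (f (x 0)) = x 0) :
    FinIso μ (μ.map fun x v => f (x v)) := by
  refine ⟨fun x v => f (x v), fun y v => g (y v), finMap_site _ hf, finMap_site _ hg, rfl, ?_⟩
  filter_upwards [hμ.ae_sh h] with x hx
  funext v
  simpa using hx v

theorem finMap_ver [Countable S] [MeasurableSingletonClass S] {μ : Measure (Cf d S)}
    {f : Cf d S → T} (c : T) (hf : ∀ᵐ x ∂μ, LC f x) :
    FinMap μ fun x v => ver f c (sh v x) := by
  refine ⟨measurable_pi_lambda _ fun v => (measurable_ver f c).comp (measurable_sh v),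
    fun a x => ?_, ?_⟩
  · funext v; simp [sh_sh]
  · filter_upwards [hf] with x hx
    simpa using hx.ver (c := c)

theorem finIso_of_lc [Countable S] [MeasurableSingletonClass S] [Countable T]
    [MeasurableSingletonClass T] {μ : Measure (Cf d S)} {μ' : Measure (Cf d T)}
    [IsProbabilityMeasure μ] (hμ : Stat μ) (hμ' : Stat μ') (f : Cf d S → T) (g : Cf d T → S)
    (hf : ∀ᵐ x ∂μ, LC f x) (hg : ∀ᵐ y ∂μ', LC g y)
    (hlaw : μ.map (fun x v => f (sh v x)) = μ')
    (hinv : ∀ᵐ x ∂μ, g (fun v => f (sh v x)) = x 0) : FinIso μ μ' := by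
  obtain ⟨x₀⟩ := nonempty_of_isProbabilityMeasure μ
  have h1 := finMap_ver (f x₀) hf
  have h2 : ∀ᵐ x ∂μ, (fun v => ver f (f x₀) (sh v x)) = fun v => f (sh v x) := by
    filter_upwards [hμ.ae_sh hf] with x hx
    funext v; exact ver_eq (hx v)
  have h3 : μ.map (fun x v => ver f (f x₀) (sh v x)) = μ' := by
    rw [← hlaw]; exact Measure.map_congr h2
  refine ⟨_, _, h1, finMap_ver (x₀ 0) hg, h3, ?_⟩
  filter_upwards [h2, hμ.ae_sh hinv, ae_of_ae_map h1.meas.aemeasurable (h3 ▸ hμ'.ae_sh hg)]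
    with x a1 a2 a3
  funext v
  rw [ver_eq (a3 v), a1]
  have := a2 v
  simp only [sh_sh, sh_apply, zero_add] at this
  exact this

theorem ext_of_restrict {μ μ' : Measure (Cf d S)} [IsProbabilityMeasure μ]
    [IsProbabilityMeasure μ'] (h : ∀ I : Finset (V d), μ.map I.restrict = μ'.map I.restrict) :
    μ = μ' :=
  IsProjectiveLimit.unique (P := fun I => μ'.map I.restrict) h fun _ => rfl

/-- two laws on a countable alphabet are equal if one dominates the other on cylinders -/
theorem ext_of_cyl_le [Countable S] [MeasurableSingletonClass S] {μ μ' : Measure (Cf d S)}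
    [IsProbabilityMeasure μ] [IsProbabilityMeasure μ']
    (h : ∀ (r : ℕ) (x : Cf d S), μ {y | ∀ v ∈ ball d r, y v = x v} ≤
      μ' {y | ∀ v ∈ ball d r, y v = x v}) : μ = μ' := by
  obtain ⟨x₀⟩ := nonempty_of_isProbabilityMeasure μ
  have key : ∀ r, μ.map (ball d r).restrict = μ'.map (ball d r).restrict := by
    intro r
    have hm : Measurable (Finset.restrict (π := fun _ => S) (ball d r)) :=
      Finset.measurable_restrict _
    have := Measure.isProbabilityMeasure_map (μ := μ) hm.aemeasurable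
    have := Measure.isProbabilityMeasure_map (μ := μ') hm.aemeasurable
    apply Measure.eq_of_le_of_isProbabilityMeasure
    rw [← Measure.sum_smul_dirac (μ.map (ball d r).restrict),
      ← Measure.sum_smul_dirac (μ'.map (ball d r).restrict), Measure.le_iff]
    intro s hs
    rw [Measure.sum_apply _ hs, Measure.sum_apply _ hs]
    refine ENNReal.tsum_le_tsum fun t => ?_
    simp only [Measure.smul_apply, smul_eq_mul]
    refine mul_le_mul_left ?_ _
    rw [Measure.map_apply hm (measurableSet_singleton t),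
      Measure.map_apply hm (measurableSet_singleton t)]
    have e : Finset.restrict (π := fun _ => S) (ball d r) ⁻¹' {t} =
        {y : Cf d S | ∀ v ∈ ball d r,
        y v = (fun v => if hv : v ∈ ball d r then t ⟨v, hv⟩ else x₀ v) v} := by
      ext y
      simp only [mem_preimage, mem_singleton_iff, mem_ofPred_eq, funext_iff, Finset.restrict,
        Subtype.forall]
      refine forall_congr' fun v => forall_congr' fun hv => ?_
      rw [dif_pos hv]
    rw [e]; exact h r _
  refine ext_of_restrict fun I => ?_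
  obtain ⟨r, hr⟩ := exists_subset_ball I
  rw [← Finset.restrict₂_comp_restrict hr,
    ← Measure.map_map (Finset.measurable_restrict₂ hr) (Finset.measurable_restrict _),
    ← Measure.map_map (Finset.measurable_restrict₂ hr) (Finset.measurable_restrict _), key]

theorem Stat.site {μ : Measure (Cf d S)} (hμ : Stat μ) {f : S → T} (hf : Measurable f) :
    Stat (μ.map fun x v => f (x v)) := by
  intro a
  conv_rhs => rw [← hμ a]
  rw [Measure.map_map (measurable_sh a) (measurable_site hf),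
    Measure.map_map (measurable_site hf) (measurable_sh a)]
  rfl

theorem measurable_zipF : Measurable (zipF : Cf d S × Cf d T → Cf d (S × T)) :=
  measurable_pi_lambda _ fun v => ((measurable_pi_apply v).comp measurable_fst).prodMk
    ((measurable_pi_apply v).comp measurable_snd)

instance {μ : Measure (Cf d S)} {μ' : Measure (Cf d T)} [IsProbabilityMeasure μ]
    [IsProbabilityMeasure μ'] : IsProbabilityMeasure (zip μ μ') :=
  Measure.isProbabilityMeasure_map measurable_zipF.aemeasurable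

instance {ν : Measure T} [IsProbabilityMeasure ν] : IsProbabilityMeasure (iid d ν) := by
  unfold iid; infer_instance

theorem Stat.zip {μ : Measure (Cf d S)} {μ' : Measure (Cf d T)} [IsProbabilityMeasure μ]
    [IsProbabilityMeasure μ'] (h : Stat μ) (h' : Stat μ') : Stat (zip μ μ') := by
  intro a
  unfold Pool.Agent.P.MP_1a5a6a_pr.zip
  conv_rhs => rw [← h a, ← h' a]
  rw [Measure.map_prod_map _ _ (measurable_sh a) (measurable_sh a),
    Measure.map_map (measurable_sh a) measurable_zipF,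
    Measure.map_map measurable_zipF ((measurable_sh a).prodMap (measurable_sh a))]
  rfl

theorem stat_iid (ν : Measure T) [IsProbabilityMeasure ν] : Stat (iid d ν) := by
  intro a
  have := Measure.infinitePi_map_piCongrLeft (X := fun _ : V d => T) (fun _ => ν)
    (Equiv.subRight a)
  unfold iid
  convert this using 2
  funext x v
  have := MeasurableEquiv.piCongrLeft_apply_apply (β := fun _ : V d => T) (Equiv.subRight a) x
    (v + a)
  simpa using this.symm

theorem iid_apply_zero (ν : Measure T) [IsProbabilityMeasure ν] :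
    (iid d ν).map (fun x => x 0) = ν :=
  Measure.infinitePi_map_eval (fun _ : V d => ν) 0

theorem zip_map_fst (μ : Measure (Cf d S)) (μ' : Measure (Cf d T)) [IsProbabilityMeasure μ]
    [IsProbabilityMeasure μ'] : (zip μ μ').map (fun x v => (x v).1) = μ := by
  rw [zip, Measure.map_map (measurable_site measurable_fst) measurable_zipF]
  exact (measurePreserving_fst (μ := μ) (ν := μ')).map_eq

theorem zip_map_snd (μ : Measure (Cf d S)) (μ' : Measure (Cf d T)) [IsProbabilityMeasure μ]
    [IsProbabilityMeasure μ'] : (zip μ μ').map (fun x v => (x v).2) = μ' := by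
  rw [zip, Measure.map_map (measurable_site measurable_snd) measurable_zipF]
  exact (measurePreserving_snd (μ := μ) (ν := μ')).map_eq

/-- rectangles, for measurable sets -/
theorem zip_rect (μ : Measure (Cf d S)) (μ' : Measure (Cf d T)) [IsProbabilityMeasure μ]
    [IsProbabilityMeasure μ'] {A : Set (Cf d S)} {B : Set (Cf d T)} (hA : MeasurableSet A)
    (hB : MeasurableSet B) :
    zip μ μ' {x | (fun v => (x v).1) ∈ A ∧ (fun v => (x v).2) ∈ B} = μ A * μ' B := by
  rw [← Measure.prod_prod]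
  exact Measure.map_apply measurable_zipF
    ((measurable_site measurable_fst hA).inter (measurable_site measurable_snd hB))

theorem zip_iid (ν : Measure S) (ν' : Measure T) [IsProbabilityMeasure ν]
    [IsProbabilityMeasure ν'] : zip (iid d ν) (iid d ν') = iid d (ν.prod ν') := by
  refine ext_of_restrict fun I => ?_
  have h1 := (measurePreserving_arrowProdEquivProdArrow S T I (fun _ => ν) (fun _ => ν')).symm
  have hr : ∀ (W : Type) [MeasurableSpace W],
      Measurable (Finset.restrict (π := fun _ => W) I) := fun _ _ => Finset.measurable_restrict _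
  unfold iid
  rw [Measure.infinitePi_map_restrict, ← h1.map_eq,
    ← Measure.infinitePi_map_restrict (fun _ : V d => ν),
    ← Measure.infinitePi_map_restrict (fun _ : V d => ν'),
    Measure.map_prod_map _ _ (hr S) (hr T),
    Measure.map_map h1.measurable ((hr S).prodMap (hr T)), zip,
    Measure.map_map (hr _) measurable_zipF]
  rfl

theorem finIso_zip_swap {μ : Measure (Cf d S)} {μ' : Measure (Cf d T)} [IsProbabilityMeasure μ]
    [IsProbabilityMeasure μ'] (h : Stat μ) (h' : Stat μ') : FinIso (zip μ μ') (zip μ' μ) := by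
  have h1 := finIso_site (h.zip h') (f := Prod.swap) (g := Prod.swap) measurable_swap
    measurable_swap (Eventually.of_forall fun _ => rfl)
  have h2 : (zip μ μ').map (fun x v => Prod.swap (x v)) = zip μ' μ := by
    rw [zip, zip, ← Measure.prod_swap (μ := μ) (ν := μ'),
      Measure.map_map measurable_zipF measurable_swap,
      Measure.map_map (measurable_site measurable_swap) measurable_zipF]
    rfl
  rwa [h2] at h1

theorem FinIso.final [StandardBorelSpace S] [StandardBorelSpace T] {μ : Measure (Cf d S)}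
    {ν : Measure T} [IsProbabilityMeasure μ] [IsProbabilityMeasure ν] (h : FinIso (iid d ν) μ) :
    ∃ (φ : ((Fin d → ℤ) → T) → ((Fin d → ℤ) → S))
      (ψ : ((Fin d → ℤ) → S) → ((Fin d → ℤ) → T))
      (A : Set ((Fin d → ℤ) → T)) (B : Set ((Fin d → ℤ) → S)),
      MeasurableSet A ∧ MeasurableSet B ∧
      (∀ a : Fin d → ℤ, ∀ y ∈ A, (fun v => y (v + a)) ∈ A) ∧
      (∀ a : Fin d → ℤ, ∀ x ∈ B, (fun v => x (v + a)) ∈ B) ∧
      (∀ᵐ y ∂(Measure.infinitePi (fun _ : Fin d → ℤ => ν)), y ∈ A) ∧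
      (∀ᵐ x ∂μ, x ∈ B) ∧
      Measurable φ ∧ Measurable ψ ∧
      (∀ y ∈ A, φ y ∈ B) ∧ (∀ x ∈ B, ψ x ∈ A) ∧
      (∀ y ∈ A, ψ (φ y) = y) ∧ (∀ x ∈ B, φ (ψ x) = x) ∧
      (∀ a : Fin d → ℤ, ∀ y ∈ A, φ (fun v => y (v + a)) = fun v => φ y (v + a)) ∧
      (∀ a : Fin d → ℤ, ∀ x ∈ B, ψ (fun v => x (v + a)) = fun v => ψ x (v + a)) ∧
      (Measure.infinitePi (fun _ : Fin d → ℤ => ν)).map φ = μ ∧
      μ.map ψ = Measure.infinitePi (fun _ : Fin d → ℤ => ν) ∧
      (∀ᵐ y ∂(Measure.infinitePi (fun _ : Fin d → ℤ => ν)), ∃ r : ℕ, ∀ y' ∈ A,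
          (∀ v : Fin d → ℤ, ‖v‖ ≤ (r : ℝ) → y' v = y v) → φ y' 0 = φ y 0) ∧
      (∀ᵐ x ∂μ, ∃ r : ℕ, ∀ x' ∈ B,
          (∀ v : Fin d → ℤ, ‖v‖ ≤ (r : ℝ) → x' v = x v) → ψ x' 0 = ψ x 0) := by
  obtain ⟨φ, ψ, hφ, hψ, hm, hi⟩ := h
  refine ⟨φ, ψ, {y | ψ (φ y) = y}, {x | φ (ψ x) = x},
    measurableSet_eq_fun (hψ.meas.comp hφ.meas) measurable_id,
    measurableSet_eq_fun (hφ.meas.comp hψ.meas) measurable_id,
    fun a y hy => ?_, fun a x hx => ?_, hi, ae_inv_eq hφ.meas hψ.meas hm hi, hφ.meas, hψ.meas,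
    fun y hy => congrArg φ hy, fun x hx => congrArg ψ hx, fun _ hy => hy, fun _ hx => hx,
    fun a y _ => hφ.equiv a y, fun a x _ => hψ.equiv a x, hm,
    map_inv_eq hφ.meas hψ.meas hm hi, ?_, ?_⟩
  · change ψ (φ (sh a y)) = sh a y
    rw [hφ.equiv, hψ.equiv, hy]
  · change φ (ψ (sh a x)) = sh a x
    rw [hψ.equiv, hφ.equiv, hx]
  · filter_upwards [hφ.lc] with y hy
    obtain ⟨r, hr⟩ := eventually_nb_ball.1 hy
    exact ⟨r, fun y' _ h => hr y' fun v hv => h v (mem_ball_norm.1 hv)⟩
  · filter_upwards [hψ.lc] with x hx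
    obtain ⟨r, hr⟩ := eventually_nb_ball.1 hx
    exact ⟨r, fun x' _ h => hr x' fun v hv => h v (mem_ball_norm.1 hv)⟩
end ISO

end Pool.Agent.P.MP_1a5a6a_pr
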