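import Pool.Agent.P.MP_1a5a6a_pr.FI.Cells
import Pool.Agent.P.MP_1a5a6a_pr.FI.Iso

set_option autoImplicit false
set_option linter.unusedSectionVars false
open MeasureTheory ProbabilityTheory Filter Set
open scoped ENNReal Classical

namespace Pool.Agent.P.MP_1a5a6a_pr

variable {d : ℕ}

namespace Asm

/-! ### choosing the value at the least index -/

/-- the value at the least index at which one exists -/
noncomputable def pick {β : Type} [Nonempty β] (p : ℕ → β → Prop) : β :=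
  Classical.epsilon (p (sInf {t | ∃ c, p t c}))

theorem pick_spec {β : Type} [Nonempty β] {p : ℕ → β → Prop} {t : ℕ} (h : ∃ c, p t c) :
    ∃ t' ≤ t, p t' (pick p) := by
  have hne : {t | ∃ c, p t c}.Nonempty := ⟨t, h⟩
  exact ⟨_, Nat.sInf_le (s := {t | ∃ c, p t c}) h, Classical.epsilon_spec (Nat.sInf_mem hne)⟩

theorem pick_congr {β : Type} [Nonempty β] {p p' : ℕ → β → Prop} {t : ℕ} (h : ∃ c, p t c)
    (h' : ∀ t' ≤ t, p' t' = p t') : pick p' = pick p := by
  have hne : {t | ∃ c, p t c}.Nonempty := ⟨t, h⟩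
  have h1 : sInf {t | ∃ c, p t c} ≤ t := Nat.sInf_le (s := {t | ∃ c, p t c}) h
  have h2 : ∃ c, p' t c := by rw [h' t le_rfl]; exact h
  have hne' : {t | ∃ c, p' t c}.Nonempty := ⟨t, h2⟩
  have h3 : sInf {t | ∃ c, p' t c} ≤ t := Nat.sInf_le (s := {t | ∃ c, p' t c}) h2
  have h4 : sInf {t | ∃ c, p' t c} = sInf {t | ∃ c, p t c} := by
    apply le_antisymm
    · refine Nat.sInf_le (s := {t | ∃ c, p' t c}) ?_
      have := Nat.sInf_mem hne
      simp only [mem_setOf_eq] at this ⊢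
      rw [h' _ h1]; exact this
    · refine Nat.sInf_le (s := {t | ∃ c, p t c}) ?_
      have := Nat.sInf_mem hne'
      simp only [mem_setOf_eq] at this ⊢
      rw [← h' _ h3]; exact this
  unfold pick
  rw [h4, h' _ h1]

/-! ### couplings given by a density -/
section cpl
variable {X Y : Type} [MeasurableSpace X] [MeasurableSpace Y] {κ : Measure X} {κ' : Measure Y}
  [IsProbabilityMeasure κ] [IsProbabilityMeasure κ']

theorem coupled_le {D : X → Y → ℝ≥0∞} (hD : Coupled κ κ' D)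
    (hm : Measurable (Function.uncurry D)) {A : Set X} {B : Set Y} (hB : MeasurableSet B)
    (h : ∀ x ∈ A, ∀ y, D x y ≠ 0 → y ∈ B) : κ A ≤ κ' B := by
  have hG : Measurable (Function.uncurry fun x y => B.indicator (D x) y) := by
    have : (Function.uncurry fun x y => B.indicator (D x) y) =
        (Prod.snd ⁻¹' B).indicator (Function.uncurry D) := by
      funext p; by_cases hp : p.2 ∈ B <;> simp [Function.uncurry, indicator_apply, hp]
    rw [this]
    exact hm.indicator (measurable_snd hB)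
  have h1 : κ A ≤ κ {x | 1 ≤ ∫⁻ y, B.indicator (D x) y ∂κ'} := by
    refine measure_mono_ae (hD.1.mono fun x hx hA => ?_)
    have : B.indicator (D x) = D x := by
      funext y
      by_cases hy : y ∈ B
      · simp [hy]
      · rw [indicator_of_notMem hy]
        by_contra hne
        exact hy (h x hA y (Ne.symm hne))
    change 1 ≤ ∫⁻ y, B.indicator (D x) y ∂κ'
    rw [this, hx]
  have h2 := mul_meas_ge_le_lintegral₀ (μ := κ)
    (hG.lintegral_prod_right (ν := κ')).aemeasurable 1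
  rw [one_mul] at h2
  refine h1.trans (h2.trans ?_)
  rw [lintegral_lintegral_swap hG.aemeasurable, ← lintegral_indicator_one hB]
  refine (lintegral_congr_ae (hD.2.mono fun y hy => ?_)).le
  by_cases hyB : y ∈ B <;> simp [hyB, hy]

theorem coupled_partner {D : X → Y → ℝ≥0∞} (hD : Coupled κ κ' D) :
    ∀ᵐ x ∂κ, ∃ y, D x y ≠ 0 := by
  refine hD.1.mono fun x hx => ?_
  by_contra hne
  push Not at hne
  simp [hne] at hx

theorem measurable_uncurry {S S' : Type} [MeasurableSpace S] [Countable S]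
    [MeasurableSingletonClass S] [MeasurableSpace S'] [Countable S']
    [MeasurableSingletonClass S'] {D : Cf d S → Cf d S' → ℝ≥0∞} {I J : Finset (V d)}
    (h : ∀ x x' y y', agree I x x' → agree J y y' → D x y = D x' y') :
    Measurable (Function.uncurry D) := by
  have h1 : Measurable fun w : Cf d (S × S') => D (fun v => (w v).1) (fun v => (w v).2) :=
    measurable_of_dependsOn (I := I ∪ J) fun w w' hw =>
      h _ _ _ _ (fun v hv => congrArg Prod.fst (hw v (by simp [hv])))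
        (fun v hv => congrArg Prod.snd (hw v (by simp [hv])))
  exact h1.comp (measurable_zipF (d := d) (S := S) (T := S'))
end cpl

variable {E : Env d} {S S' : Type} [MeasurableSpace S] [Countable S] [MeasurableSingletonClass S]
  [MeasurableSpace S'] [Countable S'] [MeasurableSingletonClass S']

/-! ### conditioning on the markers, countable alphabet -/

theorem lc_comp (s : Side E S) (n : ℕ) {β : Type} {Q : Mk d → Cf d S → β}
    (h : ∀ᵐ m ∂E.ρ, LC Q m ∧ DependsOn (Q m) (s.R n m)) :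
    ∀ᵐ x ∂s.P, LC (fun x => Q (s.M x) x) x := by
  filter_upwards [s.ae_M h, s.lcM] with x hx hM
  exact LC.bind (f := fun x => Q (s.M x)) (g := fun q x => q x) (hx.1.comp hM)
    (lc_of_dependsOn hx.2 x)

theorem den_cond (s : Side E S) (n : ℕ) (Q : Mk d → Cf d S → V d → Prop)
    (h : ∀ᵐ m ∂E.ρ, LC Q m ∧ DependsOn (Q m) (s.R n m)) :
    s.den n Q = ∫⁻ m, (if E.root n m then ∑ v ∈ E.C n m, s.κ n m {x | Q m x v} else 0) ∂E.ρ := by
  have h1 := s.cond n (fun m x => if E.root n m then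
    (((E.C n m).filter (Q m x)).card : ℝ≥0∞) else 0) ?_
  · unfold Side.den
    rw [h1]
    refine lintegral_congr_ae (h.mono fun m hm => ?_)
    simp only
    by_cases hr : E.root n m
    · simp only [hr, if_true]
      have h2 : ∀ v, MeasurableSet {x | Q m x v} := fun v =>
        (measurable_of_dependsOn (f := fun x => Q m x v)
          (fun x y hxy => congrFun (hm.2 hxy) v)).setOf
      have h3 : ∀ x, (((E.C n m).filter (Q m x)).card : ℝ≥0∞) =
          ∑ v ∈ E.C n m, {x | Q m x v}.indicator 1 x := fun x => by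
        simp [indicator_apply]
      simp only [h3]
      rw [lintegral_finset_sum _ fun v _ => measurable_one.indicator (h2 v)]
      exact Finset.sum_congr rfl fun v _ => lintegral_indicator_one (h2 v)
    · simp [hr]
  · filter_upwards [h, E.ae_good] with m hm hg
    have hd : DependsOn (fun x => if E.root n m then
        (((E.C n m).filter (Q m x)).card : ℝ≥0∞) else 0) (s.R n m) := fun x y hxy => by
      simp only [hm.2 hxy]
    refine ⟨?_, measurable_of_dependsOn hd, hd⟩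
    exact (((hg.lc_root n).pair (hg.lc n)).pair hm.1).post
      fun p x => if p.1.1 then ((p.1.2.filter (p.2 x)).card : ℝ≥0∞) else 0

theorem den_eq' (s : Side E S) (n : ℕ) (Q : Mk d → Cf d S → V d → Prop)
    (h : ∀ᵐ m ∂E.ρ, LC Q m ∧ DependsOn (Q m) (s.R n m)) :
    s.den n Q = s.P {x | Q (sh (E.rt n (s.M x)) (s.M x)) (sh (E.rt n (s.M x)) x)
      (-E.rt n (s.M x))} :=
  s.den_eq n Q fun v =>
    nullMeasurableSet_of_lc ((lc_comp s n h).mono fun _ hx => hx.post fun q => q v)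

theorem ae_cond' (s : Side E S) (n : ℕ) (Q : Mk d → Cf d S → Prop)
    (h : ∀ᵐ m ∂E.ρ, LC Q m ∧ DependsOn (Q m) (s.R n m) ∧ ∀ᵐ x ∂(s.κ n m), Q m x) :
    ∀ᵐ x ∂s.P, Q (s.M x) x := by
  have h1 := s.cond n (fun m x => if Q m x then 0 else 1) ?_
  · have h2 : ∫⁻ m, ∫⁻ x, (if Q m x then (0 : ℝ≥0∞) else 1) ∂(s.κ n m) ∂E.ρ = 0 := by
      rw [lintegral_congr_ae (g := fun _ => 0), lintegral_zero]
      refine h.mono fun m hm => ?_
      simp only
      rw [lintegral_congr_ae (g := fun _ => 0), lintegral_zero]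
      exact hm.2.2.mono fun x hx => by simp [hx]
    rw [h2, lintegral_eq_zero_iff'] at h1
    · exact h1.mono fun x hx => by
        by_contra hq
        simp [hq] at hx
    · exact aemeasurable_of_lc ((lc_comp s n (h.mono fun m hm => ⟨hm.1, hm.2.1⟩)).mono
        fun x hx => hx.post fun q => if q then (0 : ℝ≥0∞) else 1)
  · filter_upwards [h] with m hm
    have hd : DependsOn (fun x => if Q m x then (0 : ℝ≥0∞) else 1) (s.R n m) :=
      fun x y hxy => by simp only [hm.2.1 hxy]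
    exact ⟨hm.1.post fun q x => if q x then (0 : ℝ≥0∞) else 1, measurable_of_dependsOn hd, hd⟩

/-! ### the relation read off a coupling -/

/-- `x` and `y` are partners in the level `n` cell of the origin -/
def Rl (E : Env d) (n : ℕ) (D : Mk d → Cf d S → Cf d S' → ℝ≥0∞) (m : Mk d) (x : Cf d S)
    (y : Cf d S') : Prop :=
  D (sh (E.rt n m) m) (sh (E.rt n m) x) (sh (E.rt n m) y) ≠ 0

/-- regular marker configurations -/
structure Reg (s : Side E S) (s' : Side E S') (n : ℕ → ℕ)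
    (D : ℕ → Mk d → Cf d S → Cf d S' → ℝ≥0∞) (m : Mk d) : Prop where
  good : E.Good m
  lc : ∀ t z, LC (D t) (sh z m)
  sat : ∀ t z x x' y y', s.full (n t) (sh z m) x x' → s'.full (n t) (sh z m) y y' →
    D t (sh z m) x y = D t (sh z m) x' y'
  nest : ∀ t z x y, D (t + 1) (sh z m) x y ≠ 0 → ∀ w ∈ E.ch (n t) (n (t + 1)) (sh z m),
    D t (sh w (sh z m)) (sh w x) (sh w y) ≠ 0

variable {s : Side E S} {s' : Side E S'} {n : ℕ → ℕ} {D : ℕ → Mk d → Cf d S → Cf d S' → ℝ≥0∞}

theorem ae_reg (hC : ∀ t, Cpl s s' (n t) (D t))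
    (hN : ∀ t, Nested E (n t) (n (t + 1)) (D t) (D (t + 1))) : ∀ᵐ m ∂E.ρ, Reg s s' n D m := by
  filter_upwards [E.ae_good, E.ae_sh (ae_all_iff.2 hC), E.ae_sh (ae_all_iff.2 hN)] with m h1 h2 h3
  exact ⟨h1, fun t z => (h2 z t).1, fun t z => (h2 z t).2.1, fun t z => h3 z t⟩

theorem Reg.shift {m : Mk d} (h : Reg s s' n D m) (a : V d) : Reg s s' n D (sh a m) := by
  refine ⟨h.good.shift a, fun t z => ?_, fun t z => ?_, fun t z => ?_⟩
  · rw [sh_sh]; exact h.lc t _
  · rw [sh_sh]; exact h.sat t _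
  · rw [sh_sh]; exact h.nest t _

theorem Rl_sh {m : Mk d} (h : E.Good m) {k : ℕ} {D : Mk d → Cf d S → Cf d S' → ℝ≥0∞} {v : V d}
    (hv : v ∈ E.C k m) (x : Cf d S) (y : Cf d S') :
    Rl E k D (sh v m) (sh v x) (sh v y) ↔ Rl E k D m x y := by
  simp only [Rl, h.rt_sh hv, sh_sh, sub_add_cancel]

theorem Reg.step (hn : StrictMono n) {m : Mk d} (h : Reg s s' n D m) {t : ℕ} {x : Cf d S}
    {y : Cf d S'} (hr : Rl E (n (t + 1)) (D (t + 1)) m x y) : Rl E (n t) (D t) m x y := by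
  have hle : n t ≤ n (t + 1) := hn.monotone (Nat.le_succ t)
  have h1 := h.nest t _ _ _ hr (E.rt (n t) m - E.rt (n (t + 1)) m) ?_
  · simpa only [Rl, sh_sh, sub_add_cancel] using h1
  · refine Env.Good.mem_ch.2 ⟨?_, ?_⟩
    · rw [h.good.inv (h.good.rt_mem _), sub_add_cancel]
      exact h.good.mono hle (h.good.rt_mem _)
    · rw [sh_sh, sub_add_cancel]; exact h.good.root_rt _

theorem Reg.mono (hn : StrictMono n) {m : Mk d} (h : Reg s s' n D m) {t t' : ℕ} (ht : t ≤ t')
    {x : Cf d S} {y : Cf d S'} (hr : Rl E (n t') (D t') m x y) : Rl E (n t) (D t) m x y := by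
  induction ht with
  | refl => exact hr
  | step _ ih => exact ih (h.step hn hr)

theorem Reg.congr {m : Mk d} (h : Reg s s' n D m) {t : ℕ} {x x' : Cf d S} {y y' : Cf d S'}
    (hx : ∀ v ∈ s.R (n t) m, x v = x' v) (hy : ∀ v ∈ s'.R (n t) m, y v = y' v) :
    Rl E (n t) (D t) m x y ↔ Rl E (n t) (D t) m x' y' := by
  unfold Rl
  rw [h.sat t _ _ (sh (E.rt (n t) m) x') _ (sh (E.rt (n t) m) y')]
  · intro w hw
    exact hx _ ((h.good.inn_inv (h.good.rt_mem _) w).1 hw)
  · intro w hw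
    exact hy _ ((h.good.inn_inv (h.good.rt_mem _) w).1 hw)

theorem Reg.lc_Rl {m : Mk d} (h : Reg s s' n D m) (t : ℕ) : LC (Rl E (n t) (D t)) m := by
  have h1 : LC (fun m' => (E.rt (n t) m', D t (sh (E.rt (n t) m') m'))) m :=
    (h.good.lc_rt _).pair (LC.bind (f := E.rt (n t)) (g := fun z m' => D t (sh z m'))
      (h.good.lc_rt _) (h.lc t _).comp_sh)
  exact h1.post fun p x y => p.2 (sh p.1 x) (sh p.1 y) ≠ 0

theorem Reg.lc0 {m : Mk d} (h : Reg s s' n D m) (t : ℕ) : LC (D t) m := by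
  simpa using h.lc t 0

theorem Reg.sat0 {m : Mk d} (h : Reg s s' n D m) (t : ℕ) {x x' : Cf d S} {y y' : Cf d S'}
    (hx : ∀ v ∈ s.R (n t) m, x v = x' v) (hy : ∀ v ∈ s'.R (n t) m, y v = y' v) :
    D t m x y = D t m x' y' := by
  have := h.sat t 0 x x' y y'
  rw [sh_zero] at this
  exact this hx hy

theorem Reg.dep {m : Mk d} (h : Reg s s' n D m) (t : ℕ) : DependsOn (D t m) (s.R (n t) m) :=
  fun _ _ hxy => funext fun _ => h.sat0 t hxy fun _ _ => rfl

theorem ae_partner (hC : ∀ t, Cpl s s' (n t) (D t))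
    (hN : ∀ t, Nested E (n t) (n (t + 1)) (D t) (D (t + 1))) :
    ∀ᵐ x ∂s.P, ∀ t, ∃ y, Rl E (n t) (D t) (s.M x) x y := by
  rw [ae_all_iff]
  intro t
  have h1 := ae_cond' s (n t) (fun m x => ∃ y, D t m x y ≠ 0) ?_
  · filter_upwards [s.stat.ae_sh h1] with x hx
    obtain ⟨y, hy⟩ := hx (E.rt (n t) (s.M x))
    refine ⟨sh (-E.rt (n t) (s.M x)) y, ?_⟩
    rw [s.equiv] at hy
    simpa only [Rl, sh_sh_neg] using hy
  · filter_upwards [ae_reg hC hN, hC t] with m hm hc
    refine ⟨(hm.lc0 t).post fun q x => ∃ y, q x y ≠ 0, fun x x' hx => ?_, coupled_partner hc.2.2⟩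
    simp only [hm.dep t hx]

/-- the partner is determined at the origin -/
def DetS (E : Env d) (n : ℕ) (D : Mk d → Cf d S → Cf d S' → ℝ≥0∞) (m : Mk d) (x : Cf d S)
    (c : S') : Prop := ∀ y, Rl E n D m x y → y 0 = c

theorem det_iff (k : ℕ) (D : Mk d → Cf d S → Cf d S' → ℝ≥0∞) (m : Mk d) (x : Cf d S) :
    Det D (sh (E.rt k m) m) (sh (E.rt k m) x) (-E.rt k m) ↔ ∃ c, DetS E k D m x c := by
  refine exists_congr fun c => ⟨fun h y hy => ?_, fun h y hy => ?_⟩
  · simpa using h _ hy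
  · have := h (sh (-E.rt k m) y) (by simpa only [Rl, sh_sh_neg] using hy)
    simpa using this

theorem ae_det (hC : ∀ t, Cpl s s' (n t) (D t))
    (hN : ∀ t, Nested E (n t) (n (t + 1)) (D t) (D (t + 1)))
    (hX : ∀ ε : ℝ≥0∞, 0 < ε → ∃ t, s.den (n t) (fun m x v => ¬ Det (D t) m x v) ≤ ε) :
    ∀ᵐ x ∂s.P, ∃ t c, DetS E (n t) (D t) (s.M x) x c := by
  rw [ae_iff]
  refine le_antisymm (ENNReal.le_of_forall_pos_le_add fun ε hε _ => ?_) zero_le
  obtain ⟨t, ht⟩ := hX ε (by exact_mod_cast hε)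
  rw [den_eq'] at ht
  · rw [zero_add]
    refine le_trans (measure_mono fun x hx => ?_) ht
    simp only [mem_setOf_eq] at hx ⊢
    rw [det_iff]
    exact fun h => hx ⟨t, h⟩
  · filter_upwards [ae_reg hC hN] with m hm
    refine ⟨(hm.lc0 t).post fun q x v => ¬ ∃ c, ∀ y, q x y ≠ 0 → y v = c, fun x x' hx => ?_⟩
    simp only [Det, hm.dep t hx]

/-- the code -/
noncomputable def code [Nonempty S'] (s : Side E S) (n : ℕ → ℕ)
    (D : ℕ → Mk d → Cf d S → Cf d S' → ℝ≥0∞) (x : Cf d S) : S' :=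
  pick fun t c => DetS E (n t) (D t) (s.M x) x c

variable [Nonempty S']

theorem code_spec (hn : StrictMono n) {x : Cf d S} (h : Reg s s' n D (s.M x))
    (hd : ∃ t c, DetS E (n t) (D t) (s.M x) x c) :
    ∀ᶠ t in atTop, DetS E (n t) (D t) (s.M x) x (code s n D x) := by
  obtain ⟨t, ht⟩ := hd
  obtain ⟨t', -, h'⟩ := pick_spec (p := fun t c => DetS E (n t) (D t) (s.M x) x c) ht
  exact eventually_atTop.2 ⟨t', fun u hu y hy => h' y (h.mono hn hu hy)⟩

theorem lc_code {x : Cf d S} (h : Reg s s' n D (s.M x)) (hM : Tendsto s.M (nb x) (nb (s.M x)))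
    (hd : ∃ t c, DetS E (n t) (D t) (s.M x) x c) : LC (code s n D) x := by
  obtain ⟨t, ht⟩ := hd
  have h1 : ∀ u ∈ Finset.range (t + 1), LC (fun x => Rl E (n u) (D u) (s.M x) x) x :=
    fun u _ => LC.bind (f := fun x => Rl E (n u) (D u) (s.M x)) (g := fun q x => q x)
      ((h.lc_Rl u).comp hM) (lc_of_dependsOn (I := s.R (n u) (s.M x))
        (fun x x' hx => funext fun y => propext (h.congr hx fun _ _ => rfl)) x)
  refine (lc_finset _ h1).mono fun x' hx' => ?_
  refine pick_congr (p := fun t c => DetS E (n t) (D t) (s.M x) x c) ht fun u hu => ?_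
  simp only [DetS, hx' u (Finset.mem_range.2 (Nat.lt_succ_of_le hu))]

/-- eventually every partner agrees with the code on a given finite set -/
theorem code_agree (hn : StrictMono n) {x : Cf d S} (h : Reg s s' n D (s.M x))
    (hd : ∀ v, ∃ t c, DetS E (n t) (D t) (s.M (sh v x)) (sh v x) c) (F : Finset (V d)) :
    ∀ᶠ t in atTop, ∀ y, Rl E (n t) (D t) (s.M x) x y → ∀ v ∈ F, y v = code s n D (sh v x) := by
  have h1 : ∀ v ∈ F, ∀ᶠ t in atTop,
      DetS E (n t) (D t) (s.M (sh v x)) (sh v x) (code s n D (sh v x)) := fun v _ =>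
    code_spec hn (by rw [s.equiv]; exact h.shift v) (hd v)
  filter_upwards [(eventually_all_finset F).2 h1, hn.tendsto_atTop.eventually (h.good.exh F)]
    with t h2 h3 y hy v hv
  have := h2 v hv (sh v y) (by rw [s.equiv, Rl_sh h.good (h3 hv)]; exact hy)
  simpa using this

/-! ### the law of the code -/

theorem level_le (hC : ∀ t, Cpl s s' (n t) (D t))
    (hN : ∀ t, Nested E (n t) (n (t + 1)) (D t) (D (t + 1))) (t : ℕ) (F : Finset (V d))
    (a : Mk d) (b : Cf d S') :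
    s.P {x | E.Good (s.M x) ∧ (∀ v ∈ F, s.M x v = a v) ∧ F ⊆ s'.R (n t) (s.M x) ∧
        ∀ y, Rl E (n t) (D t) (s.M x) x y → ∀ v ∈ F, y v = b v} ≤
      s'.P {y | ∀ v ∈ F, s'.M y v = a v ∧ y v = b v} := by
  let Q : Mk d → Cf d S → V d → Prop := fun m x v =>
    ((∀ u ∈ F, m (u + v) = a u) ∧ (∀ u ∈ F, u + v ∈ s'.R (n t) m)) ∧
      ∀ y, D t m x y ≠ 0 → ∀ u ∈ F, y (u + v) = b u
  let Q' : Mk d → Cf d S' → V d → Prop := fun m y v =>
    ((∀ u ∈ F, m (u + v) = a u) ∧ (∀ u ∈ F, u + v ∈ s'.R (n t) m)) ∧ ∀ u ∈ F, y (u + v) = b u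
  have hlc : ∀ m, E.Good m → LC (fun m => fun v =>
      (∀ u ∈ F, m (u + v) = a u) ∧ (∀ u ∈ F, u + v ∈ s'.R (n t) m)) m := by
    intro m hm
    have h1 := eventually_eq_on m (E.C (n t) m)
    refine (h1.and (hm.lc (n t))).mono fun m' hm' => funext fun v => propext ?_
    simp only [Side.R, hm'.2]
    refine and_congr_left fun h2 => forall₂_congr fun u hu => ?_
    rw [hm'.1 _ (inn_subset (h2 u hu))]
  have hQ : ∀ᵐ m ∂E.ρ, LC Q m ∧ DependsOn (Q m) (s.R (n t) m) := by
    filter_upwards [ae_reg hC hN] with m hm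
    refine ⟨((hlc m hm.good).pair (hm.lc0 t)).post
      fun p x v => p.1 v ∧ ∀ y, p.2 x y ≠ 0 → ∀ u ∈ F, y (u + v) = b u, fun x x' hx => ?_⟩
    simp only [Q, hm.dep t hx]
  have hQ' : ∀ᵐ m ∂E.ρ, LC Q' m ∧ DependsOn (Q' m) (s'.R (n t) m) := by
    filter_upwards [E.ae_good] with m hm
    refine ⟨(hlc m hm).post fun p (y : Cf d S') v => p v ∧ ∀ u ∈ F, y (u + v) = b u,
      fun y y' hy => ?_⟩
    funext v
    refine propext (and_congr_right fun h2 => forall₂_congr fun u hu => ?_)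
    rw [hy _ (h2.2 u hu)]
  have hle : s.den (n t) Q ≤ s'.den (n t) Q' := by
    rw [den_cond s _ _ hQ, den_cond s' _ _ hQ']
    refine lintegral_mono_ae ?_
    filter_upwards [hC t, hQ'] with m hc hm
    split_ifs
    · refine Finset.sum_le_sum fun v _ => ?_
      refine coupled_le hc.2.2 (measurable_uncurry hc.2.1) ?_ fun x hx y hy => ⟨hx.1, hx.2 y hy⟩
      exact (measurable_of_dependsOn (f := fun y => Q' m y v)
        (fun x y hxy => congrFun (hm.2 hxy) v)).setOf
    · exact le_rfl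
  rw [den_eq' s _ _ hQ, den_eq' s' _ _ hQ'] at hle
  refine le_trans (measure_mono ?_) (hle.trans (measure_mono ?_))
  · rintro x ⟨hg, h1, h2, h3⟩
    refine ⟨⟨fun u hu => by simpa using h1 u hu, fun u hu => ?_⟩, fun y hy u hu => ?_⟩
    · rw [Side.R, hg.inn_inv (hg.rt_mem _)]
      simpa [Side.R] using h2 hu
    · have := h3 (sh (-E.rt (n t) (s.M x)) y) (by simpa only [Rl, sh_sh_neg] using hy) u hu
      simpa using this
  · rintro y ⟨⟨h1, -⟩, h2⟩ u hu
    exact ⟨by simpa using h1 u hu, by simpa using h2 u hu⟩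

theorem cyl_le (hn : StrictMono n) (hC : ∀ t, Cpl s s' (n t) (D t))
    (hN : ∀ t, Nested E (n t) (n (t + 1)) (D t) (D (t + 1)))
    (hd : ∀ᵐ x ∂s.P, ∃ t c, DetS E (n t) (D t) (s.M x) x c) (F : Finset (V d))
    (a : Mk d) (b : Cf d S') :
    s.P {x | ∀ v ∈ F, s.M x v = a v ∧ code s n D (sh v x) = b v} ≤
      s'.P {y | ∀ v ∈ F, s'.M y v = a v ∧ y v = b v} := by
  let A : ℕ → Set (Cf d S) := fun t =>
    {x | E.Good (s.M x) ∧ (∀ v ∈ F, s.M x v = a v) ∧ F ⊆ s'.R (n t) (s.M x) ∧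
        ∀ y, Rl E (n t) (D t) (s.M x) x y → ∀ v ∈ F, y v = b v}
  let B : ℕ → Set (Cf d S) := fun T => {x | ∀ t, T ≤ t → x ∈ A t}
  have hB : Monotone B := fun T T' h x hx t ht => hx t (h.trans ht)
  have h1 : s.P {x | ∀ v ∈ F, s.M x v = a v ∧ code s n D (sh v x) = b v} ≤ s.P (⋃ T, B T) := by
    refine measure_mono_ae ?_
    filter_upwards [s.ae_M (ae_reg hC hN), s.stat.ae_sh hd] with x hx hx' hF
    have h2 := (code_agree hn hx hx' F).and
      (hn.tendsto_atTop.eventually (hx.good.exh_inn s'.k F))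
    obtain ⟨T, hT⟩ := eventually_atTop.1 h2
    refine mem_iUnion.2 ⟨T, fun t ht => ⟨hx.good, fun v hv => (hF v hv).1, (hT t ht).2,
      fun y hy v hv => ((hT t ht).1 y hy v hv).trans (hF v hv).2⟩⟩
  rw [hB.measure_iUnion] at h1
  refine h1.trans (iSup_le fun T => ?_)
  have h2 : B T ⊆ A T := fun x hx => hx T le_rfl
  exact (measure_mono h2).trans (level_le hC hN T F a b)

theorem law (hn : StrictMono n) (hC : ∀ t, Cpl s s' (n t) (D t))
    (hN : ∀ t, Nested E (n t) (n (t + 1)) (D t) (D (t + 1)))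
    (hd : ∀ᵐ x ∂s.P, ∃ t c, DetS E (n t) (D t) (s.M x) x c)
    (hφ : AEMeasurable (fun x v => code s n D (sh v x)) s.P) :
    s.P.map (fun x v => code s n D (sh v x)) = s'.P ∧
      ∀ᵐ x ∂s.P, s'.M (fun v => code s n D (sh v x)) = s.M x := by
  let Φ : Cf d S → Cf d ((Bool × Bool) × S') := fun x v => (s.M x v, code s n D (sh v x))
  let Ψ : Cf d S' → Cf d ((Bool × Bool) × S') := fun y v => (s'.M y v, y v)
  have hΦ : AEMeasurable Φ s.P := aemeasurable_pi_lambda _ fun v =>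
    ((measurable_pi_apply v).comp s.measM).aemeasurable.prodMk
      ((measurable_pi_apply v).comp_aemeasurable hφ)
  have hΨ : Measurable Ψ := measurable_pi_lambda _ fun v =>
    ((measurable_pi_apply v).comp s'.measM).prodMk (measurable_pi_apply v)
  haveI := Measure.isProbabilityMeasure_map hΦ
  haveI := Measure.isProbabilityMeasure_map (μ := s'.P) hΨ.aemeasurable
  have h1 : s.P.map Φ = s'.P.map Ψ := by
    refine ext_of_cyl_le fun r w => ?_
    rw [Measure.map_apply_of_aemeasurable hΦ (measurableSet_cyl _ _),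
      Measure.map_apply hΨ (measurableSet_cyl _ _)]
    convert cyl_le hn hC hN hd (ball d r) (fun v => (w v).1) (fun v => (w v).2) using 2
    · ext x; simp [Φ, Prod.ext_iff]
    · ext y; simp [Ψ, Prod.ext_iff]
  have h2 : Measurable fun (w : Cf d ((Bool × Bool) × S')) (v : V d) => (w v).2 :=
    measurable_pi_lambda _ fun v => (measurable_pi_apply v).snd
  have h3 : Measurable fun (w : Cf d ((Bool × Bool) × S')) (v : V d) => (w v).1 :=
    measurable_pi_lambda _ fun v => (measurable_pi_apply v).fst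
  constructor
  · have h4 := congrArg (Measure.map fun (w : Cf d ((Bool × Bool) × S')) (v : V d) => (w v).2) h1
    rw [AEMeasurable.map_map_of_aemeasurable h2.aemeasurable hΦ, Measure.map_map h2 hΨ] at h4
    exact h4.trans Measure.map_id
  · have h4 : MeasurableSet {w : Cf d ((Bool × Bool) × S') |
        s'.M (fun v => (w v).2) = fun v => (w v).1} :=
      measurableSet_eq_fun (s'.measM.comp h2) h3
    have h5 : ∀ᵐ w ∂(s.P.map Φ), s'.M (fun v => (w v).2) = fun v => (w v).1 := by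
      rw [h1, ae_map_iff hΨ.aemeasurable h4]
      exact Eventually.of_forall fun y => rfl
    exact ae_of_ae_map hΦ h5

end Asm

section ASM
variable {E : Env d} {S S' : Type} [MeasurableSpace S] [Countable S] [MeasurableSingletonClass S]
  [MeasurableSpace S'] [Countable S'] [MeasurableSingletonClass S']

open Asm in
theorem assemble (s : Side E S) (s' : Side E S') (n : ℕ → ℕ) (hn : StrictMono n)
    (D : ℕ → Mk d → Cf d S → Cf d S' → ℝ≥0∞) (hC : ∀ t, Cpl s s' (n t) (D t))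
    (hN : ∀ t, Nested E (n t) (n (t + 1)) (D t) (D (t + 1)))
    (hX : ∀ ε : ℝ≥0∞, 0 < ε → ∃ t, s.den (n t) (fun m x v => ¬ Det (D t) m x v) ≤ ε)
    (hY : ∀ ε : ℝ≥0∞, 0 < ε → ∃ t,
      s'.den (n t) (fun m y v => ¬ Det (fun m y x => D t m x y) m y v) ≤ ε) :
    FinIso s.P s'.P := by
  haveI : Nonempty S := (nonempty_of_isProbabilityMeasure s.P).map fun x => x 0
  haveI : Nonempty S' := (nonempty_of_isProbabilityMeasure s'.P).map fun x => x 0
  let D' : ℕ → Mk d → Cf d S' → Cf d S → ℝ≥0∞ := fun t m y x => D t m x y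
  have hC' : ∀ t, Cpl s' s (n t) (D' t) := fun t => (hC t).mono fun m hm =>
    ⟨hm.1.post fun q y x => q x y, fun y y' x x' hy hx => hm.2.1 x x' y y' hx hy,
      hm.2.2.2, hm.2.2.1⟩
  have hN' : ∀ t, Nested E (n t) (n (t + 1)) (D' t) (D' (t + 1)) := fun t =>
    (hN t).mono fun m hm y x => hm x y
  have hd := ae_det hC hN hX
  have hd' := ae_det hC' hN' hY
  have hf : ∀ᵐ x ∂s.P, LC (code s n D) x := by
    filter_upwards [s.ae_M (ae_reg hC hN), s.lcM, hd] with x h1 h2 h3 using lc_code h1 h2 h3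
  have hg : ∀ᵐ y ∂s'.P, LC (code s' n D') y := by
    filter_upwards [s'.ae_M (ae_reg hC' hN'), s'.lcM, hd'] with x h1 h2 h3 using lc_code h1 h2 h3
  have hφ : AEMeasurable (fun x v => code s n D (sh v x)) s.P :=
    aemeasurable_pi_lambda _ fun v => s.stat.aemeasurable_sh v (aemeasurable_of_lc hf)
  obtain ⟨hlaw, hM⟩ := law hn hC hN hd hφ
  refine finIso_of_lc s.stat s'.stat (code s n D) (code s' n D') hf hg hlaw ?_
  rw [← hlaw] at hd'
  filter_upwards [s.ae_M (ae_reg hC hN), s.ae_M (ae_reg hC' hN'), s.stat.ae_sh hd,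
    ae_of_ae_map hφ hd', hM, ae_partner hC hN] with x h1 h1' h2 h3 h4 h5
  obtain ⟨t, ht⟩ := (code_spec hn (h4 ▸ h1') h3).exists
  obtain ⟨t', ht', h6⟩ :=
    ((eventually_ge_atTop t).and (code_agree hn h1 h2 (s'.R (n t) (s.M x)))).exists
  obtain ⟨y, hy⟩ := h5 t'
  have h7 := (h1.congr (fun _ _ => rfl) (h6 y hy)).1 (h1.mono hn ht' hy)
  rw [h4] at ht
  exact (ht x h7).symm
end ASM

end Pool.Agent.P.MP_1a5a6a_pr
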