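import Pool.Agent.P.MP_1a5a6a_pr.FI.Atomless0

set_option autoImplicit false
set_option linter.unusedSectionVars false
open MeasureTheory ProbabilityTheory Filter Set
open scoped ENNReal Classical

namespace Pool.Agent.P.MP_1a5a6a_pr

variable {d : ℕ}

namespace Atm

variable {E : Env d} {S T : Type} [MeasurableSpace S] [StandardBorelSpace S] [MeasurableSpace T]
  [StandardBorelSpace T] (s : Side E S) (ν : Measure T) (t0 : T) (s0 : S)

/-- put the codings of the children together -/
noncomputable def glueF (n : ℕ) (P : Mk d → (Cf d S → Cf d T) × (Cf d T → Cf d S)) (m : Mk d)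
    (x : Cf d S) : Cf d T := fun w =>
  if w ∈ E.C (n + 1) m then
    (P (sh (E.rt n (sh w m) + w) m)).1 (sh (E.rt n (sh w m) + w) x) (w - (E.rt n (sh w m) + w))
  else t0

/-- encoder and decoder of a cell seen from its root -/
noncomputable def ED : ℕ → Mk d → (Cf d S → Cf d T) × (Cf d T → Cf d S)
  | 0 => fun m => rk ν t0 s0 (s.κ 0 m) (s.R 0 m) (E.C 0 m) (E.C 0 m) fun _ _ => t0
  | n + 1 => fun m => rk ν t0 s0 (s.κ (n + 1) m) (s.R (n + 1) m) (E.C (n + 1) m) (E.C 0 m)
      (glueF (E := E) t0 n (ED n) m)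

/-- the part of the code inherited from lower levels -/
noncomputable def pre : ℕ → Mk d → Cf d S → Cf d T
  | 0 => fun _ _ _ => t0
  | n + 1 => glueF (E := E) t0 n (ED s ν t0 s0 n)

theorem ED_eq (n : ℕ) (m : Mk d) : ED s ν t0 s0 n m =
    rk ν t0 s0 (s.κ n m) (s.R n m) (E.C n m) (E.C 0 m) (pre s ν t0 s0 n m) := by
  cases n <;> rfl

theorem ED_meas (n : ℕ) (m : Mk d) :
    Measurable (ED s ν t0 s0 n m).1 ∧ Measurable (ED s ν t0 s0 n m).2 := by
  rw [ED_eq]
  exact rk_meas _ _ _ _ _ _ _ _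

theorem pre_meas (n : ℕ) (m : Mk d) : Measurable (pre s ν t0 s0 n m) := by
  cases n with
  | zero => exact measurable_const
  | succ n =>
    refine measurable_pi_lambda _ fun w => ?_
    simp only [pre, glueF]
    split_ifs
    · exact (measurable_pi_apply _).comp ((ED_meas s ν t0 s0 n _).1.comp (measurable_sh _))
    · exact measurable_const

/-- all almost sure properties of the markers, at all shifts -/
structure Nice (m : Mk d) : Prop where
  good : E.Good m
  rect : ∀ a n N, n ≤ N → ∀ B : V d → Set (Cf d S),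
    (∀ z ∈ E.ch n N (sh a m), MeasurableSet (B z) ∧
      DependsOn (· ∈ B z) (s.R n (sh z (sh a m)))) →
    s.κ N (sh a m) {x | ∀ z ∈ E.ch n N (sh a m), sh z x ∈ B z} =
      ∏ z ∈ E.ch n N (sh a m), s.κ n (sh z (sh a m)) (B z)
  child : ∀ a n N, n ≤ N → ∀ z ∈ E.ch n N (sh a m), ∀ B : Set (Cf d S), MeasurableSet B →
    DependsOn (· ∈ B) (s.R n (sh z (sh a m))) →
    s.κ N (sh a m) (sh z ⁻¹' B) = s.κ n (sh z (sh a m)) B
  atom : ∀ a (x : Cf d S), s.κ 0 (sh a m) {y | ∀ v ∈ s.R 0 (sh a m), y v = x v} = 0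
  lc : ∀ a n, LC (s.κ n) (sh a m)

theorem sh_zero' {X : Type} (x : Cf d X) : sh 0 x = x := funext fun v => by simp

variable {s}

theorem Nice.shift {m : Mk d} (h : Nice s m) (a : V d) : Nice s (sh a m) :=
  ⟨h.good.shift a, fun b => by rw [sh_sh]; exact h.rect _, fun b => by rw [sh_sh]; exact h.child _,
    fun b => by rw [sh_sh]; exact h.atom _, fun b => by rw [sh_sh]; exact h.lc _⟩

theorem ae_nice (hat : ∀ᵐ m ∂E.ρ, ∀ x : Cf d S, s.κ 0 m {y | ∀ v ∈ s.R 0 m, y v = x v} = 0) :
    ∀ᵐ m ∂E.ρ, Nice s m := by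
  filter_upwards [E.ae_good, E.ae_sh s.κ_rect, E.ae_sh s.κ_child, E.ae_sh hat, E.ae_sh s.κlc]
    with m h1 h2 h3 h4 h5
  exact ⟨h1, h2, h3, h4, h5⟩

theorem Nice.child0 {m : Mk d} (h : Nice s m) {n N : ℕ} (hn : n ≤ N) (hr : E.root N m)
    {B : Set (Cf d S)} (hB : MeasurableSet B) (hd : DependsOn (· ∈ B) (s.R n m)) :
    s.κ N m B = s.κ n m B := by
  have := h.child 0 n N hn 0 (by
    rw [sh_zero', Env.Good.mem_ch, sh_zero']
    exact ⟨h.good.zero_mem N, h.good.root_mono hn hr⟩) B hB (by simpa only [sh_zero'] using hd)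
  simp only [sh_zero'] at this
  rw [← this]
  congr 1
  ext x
  simp

theorem Nice.lc_R {m : Mk d} (h : Nice s m) (n : ℕ) : LC (s.R n) m :=
  (h.good.lc n).post (inn s.k)

theorem lc_ED (n : ℕ) : ∀ m, Nice s m → LC (ED s ν t0 s0 n) m := by
  have key : ∀ n m, Nice s m → LC (pre s ν t0 s0 n) m → LC (ED s ν t0 s0 n) m := by
    intro n m h hp
    have h1 := h.lc 0 n
    rw [sh_zero'] at h1
    filter_upwards [h1, h.lc_R n, h.good.lc n, h.good.lc 0, hp] with y e1 e2 e3 e4 e5
    rw [ED_eq, ED_eq, e1, e2, e3, e4, e5]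
  induction n with
  | zero => exact fun m h => key 0 m h (LC.const _ _)
  | succ n ih =>
    intro m h
    refine key _ m h ?_
    have a1 := lc_finset (f := fun w y => E.rt n (sh w y)) (E.C (n + 1) m)
      fun w _ => ((h.good.shift w).lc_rt n).comp_sh
    have a2 := lc_finset (f := fun w y => ED s ν t0 s0 n (sh (E.rt n (sh w m) + w) y))
      (E.C (n + 1) m) fun w _ => (ih _ (h.shift _)).comp_sh
    filter_upwards [h.good.lc (n + 1), a1, a2] with y e1 e2 e3
    funext x w
    simp only [pre, glueF, e1]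
    split_ifs with hw
    · rw [e2 w hw, e3 w hw]
    · rfl

variable [IsProbabilityMeasure ν] [NullSingletonClass ν]

/-- independence of the inherited code from the tile of the root -/
def IndP (f : Cf d S → Cf d T) (n : ℕ) (m : Mk d) : Prop :=
  ∀ B : Set (Cf d S), MeasurableSet B → DependsOn (· ∈ B) (s.R 0 m : Set (V d)) →
    ∀ A : V d → Set T, (∀ w, MeasurableSet (A w)) → (∀ w ∈ E.C 0 m, A w = univ) →
      s.κ n m {x | x ∈ B ∧ ∀ w ∈ E.C n m, f x w ∈ A w} = s.κ n m B * ∏ w ∈ E.C n m, ν (A w)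

theorem spec_of {n : ℕ} {m : Mk d} (h : Nice s m) (hr : E.root n m)
    (hdep : DependsOn (pre s ν t0 s0 n m) (s.R n m : Set (V d)))
    (hind : IndP (s := s) ν (pre s ν t0 s0 n m) n m) :
    Spec ν (s.κ n m) (s.R n m) (E.C n m) (E.C 0 m) (pre s ν t0 s0 n m) (ED s ν t0 s0 n m) := by
  rw [ED_eq]
  have hC : E.C 0 m ⊆ E.C n m := h.good.mono (Nat.zero_le n)
  refine rk_spec (exists_spec ν _ (R0 := s.R 0 m) (inn_mono hC) hC (h.good.nonempty 0)
    (pre_meas s ν t0 s0 n m) hdep (fun x => ?_) fun B hB hd A hA => ?_)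
  · have := h.atom 0 x
    rw [sh_zero'] at this
    exact (h.child0 (B := {y | ∀ v ∈ s.R 0 m, y v = x v}) (Nat.zero_le n) hr
      (measurableSet_box (s.R 0 m) (B := fun v => {x v}) fun v => measurableSet_singleton _)
      (fun y y' hy => propext (forall₂_congr fun v hv => by rw [hy v hv]))).trans this
  · have := hind B hB hd (fun w => if w ∈ E.C 0 m then univ else A w)
      (fun w => by split_ifs; exacts [MeasurableSet.univ, hA w]) fun w hw => if_pos hw
    convert this using 2
    · ext x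
      simp only [mem_ofPred_eq, Finset.mem_sdiff]
      refine and_congr_right fun _ => forall_congr' fun w => ?_
      by_cases hw : w ∈ E.C 0 m <;> simp [hw]
    · rw [← Finset.prod_sdiff hC]
      rw [Finset.prod_congr rfl (fun w hw => by rw [if_pos hw, measure_univ] :
        ∀ w ∈ E.C 0 m, ν (if w ∈ E.C 0 m then univ else A w) = 1), Finset.prod_const_one,
        mul_one]
      exact Finset.prod_congr rfl fun w hw => by rw [if_neg (Finset.mem_sdiff.1 hw).2]

theorem main_ind (n : ℕ) : ∀ m, Nice s m → E.root n m →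
    DependsOn (pre s ν t0 s0 n m) (s.R n m : Set (V d)) ∧
      IndP (s := s) ν (pre s ν t0 s0 n m) n m := by
  induction n with
  | zero =>
    intro m _ _
    refine ⟨fun _ _ _ => rfl, fun B _ _ A _ hA => ?_⟩
    rw [Finset.prod_congr rfl (fun w hw => by rw [hA w hw, measure_univ] :
      ∀ w ∈ E.C 0 m, ν (A w) = 1), Finset.prod_const_one, mul_one]
    congr 1
    ext x
    exact ⟨fun hx => hx.1, fun hx => ⟨hx, fun w hw => by rw [hA w hw]; trivial⟩⟩
  | succ n ih =>
    intro m h hr
    have hn : n ≤ n + 1 := Nat.le_succ n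
    have sp : ∀ z, E.root n (sh z m) → Spec ν (s.κ n (sh z m)) (s.R n (sh z m)) (E.C n (sh z m))
        (E.C 0 (sh z m)) (pre s ν t0 s0 n (sh z m)) (ED s ν t0 s0 n (sh z m)) := fun z hz =>
      spec_of ν t0 s0 (h.shift z) hz (ih _ (h.shift z) hz).1 (ih _ (h.shift z) hz).2
    have hr' : E.root n m := h.good.root_mono hn hr
    refine ⟨fun x y hxy => funext fun w => ?_, fun B hB hd A hA hA0 => ?_⟩
    · simp only [pre, glueF]
      split_ifs with hw
      · have hz := Env.Good.mem_ch.1 (h.good.rt_add_mem_ch hn hw)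
        exact congrFun ((sp _ hz.2).d1 (x := sh (E.rt n (sh w m) + w) x)
          (y := sh (E.rt n (sh w m) + w) y) fun v hv => hxy _ (h.good.child_inn hn hz.1 hv)) _
      · rfl
    let Bz : V d → Set (Cf d S) := fun z => {x | (z = 0 → x ∈ B) ∧
      ∀ w ∈ E.C n (sh z m), (ED s ν t0 s0 n (sh z m)).1 x w ∈ A (w + z)}
    have hR0 : (s.R 0 m : Set (V d)) ⊆ s.R n m :=
      Finset.coe_subset.2 (inn_mono (h.good.mono (Nat.zero_le n)))
    have key := h.rect 0 n (n + 1) hn Bz (by
      simp only [sh_zero']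
      intro z hz
      have hz' := Env.Good.mem_ch.1 hz
      constructor
      · refine MeasurableSet.inter ?_ ((ED_meas s ν t0 s0 n _).1
          (measurableSet_box _ (B := fun w => A (w + z)) fun w => hA _))
        exact measurableSet_setOfPred.2 (measurable_const.imp (measurableSet_setOfPred.1 hB))
      · intro x y hxy
        have e := (sp z hz'.2).d1 hxy
        simp only [Bz, mem_ofPred_eq, e]
        by_cases h0 : z = 0
        · subst h0
          rw [sh_zero'] at hxy
          have : (x ∈ B) = (y ∈ B) := hd.mono hR0 hxy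
          rw [this]
        · simp [h0])
    simp only [sh_zero'] at key
    have h0 : (0 : V d) ∈ E.ch n (n + 1) m :=
      Env.Good.mem_ch.2 ⟨h.good.zero_mem _, by rwa [sh_zero']⟩
    have e1 : {x | x ∈ B ∧ ∀ w ∈ E.C (n + 1) m, pre s ν t0 s0 (n + 1) m x w ∈ A w} =
        {x | ∀ z ∈ E.ch n (n + 1) m, sh z x ∈ Bz z} := by
      ext x
      simp only [mem_ofPred_eq, Bz]
      constructor
      · rintro ⟨a1, a2⟩ z hz
        have hz' := Env.Good.mem_ch.1 hz
        refine ⟨fun hz0 => by rwa [hz0, sh_zero'], fun w hw => ?_⟩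
        have hw' := h.good.child_subset hn hz'.1 hw
        have := a2 _ hw'
        simp only [pre, glueF, if_pos hw'] at this
        rwa [← h.good.eq_of_mem_child hz'.2 (v := w + z) (by simpa using hw),
          add_sub_cancel_right] at this
      · intro a
        refine ⟨by simpa only [sh_zero'] using (a 0 h0).1 rfl, fun w hw => ?_⟩
        have := (a _ (h.good.rt_add_mem_ch hn hw)).2 _ (h.good.sub_mem_cell n w)
        simp only [pre, glueF, if_pos hw]
        rwa [sub_add_cancel] at this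
    rw [e1, key, h.good.prod_cell hn, ← Finset.mul_prod_erase _ _ h0,
      ← Finset.mul_prod_erase _ _ h0, ← mul_assoc]
    congr 1
    · rw [h.child0 hn hr hB (hd.mono hR0), sh_zero']
      simp only [add_zero]
      rw [← (ih m h hr').2 B hB hd A hA hA0]
      congr 1
      ext x
      simp only [Bz, mem_ofPred_eq, sh_zero', forall_const, add_zero]
      refine and_congr_right fun _ => forall₂_congr fun w _ => ?_
      by_cases hw : w ∈ E.C 0 m
      · simp [hA0 w hw]
      · have := (sp 0 (by rwa [sh_zero'])).off x w (by rwa [sh_zero'])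
        rw [sh_zero'] at this
        rw [this]
    · refine Finset.prod_congr rfl fun z hz => ?_
      have hz' := Finset.mem_erase.1 hz
      rw [← (sp z (Env.Good.mem_ch.1 hz'.2).2).law (fun w => A (w + z)) fun w => hA _]
      congr 1
      ext x
      simp [Bz, hz'.1]

theorem Nice.spec {n : ℕ} {m : Mk d} (h : Nice s m) (hr : E.root n m) :
    Spec ν (s.κ n m) (s.R n m) (E.C n m) (E.C 0 m) (pre s ν t0 s0 n m) (ED s ν t0 s0 n m) :=
  spec_of ν t0 s0 h hr (main_ind ν t0 s0 n m h hr).1 (main_ind ν t0 s0 n m h hr).2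

variable (s)

/-- the code at the origin given by the level `N` cell -/
noncomputable def Val (N : ℕ) (m : Mk d) (x : Cf d S) : T :=
  (ED s ν t0 s0 N (sh (E.rt N m) m)).1 (sh (E.rt N m) x) (-E.rt N m)

/-- the first level with property `p` -/
noncomputable def first (p : ℕ → Mk d → Prop) (m : Mk d) : ℕ :=
  if h : ∃ N, p N m then Nat.find h else 0

theorem first_spec {p : ℕ → Mk d → Prop} {m : Mk d} (h : ∃ N, p N m) : p (first p m) m := by
  rw [first, dif_pos h]
  exact Nat.find_spec h

theorem first_le {p : ℕ → Mk d → Prop} {m : Mk d} {N : ℕ} (h : p N m) : first p m ≤ N := by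
  rw [first, dif_pos ⟨N, h⟩]
  exact Nat.find_min' _ h

/-- the first level at which the code at the origin is final -/
noncomputable def lev0 (E : Env d) : Mk d → ℕ := first fun N m => E.rt (N + 1) m ≠ E.rt 0 m

/-- the level used for decoding -/
noncomputable def lev1 : Mk d → ℕ :=
  first fun N m => E.rt (N + 1) m ≠ E.rt N m ∧ (0 : V d) ∈ s.R N m

/-- the encoder -/
noncomputable def enc (m : Mk d) (x : Cf d S) : T := Val s ν t0 s0 (lev0 E m) m x

/-- the decoder -/
noncomputable def dec (m : Mk d) (y : Cf d T) : S :=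
  (ED s ν t0 s0 (lev1 s m) (sh (E.rt (lev1 s m) m) m)).2 (sh (E.rt (lev1 s m) m) y)
    (-E.rt (lev1 s m) m)

variable {s}

theorem rt_eq_of {m : Mk d} (h : E.Good m) {n N : ℕ} (hn : n ≤ N) (hz : E.rt N m ∈ E.C n m) :
    E.rt N m = E.rt n m :=
  (h.root_sh_iff hz).1 ((h.shift _).root_mono hn (h.root_rt N))

theorem val_succ {m : Mk d} (h : Nice s m) {N : ℕ} (hne : E.rt (N + 1) m ≠ E.rt 0 m)
    (x : Cf d S) : Val s ν t0 s0 (N + 1) m x = Val s ν t0 s0 N m x := by
  have hz := h.good.rt_mem (N + 1)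
  have sp := (h.shift (E.rt (N + 1) m)).spec ν t0 s0 (h.good.root_rt (N + 1))
  unfold Val
  rw [sp.off _ _ fun hc => hne (rt_eq_of h.good (Nat.zero_le _) (h.good.mem_iff_neg_mem.2 hc))]
  simp only [pre, glueF, if_pos (h.good.neg_mem hz), sh_sh, neg_add_cancel, sh_zero',
    add_assoc, add_zero]
  rw [show -E.rt (N + 1) m - (E.rt N m + -E.rt (N + 1) m) = -E.rt N m by abel]

theorem ne_mono {m : Mk d} (h : E.Good m) {n N : ℕ} (hn : n ≤ N) (hne : E.rt n m ≠ E.rt 0 m) :
    E.rt N m ≠ E.rt 0 m := fun he =>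
  hne ((rt_eq_of h hn (he ▸ h.mono (Nat.zero_le n) (h.rt_mem 0))).symm.trans he)

theorem enc_eq {m : Mk d} (h : Nice s m) {N : ℕ} (hne : E.rt (N + 1) m ≠ E.rt 0 m)
    (x : Cf d S) : enc s ν t0 s0 m x = Val s ν t0 s0 N m x := by
  have h0 : E.rt (lev0 E m + 1) m ≠ E.rt 0 m :=
    first_spec (p := fun N m => E.rt (N + 1) m ≠ E.rt 0 m) ⟨N, hne⟩
  have h1 : lev0 E m ≤ N := first_le (p := fun N m => E.rt (N + 1) m ≠ E.rt 0 m) hne
  unfold enc
  clear hne
  induction N, h1 using Nat.le_induction with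
  | base => rfl
  | succ j hj ih =>
    rw [ih, val_succ ν t0 s0 h (ne_mono h.good (Nat.succ_le_succ hj) h0)]

theorem eventually_ne (hd : 0 < d) {m : Mk d} (h : E.Good m) (n : ℕ) :
    ∀ᶠ N in atTop, E.rt N m ≠ E.rt n m := by
  filter_upwards [(h.shift (E.rt n m)).eventually_not_root hd] with N hN he
  exact hN (he ▸ h.root_rt N)

theorem exists_lev1 (hd : 0 < d) {m : Mk d} (h : E.Good m) :
    ∃ N, E.rt (N + 1) m ≠ E.rt N m ∧ (0 : V d) ∈ s.R N m := by
  obtain ⟨n, hn⟩ := eventually_atTop.1 (h.exh_inn s.k {0})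
  by_contra hcon
  push Not at hcon
  have key : ∀ N, n ≤ N → E.rt N m = E.rt n m := by
    intro N hN
    induction N, hN using Nat.le_induction with
    | base => rfl
    | succ j hj ih =>
      rw [← ih]
      by_contra hne
      exact hcon j hne (hn j hj (Finset.mem_singleton_self 0))
  obtain ⟨N, h1, h2⟩ := ((eventually_ne hd h n).and (eventually_ge_atTop n)).exists
  exact h1 (key N h2)

theorem lc_find {p : ℕ → Mk d → Prop} {m : Mk d} (hex : ∃ N, p N m) (hp : ∀ N, LC (p N) m) :
    LC (first p) m := by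
  filter_upwards [lc_finset (f := p) (Finset.range (Nat.find hex + 1)) fun N _ => hp N] with y hy
  have h1 : p (Nat.find hex) y := by
    rw [hy _ (Finset.mem_range.2 (Nat.lt_succ_self _))]
    exact Nat.find_spec hex
  have hex' : ∃ N, p N y := ⟨_, h1⟩
  rw [first, first, dif_pos hex, dif_pos hex', Nat.find_eq_iff]
  refine ⟨h1, fun j hj => ?_⟩
  rw [hy j (Finset.mem_range.2 (by omega))]
  exact Nat.find_min hex hj

theorem lc_root_ED {m : Mk d} (h : Nice s m) (N : ℕ) :
    ∀ᶠ y in nb m, E.rt N y = E.rt N m ∧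
      ED s ν t0 s0 N (sh (E.rt N y) y) = ED s ν t0 s0 N (sh (E.rt N m) m) := by
  filter_upwards [h.good.lc_rt N, (lc_ED ν t0 s0 N _ (h.shift (E.rt N m))).comp_sh] with y e1 e2
  exact ⟨e1, by rw [e1, e2]⟩

theorem lc_enc (hd : 0 < d) {m : Mk d} (h : Nice s m) : LC (enc s ν t0 s0) m := by
  have hex : ∃ N, E.rt (N + 1) m ≠ E.rt 0 m :=
    ((tendsto_add_atTop_nat 1).eventually (eventually_ne hd h.good 0)).exists
  have h1 : LC (lev0 E) m := lc_find (p := fun N y => E.rt (N + 1) y ≠ E.rt 0 y) hex fun N =>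
    ((h.good.lc_rt (N + 1)).pair (h.good.lc_rt 0)).post fun p => p.1 ≠ p.2
  filter_upwards [h1, lc_root_ED ν t0 s0 h (lev0 E m)] with y e1 e2
  funext x
  simp only [enc, Val, e1]
  rw [e2.2, e2.1]

theorem lc_dec (hd : 0 < d) {m : Mk d} (h : Nice s m) : LC (dec s ν t0 s0) m := by
  have h1 : LC (lev1 s) m :=
    lc_find (p := fun N y => E.rt (N + 1) y ≠ E.rt N y ∧ (0 : V d) ∈ s.R N y)
      (exists_lev1 hd h.good) fun N =>
      (((h.good.lc_rt (N + 1)).pair (h.good.lc_rt N)).pair (h.lc_R N)).post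
        fun p => p.1.1 ≠ p.1.2 ∧ (0 : V d) ∈ p.2
  filter_upwards [h1, lc_root_ED ν t0 s0 h (lev1 s m)] with y e1 e2
  funext x
  simp only [dec, e1]
  rw [e2.2, e2.1]

theorem val_sh {m : Mk d} (h : E.Good m) {N : ℕ} {v : V d} (hv : v ∈ E.C N m) (x : Cf d S) :
    Val s ν t0 s0 N (sh v m) (sh v x) =
      (ED s ν t0 s0 N (sh (E.rt N m) m)).1 (sh (E.rt N m) x) (v - E.rt N m) := by
  unfold Val
  rw [h.rt_sh hv, sh_sh, sh_sh, sub_add_cancel, neg_sub]

theorem rt_mem_ch {m : Mk d} (h : E.Good m) (N : ℕ) : E.rt N m ∈ E.ch N N m := by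
  rw [h.ch_self]
  exact Finset.mem_singleton_self _

theorem dep_root {β : Type} {m : Mk d} (h : E.Good m) (N : ℕ) {f : Cf d S → β}
    (hf : DependsOn f (s.R N (sh (E.rt N m) m) : Set (V d))) :
    DependsOn (fun x => f (sh (E.rt N m) x)) (s.R N m : Set (V d)) := fun _ _ hxy =>
  hf fun v hv => hxy _ ((h.inn_inv (h.rt_mem N) v).1 hv)

theorem ae_inv (hn : ∀ᵐ m ∂E.ρ, Nice s m) (N : ℕ) :
    ∀ᵐ x ∂s.P, ∀ v ∈ s.R N (sh (E.rt N (s.M x)) (s.M x)),
      (ED s ν t0 s0 N (sh (E.rt N (s.M x)) (s.M x))).2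
        ((ED s ν t0 s0 N (sh (E.rt N (s.M x)) (s.M x))).1 (sh (E.rt N (s.M x)) x)) v =
        sh (E.rt N (s.M x)) x v := by
  refine s.ae_cond N (fun m x => ∀ v ∈ s.R N (sh (E.rt N m) m),
    (ED s ν t0 s0 N (sh (E.rt N m) m)).2
      ((ED s ν t0 s0 N (sh (E.rt N m) m)).1 (sh (E.rt N m) x)) v = sh (E.rt N m) x v) ?_
  filter_upwards [hn] with m h
  have sp := (h.shift (E.rt N m)).spec ν t0 s0 (h.good.root_rt N)
  set B : Set (Cf d S) := {x | ∀ v ∈ s.R N (sh (E.rt N m) m),
    (ED s ν t0 s0 N (sh (E.rt N m) m)).2 ((ED s ν t0 s0 N (sh (E.rt N m) m)).1 x) v = x v}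
    with hBdef
  have hB : MeasurableSet B := by
    simp only [hBdef, ofPred_forall]
    exact MeasurableSet.iInter fun v => MeasurableSet.iInter fun _ => measurableSet_eq_fun
      ((measurable_pi_apply v).comp (sp.m2.comp sp.m1)) (measurable_pi_apply v)
  have hBd : DependsOn (· ∈ B) (s.R N (sh (E.rt N m) m) : Set (V d)) := fun x y hxy => by
    simp only [hBdef, mem_ofPred_eq, sp.d1 hxy]
    exact propext (forall₂_congr fun v hv => by rw [hxy v hv])
  refine ⟨?_, measurable_sh _ hB, dep_root h.good N hBd, ?_⟩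
  · filter_upwards [lc_root_ED ν t0 s0 h N, ((h.shift (E.rt N m)).lc_R N).comp_sh] with y e1 e2
    funext x
    rw [e1.2, e1.1, e2]
  · have := h.child 0 N N le_rfl (E.rt N m) (by rw [sh_zero']; exact rt_mem_ch h.good N) Bᶜ
      hB.compl (by
        rw [sh_zero']
        intro x y hxy
        have := hBd hxy
        simp only [mem_compl_iff] at this ⊢
        rw [this])
    rw [sh_zero'] at this
    exact this.trans sp.inv

theorem law_box (hd : 0 < d) (hn : ∀ᵐ m ∂E.ρ, Nice s m) (I J : Finset (V d))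
    (D : V d → Set (Bool × Bool)) (A : V d → Set T) (hA : ∀ w, MeasurableSet (A w)) :
    s.P {x | (∀ v ∈ I, s.M x v ∈ D v) ∧ ∀ v ∈ J, enc s ν t0 s0 (sh v (s.M x)) (sh v x) ∈ A v} =
      E.ρ {m | ∀ v ∈ I, m v ∈ D v} * ∏ v ∈ J, ν (A v) := by
  let Gd : ℕ → Mk d → Prop := fun N m =>
    J ⊆ E.C N m ∧ ∀ v ∈ J, E.rt (N + 1) (sh v m) ≠ E.rt 0 (sh v m)
  have lcG : ∀ N m, Nice s m → LC (Gd N) m := by
    intro N m h
    have a1 := lc_finset (f := fun v y => E.rt (N + 1) (sh v y)) J
      fun v _ => ((h.good.shift v).lc_rt _).comp_sh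
    have a2 := lc_finset (f := fun v y => E.rt 0 (sh v y)) J
      fun v _ => ((h.good.shift v).lc_rt _).comp_sh
    filter_upwards [h.good.lc N, a1, a2] with y e1 e2 e3
    simp only [Gd, e1]
    exact propext (and_congr_right fun _ => forall₂_congr fun v hv => by rw [e2 v hv, e3 v hv])
  have nG : ∀ N, NullMeasurableSet {m | Gd N m} E.ρ := fun N =>
    nullMeasurableSet_of_lc (hn.mono fun m h => lcG N m h)
  have hlim : Tendsto (fun N => E.ρ {m | Gd N m}ᶜ) atTop (nhds 0) := by
    refine tendsto_measure_zero_of_ae (fun N => (nG N).compl) ?_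
    filter_upwards [hn] with m h
    have a1 : ∀ᶠ N in atTop, ∀ v ∈ J, E.rt (N + 1) (sh v m) ≠ E.rt 0 (sh v m) :=
      (eventually_all_finset J).2 fun v _ =>
        (tendsto_add_atTop_nat 1).eventually (eventually_ne hd (h.good.shift v) 0)
    filter_upwards [h.good.exh J, a1] with N e1 e2 hc
    exact hc ⟨e1, e2⟩
  set c := ∏ v ∈ J, ν (A v) with hc
  have hc1 : c ≤ 1 := Finset.prod_le_one' fun _ _ => prob_le_one
  set Dm : Set (Mk d) := {m | ∀ v ∈ I, m v ∈ D v} with hDm
  have hDmm : MeasurableSet Dm := measurableSet_box I fun _ => MeasurableSet.of_discrete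
  set X : Set (Cf d S) := {x | (∀ v ∈ I, s.M x v ∈ D v) ∧
    ∀ v ∈ J, enc s ν t0 s0 (sh v (s.M x)) (sh v x) ∈ A v} with hX
  have key : ∀ N, s.P (X ∩ s.M ⁻¹' {m | Gd N m}) = E.ρ (Dm ∩ {m | Gd N m}) * c := by
    intro N
    let Q : Mk d → Cf d S → Prop := fun m x => (m ∈ Dm ∧ Gd N m) ∧
      ∀ v ∈ J, (ED s ν t0 s0 N (sh (E.rt N m) m)).1 (sh (E.rt N m) x) (v - E.rt N m) ∈ A v
    have e1 : s.P (X ∩ s.M ⁻¹' {m | Gd N m}) = s.P {x | Q (s.M x) x} := by
      refine measure_congr ?_
      filter_upwards [s.ae_M hn] with x h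
      apply propext
      have a : Gd N (s.M x) → ∀ v ∈ J, enc s ν t0 s0 (sh v (s.M x)) (sh v x) =
          (ED s ν t0 s0 N (sh (E.rt N (s.M x)) (s.M x))).1 (sh (E.rt N (s.M x)) x)
            (v - E.rt N (s.M x)) := fun hG v hv => by
        rw [enc_eq ν t0 s0 (h.shift v) (hG.2 v hv), val_sh ν t0 s0 h.good (hG.1 hv)]
      constructor
      · rintro ⟨⟨a1, a2⟩, a3⟩
        exact ⟨⟨a1, a3⟩, fun v hv => a a3 v hv ▸ a2 v hv⟩
      · rintro ⟨⟨a1, a3⟩, a2⟩
        exact ⟨⟨a1, fun v hv => a a3 v hv ▸ a2 v hv⟩, a3⟩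
    have mB : ∀ m : Mk d, MeasurableSet {x : Cf d S | ∀ v ∈ J,
        (ED s ν t0 s0 N (sh (E.rt N m) m)).1 x (v - E.rt N m) ∈ A v} := by
      intro m
      simp only [ofPred_forall]
      exact MeasurableSet.iInter fun v => MeasurableSet.iInter fun _ =>
        ((measurable_pi_apply _).comp (ED_meas s ν t0 s0 N _).1) (hA v)
    have dB : ∀ m, Nice s m → DependsOn (· ∈ {x : Cf d S | ∀ v ∈ J,
        (ED s ν t0 s0 N (sh (E.rt N m) m)).1 x (v - E.rt N m) ∈ A v})
        (s.R N (sh (E.rt N m) m) : Set (V d)) := fun m h x y hxy => by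
      simp only [mem_ofPred_eq, ((h.shift (E.rt N m)).spec ν t0 s0 (h.good.root_rt N)).d1 hxy]
    rw [e1, s.measure_cond N Q ?_]
    · rw [← lintegral_indicator_one₀ (hDmm.nullMeasurableSet.inter (nG N)),
        ← lintegral_mul_const' _ _ (ne_top_of_le_ne_top ENNReal.one_ne_top hc1)]
      refine lintegral_congr_ae ?_
      filter_upwards [hn] with m h
      by_cases hm : m ∈ Dm ∩ {m | Gd N m}
      · have hm' : m ∈ Dm ∧ Gd N m := hm
        have sp := (h.shift (E.rt N m)).spec ν t0 s0 (h.good.root_rt N)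
        have a1 := h.child 0 N N le_rfl (E.rt N m) (by rw [sh_zero']; exact rt_mem_ch h.good N) _
          (mB m) (by rw [sh_zero']; exact dB m h)
        rw [sh_zero'] at a1
        have a2 := sp.law (fun w => if w + E.rt N m ∈ J then A (w + E.rt N m) else univ)
          fun w => by split_ifs; exacts [hA _, MeasurableSet.univ]
        simp only [Q, hm', true_and, and_self, indicator_of_mem hm, Pi.one_apply, one_mul]
        refine a1.trans (Eq.trans ?_ (a2.trans ?_))
        · congr 1
          ext x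
          simp only [mem_ofPred_eq]
          constructor
          · intro hx w _
            split_ifs with hw
            · simpa using hx _ hw
            · trivial
          · intro hx v hv
            have := hx (v - E.rt N m) ((h.good.inv (h.good.rt_mem N) _).2 (by
              simpa using hm'.2.1 hv))
            simpa [hv] using this
        · rw [h.good.cell_eq (h.good.rt_mem N),
            Finset.prod_image fun _ _ _ _ hh => sub_left_injective hh]
          simp only [sub_add_cancel]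
          rw [hc, ← Finset.prod_subset hm'.2.1 fun v _ hv => by simp [hv]]
          exact Finset.prod_congr rfl fun v hv => by simp [hv]
      · have hm' : ¬ (m ∈ Dm ∧ Gd N m) := hm
        simp [Q, hm']
    · filter_upwards [hn] with m h
      refine ⟨?_, (MeasurableSet.const _).inter (measurable_sh _ (mB m)), fun x y hxy => ?_⟩
      · filter_upwards [lc_root_ED ν t0 s0 h N, lcG N m h, eventually_eq_on m I] with y e1 e2 e3
        funext x
        have : (y ∈ Dm) = (m ∈ Dm) := propext (forall₂_congr fun v hv => by rw [e3 v hv])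
        simp only [Q]
        rw [e1.2, e1.1, e2, this]
      · have := dep_root h.good N (dB m h) hxy
        simp only [mem_ofPred_eq] at this
        simp only [Q, this]
  have pre_c : ∀ N, s.P (s.M ⁻¹' {m | Gd N m}ᶜ) ≤ E.ρ {m | Gd N m}ᶜ := fun N => by
    rw [← s.law]
    exact Measure.le_map_apply s.measM.aemeasurable _
  have lim2 : ∀ a : ℝ≥0∞, Tendsto (fun N => a + E.ρ {m | Gd N m}ᶜ) atTop (nhds a) := fun a => by
    simpa using tendsto_const_nhds.add hlim
  apply le_antisymm
  · refine ge_of_tendsto' (lim2 _) fun N => ?_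
    calc s.P X ≤ s.P (X ∩ s.M ⁻¹' {m | Gd N m}) + s.P (X \ s.M ⁻¹' {m | Gd N m}) :=
          measure_le_inter_add_sdiff _ _ _
      _ ≤ _ := by
          rw [key]
          exact add_le_add (mul_le_mul_left (measure_mono inter_subset_left) _)
            ((measure_mono fun x hx => hx.2).trans (pre_c N))
  · refine ge_of_tendsto' (lim2 _) fun N => ?_
    calc E.ρ Dm * c ≤ (E.ρ (Dm ∩ {m | Gd N m}) + E.ρ (Dm \ {m | Gd N m})) * c :=
          mul_le_mul_left (measure_le_inter_add_sdiff _ _ _) _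
      _ ≤ _ := by
          rw [add_mul, ← key]
          exact add_le_add (measure_mono inter_subset_left)
            ((mul_le_of_le_one_right' hc1).trans (measure_mono fun x hx => hx.2))

end Atm

open Atm in
theorem atomless_iso (hd : 0 < d) {E : Env d} {S T : Type} [MeasurableSpace S]
    [StandardBorelSpace S] [MeasurableSpace T] [StandardBorelSpace T] (s : Side E S)
    (hat : ∀ᵐ m ∂E.ρ, ∀ x : Cf d S, s.κ 0 m {y | ∀ v ∈ s.R 0 m, y v = x v} = 0)
    (ν : Measure T) [IsProbabilityMeasure ν] [NullSingletonClass ν] :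
    FinIso s.P (zip E.ρ (iid d ν)) := by
  obtain ⟨x0⟩ := nonempty_of_isProbabilityMeasure s.P
  obtain ⟨t0⟩ := nonempty_of_isProbabilityMeasure ν
  have hn := ae_nice hat
  set s0 := x0 0
  have me : ∀ m, Measurable (enc s ν t0 s0 m) := fun m =>
    (measurable_pi_apply _).comp ((ED_meas s ν t0 s0 _ _).1.comp (measurable_sh _))
  have md : ∀ m, Measurable (dec s ν t0 s0 m) := fun m =>
    (measurable_pi_apply _).comp ((ED_meas s ν t0 s0 _ _).2.comp (measurable_sh _))
  let e : Cf d S → Cf d T := fun x v =>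
    ver (enc s ν t0 s0) (fun _ => t0) (s.M (sh v x)) (sh v x)
  have hem : Measurable e := measurable_pi_lambda _ fun v =>
    measurable_ver_pair me t0 (s.measM.comp (measurable_sh v)) (measurable_sh v)
  have he : ∀ x, Nice s (s.M x) → ∀ v, e x v = enc s ν t0 s0 (sh v (s.M x)) (sh v x) := by
    intro x h v
    simp only [e]
    rw [s.equiv, ver_eq (lc_enc ν t0 s0 hd (h.shift v))]
  have m1 : Measurable fun (ω : Cf d ((Bool × Bool) × T)) (v : V d) => (ω v).1 :=
    measurable_site measurable_fst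
  have m2 : Measurable fun (ω : Cf d ((Bool × Bool) × T)) (v : V d) => (ω v).2 :=
    measurable_site measurable_snd
  have hpair : Measurable fun x => (s.M x, e x) := s.measM.prodMk hem
  refine ⟨fun x => zipF (s.M x, e x), fun ω v => ver (dec s ν t0 s0) (fun _ => s0)
    (sh v fun w => (ω w).1) (sh v fun w => (ω w).2), ⟨measurable_zipF.comp hpair, ?_, ?_⟩,
    ⟨?_, ?_, ?_⟩, ?_, ?_⟩
  · intro a x
    funext v
    simp only [zipF, e, sh_apply, sh_sh, s.equiv]
  · filter_upwards [s.ae_M hn, s.lcM] with x h hM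
    have sp := (h.shift (E.rt (lev0 E (s.M x)) (s.M x))).spec ν t0 s0 (h.good.root_rt _)
    have a1 := (lc_enc ν t0 s0 hd h).ver (c := fun _ => t0).comp hM
    have a2 : LC (enc s ν t0 s0 (s.M x)) x :=
      lc_of_dependsOn (dep_root h.good _ fun a b hab => congrFun (sp.d1 hab) _) x
    filter_upwards [a1, a2, (lc_apply 0 (s.M x)).comp hM] with y e1 e2 e3
    simp only [zipF, e, sh_zero']
    rw [e1, e3, ver_eq (lc_enc ν t0 s0 hd h), e2]
  · exact measurable_pi_lambda _ fun v =>
      measurable_ver_pair md s0 ((measurable_sh v).comp m1) ((measurable_sh v).comp m2)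
  · intro a ω
    funext v
    have a1 : (sh v fun w => (sh a ω w).1) = sh (v + a) fun w => (ω w).1 := by
      rw [← sh_sh]
      rfl
    have a2 : (sh v fun w => (sh a ω w).2) = sh (v + a) fun w => (ω w).2 := by
      rw [← sh_sh]
      rfl
    rw [a1, a2]
    rfl
  · have h1 : ∀ᵐ ω ∂zip E.ρ (iid d ν), Nice s fun w => (ω w).1 := by
      rw [← zip_map_fst E.ρ (iid d ν)] at hn
      exact ae_of_ae_map m1.aemeasurable hn
    filter_upwards [h1] with ω h
    have t1 : Tendsto (fun (ω : Cf d ((Bool × Bool) × T)) (v : V d) => (ω v).1) (nb ω)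
        (nb fun v => (ω v).1) := tendsto_nb.2 fun v => (lc_apply v ω).post Prod.fst
    have t2 : Tendsto (fun (ω : Cf d ((Bool × Bool) × T)) (v : V d) => (ω v).2) (nb ω)
        (nb fun v => (ω v).2) := tendsto_nb.2 fun v => (lc_apply v ω).post Prod.snd
    have sp := (h.shift (E.rt (lev1 s fun w => (ω w).1) fun w => (ω w).1)).spec ν t0 s0
      (h.good.root_rt _)
    have a1 := (lc_dec ν t0 s0 hd h).ver (c := fun _ => s0).comp t1
    have a2 : LC (dec s ν t0 s0 fun w => (ω w).1) fun w => (ω w).2 :=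
      ((lc_of_dependsOn sp.d2 _).post fun y => y _).comp_sh
    filter_upwards [a1, a2.comp t2] with y e1 e2
    simp only [sh_zero']
    rw [e1, ver_eq (lc_dec ν t0 s0 hd h), e2]
  · have key : s.P.map (fun x => (s.M x, e x)) = E.ρ.prod (iid d ν) := by
      have k1 : ∀ (J : Finset (V d)) (A : V d → Set T), (∀ w, MeasurableSet (A w)) →
          (s.P.restrict (e ⁻¹' {y | ∀ v ∈ J, y v ∈ A v})).map s.M =
            (iid d ν {y | ∀ v ∈ J, y v ∈ A v}) • E.ρ := by
        intro J A hA
        refine ext_box fun I D hD => ?_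
        have hb := measurableSet_box I hD
        rw [Measure.map_apply s.measM hb, Measure.restrict_apply (s.measM hb), Measure.smul_apply,
          smul_eq_mul, mul_comm]
        have : iid d ν {y | ∀ v ∈ J, y v ∈ A v} = ∏ v ∈ J, ν (A v) :=
          Measure.infinitePi_pi (fun _ : V d => ν) (s := J) fun v _ => hA v
        rw [this, ← law_box ν t0 s0 hd hn I J D A hA]
        refine measure_congr ?_
        filter_upwards [s.ae_M hn] with x h
        exact propext (and_congr_right fun _ => forall₂_congr fun v _ => by rw [he x h v])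
      refine (Measure.prod_eq fun D B hD hB => ?_).symm
      have k2 : (s.P.restrict (s.M ⁻¹' D)).map e = E.ρ D • iid d ν := by
        refine ext_box fun J A hA => ?_
        have hb := measurableSet_box J hA
        have := congrArg (fun m => m D) (k1 J A hA)
        simp only [Measure.map_apply s.measM hD, Measure.restrict_apply (s.measM hD),
          Measure.smul_apply, smul_eq_mul] at this
        rw [Measure.map_apply hem hb, Measure.restrict_apply (hem hb), Measure.smul_apply,
          smul_eq_mul, inter_comm, this, mul_comm]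
      have := congrArg (fun m => m B) k2
      simp only [Measure.map_apply hem hB, Measure.restrict_apply (hem hB), Measure.smul_apply,
        smul_eq_mul] at this
      rw [Measure.map_apply hpair (hD.prod hB), ← this, inter_comm]
      rfl
    unfold zip
    rw [← key, Measure.map_map measurable_zipF hpair]
    rfl
  · have h1 : ∀ᵐ x ∂s.P, dec s ν t0 s0 (s.M x) (e x) = x 0 := by
      filter_upwards [s.ae_M hn, ae_all_iff.2 (ae_inv ν t0 s0 hn)] with x h hi
      have hex := exists_lev1 (s := s) hd h.good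
      have hN : E.rt (lev1 s (s.M x) + 1) (s.M x) ≠ E.rt (lev1 s (s.M x)) (s.M x) ∧
          (0 : V d) ∈ s.R (lev1 s (s.M x)) (s.M x) :=
        first_spec (p := fun N m => E.rt (N + 1) m ≠ E.rt N m ∧ (0 : V d) ∈ s.R N m) hex
      unfold dec
      generalize lev1 s (s.M x) = N at hN
      have hz := h.good.rt_mem N
      have sp := (h.shift (E.rt N (s.M x))).spec ν t0 s0 (h.good.root_rt N)
      have a1 := hi N (-E.rt N (s.M x)) ((h.good.inn_inv hz _).2 (by rw [neg_add_cancel]; exact hN.2))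
      simp only [sh_apply, neg_add_cancel] at a1
      rw [← a1]
      refine congrFun (sp.d2 fun w hw => ?_) _
      have hw' : w + E.rt N (s.M x) ∈ E.C N (s.M x) := (h.good.inv hz w).1 hw
      rw [sh_apply, he x h, enc_eq ν t0 s0 (h.shift _) (N := N), val_sh ν t0 s0 h.good hw',
        add_sub_cancel_right]
      intro hc
      have g' := h.good.shift (w + E.rt N (s.M x))
      have b1 := rt_eq_of g' (Nat.le_succ N) (hc ▸ g'.mono (Nat.zero_le N) (g'.rt_mem 0))
      rw [h.good.rt_sh hw', h.good.rt_sh (h.good.mono (Nat.le_succ N) hw')] at b1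
      exact hN.1 (sub_left_injective b1)
    filter_upwards [s.stat.ae_sh h1, s.ae_M hn] with x hx h
    funext v
    have a1 : (sh v fun w => (zipF (s.M x, e x) w).1) = sh v (s.M x) := rfl
    have a2 : (sh v fun w => (zipF (s.M x, e x) w).2) = e (sh v x) := by
      funext w
      simp only [zipF, e, sh_apply, sh_sh]
    rw [a1, a2, ver_eq (lc_dec ν t0 s0 hd (h.shift v)), ← s.equiv, hx v]
    simp

end Pool.Agent.P.MP_1a5a6a_pr
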