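import Pool.Agent.P.MP_1a5a6a_pr.FI.Cells

set_option autoImplicit false
set_option linter.unusedSectionVars false
open MeasureTheory ProbabilityTheory Filter Set
open scoped ENNReal Classical

namespace Pool.Agent.P.MP_1a5a6a_pr

variable {d : ℕ}

theorem tendsto_measure_zero_of_ae {X : Type} [MeasurableSpace X] {μ : Measure X}
    [IsFiniteMeasure μ] {A : ℕ → Set X} (hA : ∀ n, NullMeasurableSet (A n) μ)
    (h : ∀ᵐ x ∂μ, ∀ᶠ n in atTop, x ∉ A n) : Tendsto (fun n => μ (A n)) atTop (nhds 0) := by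
  have h0 := tendsto_measure_of_ae_tendsto_indicator_of_isFiniteMeasure (μ := μ) atTop
    (As := fun n => toMeasurable μ (A n)) (A := ∅) MeasurableSet.empty
    (fun n => measurableSet_toMeasurable _ _) ?_
  · simpa using h0
  · have h1 : ∀ᵐ x ∂μ, ∀ n, (x ∈ toMeasurable μ (A n) ↔ x ∈ A n) := by
      rw [ae_all_iff]
      intro n
      exact (hA n).toMeasurable_ae_eq.mono fun m hm => iff_of_eq hm
    filter_upwards [h1, h] with m h1 hm
    exact hm.mono fun n hn => by simp [h1, hn]

section SCH0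
variable {E : Env d} {S : Type} [MeasurableSpace S]

/-- a function of the marker field (locally constant) and of the configuration (measurable) -/
theorem Side.aemeasurable_pair {β : Type} [MeasurableSpace β] [Nonempty β] (s : Side E S)
    {F : Mk d → Cf d S → β} (h : ∀ᵐ m ∂E.ρ, LC F m ∧ Measurable (F m)) :
    AEMeasurable (fun x => F (s.M x) x) s.P := by
  obtain ⟨c⟩ := ‹Nonempty β›
  let t : (Cf d S → β) → (Cf d S → β) := fun b => if Measurable b then b else fun _ => c
  have ht : ∀ b, Measurable (t b) := fun b => by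
    by_cases hb : Measurable b
    · simp [t, hb]
    · simp only [t, hb, if_false]; exact measurable_const
  refine ⟨fun x => t (ver F (fun _ => c) (s.M x)) x, ?_, ?_⟩
  · intro B hB
    have : (fun x => t (ver F (fun _ => c) (s.M x)) x) ⁻¹' B =
        ⋃ b ∈ range (ver F (fun _ => c)),
          (s.M ⁻¹' (ver F (fun _ => c) ⁻¹' {b}) ∩ t b ⁻¹' B) := by
      ext x
      simp only [mem_preimage, mem_iUnion, mem_inter_iff, mem_singleton_iff, exists_prop]
      exact ⟨fun h => ⟨_, mem_range_self (s.M x), rfl, h⟩, fun ⟨b, _, e, h⟩ => e ▸ h⟩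
    rw [this]
    exact MeasurableSet.biUnion (countable_range_ver F _) fun b _ =>
      (s.measM (measurableSet_ver F _ _)).inter (ht b hB)
  · filter_upwards [s.ae_M h] with x hx
    rw [ver_eq hx.1]
    simp [t, hx.2]

theorem Side.nullMeasurableSet_pair (s : Side E S) {Q : Mk d → Cf d S → Prop}
    (h : ∀ᵐ m ∂E.ρ, LC Q m ∧ MeasurableSet {x | Q m x}) :
    NullMeasurableSet {x | Q (s.M x) x} s.P :=
  (s.aemeasurable_pair (F := Q) (h.mono fun _ hm =>
    ⟨hm.1, measurableSet_setOfPred.1 hm.2⟩)).nullMeasurable (measurableSet_singleton True) |>.congr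
    (Eventually.of_forall fun x => by simp)

/-- valid for every alphabet -/
theorem Side.measure_cond (s : Side E S) (n : ℕ) (Q : Mk d → Cf d S → Prop)
    (h : ∀ᵐ m ∂E.ρ, LC Q m ∧ MeasurableSet {x | Q m x} ∧ DependsOn (Q m) (s.R n m)) :
    s.P {x | Q (s.M x) x} = ∫⁻ m, s.κ n m {x | Q m x} ∂E.ρ := by
  have h1 := s.cond n (fun m => {x | Q m x}.indicator 1) (h.mono fun m hm =>
    ⟨hm.1.post (fun q => {x | q x}.indicator (1 : Cf d S → ℝ≥0∞)),
      measurable_one.indicator hm.2.1, fun x y hxy => by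
        have := hm.2.2 hxy
        simp [indicator_apply, this]⟩)
  rw [← lintegral_indicator_one₀ (s.nullMeasurableSet_pair (h.mono fun _ hm => ⟨hm.1, hm.2.1⟩))]
  refine Eq.trans (lintegral_congr fun x => ?_) (h1.trans (lintegral_congr_ae ?_))
  · simp [indicator_apply]
  · exact h.mono fun m hm => lintegral_indicator_one hm.2.1

theorem Side.ae_cond (s : Side E S) (n : ℕ) (Q : Mk d → Cf d S → Prop)
    (h : ∀ᵐ m ∂E.ρ, LC Q m ∧ MeasurableSet {x | Q m x} ∧ DependsOn (Q m) (s.R n m) ∧
      ∀ᵐ x ∂(s.κ n m), Q m x) : ∀ᵐ x ∂s.P, Q (s.M x) x := by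
  rw [ae_iff, s.measure_cond n (fun m x => ¬ Q m x) (h.mono fun m hm =>
    ⟨hm.1.post (fun q x => ¬ q x), hm.2.1.compl, fun x y hxy => by
      have := hm.2.2.1 hxy
      simp only [this]⟩)]
  refine (lintegral_congr_ae (h.mono fun m hm => ?_)).trans lintegral_zero
  exact ae_iff.1 hm.2.2.2

/-- product formula for rectangles over the children -/
theorem Side.κ_rect (s : Side E S) : ∀ᵐ m ∂E.ρ, ∀ n N, n ≤ N → ∀ B : V d → Set (Cf d S),
    (∀ z ∈ E.ch n N m, MeasurableSet (B z) ∧ DependsOn (· ∈ B z) (s.R n (sh z m))) →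
      s.κ N m {x | ∀ z ∈ E.ch n N m, sh z x ∈ B z} = ∏ z ∈ E.ch n N m, s.κ n (sh z m) (B z) := by
  filter_upwards [s.prod] with m hm n N hn B hB
  have h1 := hm n N hn (fun z => (B z).indicator 1) (fun z hz =>
    ⟨measurable_one.indicator (hB z hz).1, fun x y hxy => by
      have := (hB z hz).2 hxy
      simp only [eq_iff_iff] at this
      simp [indicator_apply, this]⟩)
  have h2 : MeasurableSet {x : Cf d S | ∀ z ∈ E.ch n N m, sh z x ∈ B z} := by
    have : {x : Cf d S | ∀ z ∈ E.ch n N m, sh z x ∈ B z} = ⋂ z ∈ E.ch n N m, sh z ⁻¹' B z := by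
      ext x; simp
    rw [this]
    exact Finset.measurableSet_biInter _ fun z hz => measurable_sh z (hB z hz).1
  rw [← lintegral_indicator_one h2]
  refine Eq.trans (lintegral_congr fun x => ?_) (h1.trans (Finset.prod_congr rfl fun z hz =>
    lintegral_indicator_one (hB z hz).1))
  simp only [indicator_apply, Pi.one_apply, mem_ofPred_eq]
  rw [Finset.prod_boole]

/-- marginal of the level `N` law on one child -/
theorem Side.κ_child (s : Side E S) : ∀ᵐ m ∂E.ρ, ∀ n N, n ≤ N → ∀ z ∈ E.ch n N m,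
    ∀ B : Set (Cf d S), MeasurableSet B → DependsOn (· ∈ B) (s.R n (sh z m)) →
      s.κ N m (sh z ⁻¹' B) = s.κ n (sh z m) B := by
  filter_upwards [s.κ_rect] with m hm n N hn z hz B hB hd
  have h1 := hm n N hn (fun w => if w = z then B else univ) (fun w _ => by
    by_cases h : w = z
    · subst h; simpa using ⟨hB, hd⟩
    · simp only [h, if_false]
      exact ⟨MeasurableSet.univ, fun _ _ _ => by simp⟩)
  have h2 : {x : Cf d S | ∀ w ∈ E.ch n N m, sh w x ∈ if w = z then B else univ} = sh z ⁻¹' B := by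
    ext x
    simp only [mem_ofPred_eq, mem_preimage]
    refine ⟨fun h => by simpa using h z hz, fun h w _ => ?_⟩
    by_cases e : w = z
    · subst e; simpa using h
    · simp [e]
  rw [← h2, h1, Finset.prod_eq_single z]
  · simp
  · intro w _ hw; simp [hw]
  · intro h; exact absurd hz h

theorem Side.den_mono (s : Side E S) (n : ℕ) {Q Q' : Mk d → Cf d S → V d → Prop}
    (h : ∀ᵐ x ∂s.P, E.root n (s.M x) → ∀ v ∈ E.C n (s.M x), Q (s.M x) x v → Q' (s.M x) x v) :
    s.den n Q ≤ s.den n Q' := by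
  refine lintegral_mono_ae (h.mono fun x hx => ?_)
  by_cases hr : E.root n (s.M x)
  · simp only [hr, if_true]
    exact Nat.cast_le.2 (Finset.card_le_card fun v hv => Finset.mem_filter.2
      ⟨(Finset.mem_filter.1 hv).1, hx hr v (Finset.mem_filter.1 hv).1 (Finset.mem_filter.1 hv).2⟩)
  · simp [hr]

theorem Side.aemeasurable_den (s : Side E S) (n : ℕ) {Q : Mk d → Cf d S → V d → Prop}
    (hQ : ∀ v, NullMeasurableSet {x | Q (s.M x) x v} s.P) :
    AEMeasurable (fun x => if E.root n (s.M x) then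
      (((E.C n (s.M x)).filter (Q (s.M x) x)).card : ℝ≥0∞) else 0) s.P := by
  have : (fun x => if E.root n (s.M x) then
      (((E.C n (s.M x)).filter (Q (s.M x) x)).card : ℝ≥0∞) else 0) = fun x => ∑' v,
      (if E.root n (s.M x) ∧ v ∈ E.C n (s.M x) then (1 : ℝ≥0∞) else 0) *
        {x | Q (s.M x) x v}.indicator 1 x := by
    funext x
    by_cases h : E.root n (s.M x)
    · rw [if_pos h, tsum_eq_sum (s := E.C n (s.M x))]
      · rw [Finset.card_filter]
        push_cast
        exact Finset.sum_congr rfl fun v hv => by simp [h, hv, indicator_apply]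
      · intro v hv; simp [hv]
    · simp [h]
  rw [this]
  refine AEMeasurable.tsum fun v => AEMeasurable.mul ?_
    (aemeasurable_const.indicator₀ (hQ v))
  exact s.aemeasurable_M (f := fun m => if E.root n m ∧ v ∈ E.C n m then (1 : ℝ≥0∞) else 0)
    (E.ae_good.mono fun m hm =>
      ((hm.lc_root n).pair (hm.lc n)).post fun p => if p.1 ∧ v ∈ p.2 then (1 : ℝ≥0∞) else 0)

theorem Side.den_or (s : Side E S) (n : ℕ) (Q Q' : Mk d → Cf d S → V d → Prop)
    (hQ : ∀ v, NullMeasurableSet {x | Q (s.M x) x v} s.P) :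
    s.den n (fun m x v => Q m x v ∨ Q' m x v) ≤ s.den n Q + s.den n Q' := by
  unfold Side.den
  rw [← lintegral_add_left' (s.aemeasurable_den n hQ)]
  refine lintegral_mono fun x => ?_
  by_cases hr : E.root n (s.M x)
  · simp only [hr, if_true]
    rw [← Nat.cast_add, Nat.cast_le]
    refine le_trans (Finset.card_le_card fun v hv => ?_) (Finset.card_union_le _ _)
    simp only [Finset.mem_filter, Finset.mem_union] at hv ⊢
    tauto
  · simp [hr]

theorem Side.den_lift (s : Side E S) {n N : ℕ} (hn : n ≤ N) {Q Q' : Mk d → Cf d S → V d → Prop}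
    (hQ : ∀ v, NullMeasurableSet {x | Q (s.M x) x v} s.P)
    (h : ∀ᵐ x ∂s.P, ∀ z ∈ E.ch n N (s.M x), ∀ w ∈ E.C n (sh z (s.M x)),
      Q' (s.M x) x (w + z) → Q (sh z (s.M x)) (sh z x) w) : s.den N Q' ≤ s.den n Q := by
  have h1 := s.root_sum N _ (s.aemeasurable_den n hQ)
  unfold Side.den
  rw [← h1]
  refine lintegral_mono_ae ?_
  filter_upwards [h, s.ae_good] with x hx hg
  by_cases hr : E.root N (s.M x)
  · simp only [hr, if_true, s.equiv]
    rw [← E.sum_ch n N (s.M x) (fun z =>
      (((E.C n (sh z (s.M x))).filter (Q (sh z (s.M x)) (sh z x))).card : ℝ≥0∞)),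
      Finset.card_filter]
    push_cast
    rw [hg.sum_cell hn]
    refine Finset.sum_le_sum fun z hz => ?_
    rw [Finset.card_filter]
    push_cast
    refine Finset.sum_le_sum fun w hw => ?_
    by_cases hq : Q' (s.M x) x (w + z)
    · simp [hq, hx z hz w hw hq]
    · simp [hq]
  · simp [hr]

theorem Side.tendsto_den_not_R (s : Side E S) :
    Tendsto (fun n => s.den n fun m _ v => v ∉ s.R n m) atTop (nhds 0) := by
  have hnm : ∀ n v, NullMeasurableSet {x | v ∉ s.R n (s.M x)} s.P := fun n v =>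
    s.nullMeasurableSet_pair (Q := fun m _ => v ∉ s.R n m) (E.ae_good.mono fun m hm =>
      ⟨(hm.lc n).post (fun U (_ : Cf d S) => v ∉ inn s.k U), MeasurableSet.const _⟩)
  have h1 : ∀ n, (s.den n fun m _ v => v ∉ s.R n m) = s.P {x | 0 ∉ s.R n (s.M x)} := by
    intro n
    rw [s.den_eq n _ (hnm n)]
    refine measure_congr (s.ae_good.mono fun x hx => ?_)
    have := hx.inn_inv (k := s.k) (hx.rt_mem n) (-E.rt n (s.M x))
    simp only [neg_add_cancel] at this
    exact propext (not_congr this)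
  simp only [h1]
  refine tendsto_measure_zero_of_ae (fun n => hnm n 0) (s.ae_good.mono fun x hx => ?_)
  exact (hx.exh_inn s.k {0}).mono fun n hn => not_not.2 (hn (Finset.mem_singleton_self _))

theorem Env.exists_label (hd : 0 < d) (E : Env d) (n : ℕ) {ε : ℝ≥0∞} (hε : 0 < ε) :
    ∃ lab : Mk d → V d, (∀ᵐ m ∂E.ρ, LC lab m) ∧ ∀ i,
      ∫⁻ m, (if E.root n m ∧ lab m = i then ((E.C n m).card : ℝ≥0∞) else 0) ∂E.ρ ≤ ε := by
  obtain ⟨δ, hδ, h⟩ := exists_pos_setLIntegral_lt_of_measure_lt (μ := E.ρ)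
    (f := fun m => if E.root n m then ((E.C n m).card : ℝ≥0∞) else 0)
    (by rw [E.root_card]; exact ENNReal.one_ne_top) hε.ne'
  obtain ⟨N, hN⟩ := ((E.tendsto_root hd).eventually (gt_mem_nhds hδ)).exists
  refine ⟨E.rt N, E.ae_good.mono fun m hm => hm.lc_rt N, fun i => ?_⟩
  have h1 : E.ρ {m | E.rt N m = i} < δ := by
    refine lt_of_le_of_lt ?_ hN
    rw [← E.stat.measure_sh i {m | E.root N m}]
    refine measure_mono_ae (E.ae_good.mono fun m hm hi => ?_)
    have := hm.root_rt N
    rw [show E.rt N m = i from hi] at this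
    exact this
  refine le_trans ?_ (h _ h1).le
  refine le_trans (le_of_eq (lintegral_congr fun m => ?_)) (lintegral_indicator_le _ _)
  by_cases h2 : E.rt N m = i <;> simp [h2]

theorem Env.lift_lift (E : Env d) {n j N : ℕ} (hn : n ≤ j) (hj : j ≤ N) (α : Sch d S) :
    ∀ᵐ m ∂E.ρ, E.lift j N (E.lift n j α) m = E.lift n N α m := by
  have _ := hn
  filter_upwards [E.ae_good] with m hm
  ext x y
  change (∀ z ∈ E.ch j N m, ∀ w ∈ E.ch n j (sh z m),
    α (sh w (sh z m)) (sh w (sh z x)) (sh w (sh z y))) ↔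
    ∀ u ∈ E.ch n N m, α (sh u m) (sh u x) (sh u y)
  constructor
  · intro h u hu
    obtain ⟨z, hz, hw⟩ := (hm.mem_ch_trans hj).1 hu
    have := h z hz _ hw
    rwa [sh_sh, sh_sh, sh_sh, sub_add_cancel] at this
  · intro h z hz w hw
    rw [sh_sh, sh_sh, sh_sh]
    exact h (w + z) ((hm.mem_ch_trans hj).2 ⟨z, hz, by simpa using hw⟩)

theorem Env.card_lift_le (E : Env d) (n N : ℕ) {α : Sch d S}
    (h : ∀ᵐ m ∂E.ρ, Finite (Quotient (α m))) :
    ∀ᵐ m ∂E.ρ, Finite (Quotient (E.lift n N α m)) ∧ Nat.card (Quotient (E.lift n N α m)) ≤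
      ∏ z ∈ E.ch n N m, Nat.card (Quotient (α (sh z m))) := by
  filter_upwards [E.ae_sh h] with m hm
  let φ : Quotient (E.lift n N α m) → ∀ z : E.ch n N m, Quotient (α (sh z.1 m)) :=
    Quotient.lift (fun x z => Quotient.mk _ (sh z.1 x))
      (fun x y hxy => funext fun z => Quotient.sound (hxy z.1 z.2))
  have hφ : Function.Injective φ := by
    intro a b
    induction a using Quotient.inductionOn
    induction b using Quotient.inductionOn
    intro e
    exact Quotient.sound fun z hz => Quotient.exact (congrFun e ⟨z, hz⟩)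
  have : ∀ z : E.ch n N m, Finite (Quotient (α (sh z.1 m))) := fun z => hm z.1
  refine ⟨Finite.of_injective φ hφ, (Nat.card_le_card_of_injective φ hφ).trans (le_of_eq ?_)⟩
  rw [Nat.card_pi]
  exact Finset.prod_coe_sort (E.ch n N m) fun z => Nat.card (Quotient (α (sh z m)))

theorem Env.Good.lc_lift {m : Mk d} (hg : E.Good m) (n N : ℕ) {α : Sch d S}
    (h : ∀ z, LC α (sh z m)) : LC (E.lift n N α) m := by
  have h1 := lc_finset (f := fun z y => α (sh z y)) (E.ch n N m) (fun z _ => (h z).comp_sh)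
  refine ((hg.lc_ch n N).and h1).mono fun y hy => ?_
  ext a b
  change (∀ z ∈ E.ch n N y, α (sh z y) (sh z a) (sh z b)) ↔
    ∀ z ∈ E.ch n N m, α (sh z m) (sh z a) (sh z b)
  rw [hy.1]
  exact forall₂_congr fun z hz => by rw [hy.2 z hz]

theorem Side.full_child (s : Side E S) {m : Mk d} (hg : E.Good m) {n N : ℕ} (hn : n ≤ N)
    {z : V d} (hz : z ∈ E.ch n N m) {x y : Cf d S} (h : s.full N m x y) :
    s.full n (sh z m) (sh z x) (sh z y) := fun w hw =>
  h (w + z) (hg.child_inn hn (Env.Good.mem_ch.1 hz).1 hw)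

theorem Side.Pre.lift {s : Side E S} {n N : ℕ} (hn : n ≤ N) {α : Sch d S} (h : s.Pre n α) :
    s.Pre N (E.lift n N α) := by
  filter_upwards [E.ae_sh h, E.ae_good] with m hm hg
  exact ⟨hg.lc_lift n N fun z => (hm z).1, fun x y hxy z hz =>
    (hm z).2 _ _ (s.full_child hg hn hz hxy)⟩

theorem Side.FinSch.lift {s : Side E S} {n N : ℕ} (hn : n ≤ N) {α : Sch d S}
    (h : s.FinSch n α) : s.FinSch N (E.lift n N α) :=
  ⟨h.1.lift hn, (E.card_lift_le n N h.2).mono fun _ hm => hm.1⟩

theorem Side.FinSch.cnt_lift_le {s : Side E S} {n N : ℕ} (hn : n ≤ N) {α : Sch d S}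
    (h : s.FinSch n α) : E.cnt N (E.lift n N α) ≤ E.cnt n α := by
  have _ := hn
  have hne : ∀ β : Setoid (Cf d S), Nonempty (Quotient β) := fun β =>
    (nonempty_of_isProbabilityMeasure s.P).map (Quotient.mk β)
  have hF : AEMeasurable (fun m => if E.root n m then
      ENNReal.ofReal (Real.log (Nat.card (Quotient (α m)))) else 0) E.ρ :=
    aemeasurable_of_lc ((E.ae_good.and h.1).mono fun m hm =>
      ((hm.1.lc_root n).pair hm.2.1).post fun p =>
        if p.1 then ENNReal.ofReal (Real.log (Nat.card (Quotient p.2))) else 0)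
  unfold Env.cnt
  rw [← E.root_sum N _ hF]
  refine lintegral_mono_ae ?_
  filter_upwards [E.card_lift_le n N h.2, E.ae_sh h.2] with m hm hfin
  by_cases hr : E.root N m
  · simp only [hr, if_true]
    rw [← E.sum_ch n N m (fun z =>
      ENNReal.ofReal (Real.log (Nat.card (Quotient (α (sh z m)))))),
      ← ENNReal.ofReal_sum_of_nonneg (fun z _ => Real.log_natCast_nonneg _)]
    apply ENNReal.ofReal_le_ofReal
    have := hm.1
    have hpos : ∀ z, (0 : ℝ) < Nat.card (Quotient (α (sh z m))) := fun z => by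
      have := hfin z
      exact_mod_cast Nat.card_pos
    rw [← Real.log_prod (fun z _ => (hpos z).ne')]
    apply Real.log_le_log (by exact_mod_cast Nat.card_pos)
    exact_mod_cast hm.2
  · simp [hr]

theorem Side.pre_full (s : Side E S) (n : ℕ) : s.Pre n (s.full n) :=
  E.ae_good.mono fun _ hm =>
    ⟨(hm.lc n).post (fun U => (agree (inn s.k U) : Setoid (Cf d S))), fun _ _ h => h⟩

theorem Side.info_nonneg (s : Side E S) (n : ℕ) (α : Sch d S) (x : Cf d S) :
    0 ≤ s.info n α x :=
  neg_nonneg.2 (Real.log_nonpos measureReal_nonneg measureReal_le_one)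
end SCH0

end Pool.Agent.P.MP_1a5a6a_pr
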