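import Pool.Agent.P.MP_1a5a6a_pr.FI.Rokhlin
import Pool.Agent.P.MP_1a5a6a_pr.FI.Sch0
import Pool.Agent.P.MP_1a5a6a_pr.FI.Iso

set_option autoImplicit false
set_option linter.unusedSectionVars false
open MeasureTheory ProbabilityTheory Filter Set
open scoped ENNReal Classical

namespace Pool.Agent.P.MP_1a5a6a_pr.Atm

variable {d : ℕ}

theorem ext_pi {ι T : Type} [Fintype ι] [MeasurableSpace T] {m m' : Measure (ι → T)}
    [IsFiniteMeasure m]
    (h : ∀ A : ι → Set T, (∀ i, MeasurableSet (A i)) → m (univ.pi A) = m' (univ.pi A)) :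
    m = m' := by
  refine ext_of_generate_finite _ generateFrom_pi.symm isPiSystem_pi ?_ ?_
  · rintro _ ⟨A, hA, rfl⟩
    exact h A fun i => hA i (mem_univ i)
  · simpa using h (fun _ => univ) fun _ => MeasurableSet.univ

theorem ext_box {L : Type} [MeasurableSpace L] {m m' : Measure (Cf d L)} [IsFiniteMeasure m]
    (h : ∀ (J : Finset (V d)) (B : V d → Set L), (∀ v, MeasurableSet (B v)) →
      m {y | ∀ v ∈ J, y v ∈ B v} = m' {y | ∀ v ∈ J, y v ∈ B v}) : m = m' := by
  refine ext_of_generate_finite _ generateFrom_squareCylinders.symm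
    (isPiSystem_squareCylinders (fun _ => MeasurableSpace.isPiSystem_measurableSet) (by simp))
    ?_ ?_
  · rintro _ ⟨J, B, hB, rfl⟩
    exact h J B fun v => hB v (mem_univ v)
  · simpa using h ∅ (fun _ => univ) fun _ => MeasurableSet.univ

theorem measurableSet_box {L : Type} [MeasurableSpace L] (J : Finset (V d)) {B : V d → Set L}
    (hB : ∀ v, MeasurableSet (B v)) : MeasurableSet {y : Cf d L | ∀ v ∈ J, y v ∈ B v} :=
  MeasurableSet.pi (s := (J : Set (V d))) J.countable_toSet fun v _ => hB v

variable {S T : Type} [MeasurableSpace S] [StandardBorelSpace S] [MeasurableSpace T]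
  [StandardBorelSpace T]

/-- what the local coding has to satisfy -/
structure Spec (ν : Measure T) (κ : Measure (Cf d S)) (R C C0 : Finset (V d))
    (f : Cf d S → Cf d T) (p : (Cf d S → Cf d T) × (Cf d T → Cf d S)) : Prop where
  m1 : Measurable p.1
  m2 : Measurable p.2
  d1 : DependsOn p.1 (R : Set (V d))
  d2 : DependsOn p.2 (C : Set (V d))
  off : ∀ x, ∀ w, w ∉ C0 → p.1 x w = f x w
  law : ∀ A : V d → Set T, (∀ w, MeasurableSet (A w)) →
    κ {x | ∀ w ∈ C, p.1 x w ∈ A w} = ∏ w ∈ C, ν (A w)
  inv : ∀ᵐ x ∂κ, ∀ v ∈ R, p.2 (p.1 x) v = x v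

theorem exists_spec (ν : Measure T) [IsProbabilityMeasure ν] [NullSingletonClass ν]
    (κ : Measure (Cf d S)) [IsProbabilityMeasure κ] {R R0 C C0 : Finset (V d)} (hR : R0 ⊆ R)
    (hC : C0 ⊆ C) (hne : C0.Nonempty) {f : Cf d S → Cf d T} (hf : Measurable f)
    (hdep : DependsOn f (R : Set (V d)))
    (hat : ∀ x : Cf d S, κ {y | ∀ v ∈ R0, y v = x v} = 0)
    (hind : ∀ B : Set (Cf d S), MeasurableSet B → DependsOn (· ∈ B) (R0 : Set (V d)) →
      ∀ A : V d → Set T, (∀ w, MeasurableSet (A w)) →
        κ {x | x ∈ B ∧ ∀ w ∈ C \ C0, f x w ∈ A w} = κ B * ∏ w ∈ C \ C0, ν (A w)) :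
    ∃ p, Spec ν κ R C C0 f p := by
  obtain ⟨x0⟩ := nonempty_of_isProbabilityMeasure κ
  set U := C \ C0 with hU
  have : Nonempty C0 := hne.to_subtype
  let p : Cf d S → (U → T) := fun x => U.restrict (f x)
  have hp : Measurable p := (Finset.measurable_restrict U).comp hf
  let q : Cf d S → (R0 → S) := fun x => R0.restrict x
  have hq : Measurable q := Finset.measurable_restrict R0
  have hr : Measurable fun x : Cf d S => R.restrict x := Finset.measurable_restrict R
  have key : ∀ B : Set (R0 → S), MeasurableSet B →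
      (κ.restrict (q ⁻¹' B)).map p = κ (q ⁻¹' B) • Measure.pi fun _ : U => ν := by
    intro B hB
    refine ext_pi fun A hA => ?_
    rw [Measure.map_apply hp (MeasurableSet.univ_pi hA),
      Measure.restrict_apply (hp (MeasurableSet.univ_pi hA)), Measure.smul_apply, Measure.pi_pi,
      smul_eq_mul]
    have := hind (q ⁻¹' B) (hq hB) (fun x y hxy => by
        have : q x = q y := funext fun v => hxy v v.2
        simp only [mem_preimage, this])
      (fun w => if h : w ∈ U then A ⟨w, h⟩ else univ) (fun w => by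
        split_ifs
        · exact hA _
        · exact MeasurableSet.univ)
    rw [← Finset.prod_coe_sort U] at this
    simp only [Finset.coe_mem, dite_true] at this
    rw [← this]
    congr 1
    ext x
    simp only [mem_inter_iff, mem_preimage, Set.mem_pi, mem_univ, forall_const, mem_ofPred_eq,
      Subtype.forall]
    rw [and_comm]
    refine and_congr_right fun _ => forall_congr' fun w => forall_congr' fun hw => ?_
    simp [p, hw]
  have hpl : κ.map p = Measure.pi fun _ : U => ν := by
    simpa using key univ MeasurableSet.univ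
  have hpq : κ.map (fun x => (p x, q x)) = (Measure.pi fun _ : U => ν).prod (κ.map q) := by
    refine (Measure.prod_eq fun A B hA hB => ?_).symm
    rw [Measure.map_apply (hp.prodMk hq) (hA.prod hB), Measure.map_apply hq hB]
    have := congrArg (fun m => m A) (key B hB)
    simp only [Measure.map_apply hp hA, Measure.restrict_apply (hp hA), Measure.smul_apply,
      smul_eq_mul] at this
    rw [mul_comm, ← this]
    rfl
  have hqa : NullSingletonClass (κ.map q) := ⟨fun y => by
    rw [Measure.map_apply hq (measurableSet_singleton y)]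
    refine measure_mono_null ?_ (hat fun v => if h : v ∈ R0 then y ⟨v, h⟩ else x0 v)
    intro x hx v hv
    have : q x = y := hx
    simp only [hv, dite_true, ← this]
    rfl⟩
  let ρ : Measure ((U → T) × (R → S)) := κ.map fun x => (p x, R.restrict x)
  have : IsProbabilityMeasure ρ := Measure.isProbabilityMeasure_map (hp.prodMk hr).aemeasurable
  have hρ : ρ.fst = Measure.pi fun _ : U => ν := by
    rw [← hpl]
    exact Measure.fst_map_prodMk hr
  let ρ' : Measure ((U → T) × (C0 → T)) :=
    (Measure.pi fun _ : U => ν).prod (Measure.pi fun _ : C0 => ν)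
  have hρ' : ρ'.fst = Measure.pi fun _ : U => ν := Measure.fst_prod
  let e0 : (R → S) → (R0 → S) := fun y v => y ⟨v.1, hR v.2⟩
  have he : Measurable e0 := measurable_pi_lambda _ fun _ => measurable_pi_apply _
  obtain ⟨Φ, Ψ, hΦ, hΨ, l1, _, l3, _⟩ := Rok.rel_iso ρ ρ' e0 he id
    measurable_id
    (fun Q hQ hc => by
      have hm : MeasurableSet {w : (U → T) × (R → S) | (w.1, e0 w.2) ∈ Q} :=
        (measurable_fst.prodMk (he.comp measurable_snd)) hQ
      rw [Measure.map_apply (hp.prodMk hr) hm]
      have : κ.map (fun x => (p x, q x)) Q = 0 := by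
        rw [hpq, Measure.measure_prod_null hQ]
        exact Eventually.of_forall fun a => (hc a).measure_zero _
      rwa [Measure.map_apply (hp.prodMk hq) hQ] at this)
    (fun Q hQ hc => by
      show ρ' Q = 0
      rw [Measure.measure_prod_null hQ]
      exact Eventually.of_forall fun a => (hc a).measure_zero _)
    id id measurable_id measurable_id (by rw [Measure.map_id, hρ, hρ'])
    (by rw [Measure.map_id, hρ, hρ']) (Eventually.of_forall fun _ => rfl)
    (Eventually.of_forall fun _ => rfl)
  let e : Cf d S → Cf d T := fun x w =>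
    if h : w ∈ C0 then Φ (p x, R.restrict x) ⟨w, h⟩ else f x w
  let g : Cf d T → Cf d S := fun y v =>
    if h : v ∈ R then Ψ (U.restrict y, C0.restrict y) ⟨v, h⟩ else x0 v
  have e1 : ∀ x, U.restrict (e x) = p x := fun x => funext fun w => by
    have : w.1 ∉ C0 := (Finset.mem_sdiff.1 w.2).2
    simp [e, p, this]
  have e2 : ∀ x, C0.restrict (e x) = Φ (p x, R.restrict x) := fun x => funext fun w => by
    simp [e]
  have hΦ' : Measurable fun x => Φ (p x, R.restrict x) := hΦ.comp (hp.prodMk hr)
  have hem : Measurable e := measurable_pi_lambda _ fun w => by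
    by_cases h : w ∈ C0
    · simp only [e, h, dite_true]
      exact (measurable_pi_apply _).comp hΦ'
    · simp only [e, h, dite_false]
      exact (measurable_pi_apply _).comp hf
  refine ⟨(e, g), hem, measurable_pi_lambda _ fun v => ?_, fun x y hxy => ?_, fun x y hxy => ?_,
    fun x w hw => by simp [e, hw], fun A hA => ?_, ?_⟩
  · by_cases h : v ∈ R
    · simp only [g, h, dite_true]
      exact (measurable_pi_apply _).comp (hΨ.comp
        ((Finset.measurable_restrict U).prodMk (Finset.measurable_restrict C0)))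
    · simp only [g, h, dite_false]
      exact measurable_const
  · have a1 : f x = f y := hdep hxy
    have a2 : R.restrict x = R.restrict y := funext fun v => hxy v v.2
    simp only [e, p, a1, a2]
  · have a1 : U.restrict x = U.restrict y := funext fun v => hxy v (Finset.mem_sdiff.1 v.2).1
    have a2 : C0.restrict x = C0.restrict y := funext fun v => hxy v (hC v.2)
    simp only [g, a1, a2]
  · have hA1 : MeasurableSet (univ.pi fun w : U => A w) := MeasurableSet.univ_pi fun w => hA w
    have hA2 : MeasurableSet (univ.pi fun w : C0 => A w) := MeasurableSet.univ_pi fun w => hA w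
    have hc : Measurable fun x => (U.restrict (e x), C0.restrict (e x)) :=
      ((Finset.measurable_restrict U).comp hem).prodMk ((Finset.measurable_restrict C0).comp hem)
    have l2 : κ.map (fun x => (U.restrict (e x), C0.restrict (e x))) = ρ' := by
      rw [← l1, Measure.map_map (g := fun w : (U → T) × (R → S) => (id w.1, Φ w))
        (measurable_fst.prodMk hΦ) (hp.prodMk hr)]
      congr 1
      funext x
      simp only [e1, e2, Function.comp, id]
    have := congrArg (fun m => m ((univ.pi fun w : U => A w) ×ˢ univ.pi fun w : C0 => A w)) l2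
    simp only [ρ'] at this
    rw [Measure.map_apply hc (hA1.prod hA2),
      Measure.prod_prod, Measure.pi_pi, Measure.pi_pi, Finset.prod_coe_sort U fun w => ν (A w),
      Finset.prod_coe_sort C0 fun w => ν (A w), Finset.prod_sdiff hC] at this
    rw [← this]
    congr 1
    ext x
    simp only [mem_ofPred_eq, mem_preimage, mem_prod, Set.mem_pi, mem_univ, forall_const,
      Subtype.forall, Finset.restrict]
    constructor
    · intro h
      exact ⟨fun w hw => h w (Finset.mem_sdiff.1 hw).1, fun w hw => h w (hC hw)⟩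
    · rintro ⟨h1, h2⟩ w hw
      by_cases h : w ∈ C0
      · exact h2 w h
      · exact h1 w (Finset.mem_sdiff.2 ⟨hw, h⟩)
  · filter_upwards [ae_of_ae_map (hp.prodMk hr).aemeasurable l3] with x hx v hv
    simp only [g, hv, dite_true, e1, e2]
    exact congrFun hx ⟨v, hv⟩

/-- a local coding chosen as a function of its data -/
noncomputable def rk (ν : Measure T) (t0 : T) (s0 : S) (κ : Measure (Cf d S))
    (R C C0 : Finset (V d)) (f : Cf d S → Cf d T) : (Cf d S → Cf d T) × (Cf d T → Cf d S) :=
  if h : ∃ p, Spec ν κ R C C0 f p then h.choose else (fun _ _ => t0, fun _ _ => s0)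

theorem rk_spec {ν : Measure T} {t0 : T} {s0 : S} {κ : Measure (Cf d S)} {R C C0 : Finset (V d)}
    {f : Cf d S → Cf d T} (h : ∃ p, Spec ν κ R C C0 f p) :
    Spec ν κ R C C0 f (rk ν t0 s0 κ R C C0 f) := by
  rw [rk, dif_pos h]
  exact h.choose_spec

theorem rk_meas (ν : Measure T) (t0 : T) (s0 : S) (κ : Measure (Cf d S)) (R C C0 : Finset (V d))
    (f : Cf d S → Cf d T) :
    Measurable (rk ν t0 s0 κ R C C0 f).1 ∧ Measurable (rk ν t0 s0 κ R C C0 f).2 := by
  by_cases h : ∃ p, Spec ν κ R C C0 f p
  · exact ⟨(rk_spec h).m1, (rk_spec h).m2⟩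
  · rw [rk, dif_neg h]
    exact ⟨measurable_const, measurable_const⟩

theorem measurable_ver_pair {X Y β : Type} [MeasurableSpace X] [MeasurableSpace Y]
    [MeasurableSpace β] {F : Mk d → Y → β} (hF : ∀ m, Measurable (F m)) (c : β)
    {M : X → Mk d} (hM : Measurable M) {g : X → Y} (hg : Measurable g) :
    Measurable fun x => ver F (fun _ => c) (M x) (g x) := by
  intro B hB
  have : (fun x => ver F (fun _ => c) (M x) (g x)) ⁻¹' B =
      ⋃ b ∈ range (ver F (fun _ => c)),
        (M ⁻¹' (ver F (fun _ => c) ⁻¹' {b}) ∩ g ⁻¹' (b ⁻¹' B)) := by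
    ext x
    simp only [mem_preimage, mem_iUnion, mem_inter_iff, mem_singleton_iff, exists_prop]
    exact ⟨fun h => ⟨_, mem_range_self (M x), rfl, h⟩, fun ⟨b, _, e, h⟩ => e ▸ h⟩
  rw [this]
  refine MeasurableSet.biUnion (countable_range_ver F _) ?_
  rintro _ ⟨m, rfl⟩
  refine (hM (measurableSet_ver F _ _)).inter (hg ?_)
  unfold ver
  split_ifs
  · exact hF m hB
  · exact measurable_const hB

end Pool.Agent.P.MP_1a5a6a_pr.Atm
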