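import Pool.Agent.P.MP_1a5a6a_pr.FI.Defs

set_option autoImplicit false
set_option linter.unusedSectionVars false
open MeasureTheory ProbabilityTheory Filter Set
open scoped ENNReal Classical

namespace Pool.Agent.P.MP_1a5a6a_pr

variable {d : ℕ}

/-! ### shifts -/
section shifts
variable {S : Type}

@[simp] theorem sh_apply (a : V d) (x : Cf d S) (v : V d) : sh a x v = x (v + a) := rfl

@[simp] theorem sh_zero (x : Cf d S) : sh 0 x = x := by funext v; simp

theorem sh_sh (a b : V d) (x : Cf d S) : sh a (sh b x) = sh (a + b) x := by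
  funext v; simp [add_assoc]

@[simp] theorem sh_neg_sh (a : V d) (x : Cf d S) : sh (-a) (sh a x) = x := by simp [sh_sh]
@[simp] theorem sh_sh_neg (a : V d) (x : Cf d S) : sh a (sh (-a) x) = x := by simp [sh_sh]

variable [MeasurableSpace S]

theorem measurable_sh (a : V d) : Measurable (sh a : Cf d S → Cf d S) :=
  measurable_pi_lambda _ fun _ => measurable_pi_apply _

/-- the shift as a measurable equivalence -/
def shE (a : V d) : Cf d S ≃ᵐ Cf d S where
  toFun := sh a
  invFun := sh (-a)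
  left_inv := sh_neg_sh a
  right_inv := sh_sh_neg a
  measurable_toFun := measurable_sh a
  measurable_invFun := measurable_sh (-a)

theorem Stat.mp {μ : Measure (Cf d S)} (h : Stat μ) (a : V d) : MeasurePreserving (sh a) μ μ :=
  ⟨measurable_sh a, h a⟩

theorem Stat.lintegral_sh {μ : Measure (Cf d S)} (h : Stat μ) (a : V d) (f : Cf d S → ℝ≥0∞) :
    ∫⁻ x, f (sh a x) ∂μ = ∫⁻ x, f x ∂μ :=
  (h.mp a).lintegral_comp_emb (shE a).measurableEmbedding f

theorem Stat.integral_sh {μ : Measure (Cf d S)} (h : Stat μ) (a : V d) (f : Cf d S → ℝ) :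
    ∫ x, f (sh a x) ∂μ = ∫ x, f x ∂μ :=
  (h.mp a).integral_comp (shE a).measurableEmbedding f

theorem Stat.measure_sh {μ : Measure (Cf d S)} (h : Stat μ) (a : V d) (B : Set (Cf d S)) :
    μ (sh a ⁻¹' B) = μ B :=
  (h.mp a).measure_preimage_emb (shE a).measurableEmbedding B

theorem Stat.ae_sh {μ : Measure (Cf d S)} (h : Stat μ) {p : Cf d S → Prop} (hp : ∀ᵐ x ∂μ, p x) :
    ∀ᵐ x ∂μ, ∀ a, p (sh a x) := by
  rw [ae_all_iff]
  intro a
  exact (h.mp a).quasiMeasurePreserving.ae hp

theorem Stat.aemeasurable_sh {β : Type} [MeasurableSpace β] {μ : Measure (Cf d S)} (h : Stat μ)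
    (a : V d) {f : Cf d S → β} (hf : AEMeasurable f μ) : AEMeasurable (fun x => f (sh a x)) μ :=
  hf.comp_quasiMeasurePreserving (h.mp a).quasiMeasurePreserving

/-- mass transport principle -/
theorem Stat.mtp {μ : Measure (Cf d S)} (h : Stat μ) (f : V d → Cf d S → ℝ≥0∞)
    (hf : ∀ v, AEMeasurable (f v) μ) :
    ∫⁻ x, ∑' v, f v x ∂μ = ∫⁻ x, ∑' v, f v (sh (-v) x) ∂μ := by
  rw [lintegral_tsum hf, lintegral_tsum (fun v => h.aemeasurable_sh (-v) (hf v))]
  exact tsum_congr fun v => (h.lintegral_sh (-v) (f v)).symm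

end shifts

/-! ### balls -/

theorem mem_ball {r : ℕ} {v : V d} : v ∈ ball d r ↔ ∀ i, |v i| ≤ r := by
  simp [ball, Fintype.mem_piFinset, abs_le]

theorem mem_ball_norm {r : ℕ} {v : V d} : v ∈ ball d r ↔ ‖v‖ ≤ r := by
  rw [mem_ball, pi_norm_le_iff_of_nonneg (by positivity)]
  refine forall_congr' fun i => ?_
  rw [Int.norm_eq_abs]
  exact_mod_cast Iff.rfl

theorem card_ball (d r : ℕ) : (ball d r).card = (2 * r + 1) ^ d := by
  simp only [ball, Fintype.card_piFinset, Int.card_Icc, Finset.prod_const, Finset.card_univ,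
    Fintype.card_fin]
  congr 1
  omega

theorem ball_mono {r r' : ℕ} (h : r ≤ r') : ball d r ⊆ ball d r' := fun v hv => by
  rw [mem_ball_norm] at hv ⊢
  exact hv.trans (by exact_mod_cast h)

theorem zero_mem_ball (r : ℕ) : (0 : V d) ∈ ball d r := by simp [mem_ball]

theorem neg_mem_ball {r : ℕ} {v : V d} (h : v ∈ ball d r) : -v ∈ ball d r := by
  simpa [mem_ball_norm] using h

theorem add_mem_ball {r t : ℕ} {v w : V d} (h : v ∈ ball d r) (h' : w ∈ ball d t) :
    v + w ∈ ball d (r + t) := by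
  rw [mem_ball_norm] at *
  push_cast
  exact (norm_add_le _ _).trans (add_le_add h h')

theorem sub_mem_ball {r t : ℕ} {v w : V d} (h : v ∈ ball d r) (h' : w ∈ ball d t) :
    v - w ∈ ball d (r + t) := by
  rw [sub_eq_add_neg]; exact add_mem_ball h (neg_mem_ball h')

theorem exists_mem_ball (v : V d) : ∃ r, v ∈ ball d r :=
  ⟨⌈‖v‖⌉₊, mem_ball_norm.2 (Nat.le_ceil _)⟩

theorem exists_subset_ball (F : Finset (V d)) : ∃ r, F ⊆ ball d r := by
  induction F using Finset.induction_on with
  | empty => exact ⟨0, by simp⟩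
  | insert v F _ ih =>
    obtain ⟨r, hr⟩ := ih
    obtain ⟨t, ht⟩ := exists_mem_ball v
    refine ⟨max r t, Finset.insert_subset (ball_mono (le_max_right _ _) ht)
      (hr.trans (ball_mono (le_max_left _ _)))⟩

theorem not_mem_ball {r : ℕ} {v : V d} : v ∉ ball d r ↔ (r : ℝ) < ‖v‖ := by
  rw [mem_ball_norm, not_le]

theorem mem_inn {k : ℕ} {U : Finset (V d)} {v : V d} :
    v ∈ inn k U ↔ ∀ w ∈ ball d k, v + w ∈ U := by
  simp only [inn, Finset.mem_filter]
  exact ⟨fun h => h.2, fun h => ⟨by simpa using h 0 (zero_mem_ball k), h⟩⟩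

theorem inn_subset {k : ℕ} {U : Finset (V d)} : inn k U ⊆ U := Finset.filter_subset _ _

theorem inn_mono {k : ℕ} {U W : Finset (V d)} (h : U ⊆ W) : inn k U ⊆ inn k W := fun _ hv =>
  mem_inn.2 fun w hw => h (mem_inn.1 hv w hw)

/-- the revealed region of `U` is far from the complement of `U` -/
theorem inn_sep {k : ℕ} {U : Finset (V d)} {u w : V d} (hu : u ∈ inn k U) (hw : w ∉ U) :
    (k : ℝ) < ‖u - w‖ := by
  rw [← not_mem_ball]
  intro h
  have := mem_inn.1 hu _ (neg_mem_ball h)
  simp at this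
  exact hw this

/-! ### local constancy -/
section lc
variable {S T : Type} {β γ : Type}

theorem eventually_nb {x : Cf d S} {p : Cf d S → Prop} :
    (∀ᶠ y in nb x, p y) ↔ ∃ I : Finset (V d), ∀ y, (∀ v ∈ I, y v = x v) → p y := by
  constructor
  · intro h
    obtain ⟨I, hI, h⟩ := Filter.mem_pi_pure.1 h
    exact ⟨hI.toFinset, fun y hy => h y fun v hv => hy v (hI.mem_toFinset.2 hv)⟩
  · rintro ⟨I, h⟩
    exact Filter.mem_pi_pure.2 ⟨I, I.finite_toSet, fun y hy => h y fun v hv => hy v hv⟩

theorem eventually_nb_ball {x : Cf d S} {p : Cf d S → Prop} :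
    (∀ᶠ y in nb x, p y) ↔ ∃ r : ℕ, ∀ y, (∀ v ∈ ball d r, y v = x v) → p y := by
  rw [eventually_nb]
  constructor
  · rintro ⟨I, h⟩
    obtain ⟨r, hr⟩ := exists_subset_ball I
    exact ⟨r, fun y hy => h y fun v hv => hy v (hr hv)⟩
  · rintro ⟨r, h⟩
    exact ⟨_, h⟩

theorem eventually_eq_on (x : Cf d S) (I : Finset (V d)) : ∀ᶠ y in nb x, ∀ v ∈ I, y v = x v :=
  eventually_nb.2 ⟨I, fun _ h => h⟩

theorem self_of_nb {x : Cf d S} {p : Cf d S → Prop} (h : ∀ᶠ y in nb x, p y) : p x := by
  obtain ⟨I, h⟩ := eventually_nb.1 h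
  exact h x fun _ _ => rfl

theorem eventually_eventually_nb {x : Cf d S} {p : Cf d S → Prop} (h : ∀ᶠ y in nb x, p y) :
    ∀ᶠ y in nb x, ∀ᶠ z in nb y, p z := by
  obtain ⟨I, h⟩ := eventually_nb.1 h
  exact eventually_nb.2 ⟨I, fun y hy => eventually_nb.2
    ⟨I, fun z hz => h z fun v hv => (hz v hv).trans (hy v hv)⟩⟩

theorem tendsto_nb {α : Type} {l : Filter α} {f : α → Cf d S} {x : Cf d S} :
    Tendsto f l (nb x) ↔ ∀ v, ∀ᶠ a in l, f a v = x v := by
  simp [nb, Filter.tendsto_pi, tendsto_pure]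

theorem tendsto_sh (a : V d) (x : Cf d S) : Tendsto (sh a) (nb x) (nb (sh a x)) :=
  tendsto_nb.2 fun v => (eventually_eq_on x {v + a}).mono fun y hy => hy _ (by simp)

theorem LC.const (c : β) (x : Cf d S) : LC (fun _ => c) x := Eventually.of_forall fun _ => rfl

theorem LC.post {f : Cf d S → β} {x : Cf d S} (h : LC f x) (g : β → γ) :
    LC (fun y => g (f y)) x := h.mono fun _ hy => by simp only [hy]

theorem LC.pair {f : Cf d S → β} {g : Cf d S → γ} {x : Cf d S} (h : LC f x) (h' : LC g x) :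
    LC (fun y => (f y, g y)) x := (h.and h').mono fun _ hy => by simp only [hy.1, hy.2]

theorem LC.comp {f : Cf d T → β} {φ : Cf d S → Cf d T} {x : Cf d S} (h : LC f (φ x))
    (hφ : Tendsto φ (nb x) (nb (φ x))) : LC (fun y => f (φ y)) x := hφ.eventually h

theorem LC.comp_sh {f : Cf d S → β} {a : V d} {x : Cf d S} (h : LC f (sh a x)) :
    LC (fun y => f (sh a y)) x := h.comp (tendsto_sh a x)

theorem LC.eventually_lc {f : Cf d S → β} {x : Cf d S} (h : LC f x) : ∀ᶠ y in nb x, LC f y :=
  (eventually_eventually_nb h).mono fun _ hy => hy.mono fun _ hz => hz.trans (self_of_nb hy).symm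

theorem lc_apply (v : V d) (x : Cf d S) : LC (fun y => y v) x :=
  (eventually_eq_on x {v}).mono fun _ hy => hy v (by simp)

theorem lc_of_dependsOn {f : Cf d S → β} {I : Finset (V d)} (h : DependsOn f (I : Set (V d)))
    (x : Cf d S) : LC f x := (eventually_eq_on x I).mono fun _ hy => h hy

/-- a finite family of locally constant functions -/
theorem lc_finset {ι : Type} {f : ι → Cf d S → β} {x : Cf d S} (F : Finset ι)
    (h : ∀ i ∈ F, LC (f i) x) : ∀ᶠ y in nb x, ∀ i ∈ F, f i y = f i x :=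
  (Filter.eventually_all_finset F).2 h

/-- a family depending on a locally constant parameter -/
theorem LC.bind {f : Cf d S → β} {g : β → Cf d S → γ} {x : Cf d S} (h : LC f x)
    (h' : LC (g (f x)) x) : LC (fun y => g (f y) y) x :=
  (h.and h').mono fun _ hy => by simp only [hy.1, hy.2]

/-- the version of `f` that is `c` where `f` is not locally constant -/
noncomputable def ver (f : Cf d S → β) (c : β) (x : Cf d S) : β := if LC f x then f x else c

theorem ver_eq {f : Cf d S → β} {c : β} {x : Cf d S} (h : LC f x) : ver f c x = f x := if_pos h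

theorem LC.ver {f : Cf d S → β} {c : β} {x : Cf d S} (h : LC f x) : LC (ver f c) x :=
  (h.eventually_lc.and h).mono fun _ hy => by rw [ver_eq hy.1, ver_eq h, hy.2]

variable [MeasurableSpace S] [Countable S] [MeasurableSingletonClass S]

theorem measurableSet_cyl (I : Finset (V d)) (x : Cf d S) :
    MeasurableSet {y : Cf d S | ∀ v ∈ I, y v = x v} := by
  have : {y : Cf d S | ∀ v ∈ I, y v = x v} = ⋂ v ∈ I, (fun y : Cf d S => y v) ⁻¹' {x v} := by
    ext y; simp
  rw [this]
  exact Finset.measurableSet_biInter _ fun v _ =>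
    measurable_pi_apply v (measurableSet_singleton _)

/-- open sets are measurable -/
theorem measurableSet_of_open {B : Set (Cf d S)} (h : ∀ x ∈ B, ∀ᶠ y in nb x, y ∈ B) :
    MeasurableSet B := by
  by_cases hne : Nonempty S
  swap
  · have : B = ∅ := by
      ext x; exact absurd ⟨x 0⟩ hne
    simp [this]
  obtain ⟨s0⟩ := hne
  let ext : (Σ I : Finset (V d), (I → S)) → Cf d S :=
    fun p v => if h : v ∈ p.1 then p.2 ⟨v, h⟩ else s0
  have : B = ⋃ p : {p : (Σ I : Finset (V d), (I → S)) //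
      {y : Cf d S | ∀ v ∈ p.1, y v = ext p v} ⊆ B},
      {y : Cf d S | ∀ v ∈ p.1.1, y v = ext p.1 v} := by
    apply Subset.antisymm
    · intro x hx
      obtain ⟨I, hI⟩ := eventually_nb.1 (h x hx)
      refine mem_iUnion.2 ⟨⟨⟨I, fun v => x v⟩, fun y hy => hI y fun v hv => ?_⟩, fun v hv => ?_⟩
      · have := hy v hv
        simpa [ext, hv] using this
      · have hv' : v ∈ I := hv
        simp [ext, hv']
    · exact iUnion_subset fun p => p.2
  rw [this]
  exact MeasurableSet.iUnion fun p => measurableSet_cyl _ _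

theorem measurableSet_eventually (p : Cf d S → Prop) :
    MeasurableSet {x : Cf d S | ∀ᶠ y in nb x, p y} :=
  measurableSet_of_open fun _ hx => eventually_eventually_nb hx

theorem measurableSet_lc (f : Cf d S → β) : MeasurableSet {x : Cf d S | LC f x} :=
  measurableSet_of_open fun _ hx => LC.eventually_lc hx

theorem measurableSet_ver (f : Cf d S → β) (c : β) (B : Set β) :
    MeasurableSet (ver f c ⁻¹' B) := by
  have h1 : MeasurableSet {x : Cf d S | LC f x ∧ f x ∈ B} :=
    measurableSet_of_open fun x hx =>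
      (hx.1.eventually_lc.and hx.1).mono fun y hy => ⟨hy.1, hy.2 ▸ hx.2⟩
  by_cases hc : c ∈ B
  · have : ver f c ⁻¹' B = {x : Cf d S | LC f x ∧ f x ∈ B} ∪ {x | LC f x}ᶜ := by
      ext x; by_cases h : LC f x <;> simp [ver, h, hc]
    rw [this]; exact h1.union (measurableSet_lc f).compl
  · have : ver f c ⁻¹' B = {x : Cf d S | LC f x ∧ f x ∈ B} := by
      ext x; by_cases h : LC f x <;> simp [ver, h, hc]
    rw [this]; exact h1

theorem measurable_ver [MeasurableSpace β] (f : Cf d S → β) (c : β) : Measurable (ver f c) :=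
  fun _ _ => measurableSet_ver f c _

omit [MeasurableSpace S] [MeasurableSingletonClass S] in
theorem countable_range_ver (f : Cf d S → β) (c : β) : (range (ver f c)).Countable := by
  by_cases hne : Nonempty S
  swap
  · have : IsEmpty (Cf d S) := ⟨fun x => hne ⟨x 0⟩⟩
    simp [range_eq_empty]
  obtain ⟨s0⟩ := hne
  let ext : (Σ I : Finset (V d), (I → S)) → Cf d S :=
    fun p v => if h : v ∈ p.1 then p.2 ⟨v, h⟩ else s0
  refine ((countable_range fun p => f (ext p)).insert c).mono ?_
  rintro _ ⟨x, rfl⟩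
  by_cases h : LC f x
  · obtain ⟨I, hI⟩ := eventually_nb.1 h
    right
    refine ⟨⟨I, fun v => x v⟩, ?_⟩
    rw [ver_eq h]
    exact hI _ fun v hv => by simp [ext, hv]
  · left; simp [ver, h]

theorem measurable_of_lc [MeasurableSpace β] {f : Cf d S → β} (h : ∀ x, LC f x) :
    Measurable f := fun B _ =>
  measurableSet_of_open fun x hx => (h x).mono fun y hy => by
    simp only [mem_preimage] at hx ⊢; rwa [hy]

theorem measurable_of_dependsOn [MeasurableSpace β] {f : Cf d S → β} {I : Finset (V d)}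
    (h : DependsOn f (I : Set (V d))) : Measurable f :=
  measurable_of_lc (lc_of_dependsOn h)

theorem aemeasurable_of_lc [MeasurableSpace β] {μ : Measure (Cf d S)} {f : Cf d S → β}
    (h : ∀ᵐ x ∂μ, LC f x) : AEMeasurable f μ := by
  by_cases hne : Nonempty β
  · obtain ⟨c⟩ := hne
    exact ⟨ver f c, measurable_ver f c, h.mono fun x hx => (ver_eq hx).symm⟩
  · have : IsEmpty (Cf d S) := ⟨fun x => hne ⟨f x⟩⟩
    exact (measurable_of_empty f).aemeasurable

theorem nullMeasurableSet_of_lc {μ : Measure (Cf d S)} {p : Cf d S → Prop}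
    (h : ∀ᵐ x ∂μ, LC p x) : NullMeasurableSet {x | p x} μ :=
  (aemeasurable_of_lc h).nullMeasurable (measurableSet_singleton True) |>.congr
    (Eventually.of_forall fun x => by simp)

end lc

/-! ### lexicographic minimum -/

theorem lexmin_mem {F : Finset (V d)} (h : F.Nonempty) : lexmin F ∈ F := by
  have := Finset.min'_mem (F.image toLex) (h.image _)
  obtain ⟨v, hv, hv'⟩ := Finset.mem_image.1 this
  simp only [lexmin, dif_pos h, ← hv']
  exact hv

theorem lexmin_le {F : Finset (V d)} {v : V d} (hv : v ∈ F) : toLex (lexmin F) ≤ toLex v := by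
  have h : F.Nonempty := ⟨v, hv⟩
  simp only [lexmin, dif_pos h]
  exact Finset.min'_le _ _ (Finset.mem_image_of_mem _ hv)

theorem lexmin_eq {F : Finset (V d)} {z : V d} (hz : z ∈ F) (h : ∀ v ∈ F, toLex z ≤ toLex v) :
    lexmin F = z :=
  toLex.injective (le_antisymm (lexmin_le hz) (h _ (lexmin_mem ⟨z, hz⟩)))

theorem toLex_add_le {u v w : V d} : toLex (u + w) ≤ toLex (v + w) ↔ toLex u ≤ toLex v :=
  add_le_add_iff_right (toLex w)

/-- `lexmin` commutes with translations -/
theorem lexmin_shift {F F' : Finset (V d)} {a : V d} (hF : F.Nonempty)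
    (h : ∀ w, w ∈ F' ↔ w + a ∈ F) : lexmin F' = lexmin F - a := by
  apply lexmin_eq
  · rw [h]; simpa using lexmin_mem hF
  · intro v hv
    rw [← toLex_add_le (w := a)]
    simpa using lexmin_le ((h v).1 hv)

end Pool.Agent.P.MP_1a5a6a_pr
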