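import Pool.Agent.P.MP_1a5a6a_pr.FI.Sch0

set_option autoImplicit false
set_option linter.unusedSectionVars false
open MeasureTheory ProbabilityTheory Filter Set
open scoped ENNReal Classical

namespace Pool.Agent.P.MP_1a5a6a_pr

variable {d : ℕ}

section general
variable {X : Type} [MeasurableSpace X]

omit [MeasurableSpace X] in
theorem cls_eq_of_rel {α : Setoid X} {x y : X} (h : α x y) : cls α x = cls α y := by
  ext z
  exact ⟨fun hz => α.trans hz h, fun hz => α.trans hz (α.symm h)⟩

omit [MeasurableSpace X] in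
theorem cls_out (α : Setoid X) (x : X) : cls α (Quotient.mk α x).out = cls α x :=
  cls_eq_of_rel (Quotient.exact (Quotient.out_eq _))

omit [MeasurableSpace X] in
theorem mem_cls_out {α : Setoid X} {c : Quotient α} {x : X} :
    x ∈ cls α c.out ↔ Quotient.mk α x = c := by
  constructor
  · intro h
    rw [← Quotient.out_eq c]
    exact Quotient.sound h
  · rintro rfl
    exact α.symm (Quotient.exact (Quotient.out_eq _))

omit [MeasurableSpace X] in
theorem iUnion_cls (α : Setoid X) : ⋃ c : Quotient α, cls α c.out = univ :=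
  eq_univ_of_forall fun x => mem_iUnion.2 ⟨Quotient.mk α x, mem_cls_out.2 rfl⟩

theorem ae_cls_ne_zero (κ : Measure X) (α : Setoid X) [Countable (Quotient α)] :
    ∀ᵐ x ∂κ, κ (cls α x) ≠ 0 := by
  rw [ae_iff]
  refine measure_mono_null (t := ⋃ c : {c : Quotient α // κ (cls α c.out) = 0}, cls α c.1.out)
    (fun x hx => ?_) (measure_iUnion_null fun c => c.2)
  refine mem_iUnion.2 ⟨⟨Quotient.mk α x, ?_⟩, mem_cls_out.2 rfl⟩
  rw [cls_out]
  exact not_not.1 hx

theorem measurable_quot {β : Type} [MeasurableSpace β] (α : Setoid X) [Countable (Quotient α)]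
    (hα : ∀ x, MeasurableSet (cls α x)) (φ : Quotient α → β) :
    Measurable fun x => φ (Quotient.mk α x) := by
  intro B _
  have : (fun x => φ (Quotient.mk α x)) ⁻¹' B = ⋃ c : {c : Quotient α // φ c ∈ B},
      cls α c.1.out := by
    ext x
    simp only [mem_preimage, mem_iUnion, mem_cls_out]
    exact ⟨fun h => ⟨⟨_, h⟩, rfl⟩, fun ⟨c, e⟩ => e ▸ c.2⟩
  rw [this]
  exact MeasurableSet.iUnion fun c => hα _

/-- Gibbs inequality -/
theorem gibbs (κ : Measure X) [IsProbabilityMeasure κ] (α : Setoid X) [Countable (Quotient α)]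
    (hα : ∀ x, MeasurableSet (cls α x)) (q : Quotient α → ℝ) (hq : ∀ c, 0 < q c)
    (hs : ∑' c, ENNReal.ofReal (q c) ≤ 1) :
    ∫⁻ x, ENNReal.ofReal (-Real.log (κ.real (cls α x))) ∂κ ≤
      ∫⁻ x, ENNReal.ofReal (-Real.log (q (Quotient.mk α x))) ∂κ := by
  have hq1 : ∀ c, q c ≤ 1 := fun c =>
    ENNReal.ofReal_le_one.1 ((ENNReal.le_tsum (f := fun c => ENNReal.ofReal (q c)) c).trans hs)
  have h1 : ∫⁻ x, ENNReal.ofReal (q (Quotient.mk α x) / κ.real (cls α x)) ∂κ ≤ 1 := by
    rw [← setLIntegral_univ, ← iUnion_cls α]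
    refine (lintegral_iUnion_le _ _).trans (le_trans (ENNReal.tsum_le_tsum fun c => ?_) hs)
    rw [setLIntegral_congr_fun (hα _) (g := fun _ => ENNReal.ofReal (q c / κ.real (cls α c.out)))
      (fun x hx => by
        have e := mem_cls_out.1 hx
        simp only
        rw [e, cls_eq_of_rel (show α x c.out from hx)]), setLIntegral_const,
      ← ofReal_measureReal (measure_ne_top κ _),
      ← ENNReal.ofReal_mul (div_nonneg (hq c).le measureReal_nonneg)]
    apply ENNReal.ofReal_le_ofReal
    rcases eq_or_ne (κ.real (cls α c.out)) 0 with h0 | h0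
    · rw [h0, mul_zero]; exact (hq c).le
    · rw [div_mul_cancel₀ _ h0]
  have h2 : ∫⁻ x, ENNReal.ofReal (-Real.log (κ.real (cls α x))) ∂κ + 1 ≤
      ∫⁻ x, ENNReal.ofReal (-Real.log (q (Quotient.mk α x))) ∂κ + 1 := by
    calc ∫⁻ x, ENNReal.ofReal (-Real.log (κ.real (cls α x))) ∂κ + 1
        = ∫⁻ x, (ENNReal.ofReal (-Real.log (κ.real (cls α x))) + 1) ∂κ := by
          rw [lintegral_add_right _ measurable_const]; simp
      _ ≤ ∫⁻ x, (ENNReal.ofReal (-Real.log (q (Quotient.mk α x))) +
            ENNReal.ofReal (q (Quotient.mk α x) / κ.real (cls α x))) ∂κ := by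
          refine lintegral_mono_ae ((ae_cls_ne_zero κ α).mono fun x hx => ?_)
          have hp : 0 < κ.real (cls α x) :=
            ENNReal.toReal_pos hx (measure_ne_top κ _)
          have a1 : 0 ≤ -Real.log (κ.real (cls α x)) :=
            neg_nonneg.2 (Real.log_nonpos hp.le measureReal_le_one)
          have a2 : 0 ≤ -Real.log (q (Quotient.mk α x)) :=
            neg_nonneg.2 (Real.log_nonpos (hq _).le (hq1 _))
          have a3 := div_pos (hq (Quotient.mk α x)) hp
          have a4 := Real.log_le_sub_one_of_pos a3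
          rw [Real.log_div (hq _).ne' hp.ne'] at a4
          rw [← ENNReal.ofReal_one, ← ENNReal.ofReal_add a1 zero_le_one,
            ← ENNReal.ofReal_add a2 a3.le]
          exact ENNReal.ofReal_le_ofReal (by linarith)
      _ = ∫⁻ x, ENNReal.ofReal (-Real.log (q (Quotient.mk α x))) ∂κ +
            ∫⁻ x, ENNReal.ofReal (q (Quotient.mk α x) / κ.real (cls α x)) ∂κ :=
          lintegral_add_left (measurable_quot α hα fun c => ENNReal.ofReal (-Real.log (q c))) _
      _ ≤ _ := by gcongr
  exact (ENNReal.add_le_add_iff_right ENNReal.one_ne_top).1 h2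

end general

section SCH
variable {E : Env d} {S S' : Type} [MeasurableSpace S] [Countable S] [MeasurableSingletonClass S]
  [MeasurableSpace S'] [Countable S'] [MeasurableSingletonClass S']

theorem measurableSet_cls {I : Finset (V d)} {α : Setoid (Cf d S)}
    (h : ∀ x y, agree I x y → α x y) (x : Cf d S) : MeasurableSet (cls α x) :=
  measurableSet_of_open fun y hy => (eventually_eq_on y I).mono fun z hz =>
    α.trans (h z y hz) hy

theorem countable_quot {I : Finset (V d)} {α : Setoid (Cf d S)}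
    (h : ∀ x y, agree I x y → α x y) : Countable (Quotient α) := by
  refine Function.Injective.countable (f := fun (c : Quotient α) (v : I) => c.out v.1) ?_
  intro a b e
  rw [← Quotient.out_eq a, ← Quotient.out_eq b]
  exact Quotient.sound (h _ _ fun v hv => congrFun e ⟨v, hv⟩)

theorem dependsOn_cls {β : Type} {I : Finset (V d)} {α : Setoid (Cf d S)}
    (h : ∀ x y, agree I x y → α x y) (φ : Set (Cf d S) → β) :
    DependsOn (fun x => φ (cls α x)) (I : Set (V d)) := fun x y hxy => by
  simp only [cls_eq_of_rel (h x y hxy)]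

theorem dependsOn_mem_cls {I : Finset (V d)} {α : Setoid (Cf d S)}
    (h : ∀ x y, agree I x y → α x y) (x : Cf d S) :
    DependsOn (· ∈ cls α x) (I : Set (V d)) := fun y z hyz =>
  propext ⟨fun hy => α.trans (α.symm (h y z hyz)) hy, fun hz => α.trans (h y z hyz) hz⟩

theorem Side.ae_pos (s : Side E S) : ∀ᵐ x ∂s.P, ∀ n z,
    s.κ n (sh z (s.M x)) (cls (s.full n (sh z (s.M x))) (sh z x)) ≠ 0 := by
  have h1 : ∀ᵐ x ∂s.P, ∀ n, s.κ n (s.M x) (cls (s.full n (s.M x)) x) ≠ 0 := by
    rw [ae_all_iff]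
    intro n
    refine s.ae_cond n (fun m x => s.κ n m (cls (s.full n m) x) ≠ 0) ?_
    filter_upwards [s.κlc, s.pre_full n] with m hκ hf
    have hd := dependsOn_cls (α := s.full n m) hf.2 (fun B => s.κ n m B ≠ 0)
    have := countable_quot (α := s.full n m) hf.2
    exact ⟨((hκ n).pair hf.1).post fun p x => p.1 (cls p.2 x) ≠ 0,
      measurableSet_setOfPred.2 (measurable_of_dependsOn hd), hd, ae_cls_ne_zero _ _⟩
  filter_upwards [s.stat.ae_sh h1] with x hx n z
  have := hx z n
  rwa [s.equiv] at this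

theorem Side.Pre.ae_pos {s : Side E S} {n : ℕ} {α : Sch d S} (h : s.Pre n α) : ∀ᵐ x ∂s.P, ∀ z,
    0 < (s.κ n (sh z (s.M x))).real (cls (α (sh z (s.M x))) (sh z x)) := by
  filter_upwards [s.ae_pos, s.ae_M (E.ae_sh h)] with x hx hm z
  refine ENNReal.toReal_pos (fun h0 => hx n z ?_) (measure_ne_top _ _)
  exact measure_mono_null (fun y hy => (hm z).2 _ _ hy) h0

theorem Side.Pre.lc_info {s : Side E S} {n : ℕ} {α : Sch d S} (h : s.Pre n α) :
    ∀ᵐ x ∂s.P, LC (s.info n α) x := by
  filter_upwards [s.lc_M (s.κlc.mono fun m hm => hm n), s.lc_M (h.mono fun m hm => hm.1),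
    s.ae_M h] with x h1 h2 h3
  refine (h1.and (h2.and (eventually_eq_on x (s.R n (s.M x))))).mono fun y hy => ?_
  unfold Side.info
  rw [show s.κ n (s.M y) = s.κ n (s.M x) from hy.1, show α (s.M y) = α (s.M x) from hy.2.1,
    cls_eq_of_rel (h3.2 y x hy.2.2)]

theorem Side.Pre.info_lift {s : Side E S} {n N : ℕ} (hn : n ≤ N) {α : Sch d S}
    (h : s.Pre n α) : ∀ᵐ x ∂s.P, s.info N (E.lift n N α) x =
      ∑ v ∈ E.C N (s.M x), if E.root n (s.M (sh v x)) then s.info n α (sh v x) else 0 := by
  filter_upwards [h.ae_pos, s.ae_M (E.ae_sh h), s.ae_M s.κ_rect] with x hpos hm hrect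
  have h1 := hrect n N hn (fun z => cls (α (sh z (s.M x))) (sh z x)) (fun z _ =>
    ⟨measurableSet_cls (hm z).2 _, dependsOn_mem_cls (hm z).2 _⟩)
  have h2 : (s.κ N (s.M x)).real (cls (E.lift n N α (s.M x)) x) = ∏ z ∈ E.ch n N (s.M x),
      (s.κ n (sh z (s.M x))).real (cls (α (sh z (s.M x))) (sh z x)) := by
    simp only [Measure.real]
    rw [← ENNReal.toReal_prod, ← h1]
    rfl
  simp only [Side.info, s.equiv]
  rw [h2, Real.log_prod (fun z _ => (hpos z).ne'), ← Finset.sum_neg_distrib, E.sum_ch]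

theorem Side.Pre.aemeasurable_ent {s : Side E S} {n : ℕ} {α : Sch d S} (h : s.Pre n α) :
    AEMeasurable (fun x => if E.root n (s.M x) then ENNReal.ofReal (s.info n α x) else 0) s.P :=
  aemeasurable_of_lc ((h.lc_info.and
    (s.lc_M (E.ae_good.mono fun _ hm => hm.lc_root n))).mono fun _ hx =>
      (hx.2.pair hx.1).post fun p => if p.1 then ENNReal.ofReal p.2 else 0)

theorem Side.Pre.ent_lift {s : Side E S} {n N : ℕ} (hn : n ≤ N) {α : Sch d S}
    (h : s.Pre n α) : s.ent N (E.lift n N α) = s.ent n α := by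
  unfold Side.ent
  rw [← s.root_sum N _ h.aemeasurable_ent]
  refine lintegral_congr_ae ((h.info_lift hn).mono fun x hx => ?_)
  by_cases hr : E.root N (s.M x)
  · simp only [hr, if_true]
    rw [hx, ENNReal.ofReal_sum_of_nonneg (fun v _ => by
      split_ifs
      · exact s.info_nonneg _ _ _
      · exact le_rfl)]
    refine Finset.sum_congr rfl fun v _ => ?_
    split_ifs <;> simp
  · simp [hr]

theorem Side.Pre.info_mono {s : Side E S} {n : ℕ} {α γ : Sch d S} (h : s.Pre n γ)
    (hle : ∀ᵐ m ∂E.ρ, ∀ x y, γ m x y → α m x y) :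
    ∀ᵐ x ∂s.P, s.info n α x ≤ s.info n γ x := by
  filter_upwards [h.ae_pos, s.ae_M hle] with x hpos hm
  have h0 := hpos 0
  simp only [sh_zero] at h0
  exact neg_le_neg (Real.log_le_log h0 (measureReal_mono (fun y hy => hm _ _ hy)))

theorem Side.Pre.ent_mono {s : Side E S} {n : ℕ} {α γ : Sch d S} (h : s.Pre n γ)
    (hle : ∀ᵐ m ∂E.ρ, ∀ x y, γ m x y → α m x y) : s.ent n α ≤ s.ent n γ := by
  refine lintegral_mono_ae ((h.info_mono hle).mono fun x hx => ?_)
  split_ifs
  · exact ENNReal.ofReal_le_ofReal hx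
  · exact le_rfl

theorem Side.ent_full_mono (s : Side E S) : Monotone fun n => s.ent n (s.full n) := by
  intro n N hn
  simp only
  rw [← (s.pre_full n).ent_lift hn]
  exact (s.pre_full N).ent_mono (((s.pre_full n).lift hn).mono fun _ hm => hm.2)

theorem Side.Pre.ent_le_g {s : Side E S} {n : ℕ} {α : Sch d S} (h : s.Pre n α) :
    s.ent n α ≤ s.g :=
  ((s.pre_full n).ent_mono (h.mono fun _ hm => hm.2)).trans
    (le_iSup (fun n => s.ent n (s.full n)) n)

/-- the entropy density as an average of conditional entropies -/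
theorem Side.Pre.ent_eq {s : Side E S} {n : ℕ} {α : Sch d S} (h : s.Pre n α) :
    s.ent n α = ∫⁻ m, (if E.root n m then
      ∫⁻ x, ENNReal.ofReal (-Real.log ((s.κ n m).real (cls (α m) x))) ∂(s.κ n m) else 0) ∂E.ρ := by
  have h1 := s.cond n (fun m x => if E.root n m then
      ENNReal.ofReal (-Real.log ((s.κ n m).real (cls (α m) x))) else 0) (by
    filter_upwards [s.κlc, h, E.ae_good] with m hκ hm hg
    have hd := dependsOn_cls hm.2 (fun B => if E.root n m then
      ENNReal.ofReal (-Real.log ((s.κ n m).real B)) else 0)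
    exact ⟨((hg.lc_root n).pair ((hκ n).pair hm.1)).post fun p x => if p.1 then
      ENNReal.ofReal (-Real.log (p.2.1.real (cls p.2.2 x))) else 0,
      measurable_of_dependsOn hd, hd⟩)
  refine h1.trans (lintegral_congr fun m => ?_)
  split_ifs <;> simp

/-- Gibbs inequality against the uniform law on classes -/
theorem Side.FinSch.ent_le_cnt {s : Side E S} {n : ℕ} {α : Sch d S} (h : s.FinSch n α) :
    s.ent n α ≤ E.cnt n α := by
  rw [h.1.ent_eq]
  refine lintegral_mono_ae ?_
  filter_upwards [h.1, h.2] with m hm hfin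
  split_ifs
  · have : Nonempty (Quotient (α m)) :=
      (nonempty_of_isProbabilityMeasure s.P).map (Quotient.mk _)
    have hpos : (0 : ℝ) < Nat.card (Quotient (α m)) := by exact_mod_cast Nat.card_pos
    have := Fintype.ofFinite (Quotient (α m))
    refine (gibbs (s.κ n m) (α m) (measurableSet_cls hm.2)
      (fun _ => (Nat.card (Quotient (α m)) : ℝ)⁻¹) (fun _ => inv_pos.2 hpos) ?_).trans ?_
    · rw [tsum_fintype, Finset.sum_const, Finset.card_univ, ← Nat.card_eq_fintype_card,
        nsmul_eq_mul, ← ENNReal.ofReal_natCast, ← ENNReal.ofReal_mul hpos.le,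
        mul_inv_cancel₀ hpos.ne', ENNReal.ofReal_one]
    · simp
  · exact le_rfl

/-- Gibbs inequality against a product law -/
theorem Side.g_le_cross (s : Side E S) (ν : Measure S) [IsProbabilityMeasure ν]
    (hν : ∀ t, ν {t} ≠ 0) :
    s.g ≤ ∫⁻ x, ENNReal.ofReal (-Real.log (ν.real {x 0})) ∂s.P := by
  refine iSup_le fun n => ?_
  let φ : S → ℝ≥0∞ := fun t => ENNReal.ofReal (-Real.log (ν.real {t}))
  have hF : Measurable fun x : Cf d S => φ (x 0) :=
    (measurable_of_countable φ).comp (measurable_pi_apply 0)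
  have h1 := s.cond n (fun m x => if E.root n m then ∑ v ∈ s.R n m, φ (x v) else 0) (by
    filter_upwards [E.ae_good] with m hg
    have hd : DependsOn (fun x : Cf d S => if E.root n m then ∑ v ∈ s.R n m, φ (x v) else 0)
        (s.R n m : Set (V d)) := fun x y hxy => by
      simp only
      rw [Finset.sum_congr rfl fun v hv => by rw [hxy v hv]]
    exact ⟨((hg.lc_root n).pair (hg.lc n)).post fun p (x : Cf d S) => if p.1 then
      ∑ v ∈ inn s.k p.2, φ (x v) else 0, measurable_of_dependsOn hd, hd⟩)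
  rw [(s.pre_full n).ent_eq, ← s.root_sum n _ hF.aemeasurable]
  refine le_trans (lintegral_mono fun m => ?_) (h1.symm.le.trans (lintegral_mono fun x => ?_))
  · by_cases hr : E.root n m
    · simp only [hr, if_true]
      have hrefl : ∀ x y : Cf d S, agree (s.R n m) x y → s.full n m x y := fun _ _ h => h
      have := countable_quot hrefl
      let μ : Measure (Cf d S) := Measure.infinitePi fun _ : V d => ν
      have hμ : ∀ x : Cf d S, μ (cls (s.full n m) x) = ∏ v ∈ s.R n m, ν {x v} := by
        intro x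
        have e : cls (s.full n m) x = Set.pi (s.R n m : Set (V d)) fun v => {x v} := by
          ext y; rfl
        rw [e]
        exact Measure.infinitePi_pi _ fun v _ => measurableSet_singleton _
      have hpos : ∀ t, 0 < ν.real {t} := fun t => ENNReal.toReal_pos (hν t) (measure_ne_top _ _)
      have hreal : ∀ x : Cf d S, μ.real (cls (s.full n m) x) = ∏ v ∈ s.R n m, ν.real {x v} := by
        intro x
        simp only [Measure.real]
        rw [hμ, ENNReal.toReal_prod]
      refine (gibbs (s.κ n m) (s.full n m) (measurableSet_cls hrefl)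
        (fun c => μ.real (cls (s.full n m) c.out))
        (fun c => by rw [hreal]; exact Finset.prod_pos fun v _ => hpos _) ?_).trans
        (le_of_eq (lintegral_congr fun x => ?_))
      · simp only [ofReal_measureReal (measure_ne_top μ _)]
        rw [← measure_iUnion _ (fun c => measurableSet_cls hrefl _)]
        · exact prob_le_one
        · intro a b hab
          refine Set.disjoint_left.2 fun x ha hb => hab ?_
          exact (mem_cls_out.1 ha).symm.trans (mem_cls_out.1 hb)
      · rw [cls_out, hreal, Real.log_prod (fun v _ => (hpos _).ne'), ← Finset.sum_neg_distrib,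
          ENNReal.ofReal_sum_of_nonneg (fun v _ =>
            neg_nonneg.2 (Real.log_nonpos measureReal_nonneg measureReal_le_one))]
    · simp [hr]
  · by_cases hr : E.root n (s.M x)
    · simp only [hr, if_true, sh_apply, zero_add]
      exact Finset.sum_le_sum_of_subset inn_subset
    · simp [hr]

theorem cpl_lift_half {s : Side E S} {s' : Side E S'} {n N : ℕ} (hn : n ≤ N)
    {D : Mk d → Cf d S → Cf d S' → ℝ≥0∞}
    (h : ∀ᵐ m ∂E.ρ, (∀ x x' y y', s.full n m x x' → s'.full n m y y' → D m x y = D m x' y') ∧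
      ∀ᵐ x ∂(s.κ n m), ∫⁻ y, D m x y ∂(s'.κ n m) = 1) :
    ∀ᵐ m ∂E.ρ, ∀ᵐ x ∂(s.κ N m),
      ∫⁻ y, ∏ z ∈ E.ch n N m, D (sh z m) (sh z x) (sh z y) ∂(s'.κ N m) = 1 := by
  filter_upwards [E.ae_sh h, s.κ_child, s'.prod] with m hm hch hprod
  have h1 : ∀ᵐ x ∂(s.κ N m), ∀ z ∈ E.ch n N m,
      ∫⁻ y, D (sh z m) (sh z x) y ∂(s'.κ n (sh z m)) = 1 := by
    rw [Filter.eventually_all_finset]
    intro z hz
    have hd : DependsOn (fun x => ¬ ∫⁻ y, D (sh z m) x y ∂(s'.κ n (sh z m)) = 1)
        (s.R n (sh z m) : Set (V d)) := fun x x' hxx => by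
      simp only
      rw [show D (sh z m) x = D (sh z m) x' from funext fun y =>
        (hm z).1 x x' y y hxx fun _ _ => rfl]
    rw [ae_iff]
    exact (hch n N hn z hz {x | ¬ ∫⁻ y, D (sh z m) x y ∂(s'.κ n (sh z m)) = 1}
      (measurableSet_setOfPred.2 (measurable_of_dependsOn hd)) hd).trans (ae_iff.1 (hm z).2)
  filter_upwards [h1] with x hx
  rw [hprod n N hn (fun z => D (sh z m) (sh z x)) (fun z _ => by
    have hd : DependsOn (D (sh z m) (sh z x)) (s'.R n (sh z m) : Set (V d)) := fun y y' hyy =>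
      (hm z).1 _ _ y y' (fun _ _ => rfl) hyy
    exact ⟨measurable_of_dependsOn hd, hd⟩)]
  exact Finset.prod_eq_one hx

theorem Cpl.lift {s : Side E S} {s' : Side E S'} {n N : ℕ} (hn : n ≤ N)
    {D : Mk d → Cf d S → Cf d S' → ℝ≥0∞} (h : Cpl s s' n D) :
    Cpl s s' N fun m x y => ∏ z ∈ E.ch n N m, D (sh z m) (sh z x) (sh z y) := by
  have h1 := cpl_lift_half hn (h.mono fun m hm => ⟨hm.2.1, hm.2.2.1⟩)
  have h2 := cpl_lift_half (s := s') (s' := s) (D := fun m y x => D m x y) hn
    (h.mono fun m hm => ⟨fun y y' x x' hy hx => hm.2.1 x x' y y' hx hy, hm.2.2.2⟩)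
  filter_upwards [h1, h2, E.ae_sh h, E.ae_good] with m h1 h2 hm hg
  refine ⟨?_, fun x x' y y' hx hy => Finset.prod_congr rfl fun z hz =>
    (hm z).2.1 _ _ _ _ (s.full_child hg hn hz hx) (s'.full_child hg hn hz hy), h1, h2⟩
  have h3 := lc_finset (f := fun z y => D (sh z y)) (E.ch n N m) (fun z _ => (hm z).1.comp_sh)
  refine ((hg.lc_ch n N).and h3).mono fun m' hm' => ?_
  funext x y
  simp only
  rw [hm'.1]
  exact Finset.prod_congr rfl fun z hz => by rw [hm'.2 z hz]
end SCH

end Pool.Agent.P.MP_1a5a6a_pr
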