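import Pool.Agent.P.MP_1a5a6a_pr.FI.MkSide
import Pool.Agent.P.MP_1a5a6a_pr.FI.Sch1
import Pool.Agent.P.MP_1a5a6a_pr.FI.Iso

set_option autoImplicit false
set_option linter.unusedSectionVars false
open MeasureTheory ProbabilityTheory Filter Set
open scoped ENNReal Classical

namespace Pool.Agent.P.MP_1a5a6a_pr

variable {d : ℕ}

section BND
variable {a l : ℕ} {δ : Measure (Cf d Bool)} {E : Env d}

theorem cnd_apply {X : Type} [MeasurableSpace X] {P : Measure X} {B : Set X}
    (hB : MeasurableSet B) (h : P B ≠ 0) (A : Set X) : cnd P B A = (P B)⁻¹ * P (B ∩ A) := by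
  rw [cnd, if_neg h, cond_apply hB]

theorem IsTileEnv.coe_C (hE : IsTileEnv a δ E) {m : Mk d} (hfin : (tile a m).Finite) :
    (E.C 0 m : Set (V d)) = tile a m := by
  rw [hE.2, tileF, dif_pos hfin, Finite.coe_toFinset]

theorem IsTileSide.law {S : Type} [MeasurableSpace S] {s : Side E S} {f : Cf d S → Bool}
    (hs : IsTileSide a s f) : s.P.map (fun x => M0 a (Dp f x)) = E.ρ := by
  rw [← s.law, show s.M = fun x => M0 a (Dp f x) from funext hs.1]

theorem IsTileSide.κ_eq {S : Type} [MeasurableSpace S] {s : Side E S} {f : Cf d S → Bool}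
    (hs : IsTileSide a s f) (n : ℕ) (m : Mk d) :
    s.κ n m = cnd s.P (EvS a f m (E.C n m)) := hs.2 n m

theorem tileSide_atomless {S : Type} [MeasurableSpace S] [StandardBorelSpace S] (hd : 0 < d)
    (h : Sparse a δ) (hE : IsTileEnv a δ E) (s : Side E S) {f : Cf d S → Bool}
    (hf : Measurable f) (hs : IsTileSide a s f) (hla : l + s.k ≤ a)
    (hat : ∀ x : Cf d S, s.P {y | (∀ v ∈ ball d l, y v = x v) ∧ f y = false} = 0) :
    ∀ᵐ m ∂E.ρ, ∀ x : Cf d S, s.κ 0 m {y | ∀ v ∈ s.R 0 m, y v = x v} = 0 := by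
  filter_upwards [hE.ae_free h, ae_EvS_pos h hE s.P hf hs.law] with m hm hpos x
  obtain ⟨u, hu, hu'⟩ := tile_good_point hd h.one_le hm.1 hm.2
  rw [hs.κ_eq, cnd_apply (measurableSet_EvS hf _ _) (hpos 0)]
  refine mul_eq_zero_of_right _ (measure_mono_null ?_
    ((s.stat.measure_sh u _).trans (hat (sh u x))))
  rintro y ⟨hy, hy'⟩
  refine ⟨fun v hv => hy' _ (mem_inn.2 fun w hw => ?_), ?_⟩
  · rw [← Finset.mem_coe, hE.coe_C hm.2, show v + u + w = u + (v + w) by abel]
    exact hu _ (ball_mono hla (add_mem_ball hv hw))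
  · rw [hE.coe_C hm.2] at hy
    exact hu' _ hy

variable {S T : Type} [MeasurableSpace S] [Countable S] [MeasurableSingletonClass S]
  [MeasurableSpace T] [Countable T] [MeasurableSingletonClass T]

theorem Sparse.half_le (h : Sparse a δ) {r : ℕ} (hr : r ≤ 20 * a) :
    1 / 2 ≤ δ {x | ∀ w ∈ ball d r, x w = false} := by
  have := h.prob
  have h1 : δ {x | ∀ w ∈ ball d r, x w = false}ᶜ ≤ 1 / 2 := by
    have : {x : Cf d Bool | ∀ w ∈ ball d r, x w = false}ᶜ ⊆
        ⋃ w ∈ ball d (20 * a), sh w ⁻¹' {x | x 0 = true} := by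
      intro x hx
      simp only [mem_compl_iff, mem_ofPred_eq, not_forall] at hx
      obtain ⟨w, hw, hx⟩ := hx
      exact mem_iUnion₂.2 ⟨w, ball_mono hr hw, by simpa using hx⟩
    refine (measure_mono this).trans ((measure_biUnion_finset_le _ _).trans ?_)
    simp only [h.stat.measure_sh, Finset.sum_const, nsmul_eq_mul]
    exact h.small
  have h2 := measure_union_le (μ := δ) {x | ∀ w ∈ ball d r, x w = false}
    {x | ∀ w ∈ ball d r, x w = false}ᶜ
  rw [union_compl_self, measure_univ] at h2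
  have h3 : (1 : ℝ≥0∞) / 2 + 1 / 2 ≤ δ {x | ∀ w ∈ ball d r, x w = false} + 1 / 2 := by
    rw [ENNReal.add_halves]; exact h2.trans (by gcongr)
  exact (ENNReal.add_le_add_iff_right (by simp)).1 h3

theorem tileSide_g_lower (h : Sparse a δ) (hE : IsTileEnv a δ E) (s : Side E S)
    {f : Cf d S → Bool} (hf : Measurable f) (hs : IsTileSide a s f) (hka : s.k ≤ a)
    (hlaw : s.P.map (Dp f) = δ) {q : ℝ} (hq0 : 0 < q)
    (hq : ∀ t, s.P.real {x | x 0 = t} ≤ q * (1 - δ.real {x | x 0 = true})) :
    ENNReal.ofReal (-Real.log q / (2 * (ball d (4 * a)).card)) ≤ s.g := by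
  have := h.prob
  have hD := measurable_Dp hf
  have hfree : ∀ᵐ x ∂s.P, Free (GG a (Dp f x)) :=
    ae_of_ae_map hD.aemeasurable (hlaw.symm ▸ h.ae_free)
  have hall : ∀ r, MeasurableSet {x : Cf d Bool | ∀ w ∈ ball d r, x w = false} := fun r =>
    measurableSet_cyl (ball d r) fun _ => false
  set Q : Set (Cf d S) :=
    {x | E.root 0 (s.M x)} ∩ Dp f ⁻¹' {x | ∀ w ∈ ball d (9 * a), x w = false} with hQ
  have hQm : NullMeasurableSet Q s.P :=
    (nullMeasurableSet_of_lc (s.lc_M (E.ae_good.mono fun m hm => hm.lc_root 0))).inter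
      (hD (hall _)).nullMeasurableSet
  -- the probability of `false`
  have hF : s.P {x | f x = false} = δ {x | x 0 = false} := by
    rw [← hlaw, Measure.map_apply hD (measurableSet_site 0 false)]
    congr 1; ext x; simp [Dp]
  have hF0 : δ {x | x 0 = false} ≠ 0 := by
    have h1 := (h.half_le (Nat.zero_le _)).trans
      (measure_mono (t := {x : Cf d Bool | x 0 = false}) fun x hx => hx 0 (zero_mem_ball 0))
    exact (lt_of_lt_of_le (by simp) h1).ne'
  have hF1 : 1 - δ.real {x | x 0 = true} = δ.real {x | x 0 = false} := by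
    rw [← probReal_compl_eq_one_sub (measurableSet_site 0 true)]
    congr 1; ext x; simp
  -- lower bound for the information on `Q`
  have h1 : ∀ᵐ x ∂s.P, Q.indicator (fun _ => ENNReal.ofReal (-Real.log q)) x ≤
      if E.root 0 (s.M x) then ENNReal.ofReal (s.info 0 (s.full 0) x) else 0 := by
    filter_upwards [hfree, s.ae_pos] with x hx hpos
    by_cases hxQ : x ∈ Q
    swap
    · simp [hxQ]
    rw [indicator_of_mem hxQ, if_pos (show E.root 0 (s.M x) from hxQ.1)]
    obtain ⟨u, -, hu, hb, hev⟩ := tile_plain hx hxQ.2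
    rw [← hs.1] at hu hb hev
    have hfin : (tile a (s.M x)).Finite := (ball d (4 * a)).finite_toSet.subset hb
    have hB : EvS a f (s.M x) (E.C 0 (s.M x)) = sh u ⁻¹' {x | f x = false} := by
      ext y; rw [hE.coe_C hfin]; exact hev _
    have hPB : s.P (EvS a f (s.M x) (E.C 0 (s.M x))) = δ {x | x 0 = false} := by
      rw [hB, s.stat.measure_sh, hF]
    have huR : u ∈ s.R 0 (s.M x) := mem_inn.2 fun w hw => by
      rw [← Finset.mem_coe, hE.coe_C hfin]; exact hu w (ball_mono hka hw)
    have hp := hpos 0 0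
    simp only [sh_zero] at hp
    refine ENNReal.ofReal_le_ofReal (neg_le_neg (Real.log_le_log
      (ENNReal.toReal_pos hp (measure_ne_top _ _)) ?_))
    have h2 : s.P (EvS a f (s.M x) (E.C 0 (s.M x)) ∩ cls (s.full 0 (s.M x)) x) ≤
        s.P {y | y 0 = x u} := by
      rw [← s.stat.measure_sh u {y | y 0 = x u}]
      exact measure_mono fun y hy => by simpa using hy.2 u huR
    have h3 := hq (x u)
    rw [hF1] at h3
    have h4 : 0 < δ.real {x | x 0 = false} := ENNReal.toReal_pos hF0 (measure_ne_top _ _)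
    rw [Measure.real, hs.κ_eq, cnd_apply (measurableSet_EvS hf _ _) (hPB ▸ hF0), hPB,
      ENNReal.toReal_mul, ENNReal.toReal_inv]
    refine (inv_mul_le_iff₀ h4).2 ?_
    rw [mul_comm]
    exact (ENNReal.toReal_mono (measure_ne_top _ _) h2).trans h3
  -- lower bound for the probability of `Q`
  have h2 : 1 / 2 ≤ ((ball d (4 * a)).card : ℝ≥0∞) * s.P Q := by
    have h3 := h.half_le (r := 13 * a) (by omega)
    rw [← hlaw, Measure.map_apply hD (hall _)] at h3
    refine h3.trans ((measure_mono_ae (t := ⋃ z ∈ ball d (4 * a), sh z ⁻¹' Q) ?_).trans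
      ((measure_biUnion_finset_le _ _).trans (by simp [s.stat.measure_sh])))
    filter_upwards [hfree, s.ae_good] with x hx hg hxA
    obtain ⟨u, -, -, hb, -⟩ := tile_plain hx fun w hw => hxA w (ball_mono (by omega) hw)
    rw [← hs.1] at hb
    have hfin : (tile a (s.M x)).Finite := (ball d (4 * a)).finite_toSet.subset hb
    have hz : E.rt 0 (s.M x) ∈ ball d (4 * a) := hb _ (by
      rw [← hE.coe_C hfin]; exact hg.rt_mem 0)
    refine mem_iUnion₂.2 ⟨_, hz, ?_, fun w hw => ?_⟩
    · simpa [s.equiv] using hg.root_rt 0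
    · rw [Dp_sh]
      exact hxA _ (ball_mono (by omega) (add_mem_ball hw hz))
  have hc : (0 : ℝ) < (ball d (4 * a)).card := by
    exact_mod_cast Finset.card_pos.2 ⟨0, zero_mem_ball _⟩
  refine le_trans ?_ ((lintegral_mono_ae h1).trans (le_iSup (fun n => s.ent n (s.full n)) 0))
  rw [lintegral_indicator_const₀ hQm, ENNReal.ofReal_div_of_pos (by positivity), div_eq_mul_inv]
  gcongr
  rw [ENNReal.ofReal_mul (by norm_num), ENNReal.ofReal_natCast, ENNReal.ofReal_ofNat,
    ENNReal.mul_inv (by simp) (by simp), mul_comm, ← one_div 2]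
  have hc' : ((ball d (4 * a)).card : ℝ≥0∞) ≠ 0 := by exact_mod_cast hc.ne'
  calc _ ≤ ((ball d (4 * a)).card : ℝ≥0∞)⁻¹ * (((ball d (4 * a)).card : ℝ≥0∞) * s.P Q) := by
        gcongr
    _ = _ := by rw [← mul_assoc, ENNReal.inv_mul_cancel hc' (by simp), one_mul]

/-- the information of a product field splits -/
theorem tileSide_info_zip (s : Side E S) (s' : Side E (S × T)) {f : Cf d S → Bool}
    (hf : Measurable f) (hs : IsTileSide a s f)
    (hs' : IsTileSide a s' fun x => f fun v => (x v).1) (hk : s'.k = s.k)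
    (Q : Measure (Cf d T)) [IsProbabilityMeasure Q] (hP : s'.P = zip s.P Q) :
    ∀ᵐ x ∂s'.P, s'.M x = s.M (fun v => (x v).1) ∧ ∀ n,
      Q {y | ∀ v ∈ s'.R n (s'.M x), y v = (x v).2} ≠ 0 ∧
      ENNReal.ofReal (s'.info n (s'.full n) x) =
        ENNReal.ofReal (s.info n (s.full n) fun v => (x v).1) +
        ENNReal.ofReal (-Real.log (Q.real {y | ∀ v ∈ s'.R n (s'.M x), y v = (x v).2})) := by
  filter_upwards [s'.ae_pos] with x hpos
  have hM : s'.M x = s.M fun v => (x v).1 := by rw [hs.1, hs'.1]; rfl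
  refine ⟨hM, fun n => ?_⟩
  have hp := hpos n 0
  simp only [sh_zero] at hp
  have hR : ∀ m, s'.R n m = s.R n m := fun m => by simp only [Side.R, hk]
  have key : ∀ m, s'.κ n m (cls (s'.full n m) x) =
      s.κ n m (cls (s.full n m) fun v => (x v).1) * Q {y | ∀ v ∈ s'.R n m, y v = (x v).2} := by
    intro m
    have hA : MeasurableSet (cls (s.full n m) fun v => (x v).1) := measurableSet_cyl _ _
    have hB : MeasurableSet {y : Cf d T | ∀ v ∈ s'.R n m, y v = (x v).2} :=
      measurableSet_cyl _ fun v => (x v).2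
    have hEv := measurableSet_EvS (a := a) hf m (E.C n m)
    have e1 : cls (s'.full n m) x = {z : Cf d (S × T) |
        (fun v => (z v).1) ∈ cls (s.full n m) (fun v => (x v).1) ∧
        (fun v => (z v).2) ∈ {y : Cf d T | ∀ v ∈ s'.R n m, y v = (x v).2}} := by
      ext z
      exact ⟨fun h => ⟨fun v hv => congrArg Prod.fst (h v (hR m ▸ hv)),
        fun v hv => congrArg Prod.snd (h v hv)⟩,
        fun h v hv => Prod.ext (h.1 v (hR m ▸ hv)) (h.2 v hv)⟩
    have e2 : EvS a (fun x : Cf d (S × T) => f fun v => (x v).1) m (E.C n m) =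
        {z : Cf d (S × T) | (fun v => (z v).1) ∈ EvS a f m (E.C n m) ∧
          (fun v => (z v).2) ∈ (univ : Set (Cf d T))} := by
      ext z; simp only [mem_univ, and_true]; rfl
    have e3 : s'.P (EvS a (fun x : Cf d (S × T) => f fun v => (x v).1) m (E.C n m)) =
        s.P (EvS a f m (E.C n m)) := by
      rw [e2, hP, zip_rect _ _ hEv MeasurableSet.univ, measure_univ, mul_one]
    rw [hs.κ_eq, hs'.κ_eq]
    by_cases h0 : s.P (EvS a f m (E.C n m)) = 0
    · rw [cnd, cnd, if_pos h0, if_pos (e3.trans h0), e1, hP, zip_rect _ _ hA hB]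
    · have hf' : Measurable fun x : Cf d (S × T) => f fun v => (x v).1 :=
        hf.comp (measurable_pi_lambda _ fun v => measurable_fst.comp (measurable_pi_apply v))
      rw [cnd_apply hEv h0, cnd_apply (measurableSet_EvS hf' _ _) (e3 ▸ h0), e3, mul_assoc,
        ← zip_rect _ _ (hEv.inter hA) hB, hP, e1, e2]
      congr 2
      ext z; simp only [mem_inter_iff, mem_ofPred_eq, mem_univ, and_true, and_assoc]
  rw [key, mul_ne_zero_iff] at hp
  refine ⟨hp.2, ?_⟩
  have p1 := ENNReal.toReal_pos hp.1 (measure_ne_top _ _)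
  have p2 := ENNReal.toReal_pos hp.2 (measure_ne_top _ _)
  rw [← ENNReal.ofReal_add (s.info_nonneg _ _ _)
    (neg_nonneg.2 (Real.log_nonpos measureReal_nonneg measureReal_le_one))]
  simp only [Side.info, ← hM, Measure.real, key, ENNReal.toReal_mul]
  rw [Real.log_mul p1.ne' p2.ne', neg_add]

theorem measurable_fstF : Measurable fun (x : Cf d (S × T)) (v : V d) => (x v).1 :=
  measurable_pi_lambda _ fun v => measurable_fst.comp (measurable_pi_apply v)

theorem tileSide_g_zip_le (s : Side E S) (s' : Side E (S × T)) {f : Cf d S → Bool}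
    (hf : Measurable f) (hs : IsTileSide a s f)
    (hs' : IsTileSide a s' fun x => f fun v => (x v).1) (hk : s'.k = s.k)
    (Q : Measure (Cf d T)) [IsProbabilityMeasure Q] (hP : s'.P = zip s.P Q) :
    s.g ≤ s'.g := by
  refine iSup_mono fun n => ?_
  unfold Side.ent
  rw [← zip_map_fst s.P Q, ← hP]
  refine (lintegral_map_le _ _).trans (lintegral_mono_ae ?_)
  filter_upwards [tileSide_info_zip s s' hf hs hs' hk Q hP] with x hx
  rw [← hx.1, (hx.2 n).2]
  split_ifs
  · exact le_self_add
  · exact le_rfl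

theorem tileSide_g_zip_iid (s : Side E S) (s' : Side E (S × T)) {f : Cf d S → Bool}
    (hf : Measurable f) (hs : IsTileSide a s f)
    (hs' : IsTileSide a s' fun x => f fun v => (x v).1) (hk : s'.k = s.k)
    (ν : Measure T) [IsProbabilityMeasure ν] (hP : s'.P = zip s.P (iid d ν)) :
    s'.g = s.g + shannon ν := by
  let φ : T → ℝ≥0∞ := fun t => ENNReal.ofReal (-Real.log (ν.real {t}))
  have hφ : Measurable fun x : Cf d (S × T) => φ (x 0).2 :=
    (measurable_of_countable φ).comp (measurable_snd.comp (measurable_pi_apply 0))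
  let F : ℕ → Cf d (S × T) → ℝ≥0∞ := fun n x =>
    (if 0 ∈ s'.R n (s'.M x) then 1 else 0) * φ (x 0).2
  have hF : ∀ n, AEMeasurable (F n) s'.P := fun n =>
    (s'.aemeasurable_M (f := fun m => if 0 ∈ s'.R n m then (1 : ℝ≥0∞) else 0)
      (E.ae_good.mono fun m hm => (hm.lc n).post
        fun U => if 0 ∈ inn s'.k U then (1 : ℝ≥0∞) else 0)).mul hφ.aemeasurable
  have hmono : ∀ᵐ x ∂s'.P, Monotone fun n => F n x := s'.ae_good.mono fun x hx n N hn => by
    by_cases h0 : 0 ∈ s'.R n (s'.M x)
    · have : 0 ∈ s'.R N (s'.M x) := inn_mono (hx.mono hn) h0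
      simp [F, h0, this]
    · simp [F, h0]
  have hent : ∀ n, s'.ent n (s'.full n) = s.ent n (s.full n) + ∫⁻ x, F n x ∂s'.P := by
    intro n
    have hG : AEMeasurable (fun x => if E.root n (s.M x) then
        ENNReal.ofReal (s.info n (s.full n) x) else 0) s.P := by
      refine aemeasurable_of_lc ?_
      filter_upwards [s.lc_M (E.ae_good.mono fun m hm => hm.lc_root n), (s.pre_full n).lc_info]
        with x h1 h2
      exact (h1.pair h2).post fun p => if p.1 then ENNReal.ofReal p.2 else 0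
    have hlaw : s'.P.map (fun x v => (x v).1) = s.P := by rw [hP, zip_map_fst]
    rw [← hlaw] at hG
    have hG' := hG.comp_aemeasurable' measurable_fstF.aemeasurable
    unfold Side.ent
    rw [← s'.root_sum n (F n) (hF n), ← hlaw,
      lintegral_map' hG measurable_fstF.aemeasurable, ← lintegral_add_left' hG']
    refine lintegral_congr_ae ?_
    filter_upwards [tileSide_info_zip s s' hf hs hs' hk (iid d ν) hP, s'.ae_good] with x hx hg
    rw [← hx.1, (hx.2 n).2]
    split_ifs
    swap
    · simp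
    congr 1
    have h0 := (hx.2 n).1
    have e1 : iid d ν {y | ∀ v ∈ s'.R n (s'.M x), y v = (x v).2} =
        ∏ v ∈ s'.R n (s'.M x), ν {(x v).2} := by
      rw [iid, ← Measure.infinitePi_pi _ fun v _ => measurableSet_singleton _]
      congr 1
    rw [e1, Finset.prod_ne_zero_iff] at h0
    rw [Measure.real, e1, ENNReal.toReal_prod, Real.log_prod
      (fun v hv => (ENNReal.toReal_pos (h0 v hv) (measure_ne_top _ _)).ne'),
      ← Finset.sum_neg_distrib, ENNReal.ofReal_sum_of_nonneg fun v _ =>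
        neg_nonneg.2 (Real.log_nonpos ENNReal.toReal_nonneg measureReal_le_one),
      ← Finset.sum_subset (inn_subset (k := s'.k) (U := E.C n (s'.M x)))]
    · refine Finset.sum_congr rfl fun v hv => ?_
      have : 0 ∈ s'.R n (sh v (s'.M x)) := (hg.inn_inv (inn_subset hv) 0).2 (by simpa using hv)
      simp [F, φ, s'.equiv, this, Measure.real]
    · intro v hv hv'
      have : 0 ∉ s'.R n (sh v (s'.M x)) := fun h => hv' (by simpa using (hg.inn_inv hv 0).1 h)
      simp [F, s'.equiv, this]
  have hsup : ⨆ n, ∫⁻ x, F n x ∂s'.P = shannon ν := by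
    rw [← lintegral_iSup' hF hmono]
    have h1 : ∀ᵐ x ∂s'.P, ⨆ n, F n x = φ (x 0).2 := s'.ae_good.mono fun x hx => by
      obtain ⟨n, hn⟩ := (hx.exh_inn s'.k {0}).exists
      have h0 : 0 ∈ s'.R n (s'.M x) := hn (Finset.mem_singleton_self _)
      refine le_antisymm (iSup_le fun n => ?_) (le_iSup_of_le n (by simp [F, h0]))
      by_cases h0 : 0 ∈ s'.R n (s'.M x) <;> simp [F, h0]
    have h2 : Measurable fun (x : Cf d (S × T)) (v : V d) => (x v).2 :=
      measurable_pi_lambda _ fun v => measurable_snd.comp (measurable_pi_apply v)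
    have h3 : s'.P.map (fun x => (x 0).2) = ν := by
      rw [← iid_apply_zero (d := d) ν, ← zip_map_snd s.P (iid d ν), ← hP,
        Measure.map_map (measurable_pi_apply 0) h2]
      rfl
    rw [lintegral_congr_ae h1]
    change _ = ∫⁻ t, φ t ∂ν
    have h4 : Measurable fun x : Cf d (S × T) => (x 0).2 :=
      measurable_snd.comp (measurable_pi_apply 0)
    rw [← h3, lintegral_map (measurable_of_countable φ) h4]
  rw [Side.g, Side.g, ← hsup, ENNReal.iSup_add_iSup_of_monotone s.ent_full_mono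
    fun n N hn => lintegral_mono_ae (hmono.mono fun x hx => hx hn)]
  exact iSup_congr hent
end BND

end Pool.Agent.P.MP_1a5a6a_pr
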