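import Pool.Agent.P.MP_1a5a6a_pr.FI.Basic

set_option autoImplicit false
set_option linter.unusedSectionVars false
open MeasureTheory ProbabilityTheory Filter Set
open scoped ENNReal Classical

namespace Pool.Agent.P.MP_1a5a6a_pr

variable {d : ℕ} {E : Env d}

theorem Env.ae_sh (E : Env d) {p : Mk d → Prop} (hp : ∀ᵐ m ∂E.ρ, p m) :
    ∀ᵐ m ∂E.ρ, ∀ a, p (sh a m) := E.stat.ae_sh hp

theorem Env.ae_good (E : Env d) : ∀ᵐ m ∂E.ρ, E.Good m := E.ae_sh E.good0

namespace Env.Good
variable {m : Mk d}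

theorem shift (h : E.Good m) (a : V d) : E.Good (sh a m) := fun z => by
  rw [sh_sh]; exact h _

theorem g0 (h : E.Good m) : Good0 E.C m := by simpa using h 0

theorem zero_mem (h : E.Good m) (n : ℕ) : 0 ∈ E.C n m := h.g0.zero_mem n

theorem inv (h : E.Good m) {n : ℕ} {v : V d} (hv : v ∈ E.C n m) (w : V d) :
    w ∈ E.C n (sh v m) ↔ w + v ∈ E.C n m := h.g0.inv n v hv w

theorem lc (h : E.Good m) (n : ℕ) : LC (E.C n) m := h.g0.lc n

theorem mono (h : E.Good m) {n N : ℕ} (hn : n ≤ N) : E.C n m ⊆ E.C N m := by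
  induction hn with
  | refl => exact Finset.Subset.refl _
  | step _ ih => exact ih.trans (h.g0.mono _)

theorem nonempty (h : E.Good m) (n : ℕ) : (E.C n m).Nonempty := ⟨0, h.zero_mem n⟩

theorem card_pos (h : E.Good m) (n : ℕ) : 0 < (E.C n m).card := (h.nonempty n).card_pos

theorem exh (h : E.Good m) (F : Finset (V d)) : ∀ᶠ n in atTop, F ⊆ E.C n m := by
  have : ∀ v ∈ F, ∀ᶠ n in atTop, v ∈ E.C n m := fun v _ => by
    obtain ⟨n, hn⟩ := h.g0.exh v
    exact eventually_atTop.2 ⟨n, fun N hN => h.mono hN hn⟩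
  exact ((Filter.eventually_all_finset F).2 this).mono fun n hn v hv => hn v hv

theorem exh_inn (h : E.Good m) (k : ℕ) (F : Finset (V d)) :
    ∀ᶠ n in atTop, F ⊆ inn k (E.C n m) := by
  obtain ⟨r, hr⟩ := exists_subset_ball F
  exact (h.exh (ball d (r + k))).mono fun n hn v hv =>
    mem_inn.2 fun w hw => hn (add_mem_ball (hr hv) hw)

theorem neg_mem (h : E.Good m) {n : ℕ} {v : V d} (hv : v ∈ E.C n m) : -v ∈ E.C n (sh v m) := by
  rw [h.inv hv]; simpa using h.zero_mem n

/-- `v` is in the cell of `0` iff `0` is in the cell of `v` -/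
theorem mem_iff_neg_mem (h : E.Good m) {n : ℕ} {v : V d} :
    v ∈ E.C n m ↔ -v ∈ E.C n (sh v m) := by
  refine ⟨h.neg_mem, fun hv => ?_⟩
  simpa using (h.shift v).neg_mem hv

theorem cell_eq (h : E.Good m) {n : ℕ} {v : V d} (hv : v ∈ E.C n m) :
    E.C n (sh v m) = (E.C n m).image (· - v) := by
  ext w
  rw [h.inv hv, Finset.mem_image]
  exact ⟨fun hw => ⟨_, hw, by simp⟩, fun ⟨u, hu, e⟩ => by rw [← e]; simpa using hu⟩

theorem card_sh (h : E.Good m) {n : ℕ} {v : V d} (hv : v ∈ E.C n m) :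
    (E.C n (sh v m)).card = (E.C n m).card := by
  rw [h.cell_eq hv, Finset.card_image_of_injective _ (sub_left_injective)]

theorem inn_inv (h : E.Good m) {n k : ℕ} {v : V d} (hv : v ∈ E.C n m) (w : V d) :
    w ∈ inn k (E.C n (sh v m)) ↔ w + v ∈ inn k (E.C n m) := by
  simp only [mem_inn, h.inv hv]
  refine forall₂_congr fun u _ => ?_
  rw [add_right_comm]

theorem rt_mem (h : E.Good m) (n : ℕ) : E.rt n m ∈ E.C n m := lexmin_mem (h.nonempty n)

theorem rt_sh (h : E.Good m) {n : ℕ} {v : V d} (hv : v ∈ E.C n m) :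
    E.rt n (sh v m) = E.rt n m - v := lexmin_shift (h.nonempty n) (h.inv hv)

theorem root_rt (h : E.Good m) (n : ℕ) : E.root n (sh (E.rt n m) m) := by
  simp [Env.root, h.rt_sh (h.rt_mem n)]

/-- the root is the only point of the cell that is a root -/
theorem root_sh_iff (h : E.Good m) {n : ℕ} {v : V d} (hv : v ∈ E.C n m) :
    E.root n (sh v m) ↔ v = E.rt n m := by
  rw [Env.root, h.rt_sh hv, sub_eq_zero, eq_comm]

theorem root_mono (h : E.Good m) {n N : ℕ} (hn : n ≤ N) (hr : E.root N m) : E.root n m := by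
  refine lexmin_eq (h.zero_mem n) fun v hv => ?_
  have := lexmin_le (h.mono hn hv)
  rwa [show lexmin (E.C N m) = 0 from hr] at this

theorem lc_rt (h : E.Good m) (n : ℕ) : LC (E.rt n) m := (h.lc n).post lexmin

theorem lc_root (h : E.Good m) (n : ℕ) : LC (E.root n) m := (h.lc_rt n).post (· = 0)

theorem lc_ch (h : E.Good m) (n N : ℕ) : LC (E.ch n N) m := by
  have h1 := lc_finset (f := fun z y => E.root n (sh z y)) (E.C N m)
    (fun z _ => ((h.shift z).lc_root n).comp_sh)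
  refine ((h.lc N).and h1).mono fun y hy => ?_
  simp only [Env.ch, hy.1]
  exact Finset.filter_congr fun z hz => by rw [hy.2 z hz]

/-- the origin is eventually not a root -/
theorem eventually_not_root (hd : 0 < d) (h : E.Good m) : ∀ᶠ n in atTop, ¬ E.root n m := by
  refine (h.exh {fun _ => -1}).mono fun n hn hr => ?_
  have := lexmin_le (hn (Finset.mem_singleton_self _))
  rw [show lexmin (E.C n m) = 0 from hr] at this
  refine absurd this (not_le.2 ?_)
  exact ⟨⟨0, hd⟩, fun j hj => absurd hj (by simp [Fin.lt_def]), by simp⟩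

theorem mem_ch {n N : ℕ} {z : V d} : z ∈ E.ch n N m ↔ z ∈ E.C N m ∧ E.root n (sh z m) :=
  Finset.mem_filter

/-- a child cell lies in the parent cell -/
theorem child_subset (h : E.Good m) {n N : ℕ} (hn : n ≤ N) {z w : V d} (hz : z ∈ E.C N m)
    (hw : w ∈ E.C n (sh z m)) : w + z ∈ E.C N m :=
  (h.inv hz w).1 ((h.shift z).mono hn hw)

theorem child_inn (h : E.Good m) {n N k : ℕ} (hn : n ≤ N) {z w : V d} (hz : z ∈ E.C N m)
    (hw : w ∈ inn k (E.C n (sh z m))) : w + z ∈ inn k (E.C N m) :=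
  (h.inn_inv hz w).1 (inn_mono ((h.shift z).mono hn) hw)

/-- the root of the level `n` cell of `v` is a child root -/
theorem rt_add_mem_ch (h : E.Good m) {n N : ℕ} (hn : n ≤ N) {v : V d} (hv : v ∈ E.C N m) :
    E.rt n (sh v m) + v ∈ E.ch n N m := by
  refine mem_ch.2 ⟨h.child_subset hn hv ((h.shift v).rt_mem n), ?_⟩
  rw [← sh_sh]; exact (h.shift v).root_rt n

theorem sub_mem_cell (h : E.Good m) (n : ℕ) (v : V d) :
    v - (E.rt n (sh v m) + v) ∈ E.C n (sh (E.rt n (sh v m) + v) m) := by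
  rw [← sh_sh]
  simpa using (h.shift v).neg_mem ((h.shift v).rt_mem n)

/-- the child containing `v` is unique -/
theorem eq_of_mem_child (h : E.Good m) {n : ℕ} {z v : V d} (hz : E.root n (sh z m))
    (hv : v - z ∈ E.C n (sh z m)) : z = E.rt n (sh v m) + v := by
  have := (h.shift z).rt_sh hv
  rw [sh_sh, sub_add_cancel, show E.rt n (sh z m) = 0 from hz] at this
  rw [this]; simp

theorem exists_child (h : E.Good m) {n N : ℕ} (hn : n ≤ N) {v : V d} (hv : v ∈ E.C N m) :
    ∃ z ∈ E.ch n N m, v - z ∈ E.C n (sh z m) :=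
  ⟨_, h.rt_add_mem_ch hn hv, h.sub_mem_cell n v⟩

theorem child_unique (h : E.Good m) {n : ℕ} {z z' v : V d} (hz : E.root n (sh z m))
    (hz' : E.root n (sh z' m)) (hv : v - z ∈ E.C n (sh z m)) (hv' : v - z' ∈ E.C n (sh z' m)) :
    z = z' := (h.eq_of_mem_child hz hv).trans (h.eq_of_mem_child hz' hv').symm

theorem cell_eq_biUnion (h : E.Good m) {n N : ℕ} (hn : n ≤ N) :
    E.C N m = (E.ch n N m).biUnion fun z => (E.C n (sh z m)).image (· + z) := by
  ext v
  simp only [Finset.mem_biUnion, Finset.mem_image]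
  constructor
  · intro hv
    obtain ⟨z, hz, hv⟩ := h.exists_child hn hv
    exact ⟨z, hz, _, hv, by simp⟩
  · rintro ⟨z, hz, w, hw, rfl⟩
    exact h.child_subset hn (mem_ch.1 hz).1 hw

theorem prod_cell {M : Type} [CommMonoid M] (h : E.Good m) {n N : ℕ} (hn : n ≤ N)
    (f : V d → M) :
    ∏ v ∈ E.C N m, f v = ∏ z ∈ E.ch n N m, ∏ w ∈ E.C n (sh z m), f (w + z) := by
  rw [h.cell_eq_biUnion hn, Finset.prod_biUnion]
  · exact Finset.prod_congr rfl fun z _ => Finset.prod_image fun _ _ _ _ e => add_right_cancel e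
  · intro z hz z' hz' hne
    refine Finset.disjoint_left.2 fun v hv hv' => hne ?_
    obtain ⟨w, hw, rfl⟩ := Finset.mem_image.1 hv
    obtain ⟨w', hw', e⟩ := Finset.mem_image.1 hv'
    refine h.child_unique (v := w + z) (mem_ch.1 hz).2 (mem_ch.1 hz').2 (by simpa using hw) ?_
    rw [← e]; simpa using hw'

theorem sum_cell {M : Type} [AddCommMonoid M] (h : E.Good m) {n N : ℕ} (hn : n ≤ N)
    (f : V d → M) :
    ∑ v ∈ E.C N m, f v = ∑ z ∈ E.ch n N m, ∑ w ∈ E.C n (sh z m), f (w + z) :=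
  h.prod_cell (M := Multiplicative M) hn f

theorem ch_self (h : E.Good m) (n : ℕ) : E.ch n n m = {E.rt n m} := by
  ext z
  rw [mem_ch, Finset.mem_singleton]
  exact ⟨fun hz => (h.root_sh_iff hz.1).1 hz.2, fun hz => hz ▸ ⟨h.rt_mem n, h.root_rt n⟩⟩

/-- children of children -/
theorem mem_ch_trans (h : E.Good m) {n j N : ℕ} (hj : j ≤ N) {z : V d} :
    z ∈ E.ch n N m ↔ ∃ y ∈ E.ch j N m, z - y ∈ E.ch n j (sh y m) := by
  constructor
  · intro hz
    obtain ⟨y, hy, hv⟩ := h.exists_child hj (mem_ch.1 hz).1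
    exact ⟨y, hy, mem_ch.2 ⟨hv, by simpa [sh_sh] using (mem_ch.1 hz).2⟩⟩
  · rintro ⟨y, hy, hz⟩
    refine mem_ch.2 ⟨?_, by simpa [sh_sh] using (mem_ch.1 hz).2⟩
    simpa using h.child_subset hj (mem_ch.1 hy).1 (mem_ch.1 hz).1

end Env.Good

theorem Env.sum_ch {M : Type} [AddCommMonoid M] (E : Env d) (n N : ℕ) (m : Mk d)
    (f : V d → M) :
    ∑ z ∈ E.ch n N m, f z = ∑ z ∈ E.C N m, if E.root n (sh z m) then f z else 0 :=
  Finset.sum_filter _ _

/-! ### mass transport over cells -/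

section mtp
variable {S : Type} [MeasurableSpace S]

theorem Side.ae_M (s : Side E S) {p : Mk d → Prop} (h : ∀ᵐ m ∂E.ρ, p m) :
    ∀ᵐ x ∂s.P, p (s.M x) :=
  ae_of_ae_map s.measM.aemeasurable (s.law.symm ▸ h)

theorem Side.ae_good (s : Side E S) : ∀ᵐ x ∂s.P, E.Good (s.M x) := s.ae_M E.ae_good

theorem Side.mp (s : Side E S) : MeasurePreserving s.M s.P E.ρ := ⟨s.measM, s.law⟩

theorem Side.aemeasurable_M {β : Type} [MeasurableSpace β] (s : Side E S) {f : Mk d → β}
    (h : ∀ᵐ m ∂E.ρ, LC f m) : AEMeasurable (fun x => f (s.M x)) s.P :=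
  (aemeasurable_of_lc h).comp_quasiMeasurePreserving s.mp.quasiMeasurePreserving

theorem Side.lintegral_M (s : Side E S) {f : Mk d → ℝ≥0∞} (h : AEMeasurable f E.ρ) :
    ∫⁻ x, f (s.M x) ∂s.P = ∫⁻ m, f m ∂E.ρ := by
  rw [← s.law] at h ⊢
  exact (lintegral_map' h s.measM.aemeasurable).symm

theorem Side.lc_M {β : Type} (s : Side E S) {f : Mk d → β} (h : ∀ᵐ m ∂E.ρ, LC f m) :
    ∀ᵐ x ∂s.P, LC (fun y => f (s.M y)) x :=
  ((s.ae_M h).and s.lcM).mono fun _ hx => hx.1.comp hx.2

/-- general form: the root sends mass `G x v` to the site `v` of its cell -/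
theorem root_transport {μ : Measure (Cf d S)} (hμ : Stat μ) {M : Cf d S → Mk d}
    (hM : MeasurePreserving M μ E.ρ) (he : ∀ a x, M (sh a x) = sh a (M x)) (n : ℕ)
    (G : Cf d S → V d → ℝ≥0∞) (hG : ∀ v, AEMeasurable (fun x => G x v) μ) :
    ∫⁻ x, (if E.root n (M x) then ∑ v ∈ E.C n (M x), G x v else 0) ∂μ =
      ∫⁻ x, G (sh (E.rt n (M x)) x) (-E.rt n (M x)) ∂μ := by
  have hg : ∀ᵐ x ∂μ, E.Good (M x) := hM.quasiMeasurePreserving.ae E.ae_good
  let f : V d → Cf d S → ℝ≥0∞ := fun v x =>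
    (if E.root n (M x) ∧ v ∈ E.C n (M x) then 1 else 0) * G x v
  have hf : ∀ v, AEMeasurable (f v) μ := fun v => by
    refine AEMeasurable.mul ?_ (hG v)
    have : AEMeasurable (fun m => if E.root n m ∧ v ∈ E.C n m then (1 : ℝ≥0∞) else 0) E.ρ :=
      aemeasurable_of_lc (E.ae_good.mono fun m hm =>
        ((hm.lc_root n).pair (hm.lc n)).post fun p => if p.1 ∧ v ∈ p.2 then (1 : ℝ≥0∞) else 0)
    exact this.comp_quasiMeasurePreserving hM.quasiMeasurePreserving
  have := hμ.mtp f hf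
  convert this using 1
  · refine lintegral_congr fun x => ?_
    by_cases h : E.root n (M x)
    · rw [if_pos h, tsum_eq_sum (s := E.C n (M x))]
      · exact Finset.sum_congr rfl fun v hv => by simp [f, h, hv]
      · intro v hv; simp [f, hv]
    · simp [f, h]
  · refine lintegral_congr_ae (hg.mono fun x hx => ?_)
    simp only
    rw [tsum_eq_single (-E.rt n (M x))]
    · simp only [f, he, neg_neg]
      rw [if_pos ⟨hx.root_rt n, hx.neg_mem (hx.rt_mem n)⟩, one_mul]
    · intro v hv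
      simp only [f, he]
      rw [if_neg, zero_mul]
      rintro ⟨h1, h2⟩
      have h3 : -v ∈ E.C n (M x) := by
        rw [hx.mem_iff_neg_mem]; simpa using h2
      exact hv (by rw [← (hx.root_sh_iff h3).1 h1]; simp)

theorem Side.root_transport (s : Side E S) (n : ℕ) (G : Cf d S → V d → ℝ≥0∞)
    (hG : ∀ v, AEMeasurable (fun x => G x v) s.P) :
    ∫⁻ x, (if E.root n (s.M x) then ∑ v ∈ E.C n (s.M x), G x v else 0) ∂s.P =
      ∫⁻ x, G (sh (E.rt n (s.M x)) x) (-E.rt n (s.M x)) ∂s.P :=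
  MP_1a5a6a_pr.root_transport s.stat s.mp s.equiv n G hG

theorem Env.root_transport (E : Env d) (n : ℕ) (G : Mk d → V d → ℝ≥0∞)
    (hG : ∀ v, AEMeasurable (fun x => G x v) E.ρ) :
    ∫⁻ m, (if E.root n m then ∑ v ∈ E.C n m, G m v else 0) ∂E.ρ =
      ∫⁻ m, G (sh (E.rt n m) m) (-E.rt n m) ∂E.ρ :=
  MP_1a5a6a_pr.root_transport (M := id) E.stat (MeasurePreserving.id _) (fun _ _ => rfl) n G hG

theorem Side.root_sum (s : Side E S) (n : ℕ) (F : Cf d S → ℝ≥0∞) (hF : AEMeasurable F s.P) :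
    ∫⁻ x, (if E.root n (s.M x) then ∑ v ∈ E.C n (s.M x), F (sh v x) else 0) ∂s.P =
      ∫⁻ x, F x ∂s.P := by
  rw [s.root_transport n (fun x v => F (sh v x)) fun v => s.stat.aemeasurable_sh v hF]
  simp

theorem Env.root_sum (E : Env d) (n : ℕ) (F : Mk d → ℝ≥0∞) (hF : AEMeasurable F E.ρ) :
    ∫⁻ m, (if E.root n m then ∑ v ∈ E.C n m, F (sh v m) else 0) ∂E.ρ = ∫⁻ m, F m ∂E.ρ := by
  rw [E.root_transport n (fun x v => F (sh v x)) fun v => E.stat.aemeasurable_sh v hF]
  simp

theorem Side.root_card (s : Side E S) (n : ℕ) :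
    ∫⁻ x, (if E.root n (s.M x) then ((E.C n (s.M x)).card : ℝ≥0∞) else 0) ∂s.P = 1 := by
  have := s.root_sum n (fun _ => 1) aemeasurable_const
  simpa using this

theorem Env.root_card (E : Env d) (n : ℕ) :
    ∫⁻ m, (if E.root n m then ((E.C n m).card : ℝ≥0∞) else 0) ∂E.ρ = 1 := by
  have := E.root_sum n (fun _ => 1) aemeasurable_const
  simpa using this

/-- the density of a property of sites is its probability seen from a typical site -/
theorem Side.den_eq (s : Side E S) (n : ℕ) (Q : Mk d → Cf d S → V d → Prop)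
    (hQ : ∀ v, NullMeasurableSet {x | Q (s.M x) x v} s.P) :
    s.den n Q = s.P {x | Q (sh (E.rt n (s.M x)) (s.M x)) (sh (E.rt n (s.M x)) x)
      (-E.rt n (s.M x))} := by
  have h1 := s.root_transport n (fun x v => {x | Q (s.M x) x v}.indicator 1 x)
    fun v => aemeasurable_const.indicator₀ (hQ v)
  have h2 : NullMeasurableSet {x | Q (sh (E.rt n (s.M x)) (s.M x)) (sh (E.rt n (s.M x)) x)
      (-E.rt n (s.M x))} s.P := by
    have : {x | Q (sh (E.rt n (s.M x)) (s.M x)) (sh (E.rt n (s.M x)) x) (-E.rt n (s.M x))} =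
        ⋃ z, ({x | E.rt n (s.M x) = z} ∩ sh z ⁻¹' {x | Q (s.M x) x (-z)}) := by
      ext x; simp [s.equiv]
    rw [this]
    refine NullMeasurableSet.iUnion fun z => NullMeasurableSet.inter ?_ ?_
    · exact (s.aemeasurable_M (f := fun m => E.rt n m = z)
        (E.ae_good.mono fun m hm => (hm.lc_rt n).post (· = z))).nullMeasurable
          (measurableSet_singleton True) |>.congr (Eventually.of_forall fun x => by simp)
    · exact (hQ _).preimage (s.stat.mp z).quasiMeasurePreserving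
  rw [← lintegral_indicator_one₀ h2]
  unfold Side.den
  convert h1 using 3 with x x
  · simp [indicator_apply]
  · simp [indicator_apply, s.equiv]

theorem Env.tendsto_root (hd : 0 < d) (E : Env d) :
    Tendsto (fun n => E.ρ {m | E.root n m}) atTop (nhds 0) := by
  have h := tendsto_measure_of_ae_tendsto_indicator_of_isFiniteMeasure (μ := E.ρ) atTop
    (As := fun n => toMeasurable E.ρ {m | E.root n m}) (A := ∅) MeasurableSet.empty
    (fun n => measurableSet_toMeasurable _ _) ?_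
  · simpa using h
  · have h1 : ∀ᵐ m ∂E.ρ, ∀ n, (m ∈ toMeasurable E.ρ {m | E.root n m} ↔ E.root n m) := by
      rw [ae_all_iff]
      intro n
      exact ((nullMeasurableSet_of_lc (E.ae_good.mono fun m hm =>
        hm.lc_root n)).toMeasurable_ae_eq).mono fun m hm => iff_of_eq hm
    filter_upwards [h1, E.ae_good] with m h1 hm
    exact (hm.eventually_not_root hd).mono fun n hn => by simp [h1, hn]

end mtp

end Pool.Agent.P.MP_1a5a6a_pr
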