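import Pool.Agent.P.MP_1a5a6a_pr.FI.Dep

set_option autoImplicit false
set_option linter.unusedSectionVars false
open MeasureTheory ProbabilityTheory Filter Set
open scoped ENNReal Classical

namespace Pool.Agent.P.MP_1a5a6a_pr

variable {d : ℕ}

section CHO

/-- a fixed pattern on a ball has exponentially small probability -/
theorem pattern_le {S : Type} [MeasurableSpace S] (hd : 0 < d) (P : Measure (Cf d S))
    [IsProbabilityMeasure P] (hP : Stat P) {k : ℕ} (hk : KDep k P) (H : S → Bool)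
    (hH : Measurable H) {q : ℝ≥0∞} (hq : ∀ b, P {x | H (x 0) = b} ≤ q) (m : ℕ) (p : V d → Bool) :
    P {x | ∀ v ∈ ball d ((k + 1) * m), H (x v) = p v} ≤ q ^ m := by
  let u : ℕ → V d := fun j => Pi.single ⟨0, hd⟩ (((k + 1) * j : ℕ) : ℤ)
  have hu : ∀ j ∈ Finset.range m, u j ∈ ball d ((k + 1) * m) := by
    intro j hj
    rw [mem_ball_norm, Pi.norm_single, Int.norm_natCast]
    exact_mod_cast Nat.mul_le_mul_left _ (Finset.mem_range.1 hj).le
  have h1 := hk.measure_biInter (Finset.range m) (fun j => {u j})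
    (by
      rintro i - j - hij _ rfl _ rfl
      rw [← Pi.single_sub, Pi.norm_single, Int.norm_eq_abs]
      have h2 : (1 : ℤ) ≤ |(i : ℤ) - j| := Int.one_le_abs (by omega)
      have h3 : (k : ℤ) < |(((k + 1) * i : ℕ) : ℤ) - (((k + 1) * j : ℕ) : ℤ)| := by
        push_cast
        rw [← mul_sub, abs_mul, abs_of_nonneg (by positivity)]
        nlinarith
      exact_mod_cast h3)
    (fun j => {x | H (x (u j)) = p (u j)}) fun j _ =>
      ⟨hH.comp (measurable_pi_apply _) (measurableSet_singleton _), fun x y h => by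
        simp only [mem_ofPred_eq, h (u j) rfl]⟩
  refine le_trans (measure_mono ?_) (h1.trans_le ?_)
  · exact fun x hx j hj => hx _ (hu j hj)
  refine (Finset.prod_le_pow_card _ _ q fun j _ => ?_).trans_eq (by rw [Finset.card_range])
  refine le_trans (le_of_eq ?_) (hq (p (u j)))
  rw [← hP.measure_sh (u j) {x | H (x 0) = p (u j)}]
  congr 1
  ext x
  simp

theorem exists_pattern {S : Type} [MeasurableSpace S] (P : Measure (Cf d S))
    [IsProbabilityMeasure P] (H : S → Bool) (I : Finset (V d)) :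
    ∃ p : V d → Bool, P {x | ∀ v ∈ I, H (x v) = p v} ≠ 0 := by
  by_contra h
  push Not at h
  have h1 : P (⋃ p : I → Bool, {x | ∀ v ∈ I, H (x v) = if h : v ∈ I then p ⟨v, h⟩ else true}) = 0 :=
    measure_iUnion_null fun p => h _
  rw [eq_univ_of_forall fun x => mem_iUnion.2 ⟨fun v => H (x v), fun v hv => by simp [hv]⟩] at h1
  simp at h1

theorem exists_sparse {S : Type} [MeasurableSpace S] (hd : 0 < d) (P : Measure (Cf d S))
    [IsProbabilityMeasure P] (hP : Stat P) {k : ℕ} (hk : KDep k P) (H : S → Bool)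
    (hH : Measurable H) (h0 : P {x | H (x 0) = true} ≠ 0) (h1 : P {x | H (x 0) = true} ≠ 1)
    {θ : ℝ} (hθ : 0 < θ) :
    ∃ (l : ℕ) (f : Cf d S → Bool), Measurable f ∧ DependsOn f (ball d l) ∧
      Sparse (k + 2 * l) (P.map (Dp f)) ∧
      ((ball d (20 * (k + 2 * l))).card : ℝ) ^ 2 * P.real {x | f x = true} ≤ θ ∧
      ∀ x, f x = false → ∃ v ∈ ball d l, H (x v) = true := by
  have hm0 : MeasurableSet {x : Cf d S | H (x 0) = true} :=
    hH.comp (measurable_pi_apply _) (measurableSet_singleton _)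
  obtain ⟨q, hq1, hq⟩ : ∃ q : ℝ≥0∞, q < 1 ∧ ∀ b, P {x | H (x 0) = b} ≤ q := by
    refine ⟨max (P {x | H (x 0) = true}) (P {x | H (x 0) = false}),
      max_lt (prob_le_one.lt_of_ne h1) (prob_le_one.lt_of_ne fun h => h0 ?_), fun b => by
        cases b <;> simp⟩
    rw [← prob_compl_eq_one_iff hm0, ← h]
    congr 1
    ext x
    simp
  have hqt : q ≠ ∞ := (hq1.trans ENNReal.one_lt_top).ne
  have hq2 : q.toReal < 1 := by
    rw [← ENNReal.toReal_one]
    exact (ENNReal.toReal_lt_toReal hqt ENNReal.one_ne_top).2 hq1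
  have ht := (tendsto_pow_const_mul_const_pow_of_lt_one (3 * d) ENNReal.toReal_nonneg
    hq2).const_mul (2 * (121 * ((k : ℝ) + 1)) ^ (3 * d))
  rw [mul_zero] at ht
  obtain ⟨m, hm, hm1⟩ := ((ht.eventually (ge_mem_nhds (lt_min hθ one_half_pos))).and
    (eventually_ge_atTop 1)).exists
  obtain ⟨l, hl⟩ : ∃ l, l = (k + 1) * m := ⟨_, rfl⟩
  obtain ⟨a, ha⟩ : ∃ a, a = k + 2 * l := ⟨_, rfl⟩
  obtain ⟨p, hp⟩ := exists_pattern P H (ball d (l + 2 * a))
  obtain ⟨g, hg'⟩ : ∃ g : Cf d Bool → Bool, ∀ y, g y = true ↔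
      (∃ w ∈ ball d (2 * a), ∀ v ∈ ball d l, y v = p (v + w)) ∨ ∀ v ∈ ball d l, y v = false :=
    ⟨fun y => decide _, fun y => decide_eq_true_iff⟩
  have hg : DependsOn g (ball d l) := by
    intro y y' h
    have h' : ∀ v ∈ ball d l, y v = y' v := h
    rw [Bool.eq_iff_iff, hg', hg']
    exact or_congr (exists_congr fun w => and_congr Iff.rfl (forall₂_congr fun v hv => by
      rw [h' v hv])) (forall₂_congr fun v hv => by rw [h' v hv])
  let f : Cf d S → Bool := fun x => g fun v => H (x v)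
  have hf : Measurable f := (measurable_of_dependsOn hg).comp
    (measurable_pi_lambda _ fun v => hH.comp (measurable_pi_apply v))
  have hfl : DependsOn f (ball d l) := fun x y h => hg fun v hv => congrArg H (h v hv)
  have hD : Measurable (Dp f) := measurable_block hf
  have hb : P {x | f x = true} ≤ ((ball d (2 * a)).card + 1 : ℕ) * q ^ m := by
    have h2 : {x | f x = true} ⊆
        (⋃ w ∈ ball d (2 * a), {x : Cf d S | ∀ v ∈ ball d l, H (x v) = p (v + w)}) ∪
          {x | ∀ v ∈ ball d l, H (x v) = false} := by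
      intro x hx
      rcases (hg' _).1 hx with ⟨w, hw, h⟩ | h
      · exact Or.inl (mem_iUnion₂.2 ⟨w, hw, h⟩)
      · exact Or.inr h
    refine (measure_mono h2).trans ((measure_union_le _ _).trans ?_)
    rw [Nat.cast_add, Nat.cast_one, add_mul, one_mul, hl]
    refine add_le_add ((measure_biUnion_finset_le _ _).trans ?_)
      (pattern_le hd P hP hk H hH hq m fun _ => false)
    rw [← nsmul_eq_mul]
    exact Finset.sum_le_card_nsmul _ _ _ fun w _ =>
      pattern_le hd P hP hk H hH hq m fun v => p (v + w)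
  have hc1 : (1 : ℝ) ≤ (ball d (20 * a)).card :=
    Nat.one_le_cast.2 (Finset.card_pos.2 ⟨0, zero_mem_ball _⟩)
  have hr : ((ball d (20 * a)).card : ℝ) ^ 2 * P.real {x | f x = true} ≤ min θ (1 / 2) := by
    have h2 : P.real {x | f x = true} ≤ ((ball d (2 * a)).card + 1) * q.toReal ^ m := by
      have := ENNReal.toReal_mono (by finiteness) hb
      rwa [ENNReal.toReal_mul, ENNReal.toReal_pow, ENNReal.toReal_natCast, Nat.cast_add,
        Nat.cast_one] at this
    have h3 : ((ball d (2 * a)).card : ℝ) ≤ (ball d (20 * a)).card :=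
      Nat.cast_le.2 (Finset.card_le_card (ball_mono (by omega)))
    have h4 : ((ball d (20 * a)).card : ℝ) ≤ (121 * ((k : ℝ) + 1) * m) ^ d := by
      rw [card_ball]
      exact_mod_cast Nat.pow_le_pow_left (by rw [ha, hl]; nlinarith) d
    refine le_trans ?_ hm
    calc ((ball d (20 * a)).card : ℝ) ^ 2 * P.real {x | f x = true}
        ≤ ((ball d (20 * a)).card : ℝ) ^ 2 * ((2 * (ball d (20 * a)).card) * q.toReal ^ m) :=
          mul_le_mul_of_nonneg_left (h2.trans (mul_le_mul_of_nonneg_right (by linarith)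
            (by positivity))) (by positivity)
      _ = 2 * ((ball d (20 * a)).card : ℝ) ^ 3 * q.toReal ^ m := by ring
      _ ≤ 2 * ((121 * ((k : ℝ) + 1) * m) ^ d) ^ 3 * q.toReal ^ m := by gcongr
      _ = _ := by rw [← pow_mul, mul_comm d 3, mul_pow]; ring
  refine ⟨l, f, hf, hfl, ?_⟩
  rw [← ha]
  refine ⟨⟨Measure.isProbabilityMeasure_map hD.aemeasurable, hP.block hf,
    by rw [ha, hl]; nlinarith, ha ▸ hk.block hf hfl, ?_, fun h => hp ?_⟩,
    hr.trans (min_le_left _ _), fun x hx => ?_⟩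
  · have hm2 : MeasurableSet {x : Cf d Bool | x 0 = true} :=
      (measurable_pi_apply (0 : V d) : Measurable fun x : Cf d Bool => x 0)
        (measurableSet_singleton true)
    rw [Measure.map_apply hD hm2]
    have e : Dp f ⁻¹' {x | x 0 = true} = {x | f x = true} := by
      ext x
      simp [Dp]
    have h2 : ((ball d (20 * a)).card : ℝ) * P.real {x | f x = true} ≤ 1 / 2 := by
      refine le_trans ?_ (hr.trans (min_le_right _ _))
      exact mul_le_mul_of_nonneg_right (by nlinarith) measureReal_nonneg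
    have h3 := ENNReal.ofReal_le_ofReal h2
    rw [ENNReal.ofReal_mul (by positivity), ENNReal.ofReal_natCast, ofReal_measureReal,
      ENNReal.ofReal_div_of_pos two_pos, ENNReal.ofReal_one, ENNReal.ofReal_ofNat] at h3
    exact e ▸ h3
  · rw [Measure.map_apply hD (measurableSet_cyl (ball d (2 * a)) fun _ => true)] at h
    refine measure_mono_null ?_ h
    intro x hx w hw
    exact (hg' _).2 (Or.inl ⟨w, hw, fun v hv => hx _ (add_mem_ball hv hw)⟩)
  · by_contra h
    push Not at h
    exact Bool.false_ne_true (hx.symm.trans ((hg' _).2 (Or.inr fun v hv => by simpa using h v hv)))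

theorem exists_of_weights {T : Type} (e : ℕ ≃ T) (w : T → ℝ) (hw : ∀ t, 0 ≤ w t)
    (h1 : ∑' t, ENNReal.ofReal (w t) = 1) :
    ∃ ν : Measure ℕ, IsProbabilityMeasure ν ∧
      shannon ν = ∑' t, ENNReal.ofReal (Real.negMulLog (w t)) := by
  refine ⟨Measure.sum fun i => ENNReal.ofReal (w (e i)) • Measure.dirac i, ⟨?_⟩, ?_⟩
  · rw [← h1, ← e.tsum_eq]
    simp
  · rw [shannon, lintegral_countable', ← e.tsum_eq]
    refine tsum_congr fun i => ?_
    rw [measureReal_def, Measure.sum_smul_dirac_singleton, ENNReal.toReal_ofReal (hw _), mul_comm,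
      ← ENNReal.ofReal_mul (hw _), Real.negMulLog, mul_neg, neg_mul]

theorem exists_shannon_top : ∃ ν : Measure ℕ, IsProbabilityMeasure ν ∧ shannon ν = ∞ := by
  let N : ℕ → ℕ := fun i => ⌈Real.exp (2 ^ (i + 1))⌉₊
  have hN : ∀ i, (0 : ℝ) < N i := fun i => (Real.exp_pos _).trans_le (Nat.le_ceil _)
  have hN' : ∀ i, (2 : ℝ) ^ (i + 1) ≤ Real.log (N i) := fun i =>
    (Real.le_log_iff_exp_le (hN i)).2 (Nat.le_ceil _)
  let w : ℕ × ℕ → ℝ := fun p => if p.2 < N p.1 then (1 / 2) ^ (p.1 + 1) / N p.1 else 0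
  have key : ∀ (F : ℝ → ℝ) (i : ℕ), F 0 = 0 → ∑' j, ENNReal.ofReal (F (w (i, j))) =
      ENNReal.ofReal (N i * F ((1 / 2) ^ (i + 1) / N i)) := by
    intro F i hF
    rw [tsum_eq_sum (s := Finset.range (N i)) fun j hj => by
        simp only [w, if_neg (mt Finset.mem_range.2 hj), hF, ENNReal.ofReal_zero],
      Finset.sum_congr rfl fun j hj => by simp only [w, if_pos (Finset.mem_range.1 hj)]; rfl,
      Finset.sum_const, Finset.card_range, nsmul_eq_mul, ENNReal.ofReal_mul (hN i).le,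
      ENNReal.ofReal_natCast]
  obtain ⟨ν, h1, h2⟩ := exists_of_weights Nat.pairEquiv.symm w
    (fun p => by simp only [w]; split_ifs; exacts [div_nonneg (by positivity) (hN _).le, le_rfl])
    (by
      rw [ENNReal.tsum_prod']
      have h3 : ∀ i, ∑' j, ENNReal.ofReal (w (i, j)) = ENNReal.ofReal (1 / 2 / 2 ^ i) := fun i => by
        rw [key (fun x => x) i rfl, mul_div_cancel₀ _ (hN i).ne']
        congr 1
        rw [one_div_pow, div_div, pow_succ']
      simp only [h3]
      rw [← ENNReal.ofReal_tsum_of_nonneg (fun i => by positivity)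
        (hasSum_geometric_two' 1).summable, (hasSum_geometric_two' 1).tsum_eq, ENNReal.ofReal_one])
  refine ⟨ν, h1, h2.trans (top_unique ?_)⟩
  rw [ENNReal.tsum_prod', ← ENNReal.tsum_const_eq_top_of_ne_zero (α := ℕ) one_ne_zero]
  refine ENNReal.tsum_le_tsum fun i => ?_
  rw [key _ i Real.negMulLog_zero, ENNReal.one_le_ofReal, Real.negMulLog, ← mul_assoc, mul_neg,
    mul_div_cancel₀ _ (hN i).ne', Real.log_div (by positivity) (hN i).ne']
  have h3 : Real.log ((1 / 2 : ℝ) ^ (i + 1)) ≤ 0 :=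
    Real.log_nonpos (by positivity) (pow_le_one₀ (by norm_num) (by norm_num))
  have h4 : (1 / 2 : ℝ) ^ (i + 1) * 2 ^ (i + 1) = 1 := by rw [← mul_pow]; norm_num
  have h5 : (0 : ℝ) < (1 / 2) ^ (i + 1) := by positivity
  nlinarith [hN' i]

theorem exists_shannon (h : ℝ≥0∞) :
    ∃ ν : Measure ℕ, IsProbabilityMeasure ν ∧ shannon ν = h := by
  rcases eq_or_ne h ∞ with rfl | ht
  · exact exists_shannon_top
  obtain ⟨N, hN⟩ : ∃ N : ℕ, Real.exp h.toReal ≤ N := ⟨_, Nat.le_ceil _⟩
  have hN0 : (0 : ℝ) < N := (Real.exp_pos _).trans_le hN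
  let φ : ℝ → ℝ := fun t => Real.negMulLog (1 - t) + N * Real.negMulLog (t / N)
  have hφ : Continuous φ := by fun_prop
  obtain ⟨t, ⟨t0, t1⟩, ht'⟩ : h.toReal ∈ φ '' Icc 0 1 := by
    refine intermediate_value_Icc zero_le_one hφ.continuousOn ⟨by simp [φ], ?_⟩
    simp only [φ, sub_self, Real.negMulLog, one_div, Real.log_inv]
    rw [neg_zero, zero_mul, zero_add, neg_mul_neg, ← mul_assoc, mul_inv_cancel₀ hN0.ne', one_mul]
    exact (Real.le_log_iff_exp_le hN0).2 hN
  let w : ℕ → ℝ := fun i => if i < N then t / N else if i = N then 1 - t else 0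
  have key : ∀ F : ℝ → ℝ, F 0 = 0 → 0 ≤ F (t / N) → 0 ≤ F (1 - t) →
      ∑' j, ENNReal.ofReal (F (w j)) = ENNReal.ofReal (F (1 - t) + N * F (t / N)) := by
    intro F hF a1 a2
    rw [tsum_eq_sum (s := Finset.range (N + 1)) fun j hj => by
        rw [Finset.mem_range] at hj
        simp only [w, if_neg (show ¬ j < N by omega), if_neg (show ¬ j = N by omega), hF,
          ENNReal.ofReal_zero],
      Finset.sum_range_succ,
      Finset.sum_congr rfl fun j hj => by simp only [w, if_pos (Finset.mem_range.1 hj)]; rfl,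
      Finset.sum_const, Finset.card_range, nsmul_eq_mul,
      ENNReal.ofReal_add a2 (by positivity), ENNReal.ofReal_mul hN0.le, ENNReal.ofReal_natCast,
      add_comm]
    simp [w]
  have a1 : 0 ≤ t / N := by positivity
  have a2 : t / N ≤ 1 := by
    rw [div_le_one hN0]
    exact t1.trans (Nat.one_le_cast.2 (Nat.cast_pos.1 hN0))
  obtain ⟨ν, h1, h2⟩ := exists_of_weights (Equiv.refl ℕ) w
    (fun p => by simp only [w]; split_ifs; exacts [a1, by linarith, le_rfl])
    (by rw [key (fun x => x) rfl a1 (by linarith), mul_div_cancel₀ _ hN0.ne', sub_add_cancel,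
      ENNReal.ofReal_one])
  refine ⟨ν, h1, h2.trans ?_⟩
  rw [key _ Real.negMulLog_zero (Real.negMulLog_nonneg a1 a2)
    (Real.negMulLog_nonneg (by linarith) (by linarith)), ← ENNReal.ofReal_toReal ht, ← ht']

theorem exists_atom_of_shannon {ν : Measure ℕ} [IsProbabilityMeasure ν] (h : shannon ν ≠ 0) :
    ∃ t, ν {t} ≠ 0 ∧ ν {t} ≠ 1 := by
  by_contra h1
  push Not at h1
  apply h
  rw [shannon, lintegral_countable', ENNReal.tsum_eq_zero]
  intro t
  by_cases h2 : ν {t} = 0
  · simp [h2]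
  · simp [measureReal_def, h1 t h2]

/-- a finite measure without atoms splits -/
theorem exists_split {S : Type} [MeasurableSpace S] [StandardBorelSpace S] (ν : Measure S)
    [IsProbabilityMeasure ν] {B : Set S} (hB : MeasurableSet B) (h0 : ν B ≠ 0)
    (hat : ∀ t ∈ B, ν {t} = 0) :
    ∃ A, MeasurableSet A ∧ A ⊆ B ∧ ν A ≠ 0 ∧ ν A ≠ 1 := by
  by_contra h
  push Not at h
  have h1 : ν B = 1 := h B hB subset_rfl h0
  have h2 : ∀ᵐ x ∂ν, x ∈ B := (prob_compl_eq_zero_iff hB).2 h1
  have : IsZeroOneMeasure ν := ⟨fun A hA => by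
    rw [← measure_congr (inter_ae_eq_left_of_ae_eq_univ (s := A) (ae_eq_univ.2 h2))]
    exact or_iff_not_imp_left.2 (h _ (hA.inter hB) inter_subset_right)⟩
  obtain ⟨t, ht⟩ := IsZeroOneMeasure.exists_eq_dirac (μ := ν)
  subst ht
  have h3 : t ∈ B := by
    by_contra h3
    simp [Measure.dirac_apply' _ hB, h3] at h0
  simpa using hat t h3

end CHO

end Pool.Agent.P.MP_1a5a6a_pr
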