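import Mathlib

set_option autoImplicit false
set_option linter.dupNamespace false
set_option warn.classDefReducibility false
open MeasureTheory ProbabilityTheory Filter Set
open scoped ENNReal Classical

namespace Pool.Agent.P.MP_1a5a6a_pr

/-- sites -/
abbrev V (d : ℕ) := Fin d → ℤ
/-- configurations -/
abbrev Cf (d : ℕ) (S : Type) := V d → S
/-- marker configurations -/
abbrev Mk (d : ℕ) := Cf d (Bool × Bool)

variable {d : ℕ}

/-- shift -/
def sh {S : Type} (a : V d) (x : Cf d S) : Cf d S := fun v => x (v + a)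

/-- sup-norm ball as a finset -/
noncomputable def ball (d r : ℕ) : Finset (V d) := Fintype.piFinset fun _ => Finset.Icc (-(r : ℤ)) r

/-- neighbourhood filter: agreeing with `x` on a large finite set -/
def nb {S : Type} (x : Cf d S) : Filter (Cf d S) := Filter.pi fun v => pure (x v)

/-- locally constant at `x` -/
def LC {S : Type} {β : Type} (f : Cf d S → β) (x : Cf d S) : Prop := ∀ᶠ y in nb x, f y = f x

def Stat {S : Type} [MeasurableSpace S] (μ : Measure (Cf d S)) : Prop :=
  ∀ a : V d, μ.map (sh a) = μ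

def KDep {S : Type} [MeasurableSpace S] (k : ℕ) (μ : Measure (Cf d S)) : Prop :=
  ∀ U W : Set (V d), (∀ u ∈ U, ∀ w ∈ W, (k : ℝ) < ‖u - w‖) →
    IndepFun (fun x : Cf d S => fun u : U => x u) (fun x : Cf d S => fun w : W => x w) μ

/-- finitary equivariant map -/
structure FinMap {S T : Type} [MeasurableSpace S] [MeasurableSpace T] (μ : Measure (Cf d S))
    (φ : Cf d S → Cf d T) : Prop where
  meas : Measurable φ
  equiv : ∀ a x, φ (sh a x) = sh a (φ x)
  lc : ∀ᵐ x ∂μ, LC (fun y => φ y 0) x

/-- finitary isomorphism -/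
def FinIso {S T : Type} [MeasurableSpace S] [MeasurableSpace T] (μ : Measure (Cf d S))
    (μ' : Measure (Cf d T)) : Prop :=
  ∃ (φ : Cf d S → Cf d T) (ψ : Cf d T → Cf d S),
    FinMap μ φ ∧ FinMap μ' ψ ∧ μ.map φ = μ' ∧ ∀ᵐ x ∂μ, ψ (φ x) = x

/-- pair two configurations site by site -/
def zipF {S T : Type} (p : Cf d S × Cf d T) : Cf d (S × T) := fun v => (p.1 v, p.2 v)

/-- independent product of two fields -/
noncomputable def zip {S T : Type} [MeasurableSpace S] [MeasurableSpace T]
    (μ : Measure (Cf d S)) (μ' : Measure (Cf d T)) : Measure (Cf d (S × T)) :=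
  (μ.prod μ').map zipF

/-- i.i.d. field -/
noncomputable def iid (d : ℕ) {T : Type} [MeasurableSpace T] (ν : Measure T) : Measure (Cf d T) :=
  Measure.infinitePi fun _ : V d => ν

/-- lexicographically least element of a finset (0 for the empty set) -/
noncomputable def lexmin (F : Finset (V d)) : V d :=
  if h : F.Nonempty then ofLex ((F.image toLex).min' (h.image _)) else 0

/-- sites whose `k`-ball lies in `U` -/
noncomputable def inn (k : ℕ) (U : Finset (V d)) : Finset (V d) :=
  U.filter fun v => ∀ w ∈ ball d k, v + w ∈ U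

/-- `C` behaves at `m` like an increasing exhausting sequence of partitions into finite cells;
`C n m` is the level `n` cell of the origin -/
structure Good0 (C : ℕ → Mk d → Finset (V d)) (m : Mk d) : Prop where
  zero_mem : ∀ n, 0 ∈ C n m
  inv : ∀ n, ∀ v ∈ C n m, ∀ w, w ∈ C n (sh v m) ↔ w + v ∈ C n m
  lc : ∀ n, LC (C n) m
  mono : ∀ n, C n m ⊆ C (n + 1) m
  exh : ∀ v, ∃ n, v ∈ C n m

/-- marker law with a hierarchy of cells -/
structure Env (d : ℕ) where
  ρ : Measure (Mk d)
  prob : IsProbabilityMeasure ρ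
  stat : Stat ρ
  C : ℕ → Mk d → Finset (V d)
  good0 : ∀ᵐ m ∂ρ, Good0 C m

instance (E : Env d) : IsProbabilityMeasure E.ρ := E.prob

def Env.Good (E : Env d) (m : Mk d) : Prop := ∀ z, Good0 E.C (sh z m)

/-- root of the level `n` cell of the origin -/
noncomputable def Env.rt (E : Env d) (n : ℕ) (m : Mk d) : V d := lexmin (E.C n m)

/-- the origin is the root of its level `n` cell -/
def Env.root (E : Env d) (n : ℕ) (m : Mk d) : Prop := E.rt n m = 0

/-- roots of the level `n` cells inside the level `N` cell of the origin -/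
noncomputable def Env.ch (E : Env d) (n N : ℕ) (m : Mk d) : Finset (V d) :=
  (E.C N m).filter fun z => E.root n (sh z m)

/-- a finitely dependent field having the marker field as a finitary factor, together with the
conditional laws `κ n m` of the field inside the level `n` cell -/
structure Side (E : Env d) (S : Type) [MeasurableSpace S] where
  P : Measure (Cf d S)
  prob : IsProbabilityMeasure P
  stat : Stat P
  k : ℕ
  dep : KDep k P
  M : Cf d S → Mk d
  measM : Measurable M
  equiv : ∀ a x, M (sh a x) = sh a (M x)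
  lcM : ∀ᵐ x ∂P, Tendsto M (nb x) (nb (M x))
  law : P.map M = E.ρ
  κ : ℕ → Mk d → Measure (Cf d S)
  κprob : ∀ n m, IsProbabilityMeasure (κ n m)
  κlc : ∀ᵐ m ∂E.ρ, ∀ n, LC (κ n) m
  prod : ∀ᵐ m ∂E.ρ, ∀ n N, n ≤ N → ∀ f : V d → Cf d S → ℝ≥0∞,
    (∀ z ∈ E.ch n N m, Measurable (f z) ∧ DependsOn (f z) (inn k (E.C n (sh z m)))) →
    ∫⁻ x, ∏ z ∈ E.ch n N m, f z (sh z x) ∂(κ N m) =
      ∏ z ∈ E.ch n N m, ∫⁻ x, f z x ∂(κ n (sh z m))
  cond : ∀ (n : ℕ) (F : Mk d → Cf d S → ℝ≥0∞),
    (∀ᵐ m ∂E.ρ, LC F m ∧ Measurable (F m) ∧ DependsOn (F m) (inn k (E.C n m))) →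
    ∫⁻ x, F (M x) x ∂P = ∫⁻ m, ∫⁻ x, F m x ∂(κ n m) ∂E.ρ

instance {E : Env d} {S : Type} [MeasurableSpace S] (s : Side E S) : IsProbabilityMeasure s.P :=
  s.prob
instance {E : Env d} {S : Type} [MeasurableSpace S] (s : Side E S) (n : ℕ) (m : Mk d) :
    IsProbabilityMeasure (s.κ n m) := s.κprob n m

/-- the revealed region of the level `n` cell -/
noncomputable def Side.R {E : Env d} {S : Type} [MeasurableSpace S] (s : Side E S) (n : ℕ)
    (m : Mk d) : Finset (V d) := inn s.k (E.C n m)

/-! ### partition schemes and information -/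

/-- a partition of configuration space for every marker configuration -/
abbrev Sch (d : ℕ) (S : Type) := Mk d → Setoid (Cf d S)

/-- class of a point -/
def cls {X : Type} (α : Setoid X) (x : X) : Set X := {y | α y x}

/-- agreeing on `U` -/
def agree {S : Type} (U : Finset (V d)) : Setoid (Cf d S) where
  r x y := ∀ v ∈ U, x v = y v
  iseqv := ⟨fun _ _ _ => rfl, fun h v hv => (h v hv).symm,
    fun h h' v hv => (h v hv).trans (h' v hv)⟩

/-- product of a level `n` scheme over the children of a level `N` cell -/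
def Env.lift (E : Env d) {S : Type} (n N : ℕ) (α : Sch d S) : Sch d S := fun m =>
  { r := fun x y => ∀ z ∈ E.ch n N m, α (sh z m) (sh z x) (sh z y)
    iseqv := ⟨fun _ z _ => (α (sh z m)).refl _, fun h z hz => (α (sh z m)).symm (h z hz),
      fun h h' z hz => (α (sh z m)).trans (h z hz) (h' z hz)⟩ }

/-- density of the logarithm of the number of classes -/
noncomputable def Env.cnt (E : Env d) {S : Type} (n : ℕ) (α : Sch d S) : ℝ≥0∞ :=
  ∫⁻ m, (if E.root n m then ENNReal.ofReal (Real.log (Nat.card (Quotient (α m)))) else 0) ∂E.ρ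

section
variable {E : Env d} {S : Type} [MeasurableSpace S]

/-- information of the class of `x` under the conditional law -/
noncomputable def Side.info (s : Side E S) (n : ℕ) (α : Sch d S) (x : Cf d S) : ℝ :=
  -Real.log ((s.κ n (s.M x)).real (cls (α (s.M x)) x))

/-- entropy density -/
noncomputable def Side.ent (s : Side E S) (n : ℕ) (α : Sch d S) : ℝ≥0∞ :=
  ∫⁻ x, (if E.root n (s.M x) then ENNReal.ofReal (s.info n α x) else 0) ∂s.P

/-- reveal everything in the revealed region -/
noncomputable def Side.full (s : Side E S) (n : ℕ) : Sch d S := fun m => agree (s.R n m)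

/-- relative entropy rate -/
noncomputable def Side.g (s : Side E S) : ℝ≥0∞ := ⨆ n, s.ent n (s.full n)

/-- a level `n` scheme -/
def Side.Pre (s : Side E S) (n : ℕ) (α : Sch d S) : Prop :=
  ∀ᵐ m ∂E.ρ, LC α m ∧ ∀ x y, s.full n m x y → α m x y

/-- a level `n` scheme with finitely many classes -/
def Side.FinSch (s : Side E S) (n : ℕ) (α : Sch d S) : Prop :=
  s.Pre n α ∧ ∀ᵐ m ∂E.ρ, Finite (Quotient (α m))

/-- density of the sites `v` of level `n` cells with property `Q m x v` -/
noncomputable def Side.den (s : Side E S) (n : ℕ) (Q : Mk d → Cf d S → V d → Prop) : ℝ≥0∞ :=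
  ∫⁻ x, (if E.root n (s.M x) then (((E.C n (s.M x)).filter (Q (s.M x) x)).card : ℝ≥0∞) else 0)
    ∂s.P
end

/-- `D` is the density of a coupling of `κ` and `κ'` with respect to their product -/
def Coupled {X Y : Type} [MeasurableSpace X] [MeasurableSpace Y] (κ : Measure X) (κ' : Measure Y)
    (D : X → Y → ℝ≥0∞) : Prop :=
  (∀ᵐ x ∂κ, ∫⁻ y, D x y ∂κ' = 1) ∧ (∀ᵐ y ∂κ', ∫⁻ x, D x y ∂κ = 1)

/-- a level `n` family of couplings -/
def Cpl {E : Env d} {S S' : Type} [MeasurableSpace S] [MeasurableSpace S'] (s : Side E S)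
    (s' : Side E S') (n : ℕ) (D : Mk d → Cf d S → Cf d S' → ℝ≥0∞) : Prop :=
  ∀ᵐ m ∂E.ρ, LC D m ∧
    (∀ x x' y y', s.full n m x x' → s'.full n m y y' → D m x y = D m x' y') ∧
    Coupled (s.κ n m) (s'.κ n m) (D m)

/-- the support of the level `N` coupling projects into the supports of the level `n` ones -/
def Nested (E : Env d) {S S' : Type} (n N : ℕ) (D D' : Mk d → Cf d S → Cf d S' → ℝ≥0∞) : Prop :=
  ∀ᵐ m ∂E.ρ, ∀ x y, D' m x y ≠ 0 → ∀ z ∈ E.ch n N m, D (sh z m) (sh z x) (sh z y) ≠ 0

/-- `x` determines the partner at site `v` -/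
def Det {S S' : Type} (D : Mk d → Cf d S → Cf d S' → ℝ≥0∞) (m : Mk d) (x : Cf d S) (v : V d) :
    Prop := ∃ c, ∀ y, D m x y ≠ 0 → y v = c

/-- Shannon entropy of a law on a countable set -/
noncomputable def shannon {T : Type} [MeasurableSpace T] (ν : Measure T) : ℝ≥0∞ :=
  ∫⁻ t, ENNReal.ofReal (-Real.log (ν.real {t})) ∂ν

/-! ### the concrete markers -/

/-- the `R`-pattern at the origin differs from the `R`-patterns at all other points of the
`r`-ball -/
def sepAt (r R : ℕ) (g : Cf d Bool) : Prop :=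
  ∀ w ∈ ball d r, w ≠ 0 → ∃ v ∈ ball d R, g v ≠ g (v + w)

/-- colour number `i` -/
def col (r i : ℕ) (g : Cf d Bool) : Prop :=
  ∃ p : ℕ × Finset (V d), Encodable.encode p = i ∧ sepAt r p.1 g ∧
    ∀ v ∈ ball d p.1, (g v = true ↔ v ∈ p.2)

/-- greedy net after `i` rounds -/
def netN (r : ℕ) : ℕ → Cf d Bool → Prop
  | 0 => fun _ => False
  | i + 1 => fun g => netN r i g ∨ (col r i g ∧ ∀ w ∈ ball d r, ¬ netN r i (sh w g))

/-- the origin belongs to the maximal `r`-separated net read off `g` -/
def net (r : ℕ) (g : Cf d Bool) : Prop := ∃ i, netN r i g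

/-- aperiodic configuration -/
def Free (g : Cf d Bool) : Prop := ∀ w, w ≠ 0 → ∃ v, g v ≠ g (v + w)

/-- net points within distance `t` of the origin -/
noncomputable def netB (r t : ℕ) (g : Cf d Bool) : Finset (V d) :=
  (ball d t).filter fun u => net r (sh u g)

/-- the field of full `2a`-balls -/
noncomputable def GG (a : ℕ) (δ : Cf d Bool) : Cf d Bool :=
  fun j => decide (∀ w ∈ ball d (2 * a), δ (w + j) = true)

/-- the marker field -/
noncomputable def M0 (a : ℕ) (δ : Cf d Bool) : Mk d :=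
  fun v => (GG a δ v, decide (net (2 * a) (sh v (GG a δ)) ∧ δ v = true))

/-- first layer of a marker configuration -/
def fstM (m : Mk d) : Cf d Bool := fun v => (m v).1

/-- the net point owning the origin -/
noncomputable def own (a : ℕ) (g : Cf d Bool) : V d :=
  if (netB (2 * a) a g).Nonempty then lexmin (netB (2 * a) a g)
  else lexmin (netB (2 * a) (2 * a) g)

/-- the origin has no certificate -/
def bad (a : ℕ) (m : Mk d) : Prop :=
  ¬ ((netB (2 * a) (2 * a) (fstM m)).Nonempty ∧ (m (own a (fstM m))).2 = false)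

def glue0 (a : ℕ) (m : Mk d) (v w : V d) : Prop :=
  ((netB (2 * a) (2 * a) (sh v (fstM m))).Nonempty ∧ w = v + own a (sh v (fstM m))) ∨
    (bad a (sh v m) ∧ w - v ∈ ball d (3 * a))

def glue (a : ℕ) (m : Mk d) (v w : V d) : Prop := glue0 a m v w ∨ glue0 a m w v

/-- the tile of the origin -/
def tile (a : ℕ) (m : Mk d) : Set (V d) := {w | Relation.ReflTransGen (glue a m) 0 w}

noncomputable def tileF (a : ℕ) (m : Mk d) : Finset (V d) :=
  if h : (tile a m).Finite then h.toFinset else {0}

/-- closed under gluing -/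
def Adm (a : ℕ) (m : Mk d) (U : Set (V d)) : Prop := ∀ v w, glue a m v w → v ∈ U → w ∈ U

/-- what the markers `m` say about `δ` at the origin -/
def Ev0 (a : ℕ) (m : Mk d) (δ : Cf d Bool) : Prop :=
  (net (2 * a) (fstM m) → δ 0 = (m 0).2) ∧ (bad a m → GG a δ 0 = (m 0).1)

/-- what the markers `m` say about `δ` in `U` -/
def Ev (a : ℕ) (m : Mk d) (U : Set (V d)) (δ : Cf d Bool) : Prop :=
  ∀ v ∈ U, Ev0 a (sh v m) (sh v δ)

/-- the binary field read off `x` -/
def Dp {S : Type} (f : Cf d S → Bool) (x : Cf d S) : Cf d Bool := fun u => f (sh u x)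

/-- conditioning with a harmless default -/
noncomputable def cnd {X : Type} [MeasurableSpace X] (P : Measure X) (B : Set X) : Measure X :=
  if P B = 0 then P else ProbabilityTheory.cond P B

/-- a sparse finitely dependent binary field in which full `2a`-balls occur -/
structure Sparse (a : ℕ) (δ : Measure (Cf d Bool)) : Prop where
  prob : IsProbabilityMeasure δ
  stat : Stat δ
  one_le : 1 ≤ a
  dep : KDep a δ
  small : ((ball d (20 * a)).card : ℝ≥0∞) * δ {x | x 0 = true} ≤ 1 / 2
  pos : δ {x | ∀ w ∈ ball d (2 * a), x w = true} ≠ 0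

/-- the environment built on the concrete markers -/
def IsTileEnv (a : ℕ) (δ : Measure (Cf d Bool)) (E : Env d) : Prop :=
  E.ρ = δ.map (M0 a) ∧ ∀ m, E.C 0 m = tileF a m

/-- the side built on the block factor `f` -/
def IsTileSide (a : ℕ) {E : Env d} {S : Type} [MeasurableSpace S] (s : Side E S)
    (f : Cf d S → Bool) : Prop :=
  (∀ x, s.M x = M0 a (Dp f x)) ∧
    ∀ n m, s.κ n m = cnd s.P {x | Ev a m (E.C n m) (Dp f x)}

end Pool.Agent.P.MP_1a5a6a_pr
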