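import Pool.Agent.P.MP_1a5a6a_pr.FI.Basic

set_option autoImplicit false
set_option linter.unusedSectionVars false
open MeasureTheory ProbabilityTheory Filter Set
open scoped ENNReal Classical

namespace Pool.Agent.P.MP_1a5a6a_pr

variable {d : ℕ}

section DEP
variable {S T : Type} [MeasurableSpace S] [MeasurableSpace T]

theorem KDep.mono {μ : Measure (Cf d S)} {k k' : ℕ} (h : KDep k μ) (hk : k ≤ k') :
    KDep k' μ := fun U W hs =>
  h U W fun u hu w hw => lt_of_le_of_lt (by exact_mod_cast hk) (hs u hu w hw)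

theorem measurable_res (U : Set (V d)) : Measurable fun x : Cf d S => fun u : U => x u :=
  measurable_pi_lambda _ fun _ => measurable_pi_apply _

theorem exists_factor {β : Type} [MeasurableSpace β] (x0 : Cf d S) {U : Set (V d)}
    {f : Cf d S → β} (hf : Measurable f) (hfU : DependsOn f U) :
    ∃ g : (U → S) → β, Measurable g ∧ f = g ∘ fun x : Cf d S => fun u : U => x u := by
  refine ⟨fun y => f fun v => if h : v ∈ U then y ⟨v, h⟩ else x0 v,
    hf.comp (measurable_pi_lambda _ fun v => ?_), funext fun x => hfU fun v hv => by simp [hv]⟩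
  by_cases h : v ∈ U
  · simpa only [dif_pos h] using measurable_pi_apply _
  · simpa only [dif_neg h] using measurable_const

theorem KDep.indepFun {β γ : Type} [MeasurableSpace β] [MeasurableSpace γ]
    {μ : Measure (Cf d S)} [IsProbabilityMeasure μ] {k : ℕ} (h : KDep k μ) {U W : Set (V d)}
    (hsep : ∀ u ∈ U, ∀ w ∈ W, (k : ℝ) < ‖u - w‖) {f : Cf d S → β} {g : Cf d S → γ}
    (hf : Measurable f) (hfU : DependsOn f U) (hg : Measurable g) (hgW : DependsOn g W) :
    IndepFun f g μ := by
  obtain ⟨x0⟩ := nonempty_of_isProbabilityMeasure μ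
  obtain ⟨f', hf', rfl⟩ := exists_factor x0 hf hfU
  obtain ⟨g', hg', rfl⟩ := exists_factor x0 hg hgW
  exact (h U W hsep).comp hf' hg'

theorem KDep.lintegral_mul {μ : Measure (Cf d S)} [IsProbabilityMeasure μ] {k : ℕ}
    (h : KDep k μ) {U W : Set (V d)} (hsep : ∀ u ∈ U, ∀ w ∈ W, (k : ℝ) < ‖u - w‖)
    {f g : Cf d S → ℝ≥0∞} (hf : Measurable f) (hfU : DependsOn f U) (hg : Measurable g)
    (hgW : DependsOn g W) : ∫⁻ x, f x * g x ∂μ = (∫⁻ x, f x ∂μ) * ∫⁻ x, g x ∂μ :=
  lintegral_mul_eq_lintegral_mul_lintegral_of_indepFun'' hf.aemeasurable hg.aemeasurable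
    (h.indepFun hsep hf hfU hg hgW)

theorem KDep.lintegral_prod {ι : Type} {μ : Measure (Cf d S)} [IsProbabilityMeasure μ] {k : ℕ}
    (h : KDep k μ) (F : Finset ι) (U : ι → Set (V d))
    (hsep : ∀ i ∈ F, ∀ j ∈ F, i ≠ j → ∀ u ∈ U i, ∀ w ∈ U j, (k : ℝ) < ‖u - w‖)
    (f : ι → Cf d S → ℝ≥0∞) (hf : ∀ i ∈ F, Measurable (f i) ∧ DependsOn (f i) (U i)) :
    ∫⁻ x, ∏ i ∈ F, f i x ∂μ = ∏ i ∈ F, ∫⁻ x, f i x ∂μ := by
  induction F using Finset.induction_on with
  | empty => simp
  | insert a F ha ih =>
    have hF : ∀ i ∈ F, i ∈ insert a F := fun i hi => Finset.mem_insert_of_mem hi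
    have ha' := Finset.mem_insert_self a F
    simp only [Finset.prod_insert ha]
    rw [← ih (fun i hi j hj => hsep i (hF i hi) j (hF j hj)) fun i hi => hf i (hF i hi)]
    refine h.lintegral_mul (U := U a) (W := ⋃ i ∈ F, U i) (fun u hu w hw => ?_) (hf a ha').1
      (hf a ha').2 (Finset.measurable_fun_prod _ fun i hi => (hf i (hF i hi)).1)
      fun x y hxy => Finset.prod_congr rfl fun i hi =>
        (hf i (hF i hi)).2 fun v hv => hxy v (mem_biUnion hi hv)
    obtain ⟨i, hi, hw⟩ := mem_iUnion₂.1 hw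
    exact hsep a ha' i (hF i hi) (fun e => ha (e ▸ hi)) u hu w hw

theorem KDep.measure_inter {μ : Measure (Cf d S)} [IsProbabilityMeasure μ] {k : ℕ}
    (h : KDep k μ) {U W : Set (V d)} (hsep : ∀ u ∈ U, ∀ w ∈ W, (k : ℝ) < ‖u - w‖)
    {A B : Set (Cf d S)} (hA : MeasurableSet A) (hAU : DependsOn (· ∈ A) U)
    (hB : MeasurableSet B) (hBW : DependsOn (· ∈ B) W) : μ (A ∩ B) = μ A * μ B := by
  have := (h.indepFun hsep (measurable_mem.2 hA) hAU (measurable_mem.2 hB)
    hBW).measure_inter_preimage_eq_mul {True} {True} (by simp) (by simp)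
  simpa [preimage] using this

theorem KDep.measure_biInter {ι : Type} {μ : Measure (Cf d S)} [IsProbabilityMeasure μ] {k : ℕ}
    (h : KDep k μ) (F : Finset ι) (U : ι → Set (V d))
    (hsep : ∀ i ∈ F, ∀ j ∈ F, i ≠ j → ∀ u ∈ U i, ∀ w ∈ U j, (k : ℝ) < ‖u - w‖)
    (A : ι → Set (Cf d S)) (hA : ∀ i ∈ F, MeasurableSet (A i) ∧ DependsOn (· ∈ A i) (U i)) :
    μ {x | ∀ i ∈ F, x ∈ A i} = ∏ i ∈ F, μ (A i) := by
  have h1 := h.lintegral_prod F U hsep (fun i => (A i).indicator 1) fun i hi =>
    ⟨measurable_one.indicator (hA i hi).1, fun x y hxy => by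
      have := (hA i hi).2 hxy
      simp only [indicator, this, Pi.one_apply]⟩
  have h2 : MeasurableSet {x | ∀ i ∈ F, x ∈ A i} := by
    have : {x | ∀ i ∈ F, x ∈ A i} = ⋂ i ∈ F, A i := by ext; simp
    rw [this]
    exact Finset.measurableSet_biInter _ fun i hi => (hA i hi).1
  rw [← lintegral_indicator_one h2,
    ← Finset.prod_congr rfl fun i hi => lintegral_indicator_one (hA i hi).1, ← h1]
  refine lintegral_congr fun x => ?_
  simp only [indicator, mem_ofPred_eq, Pi.one_apply, Finset.prod_boole]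

theorem measurable_block {f : Cf d S → T} (hf : Measurable f) :
    Measurable fun (x : Cf d S) (u : V d) => f (sh u x) :=
  measurable_pi_lambda _ fun u => hf.comp (measurable_sh u)

theorem Stat.block {μ : Measure (Cf d S)} (h : Stat μ) {f : Cf d S → T} (hf : Measurable f) :
    Stat (μ.map fun x u => f (sh u x)) := fun a => by
  rw [Measure.map_map (measurable_sh a) (measurable_block hf)]
  conv_rhs => rw [← h a, Measure.map_map (measurable_block hf) (measurable_sh a)]
  congr 1
  funext x u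
  simp [sh_sh]

theorem kdep_map {α : Type} [MeasurableSpace α] {μ : Measure α} {Φ : α → Cf d T}
    (hΦ : Measurable Φ) {k : ℕ} (h : ∀ U W : Set (V d), (∀ u ∈ U, ∀ w ∈ W, (k : ℝ) < ‖u - w‖) →
      IndepFun (fun x => fun u : U => Φ x u) (fun x => fun w : W => Φ x w) μ) :
    KDep k (μ.map Φ) := fun U W hs => by
  rw [indepFun_iff_measure_inter_preimage_eq_mul]
  intro A B hA hB
  rw [Measure.map_apply hΦ ((measurable_res U hA).inter (measurable_res W hB)),
    Measure.map_apply hΦ (measurable_res U hA), Measure.map_apply hΦ (measurable_res W hB)]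
  exact (h U W hs).measure_inter_preimage_eq_mul A B hA hB

theorem KDep.block {μ : Measure (Cf d S)} [IsProbabilityMeasure μ] {k l : ℕ} (h : KDep k μ)
    {f : Cf d S → T} (hf : Measurable f) (hl : DependsOn f (ball d l)) :
    KDep (k + 2 * l) (μ.map fun x u => f (sh u x)) := by
  have key : ∀ U : Set (V d), DependsOn (fun (x : Cf d S) (u : U) => f (sh u x))
      {v | ∃ u ∈ U, v - u ∈ ball d l} := fun U x y hxy =>
    funext fun u => hl fun v hv => hxy _ ⟨u, u.2, by simpa using hv⟩
  refine kdep_map (measurable_block hf) fun U W hs => h.indepFun ?_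
    ((measurable_res U).comp (measurable_block hf)) (key U)
    ((measurable_res W).comp (measurable_block hf)) (key W)
  rintro v ⟨u, hu, h1⟩ v' ⟨w, hw, h2⟩
  have h3 := hs u hu w hw
  rw [mem_ball_norm] at h1 h2
  have h4 : u - w = (v - v') - (v - u) + (v' - w) := by abel
  have h5 := (norm_add_le ((v - v') - (v - u)) (v' - w)).trans
    (add_le_add_left (norm_sub_le _ _) _)
  rw [← h4] at h5
  push_cast at h3
  linarith

theorem KDep.site {μ : Measure (Cf d S)} [IsProbabilityMeasure μ] {k : ℕ} (h : KDep k μ)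
    {f : S → T} (hf : Measurable f) : KDep k (μ.map fun x v => f (x v)) := by
  have hm : Measurable fun (x : Cf d S) (v : V d) => f (x v) :=
    measurable_pi_lambda _ fun v => hf.comp (measurable_pi_apply v)
  exact kdep_map hm fun U W hs => h.indepFun hs ((measurable_res U).comp hm)
    (fun x y hxy => funext fun u => by rw [hxy u u.2]) ((measurable_res W).comp hm)
    fun x y hxy => funext fun u => by rw [hxy u u.2]

theorem KDep.zip {μ : Measure (Cf d S)} {μ' : Measure (Cf d T)} [IsProbabilityMeasure μ]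
    [IsProbabilityMeasure μ'] {k : ℕ} (h : KDep k μ) (h' : KDep k μ') :
    KDep k (zip μ μ') := by
  have hm : Measurable (zipF : Cf d S × Cf d T → Cf d (S × T)) :=
    measurable_pi_lambda _ fun v => ((measurable_pi_apply v).comp measurable_fst).prodMk
      ((measurable_pi_apply v).comp measurable_snd)
  refine kdep_map hm fun U W hs => ?_
  rw [indepFun_iff_measure_inter_preimage_eq_mul]
  intro A B hA hB
  have key : ∀ (U : Set (V d)) (A : Set (U → S × T)), MeasurableSet A →
      ∃ F : Cf d S × Cf d T → ℝ≥0∞, Measurable F ∧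
        F = ((fun x => fun u : U => zipF x u) ⁻¹' A).indicator 1 ∧
        (∀ x, DependsOn (fun y => F (x, y)) U) ∧ DependsOn (fun x => ∫⁻ y, F (x, y) ∂μ') U := by
    intro U A hA
    refine ⟨_, measurable_one.indicator ((measurable_res U).comp hm hA), rfl,
      fun x y y' hy => ?_, fun x x' hx => lintegral_congr fun y => ?_⟩
    · have : (fun u : U => zipF (x, y) u) = fun u : U => zipF (x, y') u :=
        funext fun u => by simp only [zipF, hy u u.2]
      simp only [indicator, mem_preimage, Function.comp_apply, this, Pi.one_apply]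
    · have : (fun u : U => zipF (x, y) u) = fun u : U => zipF (x', y) u :=
        funext fun u => by simp only [zipF, hx u u.2]
      simp only [indicator, mem_preimage, Function.comp_apply, this, Pi.one_apply]
  obtain ⟨F, mF, eF, dF, dF'⟩ := key U A hA
  obtain ⟨G, mG, eG, dG, dG'⟩ := key W B hB
  have m1 : MeasurableSet ((fun (x : Cf d S × Cf d T) (u : U) => zipF x (u : V d)) ⁻¹' A) :=
    (measurable_res U).comp hm hA
  have m2 : MeasurableSet ((fun (x : Cf d S × Cf d T) (u : W) => zipF x (u : V d)) ⁻¹' B) :=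
    (measurable_res W).comp hm hB
  rw [← lintegral_indicator_one (m1.inter m2), ← lintegral_indicator_one m1,
    ← lintegral_indicator_one m2, inter_indicator_one, ← eF, ← eG,
    MeasureTheory.lintegral_prod _ (mF.mul mG).aemeasurable,
    MeasureTheory.lintegral_prod _ mF.aemeasurable, MeasureTheory.lintegral_prod _ mG.aemeasurable,
    ← h.lintegral_mul hs mF.lintegral_prod_right' dF' mG.lintegral_prod_right' dG']
  exact lintegral_congr fun x => h'.lintegral_mul hs (mF.comp measurable_prodMk_left) (dF x)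
    (mG.comp measurable_prodMk_left) (dG x)

theorem kdep_iid (ν : Measure T) [IsProbabilityMeasure ν] (k : ℕ) : KDep k (iid d ν) := by
  intro U W hs
  have h1 := (iIndepFun_iff_iIndep _ _ _).1 (iIndepFun_infinitePi (P := fun _ : V d => ν)
    (X := fun _ ω => ω) fun _ => measurable_id)
  have h2 := indep_iSup_of_disjoint (fun i => (measurable_pi_apply i).comap_le) h1
    (S := U) (T := W) (disjoint_left.2 fun v hu hw => by
      have := hs v hu v hw
      rw [sub_self, norm_zero] at this
      exact this.not_ge k.cast_nonneg)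
  have key : ∀ U : Set (V d), MeasurableSpace.comap (fun x : Cf d T => fun u : U => x u)
      MeasurableSpace.pi ≤ ⨆ i ∈ U, MeasurableSpace.comap (fun x : Cf d T => x i) inferInstance :=
    fun U => by
      rw [MeasurableSpace.pi, MeasurableSpace.comap_iSup]
      refine iSup_le fun u => ?_
      rw [MeasurableSpace.comap_comp]
      exact le_iSup₂_of_le (f := fun i (_ : i ∈ U) =>
        MeasurableSpace.comap (fun x : Cf d T => x i) inferInstance) u.1 u.2 le_rfl
  exact (IndepFun_iff_Indep _ _ _).2 (indep_of_indep_of_le h2 (key U) (key W))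

theorem measurableSet_site (z : V d) (c : Bool) : MeasurableSet {g : Cf d Bool | g z = c} :=
  measurableSet_eq_fun (measurable_pi_apply z) measurable_const

theorem measure_all {γ : Measure (Cf d Bool)} [IsProbabilityMeasure γ] (hγ : Stat γ) {k : ℕ}
    (h : KDep k γ) (c : Bool) (Z : Finset (V d))
    (hZ : ∀ u ∈ Z, ∀ w ∈ Z, u ≠ w → u - w ∉ ball d k) :
    γ {g | ∀ z ∈ Z, g z = c} = γ {x | x 0 = c} ^ Z.card := by
  have := h.measure_biInter Z (fun z => {z}) (fun i hi j hj hij u hu w hw => by
    rw [hu, hw]; exact not_mem_ball.1 (hZ i hi j hj hij)) (fun z => {g | g z = c}) fun z _ =>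
      ⟨measurableSet_site z c, fun x y hxy => by
        simp only [mem_ofPred_eq, hxy z rfl]⟩
  rw [← Finset.prod_const, ← Finset.prod_congr rfl fun z _ => hγ.measure_sh z {x | x 0 = c}]
  simpa [preimage] using this

theorem ae_free {γ : Measure (Cf d Bool)} [IsProbabilityMeasure γ] (hγ : Stat γ) {k : ℕ}
    (h : KDep k γ) (h0 : γ {x | x 0 = true} ≠ 0) (h1 : γ {x | x 0 = true} ≠ 1) :
    ∀ᵐ g ∂γ, Free g := by
  refine ae_all_iff.2 fun w => ?_
  by_cases hw : w = 0
  · simp [hw]
  obtain ⟨c, hc⟩ := Function.ne_iff.1 hw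
  have lt1 : ∀ b : Bool, γ {x | x 0 = b} < 1 := by
    rintro (_ | _)
    · have : {x : Cf d Bool | x 0 = false} = {x | x 0 = true}ᶜ := by ext; simp
      rw [this, prob_compl_eq_one_sub (measurableSet_site 0 true)]
      exact ENNReal.sub_lt_self ENNReal.one_ne_top one_ne_zero h0
    · exact lt_of_le_of_ne prob_le_one h1
  have inj : Function.Injective fun j : ℕ => (j * (k + 1)) • w := fun i j hij => by
    have := congrFun hij c
    simp only [Pi.smul_apply, nsmul_eq_mul] at this
    have h2 := mul_right_cancel₀ hc this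
    exact Nat.eq_of_mul_eq_mul_right k.succ_pos (by exact_mod_cast h2)
  have key : ∀ (b : Bool) (n : ℕ), γ {g | ∀ j : ℕ, g ((j * (k + 1)) • w) = b} ≤
      γ {x | x 0 = b} ^ n := fun b n => by
    have := measure_all hγ h b ((Finset.range n).image fun j : ℕ => (j * (k + 1)) • w) (by
      intro u hu v hv huv hb
      obtain ⟨i, -, rfl⟩ := Finset.mem_image.1 hu
      obtain ⟨j, -, rfl⟩ := Finset.mem_image.1 hv
      have hij : ((i : ℤ) - j) * w c ≠ 0 := mul_ne_zero (fun e => huv (by
        rw [show i = j by exact_mod_cast sub_eq_zero.1 e])) hc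
      have h2 := mem_ball.1 hb c
      rw [Pi.sub_apply, Pi.smul_apply, Pi.smul_apply, nsmul_eq_mul, nsmul_eq_mul] at h2
      push_cast at h2
      rw [show (i : ℤ) * (k + 1) * w c - j * (k + 1) * w c = (k + 1) * ((i - j) * w c) by ring,
        abs_mul, abs_of_pos (by positivity)] at h2
      nlinarith [Int.one_le_abs hij])
    rw [Finset.card_image_of_injective _ inj, Finset.card_range] at this
    rw [← this]
    refine measure_mono fun g hg z hz => ?_
    obtain ⟨j, -, rfl⟩ := Finset.mem_image.1 hz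
    exact hg j
  have nul : ∀ b : Bool, γ {g | ∀ j : ℕ, g ((j * (k + 1)) • w) = b} = 0 := fun b =>
    nonpos_iff_eq_zero.1 (ge_of_tendsto' (ENNReal.tendsto_pow_atTop_nhds_zero_of_lt_one (lt1 b))
      (key b))
  refine measure_mono_null (fun g hg => ?_) (measure_union_null (nul true) (nul false))
  simp only [mem_compl_iff, mem_ofPred_eq, not_forall, not_exists, not_not] at hg
  obtain ⟨-, hg⟩ := hg
  have h2 : ∀ n : ℕ, g (n • w) = g 0 := fun n => by
    induction n with
    | zero => simp
    | succ n ih => rw [succ_nsmul, ← hg, ih]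
  cases e : g 0
  · exact Or.inr fun j => (h2 _).trans e
  · exact Or.inl fun j => (h2 _).trans e

/-- chains of `true` sites avoiding the `k`-neighbourhood of `Z` -/
def Reach (k r : ℕ) (g : Cf d Bool) (Z : Finset (V d)) : V d → V d → Prop :=
  Relation.ReflTransGen fun a b => b - a ∈ ball d r ∧ g b = true ∧ ∀ z ∈ Z, b - z ∉ ball d k

theorem Reach.last_exit {k r : ℕ} {g : Cf d Bool} {Z : Finset (V d)} {y w : V d}
    (h : Reach k r g Z y w) (hw : w - y ∉ ball d k) : ∃ y', y' - y ∈ ball d (k + r) ∧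
      g y' = true ∧ (∀ z ∈ insert y Z, y' - z ∉ ball d k) ∧ Reach k r g (insert y Z) y' w := by
  induction h with
  | refl => exact absurd (by simpa using zero_mem_ball k) hw
  | @tail b c _ hs ih =>
    have hc : ∀ z ∈ insert y Z, c - z ∉ ball d k := Finset.forall_mem_insert _ _ _ |>.2 ⟨hw, hs.2.2⟩
    by_cases hb : b - y ∈ ball d k
    · exact ⟨c, by simpa using add_mem_ball hb hs.1, hs.2.1, hc, Relation.ReflTransGen.refl⟩
    · obtain ⟨y', h1, h2, h3, h4⟩ := ih hb
      exact ⟨y', h1, h2, h3, h4.tail ⟨hs.1, hs.2.1, hc⟩⟩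

theorem peierls {γ : Measure (Cf d Bool)} [IsProbabilityMeasure γ] (hγ : Stat γ)
    {k r : ℕ} (h : KDep k γ) (n : ℕ) : ∀ (Z : Finset (V d)) (y : V d),
      (∀ u ∈ Z, ∀ w ∈ Z, u ≠ w → u - w ∉ ball d k) → (∀ z ∈ Z, y - z ∉ ball d k) →
      γ {g | (∀ z ∈ insert y Z, g z = true) ∧
        ∃ w, w - y ∉ ball d (n * (k + r)) ∧ Reach k r g Z y w} ≤
      (((ball d (k + r)).card : ℝ≥0∞) * γ {x | x 0 = true}) ^ n *
        γ {x | x 0 = true} ^ (Z.card + 1) := by
  have ins : ∀ (Z : Finset (V d)) (y : V d), (∀ u ∈ Z, ∀ w ∈ Z, u ≠ w → u - w ∉ ball d k) →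
      (∀ z ∈ Z, y - z ∉ ball d k) → (∀ u ∈ insert y Z, ∀ w ∈ insert y Z, u ≠ w → u - w ∉ ball d k) ∧
        (insert y Z).card = Z.card + 1 := fun Z y hZ hy => by
    refine ⟨fun u hu w hw huw => ?_, Finset.card_insert_of_notMem fun hm =>
      hy y hm (by simpa using zero_mem_ball k)⟩
    rcases Finset.mem_insert.1 hu with rfl | hu' <;> rcases Finset.mem_insert.1 hw with rfl | hw'
    · exact absurd rfl huw
    · exact hy w hw'
    · exact fun hb => hy u hu' (by simpa using neg_mem_ball hb)
    · exact hZ u hu' w hw' huw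
  induction n with
  | zero =>
    intro Z y hZ hy
    rw [pow_zero, one_mul, ← (ins Z y hZ hy).2, ← measure_all hγ h true _ (ins Z y hZ hy).1]
    exact measure_mono fun g hg => hg.1
  | succ n ih =>
    intro Z y hZ hy
    obtain ⟨i1, i2⟩ := ins Z y hZ hy
    refine (measure_mono (t := ⋃ t ∈ (ball d (k + r)).filter
      (fun t => ∀ z ∈ insert y Z, t + y - z ∉ ball d k), {g | (∀ z ∈ insert (t + y) (insert y Z),
        g z = true) ∧ ∃ w, w - (t + y) ∉ ball d (n * (k + r)) ∧
          Reach k r g (insert y Z) (t + y) w}) ?_).trans ((measure_biUnion_finset_le _ _).trans ?_)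
    · rintro g ⟨h1, w, h2, h3⟩
      obtain ⟨y', k1, k2, k3, k4⟩ := h3.last_exit fun hb => h2 (ball_mono (by nlinarith) hb)
      refine mem_biUnion (x := y' - y) (Finset.mem_coe.2 (Finset.mem_filter.2
        ⟨k1, by simpa only [sub_add_cancel] using k3⟩)) ?_
      simp only [sub_add_cancel, mem_ofPred_eq]
      refine ⟨Finset.forall_mem_insert _ _ _ |>.2 ⟨k2, h1⟩, w, fun hb => h2 ?_, k4⟩
      simpa [add_mul] using add_mem_ball hb k1
    · refine (Finset.sum_le_card_nsmul _ _ _ fun t ht =>
        ih (insert y Z) (t + y) i1 (Finset.mem_filter.1 ht).2).trans ?_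
      rw [nsmul_eq_mul, i2]
      refine (mul_le_mul_left (Nat.cast_le.2 (Finset.card_filter_le _ _)) _).trans (le_of_eq ?_)
      ring

/-- Peierls bound: no infinite chain of `true` sites with steps at most `r` -/
theorem ae_chain_finite {γ : Measure (Cf d Bool)} [IsProbabilityMeasure γ] (hγ : Stat γ)
    {k r : ℕ} (h : KDep k γ) (hs : ((ball d (k + r)).card : ℝ≥0∞) * γ {x | x 0 = true} < 1) :
    ∀ᵐ g ∂γ, ∀ u, g u = true → {w | Relation.ReflTransGen
      (fun a b : V d => b - a ∈ ball d r ∧ g b = true) u w}.Finite := by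
  refine ae_all_iff.2 fun u => nonpos_iff_eq_zero.1 (ge_of_tendsto'
    (ENNReal.tendsto_pow_atTop_nhds_zero_of_lt_one hs) fun n => ?_)
  refine (measure_mono fun g hg => ?_).trans ((peierls hγ h n ∅ u (by simp) (by simp)).trans
    (mul_le_of_le_one_right' (pow_le_one₀ zero_le prob_le_one)))
  simp only [mem_compl_iff, mem_ofPred_eq, Classical.not_imp] at hg
  refine ⟨by simpa using hg.1, ?_⟩
  by_contra hc
  refine hg.2 (((ball d (n * (k + r))).image (· + u)).finite_toSet.subset fun w hw => ?_)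
  refine Finset.mem_coe.2 (Finset.mem_image.2 ⟨w - u, ?_, sub_add_cancel _ _⟩)
  by_contra hb
  exact hc ⟨w, hb, by simpa [Reach] using hw⟩

end DEP

end Pool.Agent.P.MP_1a5a6a_pr
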