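import Pool.Agent.P.MP_1a5a6a_pr.FI.Sch1

set_option autoImplicit false
set_option linter.unusedSectionVars false
open MeasureTheory ProbabilityTheory Filter Set
open scoped ENNReal Classical

namespace Pool.Agent.P.MP_1a5a6a_pr

variable {d : ℕ}

section REF
variable {E : Env d} {S : Type} [MeasurableSpace S] [Countable S] [MeasurableSingletonClass S]

/-- the integrand of the entropy density -/
noncomputable def Side.entF (s : Side E S) (n : ℕ) (α : Sch d S) (x : Cf d S) : ℝ≥0∞ :=
  if E.root n (s.M x) then ENNReal.ofReal (s.info n α x) else 0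

theorem Side.ent_eq_entF (s : Side E S) (n : ℕ) (α : Sch d S) :
    s.ent n α = ∫⁻ x, s.entF n α x ∂s.P := rfl

theorem Side.Pre.aemeasurable_entF {s : Side E S} {n : ℕ} {α : Sch d S} (h : s.Pre n α) :
    AEMeasurable (s.entF n α) s.P := by
  refine aemeasurable_of_lc ?_
  filter_upwards [h.lc_info, s.lc_M (E.ae_good.mono fun m hm => hm.lc_root n)] with x h1 h2
  exact (h2.pair h1).post fun p => if p.1 then ENNReal.ofReal p.2 else 0

/-- the weight of the labelled roots, seen from the field -/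
theorem Side.label_eq (s : Side E S) (n : ℕ) {lab : Mk d → V d} (hl : ∀ᵐ m ∂E.ρ, LC lab m)
    (i : V d) :
    ∫⁻ x, (if E.root n (s.M x) ∧ lab (s.M x) = i then ((E.C n (s.M x)).card : ℝ≥0∞) else 0) ∂s.P =
      ∫⁻ m, (if E.root n m ∧ lab m = i then ((E.C n m).card : ℝ≥0∞) else 0) ∂E.ρ := by
  refine s.lintegral_M
    (f := fun m => if E.root n m ∧ lab m = i then ((E.C n m).card : ℝ≥0∞) else 0) ?_
  refine aemeasurable_of_lc ?_
  filter_upwards [hl, E.ae_good] with m h1 hm
  exact (((hm.lc_root n).pair h1).pair (hm.lc n)).post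
    fun p => if p.1.1 ∧ p.1.2 = i then (p.2.card : ℝ≥0∞) else 0

/-- refinement at a fixed level, finite entropy -/
theorem Side.refine_fin (hd : 0 < d) (s : Side E S) {j : ℕ} {β : Sch d S} (hβ : s.Pre j β)
    (hfin : s.ent j (s.full j) ≠ ∞) (hc : s.ent j β < s.ent j (s.full j)) {b : ℝ≥0∞}
    (hb : b < s.ent j (s.full j)) {ε : ℝ≥0∞} (hε : 0 < ε) :
    ∃ γ : Sch d S, s.Pre j γ ∧ (∀ᵐ m ∂E.ρ, ∀ x y, γ m x y → β m x y) ∧
      b < s.ent j γ ∧ s.ent j γ < s.ent j (s.full j) ∧
      s.den j (fun m x v => ¬ ∀ y, γ m y x → y v = x v) ≤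
        ε + s.den j (fun m _ v => v ∉ s.R j m) := by
  set h := s.ent j (s.full j) with hh
  obtain ⟨δ, hδ, hδ'⟩ := exists_pos_setLIntegral_lt_of_measure_lt (μ := s.P)
    (f := s.entF j (s.full j)) hfin (ε := h - b) (tsub_pos_iff_lt.2 hb).ne'
  obtain ⟨δ', hδ0, hδ1⟩ := exists_between hδ
  obtain ⟨lab0, hl0, hlab0⟩ := E.exists_label hd j (lt_min hδ0 hε)
  set lab := ver lab0 0 with hlabdef
  have hl : ∀ᵐ m ∂E.ρ, LC lab m := hl0.mono fun m hm => hm.ver
  have hlab : ∀ i, ∫⁻ x, (if E.root j (s.M x) ∧ lab (s.M x) = i then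
      ((E.C j (s.M x)).card : ℝ≥0∞) else 0) ∂s.P ≤ min δ' ε := fun i => by
    rw [s.label_eq j hl i]
    refine le_trans (le_of_eq (lintegral_congr_ae ?_)) (hlab0 i)
    filter_upwards [hl0] with m hm
    rw [hlabdef, ver_eq hm]
  let L : V d → Set (Cf d S) := fun i => {x | lab (s.M x) = i}
  have hL : ∀ i, MeasurableSet (L i) := fun i => s.measM (measurableSet_ver lab0 0 {i})
  have hpart : ∀ F : Cf d S → ℝ≥0∞, ∫⁻ x, F x ∂s.P = ∑' i, ∫⁻ x in L i, F x ∂s.P := fun F => by
    rw [← lintegral_iUnion hL]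
    · have : ⋃ i, L i = univ := eq_univ_of_forall fun x => mem_iUnion.2 ⟨_, rfl⟩
      rw [this, Measure.restrict_univ]
    · intro i i' hne
      refine Set.disjoint_left.2 fun x h1 h2 => hne ?_
      exact (show lab (s.M x) = i from h1).symm.trans h2
  obtain ⟨i, hi⟩ : ∃ i, ∫⁻ x in L i, s.entF j β x ∂s.P < ∫⁻ x in L i, s.entF j (s.full j) x ∂s.P := by
    by_contra hcon
    push Not at hcon
    refine absurd hc (not_lt.2 ?_)
    rw [hh, s.ent_eq_entF, s.ent_eq_entF, hpart, hpart (s.entF j β)]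
    exact ENNReal.tsum_le_tsum hcon
  let γ : Sch d S := fun m => if lab m = i then β m else s.full j m
  have hγ1 : ∀ m, lab m = i → γ m = β m := fun m hm => if_pos hm
  have hγ2 : ∀ m, ¬ lab m = i → γ m = s.full j m := fun m hm => if_neg hm
  have hγ : s.ent j γ = ∫⁻ x in L i, s.entF j β x ∂s.P +
      ∫⁻ x in (L i)ᶜ, s.entF j (s.full j) x ∂s.P := by
    rw [s.ent_eq_entF, ← lintegral_add_compl _ (hL i)]
    congr 1
    · refine setLIntegral_congr_fun (hL i) fun x hx => ?_
      have hx' : lab (s.M x) = i := hx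
      simp only [Side.entF, Side.info, hγ1 _ hx']
    · refine setLIntegral_congr_fun (hL i).compl fun x hx => ?_
      have hx' : ¬ lab (s.M x) = i := hx
      simp only [Side.entF, Side.info, hγ2 _ hx']
  have hsplit : h = ∫⁻ x in L i, s.entF j (s.full j) x ∂s.P +
      ∫⁻ x in (L i)ᶜ, s.entF j (s.full j) x ∂s.P := by
    rw [hh, s.ent_eq_entF, ← lintegral_add_compl _ (hL i)]
  have hfin2 : ∫⁻ x in (L i)ᶜ, s.entF j (s.full j) x ∂s.P ≠ ∞ :=
    ne_top_of_le_ne_top hfin (hsplit ▸ le_add_self)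
  have hsmall : ∫⁻ x in L i, s.entF j (s.full j) x ∂s.P < h - b := by
    let A : Set (Cf d S) := {x | E.root j (s.M x) ∧ lab (s.M x) = i}
    have hA : NullMeasurableSet A s.P := by
      refine nullMeasurableSet_of_lc ?_
      filter_upwards [s.lc_M hl, s.lc_M (E.ae_good.mono fun m hm => hm.lc_root j)] with x h1 h2
      exact (h2.pair h1).post fun p => p.1 ∧ p.2 = i
    have hA1 : s.P A < δ := by
      refine lt_of_le_of_lt ?_ (lt_of_le_of_lt ((hlab i).trans (min_le_left _ _)) hδ1)
      rw [← lintegral_indicator_one₀ hA]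
      refine lintegral_mono_ae (s.ae_good.mono fun x hx => ?_)
      by_cases hxA : x ∈ A
      · have hxA' : E.root j (s.M x) ∧ lab (s.M x) = i := hxA
        simp only [indicator_of_mem hxA, if_pos hxA', Pi.one_apply]
        exact_mod_cast hx.card_pos j
      · rw [indicator_of_notMem hxA]
        exact bot_le
    refine lt_of_le_of_lt ?_ (hδ' A hA1)
    rw [← lintegral_indicator (hL i), ← lintegral_indicator₀ hA]
    refine lintegral_mono fun x => ?_
    by_cases hxL : x ∈ L i
    · rw [indicator_of_mem hxL]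
      by_cases hr : E.root j (s.M x)
      · rw [indicator_of_mem (show x ∈ A from ⟨hr, hxL⟩)]
      · simp [Side.entF, hr]
    · rw [indicator_of_notMem hxL]
      exact bot_le
  refine ⟨γ, ?_, ?_, ?_, ?_, ?_⟩
  · filter_upwards [hβ, s.pre_full j, hl] with m h1 h2 h3
    refine ⟨((h3.pair h1.1).pair h2.1).post fun p => if p.1.1 = i then p.1.2 else p.2, ?_⟩
    intro x y hxy
    by_cases hm : lab m = i
    · rw [hγ1 m hm]
      exact h1.2 x y hxy
    · rw [hγ2 m hm]
      exact hxy
  · filter_upwards [hβ] with m h1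
    intro x y hxy
    by_cases hm : lab m = i
    · rwa [hγ1 m hm] at hxy
    · rw [hγ2 m hm] at hxy
      exact h1.2 x y hxy
  · rw [hγ]
    refine lt_of_lt_of_le ?_ le_add_self
    by_contra hcon
    have hcon' := not_lt.1 hcon
    have h1 : h < (h - b) + b := by
      conv_lhs => rw [hsplit]
      exact ENNReal.add_lt_add_of_lt_of_le hfin2 hsmall hcon'
    rw [tsub_add_cancel_of_le hb.le] at h1
    exact lt_irrefl _ h1
  · rw [hγ, hsplit]
    exact ENNReal.add_lt_add_right hfin2 hi
  · refine le_trans (s.den_mono j (Q' := fun m _ v => lab m = i ∨ v ∉ s.R j m) ?_) ?_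
    · refine Eventually.of_forall fun x _ v _ hQ => ?_
      by_contra hcon
      push Not at hcon
      refine hQ fun y hy => ?_
      rw [hγ2 _ hcon.1] at hy
      exact hy v hcon.2
    · refine (s.den_or j (fun m _ _ => lab m = i) (fun m _ v => v ∉ s.R j m)
        fun _ => (hL i).nullMeasurableSet).trans (add_le_add ?_ le_rfl)
      refine le_trans (lintegral_mono fun x => ?_) ((hlab i).trans (min_le_right _ _))
      by_cases hr : E.root j (s.M x)
      · by_cases hm : lab (s.M x) = i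
        · simp [hr, hm]
        · simp [hr, hm]
      · simp [hr]

/-- truncated code of a letter -/
noncomputable def trunc (K : ℕ) (t : S) : Fin (K + 1) :=
  ⟨min (@Encodable.encode S (Encodable.ofCountable S) t) K, by omega⟩

theorem trunc_inj {K : ℕ} {t u : S} (ht : @Encodable.encode S (Encodable.ofCountable S) t < K)
    (h : trunc K u = trunc K t) : u = t := by
  have h1 := congrArg Fin.val h
  simp only [trunc] at h1
  apply @Encodable.encode_injective S (Encodable.ofCountable S)
  omega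

theorem trunc_mono {K K' : ℕ} (hK : K ≤ K') {t u : S} (h : trunc K' u = trunc K' t) :
    trunc K u = trunc K t := by
  have h1 := congrArg Fin.val h
  simp only [trunc] at h1
  apply Fin.ext
  simp only [trunc]
  omega

/-- a setoid refined by the truncated letters on a finite set -/
def truncS (K : ℕ) (p : Setoid (Cf d S) × Finset (V d)) : Setoid (Cf d S) where
  r x y := p.1 x y ∧ ∀ v ∈ p.2, trunc K (x v) = trunc K (y v)
  iseqv := ⟨fun x => ⟨p.1.refl x, fun _ _ => rfl⟩,
    fun h => ⟨p.1.symm h.1, fun v hv => (h.2 v hv).symm⟩,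
    fun h h' => ⟨p.1.trans h.1 h'.1, fun v hv => (h.2 v hv).trans (h'.2 v hv)⟩⟩

theorem truncS_card (K : ℕ) (a : Setoid (Cf d S)) (R : Finset (V d)) [Finite (Quotient a)] :
    Finite (Quotient (truncS K (a, R))) ∧
      Nat.card (Quotient (truncS K (a, R))) ≤ Nat.card (Quotient a) * (K + 1) ^ R.card := by
  let f : Quotient (truncS K (a, R)) → Quotient a × (R → Fin (K + 1)) :=
    Quotient.lift (fun x => (Quotient.mk a x, fun v => trunc K (x v))) fun x y h =>
      Prod.ext (Quotient.sound h.1) (funext fun v => h.2 v v.2)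
  have hf : Function.Injective f := by
    intro p q
    induction p using Quotient.inductionOn with | _ x => ?_
    induction q using Quotient.inductionOn with | _ y => ?_
    intro h
    have h1 : Quotient.mk a x = Quotient.mk a y := congrArg Prod.fst h
    have h2 : (fun v : R => trunc K (x v)) = fun v : R => trunc K (y v) := congrArg Prod.snd h
    exact Quotient.sound ⟨Quotient.exact h1, fun v hv => congrFun h2 ⟨v, hv⟩⟩
  refine ⟨Finite.of_injective f hf, (Nat.card_le_card_of_injective f hf).trans (le_of_eq ?_)⟩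
  simp [Nat.card_prod]

theorem log_card_le {c a K r : ℕ} (h : c ≤ a * (K + 1) ^ r) :
    ENNReal.ofReal (Real.log c) ≤
      ENNReal.ofReal (Real.log a) + ENNReal.ofReal (Real.log (K + 1)) * r := by
  rcases Nat.eq_zero_or_pos c with rfl | hc
  · simp
  have ha : a ≠ 0 := by
    rintro rfl
    omega
  have hK : (0 : ℝ) < K + 1 := by positivity
  have hK1 : 0 ≤ Real.log ((K : ℝ) + 1) := Real.log_nonneg (by linarith [Nat.cast_nonneg (α := ℝ) K])
  have h1 : Real.log c ≤ Real.log a + Real.log (K + 1) * r := by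
    have h2 : (c : ℝ) ≤ a * ((K : ℝ) + 1) ^ r := by exact_mod_cast h
    refine (Real.log_le_log (by exact_mod_cast hc) h2).trans (le_of_eq ?_)
    rw [Real.log_mul (by exact_mod_cast ha) (pow_pos hK r).ne', Real.log_pow, mul_comm (r : ℝ)]
  refine (ENNReal.ofReal_le_ofReal h1).trans (ENNReal.ofReal_add_le.trans (le_of_eq ?_))
  rw [ENNReal.ofReal_mul hK1, ENNReal.ofReal_natCast]

/-- refinement at a fixed level, infinite entropy -/
theorem Side.refine_top (s : Side E S) {j : ℕ} {β : Sch d S} (hβ : s.FinSch j β)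
    (hc : E.cnt j β ≠ ∞) {b : ℝ≥0∞} (hb : b < s.ent j (s.full j)) {ε : ℝ≥0∞} (hε : 0 < ε) :
    ∃ γ : Sch d S, s.Pre j γ ∧ (∀ᵐ m ∂E.ρ, ∀ x y, γ m x y → β m x y) ∧
      b < s.ent j γ ∧ s.ent j γ < ∞ ∧
      s.den j (fun m x v => ¬ ∀ y, γ m y x → y v = x v) ≤
        ε + s.den j (fun m _ v => v ∉ s.R j m) := by
  let γ : ℕ → Sch d S := fun K m => truncS K (β m, s.R j m)
  have hpre : ∀ K, s.Pre j (γ K) := fun K => by
    filter_upwards [hβ.1, E.ae_good] with m h1 hm
    refine ⟨(h1.1.pair ((hm.lc j).post (inn s.k))).post (truncS K), fun x y hxy => ?_⟩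
    exact ⟨h1.2 x y hxy, fun v hv => by rw [hxy v hv]⟩
  have hent : ∀ K, s.ent j (γ K) < ∞ := fun K => by
    have hF : s.FinSch j (γ K) :=
      ⟨hpre K, hβ.2.mono fun m hm => (truncS_card K (β m) (s.R j m)).1⟩
    refine hF.ent_le_cnt.trans_lt ?_
    have hm : AEMeasurable (fun m => if E.root j m then ((E.C j m).card : ℝ≥0∞) else 0) E.ρ :=
      aemeasurable_of_lc (E.ae_good.mono fun m hm =>
        ((hm.lc_root j).pair (hm.lc j)).post fun p => if p.1 then (p.2.card : ℝ≥0∞) else 0)
    have h1 : E.cnt j (γ K) ≤ E.cnt j β + ENNReal.ofReal (Real.log (K + 1)) * 1 := by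
      rw [← E.root_card j, ← lintegral_const_mul'' _ hm]
      unfold Env.cnt
      rw [← lintegral_add_right' _ (hm.const_mul _)]
      refine lintegral_mono_ae (hβ.2.mono fun m hm => ?_)
      by_cases hr : E.root j m
      · simp only [if_pos hr]
        refine (log_card_le (truncS_card K (β m) (s.R j m)).2).trans ?_
        gcongr
        exact inn_subset
      · simp [hr]
    exact h1.trans_lt (ENNReal.add_lt_top.2 ⟨hc.lt_top, by simp⟩)
  have hlim : ∀ᵐ x ∂s.P, Tendsto (fun K => s.entF j (γ K) x) atTop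
      (nhds (s.entF j (s.full j) x)) := by
    filter_upwards [s.ae_pos, s.ae_M hβ.1] with x h1 h2
    have h1' := h1 j 0
    simp only [sh_zero] at h1'
    by_cases hr : E.root j (s.M x)
    swap
    · simp [Side.entF, hr]
    simp only [Side.entF, if_pos hr, Side.info]
    have hmeas : ∀ K, MeasurableSet (cls (γ K (s.M x)) x) := fun K =>
      measurableSet_cls (I := s.R j (s.M x)) (α := γ K (s.M x))
        (fun y z hyz => ⟨h2.2 y z hyz, fun v hv => by rw [hyz v hv]⟩) x
    have hanti : Antitone fun K => cls (γ K (s.M x)) x := fun K K' hK y hy =>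
      ⟨hy.1, fun v hv => trunc_mono hK (hy.2 v hv)⟩
    have hint : ⋂ K, cls (γ K (s.M x)) x = cls (s.full j (s.M x)) x := by
      ext y
      rw [mem_iInter]
      constructor
      · intro hy v hv
        exact trunc_inj (Nat.lt_succ_self _) ((hy _).2 v hv)
      · intro hy K
        exact ⟨h2.2 y x hy, fun v hv => by rw [hy v hv]⟩
    have h3 := tendsto_measure_iInter_atTop (μ := s.κ j (s.M x))
      (fun K => (hmeas K).nullMeasurableSet) hanti ⟨0, measure_ne_top _ _⟩
    rw [hint] at h3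
    have h4 := (ENNReal.tendsto_toReal (measure_ne_top _ _)).comp h3
    have h5 : (s.κ j (s.M x) (cls (s.full j (s.M x)) x)).toReal ≠ 0 :=
      ENNReal.toReal_ne_zero.2 ⟨h1', measure_ne_top _ _⟩
    exact (ENNReal.continuous_ofReal.tendsto _).comp (h4.log h5).neg
  have hev : ∀ᶠ K in atTop, b < s.ent j (γ K) := by
    refine eventually_lt_of_lt_liminf (hb.trans_le ?_)
    refine le_trans (le_of_eq ?_)
      (lintegral_liminf_le' (μ := s.P) (f := fun K => s.entF j (γ K))
        fun K => (hpre K).aemeasurable_entF)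
    rw [s.ent_eq_entF]
    exact lintegral_congr_ae (hlim.mono fun x hx => hx.liminf_eq.symm)
  let B : ℕ → V d → Set (Cf d S) := fun K v =>
    {x | K ≤ @Encodable.encode S (Encodable.ofCountable S) (x v)}
  have hB : ∀ K v, MeasurableSet (B K v) := fun K v =>
    measurable_pi_apply (X := fun _ : V d => S) v (Set.to_countable
      {t : S | K ≤ @Encodable.encode S (Encodable.ofCountable S) t}).measurableSet
  have hev2 : ∀ᶠ K in atTop, s.P (B K 0) ≤ ε := by
    have h3 := tendsto_measure_iInter_atTop (μ := s.P) (s := fun K => B K 0)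
      (fun K => (hB K 0).nullMeasurableSet) (fun K K' hK y hy => le_trans hK hy)
      ⟨0, measure_ne_top _ _⟩
    have h4 : ⋂ K, B K 0 = ∅ := by
      refine eq_empty_of_forall_notMem fun x hx => ?_
      exact absurd (mem_iInter.1 hx _) (not_le.2 (Nat.lt_succ_self _))
    rw [h4, measure_empty] at h3
    exact (h3.eventually (gt_mem_nhds hε)).mono fun K hK => hK.le
  obtain ⟨K, hK1, hK2⟩ := (hev.and hev2).exists
  refine ⟨γ K, hpre K, Eventually.of_forall fun m x y hxy => hxy.1, hK1, hent K, ?_⟩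
  refine le_trans (s.den_mono j (Q' := fun m x v => x ∈ B K v ∨ v ∉ s.R j m) ?_) ?_
  · refine Eventually.of_forall fun x _ v _ hQ => ?_
    by_contra hcon
    push Not at hcon
    exact hQ fun y hy => trunc_inj (not_le.1 hcon.1) (hy.2 v hcon.2)
  · refine (s.den_or j (fun _ x v => x ∈ B K v) (fun m _ v => v ∉ s.R j m)
      fun v => (hB K v).nullMeasurableSet).trans (add_le_add ?_ le_rfl)
    rw [s.den_eq j _ fun v => (hB K v).nullMeasurableSet]
    refine le_trans (le_of_eq ?_) hK2
    congr 1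
    ext x
    simp [B]

theorem Side.refine (hd : 0 < d) (s : Side E S) {n : ℕ} {α : Sch d S} (hα : s.FinSch n α)
    (hc : E.cnt n α < s.g) {b : ℝ≥0∞} (hb : b < s.g) {ε : ℝ≥0∞} (hε : 0 < ε) :
    ∃ j, n ≤ j ∧ ∃ γ : Sch d S, s.Pre j γ ∧
      (∀ᵐ m ∂E.ρ, ∀ x y, γ m x y → E.lift n j α m x y) ∧
      b < s.ent j γ ∧ s.ent j γ < s.g ∧
      s.den j (fun m x v => ¬ ∀ y, γ m y x → y v = x v) ≤ ε := by
  have ht : Tendsto (fun j => s.ent j (s.full j)) atTop (nhds s.g) :=
    tendsto_atTop_iSup s.ent_full_mono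
  have hε2 : 0 < ε / 2 := ENNReal.half_pos hε.ne'
  obtain ⟨j, ⟨hj, h1⟩, h2, h3⟩ := (((eventually_ge_atTop n).and
    (ht.eventually (lt_mem_nhds hc))).and ((ht.eventually (lt_mem_nhds hb)).and
      (s.tendsto_den_not_R.eventually (gt_mem_nhds hε2)))).exists
  have hβ := hα.lift hj
  have hcnt : E.cnt j (E.lift n j α) < s.ent j (s.full j) := (hα.cnt_lift_le hj).trans_lt h1
  have hg : s.ent j (s.full j) ≤ s.g := (s.pre_full j).ent_le_g
  have hfin : ∀ γ : Sch d S, s.den j (fun m x v => ¬ ∀ y, γ m y x → y v = x v) ≤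
      ε / 2 + s.den j (fun m _ v => v ∉ s.R j m) →
      s.den j (fun m x v => ¬ ∀ y, γ m y x → y v = x v) ≤ ε := fun γ h =>
    h.trans ((add_le_add le_rfl h3.le).trans (le_of_eq (ENNReal.add_halves ε)))
  refine ⟨j, hj, ?_⟩
  by_cases htop : s.ent j (s.full j) = ∞
  · obtain ⟨γ, a1, a2, a3, a4, a5⟩ := s.refine_top hβ hcnt.ne_top h2 hε2
    exact ⟨γ, a1, a2, a3, a4.trans_le (htop ▸ hg), hfin γ a5⟩
  · obtain ⟨γ, a1, a2, a3, a4, a5⟩ :=
      s.refine_fin hd hβ.1 htop (hβ.ent_le_cnt.trans_lt hcnt) h2 hε2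
    exact ⟨γ, a1, a2, a3, a4.trans_le hg, hfin γ a5⟩
end REF

end Pool.Agent.P.MP_1a5a6a_pr
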