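import Pool.Agent.P.MP_1a5a6a_pr.FI.Step1
import Pool.Agent.P.MP_1a5a6a_pr.FI.Sch
import Pool.Agent.P.MP_1a5a6a_pr.FI.Refine
import Pool.Agent.P.MP_1a5a6a_pr.FI.Assemble

set_option autoImplicit false
set_option linter.unusedSectionVars false
open MeasureTheory ProbabilityTheory Filter Set
open scoped ENNReal Classical

namespace Pool.Agent.P.MP_1a5a6a_pr

variable {d : ℕ}

section pick
variable {X Y : Type} [MeasurableSpace X] [MeasurableSpace Y]

def Spec (κ : Measure X) (κ' : Measure Y) (α : Setoid X) (β : Setoid Y) (D D' : X → Y → ℝ≥0∞) :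
    Prop :=
  (∀ x x' y y', α x x' → β y y' → D' x y = D' x' y') ∧
    Coupled κ κ' D' ∧ (∀ x y, D' x y ≠ 0 → D x y ≠ 0) ∧
    ∀ θ : ℝ≥0∞, κ {x | (∃ y y', D' x y ≠ 0 ∧ D' x y' ≠ 0 ∧ ¬ β y y') ∧ κ (cls α x) ≤ θ} ≤
      Nat.card (Quotient β) * θ

noncomputable def pick (κ : Measure X) (κ' : Measure Y) (α : Setoid X) (β : Setoid Y)
    (D : X → Y → ℝ≥0∞) : X → Y → ℝ≥0∞ :=
  Classical.epsilon (Spec κ κ' α β D)

end pick

variable {E : Env d} {S S' : Type} [MeasurableSpace S] [Countable S] [MeasurableSingletonClass S]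
  [MeasurableSpace S'] [Countable S'] [MeasurableSingletonClass S']

/-- the state of the construction -/
structure State (s : Side E S) (s' : Side E S') where
  n : ℕ
  α : Sch d S
  β : Sch d S'
  D : Mk d → Cf d S → Cf d S' → ℝ≥0∞
  hα : s.FinSch n α
  hβ : s'.FinSch n β
  cα : E.cnt n α < s.g
  cβ : E.cnt n β < s'.g
  lc : ∀ᵐ m ∂E.ρ, LC D m
  sat : ∀ᵐ m ∂E.ρ, ∀ x x' y y', α m x x' → β m y y' → D m x y = D m x' y'
  cpl : ∀ᵐ m ∂E.ρ, Coupled (s.κ n m) (s'.κ n m) (D m)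

theorem State.toCpl {s : Side E S} {s' : Side E S'} (σ : State s s') : Cpl s s' σ.n σ.D := by
  filter_upwards [σ.lc, σ.sat, σ.cpl, σ.hα.1, σ.hβ.1] with m h1 h2 h3 h4 h5
  exact ⟨h1, fun x x' y y' hx hy => h2 _ _ _ _ (h4.2 _ _ hx) (h5.2 _ _ hy), h3⟩

def State.swap {s : Side E S} {s' : Side E S'} (σ : State s s') : State s' s where
  n := σ.n
  α := σ.β
  β := σ.α
  D := fun m y x => σ.D m x y
  hα := σ.hβ
  hβ := σ.hα
  cα := σ.cβ
  cβ := σ.cα
  lc := σ.lc.mono fun _ hm => hm.post fun D y x => D x y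
  sat := σ.sat.mono fun _ hm _ _ _ _ h h' => hm _ _ _ _ h' h
  cpl := σ.cpl.mono fun _ hm => hm.swap

theorem den_le_of_partner {s : Side E S} {s' : Side E S'} {N : ℕ}
    {D : Mk d → Cf d S → Cf d S' → ℝ≥0∞} (hD : Cpl s s' N D) {Q : Mk d → Cf d S' → V d → Prop}
    (hQ : s'.Loc N Q) :
    s.Loc N (fun m x v => ∀ y, D m x y ≠ 0 → Q m y v) ∧
      s.den N (fun m x v => ∀ y, D m x y ≠ 0 → Q m y v) ≤ s'.den N Q := by
  have hL : s.Loc N (fun m x v => ∀ y, D m x y ≠ 0 → Q m y v) := by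
    filter_upwards [hD, hQ] with m h1 h2
    refine ⟨(h1.1.pair h2.1).post fun p x v => ∀ y, p.1 x y ≠ 0 → p.2 y v, fun v x x' hx => ?_⟩
    have : D m x = D m x' := funext fun y => h1.2.1 x x' y y hx ((s'.full N m).refl y)
    simp only [this]
  refine ⟨hL, ?_⟩
  rw [hL.den_eq, hQ.den_eq]
  refine lintegral_mono_ae ?_
  filter_upwards [hD, hQ] with m h1 h2
  split_ifs
  · refine Finset.sum_le_sum fun v _ => ?_
    exact h1.2.2.le (measurable_uncurry_of_agree h1.2.1)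
      (measurableSet_setOfPred.2 (measurable_of_dependsOn (h2.2 v))) fun x hx => hx
  · exact le_rfl

theorem Side.den_marker (s : Side E S) (s' : Side E S') (N : ℕ) {Q : Mk d → Prop}
    (hQ : ∀ᵐ m ∂E.ρ, LC Q m) : s.den N (fun m _ _ => Q m) = s'.den N (fun m _ _ => Q m) := by
  have h : AEMeasurable (fun m => if E.root N m then
      (((E.C N m).filter fun _ => Q m).card : ℝ≥0∞) else 0) E.ρ :=
    aemeasurable_of_lc ((E.ae_good.and hQ).mono fun m hm =>
      (((hm.1.lc_root N).pair (hm.1.lc N)).pair hm.2).post fun p =>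
        if p.1.1 then ((p.1.2.filter fun _ => p.2).card : ℝ≥0∞) else 0)
  exact (s.lintegral_M h).trans (s'.lintegral_M h).symm

theorem loc_cls {s : Side E S} {N : ℕ} {γ : Sch d S} (hγ : s.Pre N γ) (a : ℝ)
    (φ : ℝ≥0∞ → ℝ≥0∞ → Prop) :
    s.Loc N fun m x _ => φ (E.thr N a m) (s.κ N m (cls (γ m) x)) := by
  filter_upwards [hγ, s.κlc, E.ae_good] with m h1 h2 h3
  exact ⟨(((h3.lc_thr N a).pair (h2 N)).pair h1.1).post
      fun p x (_ : V d) => φ p.1.1 (p.1.2 (cls p.2 x)),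
    fun _ => dependsOn_cls h1.2 fun B => φ (E.thr N a m) (s.κ N m B)⟩

theorem loc_reveal {s : Side E S} {N : ℕ} {γ : Sch d S} (hγ : s.Pre N γ) :
    s.Loc N fun m x v => ¬ ∀ y, γ m y x → y v = x v := by
  filter_upwards [hγ] with m h1
  refine ⟨h1.1.post fun g x v => ¬ ∀ y, g y x → y v = x v, fun v x x' hx => ?_⟩
  have key : ∀ x x', γ m x x' → (∀ y, γ m y x → y v = x v) → ∀ y, γ m y x' → y v = x' v :=
    fun x x' h H y hy => (H y ((γ m).trans hy ((γ m).symm h))).trans (H x' ((γ m).symm h)).symm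
  have h2 := h1.2 x x' hx
  exact congrArg Not (propext ⟨key x x' h2, key x' x ((γ m).symm h2)⟩)

theorem Side.Loc.or {s : Side E S} {N : ℕ} {Q Q' : Mk d → Cf d S → V d → Prop}
    (h : s.Loc N Q) (h' : s.Loc N Q') : s.Loc N fun m x v => Q m x v ∨ Q' m x v := by
  filter_upwards [h, h'] with m h1 h2
  refine ⟨(h1.1.pair h2.1).post fun p x v => p.1 x v ∨ p.2 x v, fun v x x' hx => ?_⟩
  have e1 := h1.2 v hx
  have e2 := h2.2 v hx
  simp only at e1 e2
  simp only [e1, e2]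

theorem mul_exp_neg_le {c t : ℝ} (hc : 0 < c) : t * Real.exp (-(c * t)) ≤ 1 / c := by
  rw [Real.exp_neg, ← div_eq_mul_inv, div_le_div_iff₀ (Real.exp_pos _) hc]
  have := Real.add_one_le_exp (c * t)
  linarith

theorem step (hd : 0 < d) {s : Side E S} {s' : Side E S'} (hg : s.g = s'.g) (σ : State s s')
    {ε : ℝ≥0∞} (hε : 0 < ε) :
    ∃ σ' : State s s', σ.n < σ'.n ∧ Nested E σ.n σ'.n σ.D σ'.D ∧
      s.den σ'.n (fun m x v => ¬ Det σ'.D m x v) ≤ ε := by
  obtain ⟨n, α, β, D, hα, hβ, cα, cβ, hlc, hsat, hcpl⟩ := σ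
  have hD : Cpl s s' n D := State.toCpl ⟨n, α, β, D, hα, hβ, cα, cβ, hlc, hsat, hcpl⟩
  simp only
  have hε2 : 0 < ε / 2 := ENNReal.half_pos hε.ne'
  obtain ⟨j', hj', γ', hγ', hle', hb', hg', hrev⟩ := s'.refine hd hβ cβ cβ hε2
  obtain ⟨j, hj, γ, hγ, hle, hb, hgγ, -⟩ := s.refine hd hα cα
    (b := max (s'.ent j' γ') (E.cnt n α)) (max_lt (hg ▸ hg') cα) hε2
  have f1 : s.ent j γ ≠ ⊤ := hgγ.ne_top
  have f2 : s'.ent j' γ' ≠ ⊤ := hg'.ne_top
  have f3 : E.cnt n β ≠ ⊤ := cβ.ne_top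
  have l1 : (s'.ent j' γ').toReal < (s.ent j γ).toReal :=
    ENNReal.toReal_strict_mono f1 ((le_max_left _ _).trans_lt hb)
  have l2 : (E.cnt n β).toReal < (s'.ent j' γ').toReal := ENNReal.toReal_strict_mono f2 hb'
  obtain ⟨b, hb1, hb2⟩ := exists_between l1
  obtain ⟨a2, ha1, ha2⟩ := exists_between hb2
  obtain ⟨a', ha3, ha4⟩ := exists_between hgγ
  have fa : a' ≠ ⊤ := ha4.ne_top
  set a := a'.toReal with ha
  have ha5 : (s.ent j γ).toReal < a := ENNReal.toReal_strict_mono fa ha3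
  have hb0 : 0 ≤ b := le_trans ENNReal.toReal_nonneg hb1.le
  have hba : ENNReal.ofReal b < s'.g := by
    rw [← hg]
    refine lt_of_le_of_lt ?_ hgγ
    rw [← ENNReal.ofReal_toReal f1]
    exact ENNReal.ofReal_le_ofReal hb2.le
  have c1 := s.eventually_cnt_cut hd hj hα hγ hle (a := a) ENNReal.toReal_nonneg
    (by rw [ha, ENNReal.ofReal_toReal fa]; exact ((le_max_right _ _).trans hb.le).trans ha3.le)
    (g := s.g) (by rwa [ha, ENNReal.ofReal_toReal fa])
  have c2 := s'.eventually_cnt_cut hd hj' hβ hγ' hle' hb0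
    (by rw [← ENNReal.ofReal_toReal f3]; exact ENNReal.ofReal_le_ofReal (l2.trans hb1).le) hba
  have t1 := hγ.den_small hd f1 ha5
  have t2 := hγ.den_large hd f1 ha2
  have t3 := hβ.den_card hd f3 (l2.trans hb1)
  have t4 := hγ'.den_small hd f2 hb1
  have t5 := ENNReal.Tendsto.const_mul (a := ENNReal.ofReal (2 * (1 / (a2 - b))))
    (E.tendsto_root hd) (Or.inr ENNReal.ofReal_ne_top)
  have t6 := t5.add (t1.add (t3.add (t2.add t4)))
  simp only [mul_zero, add_zero] at t6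
  obtain ⟨N, ⟨hl1, hc1⟩, ⟨hl2, hc2⟩, hN, hnN, hjN, hj'N⟩ := (c1.and (c2.and
    ((t6.eventually (gt_mem_nhds hε2)).and ((eventually_gt_atTop n).and
      ((eventually_ge_atTop j).and (eventually_ge_atTop j')))))).exists
  set α0 := E.lift n N α with hα0
  set β0 := E.lift n N β with hβ0
  set γ1 := E.lift j N γ with hγ1
  set γ1' := E.lift j' N γ' with hγ1'
  set α' := s.cut N a α0 γ1 with hα'
  set β' := s'.cut N b β0 γ1' with hβ'
  have pα := s.pre_cut a (hα.1.lift hnN.le) (hγ.lift hjN)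
  have pβ := s'.pre_cut b (hβ.1.lift hnN.le) (hγ'.lift hj'N)
  have kα := s.card_cut a (hα.lift hnN.le) (hγ.lift hjN) hl1
  have kβ := s'.card_cut b (hβ.lift hnN.le) (hγ'.lift hj'N) hl2
  let D0 : Mk d → Cf d S → Cf d S' → ℝ≥0∞ := fun m x y =>
    ∏ z ∈ E.ch n N m, D (sh z m) (sh z x) (sh z y)
  have hD0 : Cpl s s' N D0 := hD.lift hnN.le
  let D' : Mk d → Cf d S → Cf d S' → ℝ≥0∞ := fun m =>
    pick (s.κ N m) (s'.κ N m) (α' m) (β' m) (D0 m)
  have hspec : ∀ᵐ m ∂E.ρ, Spec (s.κ N m) (s'.κ N m) (α' m) (β' m) (D0 m) (D' m) := by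
    filter_upwards [pα, pβ, kα, kβ, hD0, E.ae_sh hsat] with m h1 h2 h3 h4 h5 h6
    have := h3.1
    have := h4.1
    refine Classical.epsilon_spec (matching (α' m) (β' m) (measurableSet_cls h1.2)
      (measurableSet_cls h2.2) (D0 m) (fun x x' y y' hx hy => ?_) h5.2.2)
    exact Finset.prod_congr rfl fun z hz => h6 z _ _ _ _ (hx.1 z hz) (hy.1 z hz)
  have hlc' : ∀ᵐ m ∂E.ρ, LC D' m := by
    filter_upwards [pα, pβ, hD0, s.κlc, s'.κlc] with m h1 h2 h3 h4 h5
    exact ((((h4 N).pair (h5 N)).pair (h1.1.pair h2.1)).pair h3.1).post fun p =>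
      pick p.1.1.1 p.1.1.2 p.1.2.1 p.1.2.2 p.2
  let σ' : State s s' := ⟨N, α', β', D', ⟨pα, kα.mono fun _ h => h.1⟩,
    ⟨pβ, kβ.mono fun _ h => h.1⟩, hc1, hc2, hlc', hspec.mono fun _ h => h.1,
    hspec.mono fun _ h => h.2.1⟩
  have hD' : Cpl s s' N D' := σ'.toCpl
  refine ⟨σ', hnN, hspec.mono fun m h x y hxy z hz =>
    Finset.prod_ne_zero_iff.1 (h.2.2.1 x y hxy) z hz, ?_⟩
  change s.den N (fun m x v => ¬ Det D' m x v) ≤ ε
  -- the bad events
  let QA : Mk d → Cf d S → V d → Prop := fun m x _ =>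
    ((∃ y y', D' m x y ≠ 0 ∧ D' m x y' ≠ 0 ∧ ¬ β' m y y') ∧
      s.κ N m (cls (α' m) x) ≤ E.thr N a2 m) ∧
      (Nat.card (Quotient (β0 m)) : ℝ) ≤ Real.exp (b * (E.C N m).card)
  let QB : Mk d → Cf d S → V d → Prop := fun m x _ => ¬ E.thr N a m ≤ s.κ N m (cls (γ1 m) x)
  let QC : Mk d → Prop := fun m =>
    ¬ (Nat.card (Quotient (β0 m)) : ℝ) ≤ Real.exp (b * (E.C N m).card)
  let QD : Mk d → Cf d S → V d → Prop := fun m x _ => ¬ s.κ N m (cls (γ1 m) x) ≤ E.thr N a2 m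
  let RA : Mk d → Cf d S' → V d → Prop := fun m y _ => ¬ E.thr N b m ≤ s'.κ N m (cls (γ1' m) y)
  let RB : Mk d → Cf d S' → V d → Prop := fun m y v => ¬ ∀ y', γ1' m y' y → y' v = y v
  have lQC : ∀ᵐ m ∂E.ρ, LC QC m := by
    filter_upwards [hβ.1.lift hnN.le, E.ae_good] with m h1 h2
    exact (h1.1.pair (h2.lc N)).post fun p =>
      ¬ (Nat.card (Quotient p.1) : ℝ) ≤ Real.exp (b * p.2.card)
  have lA : s.Loc N QA := by
    filter_upwards [hD', pα, pβ, lQC, s.κlc, E.ae_good] with m h1 h2 h3 h4 h5 h6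
    refine ⟨?_, fun v x x' hx => ?_⟩
    · have := (((h1.1.pair h3.1).pair ((h5 N).pair h2.1)).pair
        ((h6.lc_thr N a2).pair h4)).post fun p x (_ : V d) =>
          ((∃ y y', p.1.1.1 x y ≠ 0 ∧ p.1.1.1 x y' ≠ 0 ∧ ¬ p.1.1.2 y y') ∧
            p.1.2.1 (cls p.1.2.2 x) ≤ p.2.1) ∧ ¬ p.2.2
      simpa only [QC, not_not] using this
    · have e1 : D' m x = D' m x' := funext fun y => h1.2.1 x x' y y hx ((s'.full N m).refl y)
      have e2 : cls (α' m) x = cls (α' m) x' := cls_eq_of_rel (h2.2 x x' hx)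
      simp only [QA, e1, e2]
  have lB : s.Loc N QB := loc_cls (hγ.lift hjN) a fun t u => ¬ t ≤ u
  have lC : s.Loc N fun m _ _ => QC m := lQC.mono fun m hm =>
    ⟨hm.post fun q (_ : Cf d S) (_ : V d) => q, fun _ _ _ _ => rfl⟩
  have lD : s.Loc N QD := loc_cls (hγ.lift hjN) a2 fun t u => ¬ u ≤ t
  have lRA : s'.Loc N RA := loc_cls (hγ'.lift hj'N) b fun t u => ¬ t ≤ u
  have lRB : s'.Loc N RB := loc_reveal (hγ'.lift hj'N)
  have hP := (den_le_of_partner hD' (lRA.or lRB)).2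
  have hRB : s'.den N RB ≤ ε / 2 := by
    refine le_trans (s'.den_lift hj'N (loc_reveal hγ').nullMeasurableSet
      (Eventually.of_forall fun y z hz w _ h H => h fun y' hy' => ?_)) hrev
    exact H _ (hy' z hz)
  have hA : s.den N QA ≤ ENNReal.ofReal (2 * (1 / (a2 - b))) * E.ρ {m | E.root N m} := by
    have hroot : NullMeasurableSet {m | E.root N m} E.ρ :=
      nullMeasurableSet_of_lc (E.ae_good.mono fun m hm => hm.lc_root N)
    rw [lA.den_eq, ← lintegral_indicator_const₀ hroot]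
    refine lintegral_mono_ae ?_
    filter_upwards [hspec, kβ] with m h1 h2
    by_cases hr : E.root N m
    swap
    · simp [hr]
    rw [if_pos hr, indicator_of_mem (show m ∈ {m | E.root N m} from hr)]
    by_cases hc : (Nat.card (Quotient (β0 m)) : ℝ) ≤ Real.exp (b * (E.C N m).card)
    swap
    · simp [QA, hc]
    simp only [QA, hc, and_true, Finset.sum_const, nsmul_eq_mul]
    refine le_trans (mul_le_mul_right (h1.2.2.2 _) _) ?_
    rw [Env.thr, ← ENNReal.ofReal_natCast, ← ENNReal.ofReal_natCast,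
      ← ENNReal.ofReal_mul (Nat.cast_nonneg _), ← ENNReal.ofReal_mul (Nat.cast_nonneg _)]
    apply ENNReal.ofReal_le_ofReal
    set c : ℝ := ((E.C N m).card : ℝ) with hcdef
    have hc0 : 0 ≤ c := Nat.cast_nonneg _
    have h3 : (Nat.card (Quotient (β' m)) : ℝ) ≤ 2 * Real.exp (b * c) := by linarith [h2.2]
    have h4 := mul_exp_neg_le (t := c) (sub_pos.2 ha1)
    calc c * (Nat.card (Quotient (β' m)) * Real.exp (-(a2 * c)))
        ≤ c * (2 * Real.exp (b * c) * Real.exp (-(a2 * c))) := by gcongr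
      _ = 2 * (c * Real.exp (-((a2 - b) * c))) := by
          rw [mul_assoc 2, ← Real.exp_add]; ring_nf
      _ ≤ _ := by linarith
  calc s.den N (fun m x v => ¬ Det D' m x v)
      ≤ s.den N (fun m x v => QA m x v ∨ (QB m x v ∨ (QC m ∨ (QD m x v ∨
          ∀ y, D' m x y ≠ 0 → RA m y v ∨ RB m y v)))) := by
        refine s.den_mono N ((s.ae_M hl1).mono fun x hx _ v _ hdet => ?_)
        by_contra hcon
        simp only [not_or] at hcon
        obtain ⟨h1, h2, h3, h4, h5⟩ := hcon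
        push Not at h5
        obtain ⟨y, hy, hy1, hy2⟩ := h5
        simp only [QB, QC, QD, RA, not_not] at h2 h3 h4 hy1 hy2
        refine hdet ⟨y v, fun y' hy' => hy2 y' ?_⟩
        by_contra hne
        refine h1 ⟨⟨⟨y', y, hy', hy, fun hb => hne (hb.2 (Or.inr hy1))⟩, ?_⟩, h3⟩
        rw [show cls (α' (s.M x)) x = cls (γ1 (s.M x)) x from cls_cutS hx h2]
        exact h4
    _ ≤ s.den N QA + (s.den N QB + (s.den N (fun m _ _ => QC m) + (s.den N QD +
          (s'.den N RA + s'.den N RB)))) := by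
        refine (s.den_or N _ _ lA.nullMeasurableSet).trans (add_le_add_right ?_ _)
        refine (s.den_or N _ _ lB.nullMeasurableSet).trans (add_le_add_right ?_ _)
        refine (s.den_or N _ _ lC.nullMeasurableSet).trans (add_le_add_right ?_ _)
        refine (s.den_or N _ _ lD.nullMeasurableSet).trans (add_le_add_right ?_ _)
        exact hP.trans (s'.den_or N _ _ lRA.nullMeasurableSet)
    _ ≤ (ENNReal.ofReal (2 * (1 / (a2 - b))) * E.ρ {m | E.root N m} + (s.den N QB +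
          (s'.den N (fun m _ _ => QC m) + (s.den N QD + s'.den N RA)))) + ε / 2 := by
        rw [s.den_marker s' N lQC]
        simp only [add_assoc]
        gcongr
    _ ≤ ε / 2 + ε / 2 := add_le_add_left hN.le _
    _ = ε := ENNReal.add_halves ε

theorem step' (hd : 0 < d) {s : Side E S} {s' : Side E S'} (hg : s.g = s'.g) (σ : State s s')
    (t : ℕ) : ∃ σ' : State s s', σ.n < σ'.n ∧ Nested E σ.n σ'.n σ.D σ'.D ∧
      (Even t → s.den σ'.n (fun m x v => ¬ Det σ'.D m x v) ≤ (t + 1 : ℝ≥0∞)⁻¹) ∧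
      (¬ Even t → s'.den σ'.n (fun m y v => ¬ Det (fun m y x => σ'.D m x y) m y v) ≤
        (t + 1 : ℝ≥0∞)⁻¹) := by
  have hε : 0 < (t + 1 : ℝ≥0∞)⁻¹ := ENNReal.inv_pos.2 (by simp)
  by_cases ht : Even t
  · obtain ⟨σ', h1, h2, h3⟩ := step hd hg σ hε
    exact ⟨σ', h1, h2, fun _ => h3, fun h => absurd ht h⟩
  · obtain ⟨σ', h1, h2, h3⟩ := step hd hg.symm σ.swap hε
    exact ⟨σ'.swap, h1, h2.mono fun m hm x y => hm y x, fun h => absurd h ht, fun _ => h3⟩

theorem KS (hd : 0 < d) (s : Side E S) (s' : Side E S') (hg : s.g = s'.g) (h0 : 0 < s.g) :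
    FinIso s.P s'.P := by
  have triv : ∀ {T : Type} [MeasurableSpace T] (t : Side E T),
      t.FinSch 0 (fun _ => ⊤) ∧ E.cnt 0 (fun _ => (⊤ : Setoid (Cf d T))) = 0 := by
    intro T _ t
    have hs : Subsingleton (Quotient (⊤ : Setoid (Cf d T))) :=
      ⟨fun a b => Quotient.inductionOn₂ a b fun _ _ => Quotient.sound trivial⟩
    refine ⟨⟨Eventually.of_forall fun m => ⟨LC.const _ m, fun _ _ _ => trivial⟩,
      Eventually.of_forall fun _ => Finite.of_subsingleton⟩, ?_⟩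
    have h1 : Real.log (Nat.card (Quotient (⊤ : Setoid (Cf d T)))) = 0 := by
      rcases Nat.le_one_iff_eq_zero_or_eq_one.1
        (Finite.card_le_one_iff_subsingleton.2 hs) with h | h <;> simp [h]
    simp [Env.cnt, h1]
  let σ0 : State s s' := ⟨0, fun _ => ⊤, fun _ => ⊤, fun _ _ _ => 1, (triv s).1, (triv s').1,
    by rw [(triv s).2]; exact h0, by rw [(triv s').2, ← hg]; exact h0,
    Eventually.of_forall fun m => LC.const _ m, Eventually.of_forall fun _ _ _ _ _ _ _ => rfl,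
    Eventually.of_forall fun m => ⟨by simp, by simp⟩⟩
  choose nx h1 h2 h3 h4 using step' hd hg
  let σ : ℕ → State s s' := fun t => Nat.rec σ0 (fun t σ => nx σ t) t
  have small : ∀ ε : ℝ≥0∞, 0 < ε → ∃ t : ℕ, ∀ u : ℕ, t ≤ u → (u + 1 : ℝ≥0∞)⁻¹ ≤ ε := by
    intro ε hε
    obtain ⟨t, ht⟩ := ENNReal.exists_inv_nat_lt hε.ne'
    refine ⟨t, fun u hu => le_trans (ENNReal.inv_le_inv.2 ?_) ht.le⟩
    exact_mod_cast hu.trans (Nat.le_succ u)
  refine assemble s s' (fun t => (σ t).n) (strictMono_nat_of_lt_succ fun t => h1 (σ t) t)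
    (fun t => (σ t).D) (fun t => (σ t).toCpl) (fun t => h2 (σ t) t) (fun ε hε => ?_)
    (fun ε hε => ?_)
  · obtain ⟨t, ht⟩ := small ε hε
    exact ⟨2 * t + 1, (h3 (σ (2 * t)) (2 * t) (even_two_mul t)).trans (ht _ (by omega))⟩
  · obtain ⟨t, ht⟩ := small ε hε
    exact ⟨2 * t + 1 + 1, (h4 (σ (2 * t + 1)) (2 * t + 1) (by simp)).trans (ht _ (by omega))⟩

end Pool.Agent.P.MP_1a5a6a_pr
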