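import Pool.Agent.P.MP_1a5a6a_pr.FI.Cells

set_option autoImplicit false
set_option linter.unusedSectionVars false
open MeasureTheory ProbabilityTheory Filter Set
open scoped ENNReal Classical

namespace Pool.Agent.P.MP_1a5a6a_pr

variable {d : ℕ}

section LLN
variable {E : Env d} {S : Type} [MeasurableSpace S] [Countable S] [MeasurableSingletonClass S]

theorem lln_indep {μ : Measure (Cf d S)} [IsProbabilityMeasure μ] {k : ℕ} (h : KDep k μ)
    {U W : Set (V d)} (hsep : ∀ u ∈ U, ∀ w ∈ W, (k : ℝ) < ‖u - w‖) {f g : Cf d S → ℝ}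
    (hf : Measurable f) (hfU : DependsOn f U) (hg : Measurable g) (hgW : DependsOn g W) :
    IndepFun f g μ := by
  obtain ⟨x0⟩ : Nonempty (Cf d S) := nonempty_of_isProbabilityMeasure μ
  have key : ∀ (U : Set (V d)) (f : Cf d S → ℝ), Measurable f → DependsOn f U →
      ∃ φ : (U → S) → ℝ, Measurable φ ∧ f = φ ∘ fun (x : Cf d S) (u : U) => x u := by
    intro U f hf hU
    refine ⟨fun y => f fun v => if hv : v ∈ U then y ⟨v, hv⟩ else x0 v, hf.comp ?_, ?_⟩
    · refine measurable_pi_lambda _ fun v => ?_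
      by_cases hv : v ∈ U
      · simp only [dif_pos hv]; exact measurable_pi_apply _
      · simp only [dif_neg hv]; exact measurable_const
    · funext x
      exact hU fun v hv => by simp [hv]
  obtain ⟨φ, hφ, rfl⟩ := key U f hf hfU
  obtain ⟨ψ, hψ, rfl⟩ := key W g hg hgW
  exact (h U W hsep).comp hφ hψ

/-- approximation by bounded centred cylinder functions -/
theorem lln_approx {μ : Measure (Cf d S)} [IsProbabilityMeasure μ] (H : Cf d S → ℝ)
    (hH : Integrable H μ) (h0 : ∫ x, H x ∂μ = 0) (hlc : ∀ᵐ x ∂μ, LC H x) {ε : ℝ} (hε : 0 < ε) :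
    ∃ (g : Cf d S → ℝ) (r : ℕ) (B : ℝ), DependsOn g (ball d r : Set (V d)) ∧ (∀ x, |g x| ≤ B) ∧
      ∫ x, g x ∂μ = 0 ∧ ∫ x, |H x - g x| ∂μ ≤ ε := by
  let G : ℕ → Cf d S → ℝ := fun r x =>
    if (∀ y : Cf d S, (∀ v ∈ ball d r, y v = x v) → H y = H x) ∧ |H x| ≤ r then H x else 0
  have hdep : ∀ r, DependsOn (G r) (ball d r : Set (V d)) := by
    intro r x x' hx
    have key : ∀ x x' : Cf d S, (∀ v ∈ ball d r, x v = x' v) →
        ((∀ y : Cf d S, (∀ v ∈ ball d r, y v = x v) → H y = H x) ∧ |H x| ≤ r) →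
        ((∀ y : Cf d S, (∀ v ∈ ball d r, y v = x' v) → H y = H x') ∧ |H x'| ≤ r) ∧ H x' = H x := by
      intro x x' hx ⟨h1, h2⟩
      have e : H x' = H x := h1 x' fun v hv => (hx v hv).symm
      exact ⟨⟨fun y hy => (h1 y fun v hv => (hy v hv).trans (hx v hv).symm).trans e.symm,
        e ▸ h2⟩, e⟩
    simp only [G]
    by_cases h : (∀ y : Cf d S, (∀ v ∈ ball d r, y v = x v) → H y = H x) ∧ |H x| ≤ r
    · have := key x x' hx h
      rw [if_pos h, if_pos this.1, this.2]
    · rw [if_neg h, if_neg fun h' => h (key x' x (fun v hv => (hx v hv).symm) h').1]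
  have hbd : ∀ r x, |G r x| ≤ r := fun r x => by
    simp only [G]; split_ifs with h
    · exact h.2
    · simp
  have hle : ∀ r x, |H x - G r x| ≤ |H x| := fun r x => by
    simp only [G]; split_ifs <;> simp
  have hm : ∀ r, Measurable (G r) := fun r => measurable_of_dependsOn (hdep r)
  have hi : ∀ r, Integrable (G r) μ := fun r =>
    Integrable.of_bound (hm r).aestronglyMeasurable r (Eventually.of_forall (hbd r))
  have ht : Tendsto (fun r => ∫ x, |H x - G r x| ∂μ) atTop (nhds (∫ _ : Cf d S, (0 : ℝ) ∂μ)) := by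
    refine tendsto_integral_of_dominated_convergence (fun x => |H x|)
      (fun r => (hH.sub (hi r)).abs.aestronglyMeasurable) hH.abs
      (fun r => Eventually.of_forall fun x => by simpa using hle r x) ?_
    refine hlc.mono fun x hx => ?_
    obtain ⟨r0, hr0⟩ := eventually_nb_ball.1 hx
    refine tendsto_const_nhds.congr' ?_
    filter_upwards [eventually_ge_atTop r0, eventually_ge_atTop ⌈|H x|⌉₊] with r h1 h2
    simp only [G]
    rw [if_pos ⟨fun y hy => hr0 y fun v hv => hy v (ball_mono h1 hv),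
      (Nat.le_ceil _).trans (by exact_mod_cast h2)⟩]
    simp
  rw [integral_zero] at ht
  obtain ⟨r, hr⟩ := (ht.eventually (gt_mem_nhds (half_pos hε))).exists
  have hc : |∫ x, G r x ∂μ| ≤ ε / 2 := by
    have : ∫ x, G r x ∂μ = - ∫ x, (H x - G r x) ∂μ := by
      rw [integral_sub hH (hi r), h0]; ring
    rw [this, abs_neg]
    exact abs_integral_le_integral_abs.trans hr.le
  refine ⟨fun x => G r x - ∫ x, G r x ∂μ, r, r + ε / 2, fun x y hxy => by simp only [hdep r hxy],
    fun x => (abs_sub _ _).trans (add_le_add (hbd r x) hc), ?_, ?_⟩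
  · rw [integral_sub (hi r) (integrable_const _)]; simp
  · calc ∫ x, |H x - (G r x - ∫ x, G r x ∂μ)| ∂μ ≤ ∫ x, (|H x - G r x| + ε / 2) ∂μ := by
          refine integral_mono (hH.sub ((hi r).sub (integrable_const _))).abs
            ((hH.sub (hi r)).abs.add (integrable_const _)) fun x => ?_
          have : H x - (G r x - ∫ x, G r x ∂μ) = (H x - G r x) + ∫ x, G r x ∂μ := by ring
          simp only [this]
          exact (abs_add_le _ _).trans (add_le_add le_rfl hc)
      _ = ∫ x, |H x - G r x| ∂μ + ε / 2 := by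
          have i1 : Integrable (fun x => |H x - G r x|) μ := (hH.sub (hi r)).abs
          rw [integral_add i1 (integrable_const _)]; simp
      _ ≤ ε := by linarith

/-- averages of well separated translates are small in mean -/
theorem lln_average (hd : 0 < d) {μ : Measure (Cf d S)} [IsProbabilityMeasure μ] (hs : Stat μ)
    {k : ℕ} (hk : KDep k μ) {g : Cf d S → ℝ} {r : ℕ} {B : ℝ}
    (hg : DependsOn g (ball d r : Set (V d))) (hB : ∀ x, |g x| ≤ B) (h0 : ∫ x, g x ∂μ = 0)
    {ε : ℝ} (hε : 0 < ε) : ∃ (n : ℕ) (w : ℕ → V d), 0 < n ∧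
      ∫ x, |(∑ i ∈ Finset.range n, g (sh (w i) x)) / n| ∂μ ≤ ε := by
  have hm : Measurable g := measurable_of_dependsOn hg
  let w : ℕ → V d := fun i _ => (i : ℤ) * (2 * r + k + 1)
  let X : ℕ → Cf d S → ℝ := fun i x => g (sh (w i) x)
  have hXm : ∀ i, Measurable (X i) := fun i => hm.comp (measurable_sh _)
  have hX2 : ∀ i, MemLp (X i) 2 μ := fun i =>
    MemLp.of_bound (hXm i).aestronglyMeasurable B (Eventually.of_forall fun x => hB _)
  have hXd : ∀ i, DependsOn (X i) {v | v - w i ∈ ball d r} := fun i x y hxy =>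
    hg fun v hv => hxy (v + w i) (by simpa using hv)
  have hind : ∀ i j, i ≠ j → IndepFun (X i) (X j) μ := by
    intro i j hij
    refine lln_indep hk ?_ (hXm i) (hXd i) (hXm j) (hXd j)
    intro u hu v hv
    rw [← not_mem_ball]
    intro huv
    have a := mem_ball.1 hu ⟨0, hd⟩
    have b := mem_ball.1 hv ⟨0, hd⟩
    have c := mem_ball.1 huv ⟨0, hd⟩
    simp only [w, Pi.sub_apply, abs_le] at a b c
    rcases lt_or_gt_of_ne hij with h | h
    · have : (i : ℤ) + 1 ≤ j := by exact_mod_cast h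
      nlinarith
    · have : (j : ℤ) + 1 ≤ i := by exact_mod_cast h
      nlinarith
  have hvar : ∀ i, variance (X i) μ ≤ B ^ 2 := fun i => by
    refine (variance_le_expectation_sq (hXm i).aestronglyMeasurable).trans ?_
    calc ∫ x, (X i ^ 2) x ∂μ ≤ ∫ _, B ^ 2 ∂μ :=
          integral_mono (hX2 i).integrable_sq (integrable_const _) fun x =>
            sq_le_sq' (abs_le.1 (hB _)).1 (abs_le.1 (hB _)).2
      _ = B ^ 2 := by simp
  obtain ⟨n, hn⟩ := exists_nat_gt (B ^ 2 / ε ^ 2)
  have hn0 : (0 : ℝ) < n := lt_of_le_of_lt (by positivity) hn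
  refine ⟨n, w, by exact_mod_cast hn0, ?_⟩
  have hY2 : MemLp (∑ i ∈ Finset.range n, X i) 2 μ := memLp_finsetSum' _ fun i _ => hX2 i
  have hmean : ∫ x, (∑ i ∈ Finset.range n, X i) x ∂μ = 0 := by
    simp only [Finset.sum_apply]
    rw [integral_finsetSum _ fun i _ => (hX2 i).integrable one_le_two]
    exact Finset.sum_eq_zero fun i _ => (hs.integral_sh _ g).trans h0
  have hV : ∫ x, ((∑ i ∈ Finset.range n, X i) x) ^ 2 ∂μ ≤ n * B ^ 2 := by
    have e := variance_eq_integral hY2.aemeasurable
    rw [hmean] at e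
    simp only [sub_zero] at e
    rw [← e, IndepFun.variance_sum (fun i _ => hX2 i) fun i _ j _ hij => hind i j hij]
    calc _ ≤ ∑ _i ∈ Finset.range n, B ^ 2 := Finset.sum_le_sum fun i _ => hvar i
      _ = n * B ^ 2 := by simp
  have hBn : B ^ 2 ≤ n * ε ^ 2 := by rw [div_lt_iff₀ (by positivity)] at hn; exact hn.le
  calc ∫ x, |(∑ i ∈ Finset.range n, g (sh (w i) x)) / n| ∂μ
      ≤ ∫ x, (ε / 2 + ((∑ i ∈ Finset.range n, X i) x) ^ 2 / (2 * ε * n ^ 2)) ∂μ := by
        refine integral_mono ?_ ((integrable_const _).add (hY2.integrable_sq.div_const _)) fun x => ?_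
        · have := ((hY2.integrable one_le_two).div_const (n : ℝ)).abs
          simpa only [Finset.sum_apply] using this
        · simp only [Finset.sum_apply, X]
          generalize ∑ i ∈ Finset.range n, g (sh (w i) x) = y
          have e : y ^ 2 / (2 * ε * n ^ 2) = |y / n| ^ 2 / (2 * ε) := by
            rw [sq_abs]; field_simp
          rw [e]
          generalize |y / n| = t
          rw [← sub_nonneg]
          have : ε / 2 + t ^ 2 / (2 * ε) - t = (t - ε) ^ 2 / (2 * ε) := by field_simp; ring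
          rw [this]; positivity
    _ = ε / 2 + (∫ x, ((∑ i ∈ Finset.range n, X i) x) ^ 2 ∂μ) / (2 * ε * n ^ 2) := by
        rw [integral_add (integrable_const _) (hY2.integrable_sq.div_const _)]
        simp [integral_div]
    _ ≤ ε / 2 + ε / 2 := by
        refine add_le_add le_rfl ?_
        rw [div_le_iff₀ (by positivity)]
        nlinarith [mul_le_mul_of_nonneg_left hBn hn0.le]
    _ = ε := by ring

/-- translating a finite set changes a sum only by boundary terms -/
theorem lln_shift (C : Finset (V d)) (a : V d → ℝ) {B : ℝ} (hB : ∀ v, |a v| ≤ B) {t : ℕ}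
    {w : V d} (hw : w ∈ ball d t) :
    |∑ v ∈ C, a v - ∑ v ∈ C, a (v + w)| ≤ ∑ v ∈ C, if v ∈ inn t C then 0 else 2 * B := by
  have hB0 : 0 ≤ B := (abs_nonneg _).trans (hB 0)
  have e1 := Finset.sum_filter_add_sum_filter_not C (fun v => v - w ∈ C) a
  have e2 := Finset.sum_filter_add_sum_filter_not C (fun v => v + w ∈ C) fun v => a (v + w)
  have e3 : ∑ v ∈ C.filter (fun v => v + w ∈ C), a (v + w) =
      ∑ v ∈ C.filter (fun v => v - w ∈ C), a v := by
    refine Finset.sum_bij (fun v _ => v + w) ?_ ?_ ?_ fun _ _ => rfl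
    · intro v hv; simp only [Finset.mem_filter] at hv ⊢; exact ⟨hv.2, by simpa using hv.1⟩
    · intro v _ v' _ h; exact add_right_cancel h
    · intro v hv; simp only [Finset.mem_filter] at hv
      exact ⟨v - w, Finset.mem_filter.2 ⟨hv.2, by simpa using hv.1⟩, by simp⟩
  have key : ∀ (u : V d) (_ : u ∈ ball d t) (b : V d → ℝ), (∀ v, |b v| ≤ B) →
      |∑ v ∈ C.filter (fun v => ¬ v + u ∈ C), b v| ≤ ∑ v ∈ C, if v ∈ inn t C then 0 else B := by
    intro u hu b hb
    refine (Finset.abs_sum_le_sum_abs _ _).trans ?_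
    rw [Finset.sum_filter]
    refine Finset.sum_le_sum fun v _ => ?_
    by_cases h : v + u ∈ C
    · rw [if_neg (not_not.2 h)]; split_ifs <;> simp [hB0]
    · rw [if_pos h, if_neg fun h' => h (mem_inn.1 h' u hu)]; exact hb v
  have k1 := key (-w) (neg_mem_ball hw) a hB
  have k2 := key w hw (fun v => a (v + w)) fun v => hB _
  simp only [← sub_eq_add_neg] at k1
  have e4 : (∑ v ∈ C, if v ∈ inn t C then 0 else 2 * B) =
      (∑ v ∈ C, if v ∈ inn t C then 0 else B) + ∑ v ∈ C, if v ∈ inn t C then 0 else B := by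
    rw [← Finset.sum_add_distrib]
    exact Finset.sum_congr rfl fun v _ => by split_ifs <;> ring
  rw [← e1, ← e2, e3, add_sub_add_left_eq_sub, e4]
  exact (abs_sub _ _).trans (add_le_add k1 k2)

theorem Side.lln (hd : 0 < d) (s : Side E S) (F : Cf d S → ℝ) (hF : Integrable F s.P)
    (hlc : ∀ᵐ x ∂s.P, LC F x) :
    Tendsto (fun N => ∫⁻ x, (if E.root N (s.M x) then
      ENNReal.ofReal |∑ v ∈ E.C N (s.M x), F (sh v x) -
        (E.C N (s.M x)).card * ∫ y, F y ∂s.P| else 0) ∂s.P) atTop (nhds 0) := by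
  set c := ∫ y, F y ∂s.P with hc
  let H : Cf d S → ℝ := fun x => F x - c
  have hH : Integrable H s.P := hF.sub (integrable_const _)
  have hH0 : ∫ x, H x ∂s.P = 0 := by
    simp only [H]; rw [integral_sub hF (integrable_const _)]; simp [hc]
  rw [ENNReal.tendsto_nhds_zero]
  intro ε' hε'
  obtain ⟨ε, hε, hεε⟩ : ∃ ε : ℝ, 0 < ε ∧ ENNReal.ofReal (3 * ε) ≤ ε' := by
    obtain ⟨r, hr0, hr⟩ := ENNReal.lt_iff_exists_nnreal_btwn.1 hε'
    refine ⟨r / 3, by have : (0 : ℝ) < r := by exact_mod_cast hr0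
                      positivity, ?_⟩
    rw [mul_div_cancel₀ _ (by norm_num : (3 : ℝ) ≠ 0), ENNReal.ofReal_coe_nnreal]
    exact hr.le
  obtain ⟨g, r, B, hg, hB, hg0, hHg⟩ := lln_approx H hH hH0 (hlc.mono fun x hx => hx.post (· - c)) hε
  obtain ⟨n, w, hn, hA⟩ := lln_average hd s.stat s.dep hg hB hg0 hε
  have hB0 : 0 ≤ B := by
    obtain ⟨x0⟩ : Nonempty (Cf d S) := nonempty_of_isProbabilityMeasure s.P
    exact (abs_nonneg _).trans (hB x0)
  have hn' : (0 : ℝ) < n := by exact_mod_cast hn
  obtain ⟨t, ht⟩ := exists_subset_ball ((Finset.range n).image w)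
  have hm : Measurable g := measurable_of_dependsOn hg
  have hgi : Integrable g s.P := Integrable.of_bound hm.aestronglyMeasurable B (Eventually.of_forall hB)
  let A : Cf d S → ℝ := fun x => (∑ i ∈ Finset.range n, g (sh (w i) x)) / n
  have hAi : Integrable A s.P :=
    (integrable_finsetSum _ fun i _ => Integrable.of_bound
      (hm.comp (measurable_sh _)).aestronglyMeasurable B
        (Eventually.of_forall fun x => hB _)).div_const _
  let K : ℕ → Cf d S → ℝ := fun N x => if (0 : V d) ∈ inn t (E.C N (s.M x)) then 0 else 2 * B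
  have hKm : ∀ N, AEStronglyMeasurable (K N) s.P := fun N =>
    (s.aemeasurable_M (f := fun m => if (0 : V d) ∈ inn t (E.C N m) then 0 else 2 * B)
      (E.ae_good.mono fun m hm => (hm.lc N).post
        fun C => if (0 : V d) ∈ inn t C then (0 : ℝ) else 2 * B)).aestronglyMeasurable
  have hKb : ∀ N x, ‖K N x‖ ≤ 2 * B := fun N x => by
    simp only [K]; split_ifs
    · simpa using hB0
    · rw [Real.norm_eq_abs, abs_of_nonneg (by linarith)]
  have hK0 : ∀ N x, 0 ≤ K N x := fun N x => by simp only [K]; split_ifs <;> linarith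
  have hKi : ∀ N, Integrable (K N) s.P := fun N =>
    Integrable.of_bound (hKm N) _ (Eventually.of_forall (hKb N))
  have hKt : Tendsto (fun N => ∫ x, K N x ∂s.P) atTop (nhds (∫ _ : Cf d S, (0 : ℝ) ∂s.P)) := by
    refine tendsto_integral_of_dominated_convergence (fun _ => 2 * B) hKm (integrable_const _)
      (fun N => Eventually.of_forall (hKb N)) (s.ae_good.mono fun x hx => ?_)
    refine tendsto_const_nhds.congr' ((hx.exh_inn t {0}).mono fun N hN => ?_)
    simp only [K]; rw [if_pos (hN (Finset.mem_singleton_self _))]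
  rw [integral_zero] at hKt
  filter_upwards [hKt.eventually (gt_mem_nhds hε)] with N hN
  let Φ : Cf d S → ℝ := fun x => |H x - g x| + |A x| + K N x
  have hΦi : Integrable Φ s.P := ((hH.sub hgi).abs.add hAi.abs).add (hKi N)
  have hΦ0 : ∀ x, 0 ≤ Φ x := fun x => add_nonneg (by positivity) (hK0 N x)
  calc _ ≤ ∫⁻ x, (if E.root N (s.M x) then
        ∑ v ∈ E.C N (s.M x), ENNReal.ofReal (Φ (sh v x)) else 0) ∂s.P := by
        refine lintegral_mono_ae (s.ae_good.mono fun x hx => ?_)
        split_ifs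
        swap
        · exact le_rfl
        rw [← ENNReal.ofReal_sum_of_nonneg fun v _ => hΦ0 _]
        refine ENNReal.ofReal_le_ofReal ?_
        set C := E.C N (s.M x) with hC
        have eK : ∑ v ∈ C, K N (sh v x) = ∑ v ∈ C, if v ∈ inn t C then 0 else 2 * B := by
          refine Finset.sum_congr rfl fun v hv => ?_
          simp only [K, s.equiv, hx.inn_inv hv, zero_add, hC]
        have e1 : ∑ v ∈ C, F (sh v x) - C.card * c = ∑ v ∈ C, (H (sh v x) - g (sh v x)) +
            ∑ v ∈ C, A (sh v x) + (∑ i ∈ Finset.range n,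
              (∑ v ∈ C, g (sh v x) - ∑ v ∈ C, g (sh (v + w i) x))) / n := by
          simp only [H, A, Finset.sum_sub_distrib, Finset.sum_const, nsmul_eq_mul, sh_sh,
            Finset.card_range, ← Finset.sum_div, add_comm (w _)]
          rw [Finset.sum_comm]
          field_simp
          ring
        have b3 : |(∑ i ∈ Finset.range n,
            (∑ v ∈ C, g (sh v x) - ∑ v ∈ C, g (sh (v + w i) x))) / n| ≤ ∑ v ∈ C, K N (sh v x) := by
          rw [abs_div, abs_of_pos hn', div_le_iff₀ hn', eK]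
          refine (Finset.abs_sum_le_sum_abs _ _).trans ?_
          calc _ ≤ ∑ _i ∈ Finset.range n, ∑ v ∈ C, if v ∈ inn t C then 0 else 2 * B :=
                Finset.sum_le_sum fun i hi => lln_shift C (fun v => g (sh v x)) (fun v => hB _)
                  (ht (Finset.mem_image_of_mem _ hi))
            _ = _ := by rw [Finset.sum_const, Finset.card_range, nsmul_eq_mul, mul_comm]
        rw [e1]
        simp only [Φ, Finset.sum_add_distrib]
        exact (abs_add_le _ _).trans (add_le_add ((abs_add_le _ _).trans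
          (add_le_add (Finset.abs_sum_le_sum_abs _ _) (Finset.abs_sum_le_sum_abs _ _))) b3)
    _ = ∫⁻ x, ENNReal.ofReal (Φ x) ∂s.P :=
        s.root_sum N (fun x => ENNReal.ofReal (Φ x)) hΦi.aemeasurable.ennreal_ofReal
    _ = ENNReal.ofReal (∫ x, Φ x ∂s.P) :=
        (ofReal_integral_eq_lintegral_ofReal hΦi (Eventually.of_forall hΦ0)).symm
    _ ≤ ENNReal.ofReal (3 * ε) := by
        refine ENNReal.ofReal_le_ofReal ?_
        simp only [Φ]
        have i1 : Integrable (fun x => |H x - g x|) s.P := (hH.sub hgi).abs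
        have i2 : Integrable (fun x => |A x|) s.P := hAi.abs
        have i3 : Integrable (fun x => |H x - g x| + |A x|) s.P := i1.add i2
        rw [integral_add i3 (hKi N), integral_add i1 i2]
        linarith
    _ ≤ ε' := hεε
end LLN

end Pool.Agent.P.MP_1a5a6a_pr
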