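import Pool.Agent.P.MP_1a5a6a_pr.FI.Tile

set_option autoImplicit false
set_option linter.unusedSectionVars false
open MeasureTheory ProbabilityTheory Filter Set
open scoped ENNReal Classical

namespace Pool.Agent.P.MP_1a5a6a_pr

variable {d : ℕ}

section SIDE
variable {S : Type} [MeasurableSpace S]

theorem Dp_sh (f : Cf d S → Bool) (v : V d) (x : Cf d S) : Dp f (sh v x) = sh v (Dp f x) := by
  funext u; simp [Dp, sh_sh]

theorem measurable_Dp {f : Cf d S → Bool} (hf : Measurable f) : Measurable (Dp f) :=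
  measurable_block hf

theorem Dp_congr {l : ℕ} {f : Cf d S → Bool} (hl : DependsOn f (ball d l)) {x y : Cf d S}
    {u : V d} (h : ∀ w ∈ ball d l, x (w + u) = y (w + u)) : Dp f x u = Dp f y u :=
  hl fun w hw => h w hw

theorem tendsto_Dp {l : ℕ} {f : Cf d S → Bool} (hl : DependsOn f (ball d l)) (x : Cf d S) :
    Tendsto (Dp f) (nb x) (nb (Dp f x)) :=
  tendsto_nb.2 fun u => (lc_of_dependsOn hl (sh u x)).comp_sh

/-- the event described by the markers in `U`, pulled back -/
def EvS (a : ℕ) (f : Cf d S → Bool) (m : Mk d) (U : Set (V d)) : Set (Cf d S) :=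
  {x | Ev a m U (Dp f x)}

theorem measurableSet_EvS {a : ℕ} {f : Cf d S → Bool} (hf : Measurable f) (m : Mk d)
    (U : Set (V d)) : MeasurableSet (EvS a f m U) :=
  measurable_Dp hf (measurableSet_ev m U)

theorem mem_EvS_self (a : ℕ) (f : Cf d S → Bool) (x : Cf d S) (U : Set (V d)) :
    x ∈ EvS a f (M0 a (Dp f x)) U := ev_M0 _ _

theorem EvS_congr {a k l : ℕ} {f : Cf d S → Bool} (hl : DependsOn f (ball d l))
    (hla : l + k ≤ a) {m : Mk d} {U : Set (V d)} (hU : Adm a m U) {x y : Cf d S}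
    (he : ∀ v, (∀ w ∈ ball d k, v + w ∈ U) → y v = x v) (hx : x ∈ EvS a f m U) :
    y ∈ EvS a f m U := by
  refine hU.ev_congr (fun u hu => Dp_congr hl fun w hw => he _ fun w' hw' => ?_) hx
  have := hu (w + w') (ball_mono hla (add_mem_ball hw hw'))
  rwa [show u + (w + w') = w + u + w' by abel] at this

theorem EvS_dependsOn {a k l : ℕ} {f : Cf d S → Bool} (hl : DependsOn f (ball d l))
    (hla : l + k ≤ a) {m : Mk d} {U : Finset (V d)} (hU : Adm a m U) :
    DependsOn (· ∈ EvS a f m U) (inn k U) := fun _ _ hxy =>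
  propext ⟨EvS_congr hl hla hU fun v hv => (hxy v (mem_inn.2 hv)).symm,
    EvS_congr hl hla hU fun v hv => hxy v (mem_inn.2 hv)⟩

theorem lc_EvS (a : ℕ) (f : Cf d S → Bool) {E : Env d} {m : Mk d} (hm : E.Good m)
    (hfr : Free (fstM m)) (n : ℕ) : LC (fun m => EvS a f m (E.C n m)) m := by
  have h1 := lc_finset (f := fun v y => Ev0 a (sh v y)) (E.C n m)
    (fun v _ => (lc_Ev0 (a := a) (m := sh v m) (hfr.shift v)).comp_sh)
  refine ((hm.lc n).and h1).mono fun y hy => ?_
  ext x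
  simp only [EvS, Ev, hy.1, mem_ofPred_eq]
  exact forall₂_congr fun v hv => by rw [hy.2 v hv]

instance isProb_cnd {X : Type} [MeasurableSpace X] (P : Measure X) [IsProbabilityMeasure P]
    (B : Set X) : IsProbabilityMeasure (cnd P B) := by
  unfold cnd
  split_ifs with h
  · infer_instance
  · exact cond_isProbabilityMeasure h

theorem lintegral_cnd {X : Type} [MeasurableSpace X] {P : Measure X} {B : Set X}
    (hB : MeasurableSet B) (h : P B ≠ 0) (g : X → ℝ≥0∞) :
    ∫⁻ x, g x ∂(cnd P B) = (P B)⁻¹ * ∫⁻ x, B.indicator g x ∂P := by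
  rw [cnd, if_neg h, ProbabilityTheory.cond, lintegral_smul_measure, lintegral_indicator hB,
    smul_eq_mul]

theorem IsTileEnv.ae_adm0 {a : ℕ} {δ : Measure (Cf d Bool)} (h : Sparse a δ) {E : Env d}
    (hE : IsTileEnv a δ E) : ∀ᵐ m ∂E.ρ, ∀ n, Adm a m (E.C n m) :=
  (hE.ae_adm h).mono fun m hm n => by simpa using hm n 0

theorem IsTileEnv.ae_lc_EvS {a : ℕ} {δ : Measure (Cf d Bool)} (h : Sparse a δ) {E : Env d}
    (hE : IsTileEnv a δ E) (f : Cf d S → Bool) :
    ∀ᵐ m ∂E.ρ, ∀ n, LC (fun m => EvS a f m (E.C n m)) m :=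
  (E.ae_good.and (hE.ae_free h)).mono fun _ hm n => lc_EvS a f hm.1 hm.2.1 n

/-- the conditioning events have positive probability -/
theorem ae_EvS_pos {a : ℕ} {δ : Measure (Cf d Bool)} (h : Sparse a δ) {E : Env d}
    (hE : IsTileEnv a δ E) (P : Measure (Cf d S)) {f : Cf d S → Bool} (hf : Measurable f)
    (hlaw : P.map (fun x => M0 a (Dp f x)) = E.ρ) :
    ∀ᵐ m ∂E.ρ, ∀ n, P (EvS a f m (E.C n m)) ≠ 0 := by
  rw [ae_all_iff]
  intro n
  have hM : Measurable fun x : Cf d S => M0 a (Dp f x) := measurable_M0.comp (measurable_Dp hf)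
  set T : Mk d → Set (Cf d S) := fun m => EvS a f m (E.C n m) with hT
  have hlc : ∀ᵐ m ∂E.ρ, LC T m := (hE.ae_lc_EvS h f).mono fun _ hm => hm n
  have h1 : ∀ᵐ m ∂E.ρ, P (ver T ∅ m) ≠ 0 := by
    rw [← hlaw] at hlc ⊢
    refine (ae_map_iff hM.aemeasurable (measurableSet_ver T ∅ {b | P b ≠ 0})).2 ?_
    have hc : (range (ver T ∅) ∩ {b | P b = 0}).Countable :=
      (countable_range_ver T ∅).mono inter_subset_left
    have h0 : P (⋃₀ (range (ver T ∅) ∩ {b | P b = 0})) = 0 :=
      (measure_sUnion_null_iff hc).2 fun b hb => hb.2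
    filter_upwards [ae_of_ae_map hM.aemeasurable hlc, measure_eq_zero_iff_ae_notMem.1 h0]
      with x hx hx' hz
    refine hx' ⟨_, ⟨mem_range_self _, hz⟩, ?_⟩
    rw [ver_eq hx]
    exact mem_EvS_self a f x _
  filter_upwards [h1, hlc] with m h1 h2
  rwa [ver_eq h2] at h1

theorem EvS_eq_children (a : ℕ) (f : Cf d S → Bool) {E : Env d} {m : Mk d} (hm : E.Good m)
    {n N : ℕ} (hn : n ≤ N) (x : Cf d S) :
    x ∈ EvS a f m (E.C N m) ↔
      ∀ z ∈ E.ch n N m, sh z x ∈ EvS a f (sh z m) (E.C n (sh z m)) := by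
  simp only [EvS, Ev, mem_ofPred_eq, Dp_sh, sh_sh, Finset.mem_coe]
  constructor
  · intro h z hz w hw
    exact h _ (hm.child_subset hn (Env.Good.mem_ch.1 hz).1 hw)
  · intro h v hv
    obtain ⟨z, hz, hv⟩ := hm.exists_child hn hv
    simpa using h z hz _ hv

theorem side_prod {a k l : ℕ} {E : Env d} (P : Measure (Cf d S)) [IsProbabilityMeasure P]
    (hP : Stat P) (hk : KDep k P) {f : Cf d S → Bool} (hf : Measurable f)
    (hl : DependsOn f (ball d l)) (hla : l + k ≤ a) {m : Mk d} (hm : E.Good m) {n N : ℕ}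
    (hn : n ≤ N) (hadm : ∀ z, Adm a (sh z m) (E.C n (sh z m)))
    (g : V d → Cf d S → ℝ≥0∞)
    (hg : ∀ z ∈ E.ch n N m, Measurable (g z) ∧ DependsOn (g z) (inn k (E.C n (sh z m)))) :
    ∫⁻ x, (EvS a f m (E.C N m)).indicator (fun x => ∏ z ∈ E.ch n N m, g z (sh z x)) x ∂P =
      ∏ z ∈ E.ch n N m, ∫⁻ x, (EvS a f (sh z m) (E.C n (sh z m))).indicator (g z) x ∂P := by
  have key := hk.lintegral_prod (E.ch n N m) (fun z => {v | v - z ∈ inn k (E.C n (sh z m))})
    (fun z hz z' hz' hne u hu w hw => by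
      have hw' : w - z ∉ E.C n (sh z m) := fun hc =>
        hne (hm.child_unique (Env.Good.mem_ch.1 hz).2 (Env.Good.mem_ch.1 hz').2 hc
          (inn_subset hw))
      simpa using inn_sep hu hw')
    (fun z x => (EvS a f (sh z m) (E.C n (sh z m))).indicator (g z) (sh z x))
    (fun z hz => ⟨((hg z hz).1.indicator (measurableSet_EvS hf _ _)).comp (measurable_sh z),
      fun x y hxy => by
        have h1 : ∀ v ∈ (inn k (E.C n (sh z m)) : Set (V d)), sh z x v = sh z y v :=
          fun v hv => hxy _ (by simpa using hv)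
        have h2 := EvS_dependsOn hl hla (hadm z) h1
        simp only [indicator, h2, (hg z hz).2 h1]⟩)
  rw [← Finset.prod_congr rfl fun z _ => hP.lintegral_sh z _, ← key]
  refine lintegral_congr fun x => ?_
  by_cases hx : x ∈ EvS a f m (E.C N m)
  · rw [indicator_of_mem hx]
    exact Finset.prod_congr rfl fun z hz =>
      (indicator_of_mem ((EvS_eq_children a f hm hn x).1 hx z hz) _).symm
  · rw [indicator_of_notMem hx]
    rw [EvS_eq_children a f hm hn] at hx
    push Not at hx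
    obtain ⟨z, hz, hx⟩ := hx
    exact (Finset.prod_eq_zero hz (indicator_of_notMem hx _)).symm

/-- the gluing identity behind the conditional law -/
theorem side_piece {a k l : ℕ} (P : Measure (Cf d S)) [IsProbabilityMeasure P]
    (hk : KDep k P) {f : Cf d S → Bool} (hf : Measurable f)
    (hl : DependsOn f (ball d l)) (hla : l + k ≤ a) {U : Finset (V d)} {B : Set (Cf d S)}
    (hB0 : P B ≠ 0) {G : Set (Mk d)} (hG : MeasurableSet G)
    (hGU : ∀ m ∈ G, Adm a m U ∧ EvS a f m U = B) {g : Cf d S → ℝ≥0∞} (hg : Measurable g)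
    (hgU : DependsOn g (inn k U)) :
    ∫⁻ x in (fun x => M0 a (Dp f x)) ⁻¹' G, g x ∂P =
      P ((fun x => M0 a (Dp f x)) ⁻¹' G) * ∫⁻ x, g x ∂(cnd P B) := by
  rcases G.eq_empty_or_nonempty with rfl | ⟨m0, hm0⟩
  · simp
  have hM : Measurable fun x : Cf d S => M0 a (Dp f x) := measurable_M0.comp (measurable_Dp hf)
  have hB : MeasurableSet B := (hGU m0 hm0).2 ▸ measurableSet_EvS hf _ _
  have hBU : DependsOn (· ∈ B) (inn k U) := (hGU m0 hm0).2 ▸ EvS_dependsOn hl hla (hGU m0 hm0).1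
  obtain ⟨x0, hx0⟩ := nonempty_of_measure_ne_zero hB0
  let gl : Cf d S → Cf d S := fun x v => if v ∈ U then x0 v else x v
  have hgl : Measurable gl := measurable_pi_lambda _ fun v => by
    by_cases hv : v ∈ U
    · simpa only [gl, if_pos hv] using measurable_const
    · simpa only [gl, if_neg hv] using measurable_pi_apply _
  have hin : ∀ {W : Set (V d)} {v : V d}, (∀ w ∈ ball d k, v + w ∈ W) → v ∈ W :=
    fun hv => by simpa using hv 0 (zero_mem_ball k)
  have hun : ∀ {m : Mk d} {x : Cf d S}, x ∈ EvS a f m U → x ∈ EvS a f m (U : Set (V d))ᶜ →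
      Ev a m univ (Dp f x) := fun h1 h2 v _ => by
    by_cases hv : v ∈ (U : Set (V d))
    · exact h1 v hv
    · exact h2 v hv
  set W : Set (Cf d S) := gl ⁻¹' ((fun x => M0 a (Dp f x)) ⁻¹' G) with hW
  have hWm : MeasurableSet W := hgl (hM hG)
  have hWU : DependsOn (· ∈ W) (U : Set (V d))ᶜ := fun x y hxy => by
    have : gl x = gl y := funext fun v => by
      by_cases hv : v ∈ U
      · simp [gl, hv]
      · simpa [gl, hv] using hxy v hv
    simp only [hW, mem_preimage, this]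
  have hQ : (fun x => M0 a (Dp f x)) ⁻¹' G = B ∩ W := by
    ext x
    constructor
    · intro hx
      obtain ⟨hA, hE⟩ := hGU _ hx
      refine ⟨hE ▸ mem_EvS_self a f x _, ?_⟩
      have h1 : gl x ∈ EvS a f (M0 a (Dp f x)) U :=
        EvS_congr hl hla hA (fun v hv => by simp [gl, Finset.mem_coe.1 (hin hv)]) (hE ▸ hx0)
      have h2 : gl x ∈ EvS a f (M0 a (Dp f x)) (U : Set (V d))ᶜ :=
        EvS_congr hl hla hA.compl (fun v hv => by
          have : v ∉ U := hin hv
          simp [gl, this]) (mem_EvS_self a f x _)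
      simp only [hW, mem_preimage, M0_eq_of_ev (hun h1 h2)]
      exact hx
    · rintro ⟨hxB, hx⟩
      obtain ⟨hA, hE⟩ := hGU _ hx
      have h2 : x ∈ EvS a f (M0 a (Dp f (gl x))) (U : Set (V d))ᶜ :=
        EvS_congr hl hla hA.compl (fun v hv => by
          have : v ∉ U := hin hv
          simp [gl, this]) (mem_EvS_self a f (gl x) _)
      simp only [mem_preimage, M0_eq_of_ev (hun (hE ▸ hxB) h2)]
      exact hx
  have hsep : ∀ u ∈ (inn k U : Set (V d)), ∀ w ∈ (U : Set (V d))ᶜ, (k : ℝ) < ‖u - w‖ :=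
    fun u hu w hw => inn_sep hu hw
  have h3 := hk.lintegral_mul hsep (f := B.indicator g) (g := W.indicator 1) (hg.indicator hB)
    (fun x y hxy => by simp only [indicator, hBU hxy, hgU hxy]) (measurable_one.indicator hWm)
    (fun x y hxy => by simp only [indicator, hWU hxy, Pi.one_apply])
  rw [hQ, hk.measure_inter hsep hB hBU hWm hWU, lintegral_cnd hB hB0,
    ← lintegral_indicator (hB.inter hWm), mul_comm (P B), mul_assoc, ← mul_assoc (P B),
    ENNReal.mul_inv_cancel hB0 (measure_ne_top _ _), one_mul, mul_comm,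
    ← lintegral_indicator_one hWm, ← h3]
  refine lintegral_congr fun x => ?_
  by_cases h1 : x ∈ B <;> by_cases h2 : x ∈ W <;> simp [indicator, h1, h2]

theorem side_cond {a k l : ℕ} {δ : Measure (Cf d Bool)} (h : Sparse a δ) {E : Env d}
    (hE : IsTileEnv a δ E) (P : Measure (Cf d S)) [IsProbabilityMeasure P]
    (hk : KDep k P) {f : Cf d S → Bool} (hf : Measurable f) (hl : DependsOn f (ball d l))
    (hla : l + k ≤ a) (hlaw : P.map (fun x => M0 a (Dp f x)) = E.ρ) (n : ℕ)
    (F : Mk d → Cf d S → ℝ≥0∞)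
    (hF : ∀ᵐ m ∂E.ρ, LC F m ∧ Measurable (F m) ∧ DependsOn (F m) (inn k (E.C n m))) :
    ∫⁻ x, F (M0 a (Dp f x)) x ∂P =
      ∫⁻ m, ∫⁻ x, F m x ∂(cnd P (EvS a f m (E.C n m))) ∂E.ρ := by
  have hM : Measurable fun x : Cf d S => M0 a (Dp f x) := measurable_M0.comp (measurable_Dp hf)
  set T : Mk d → Finset (V d) × (Cf d S → ℝ≥0∞) × Set (Cf d S) :=
    fun m => (E.C n m, F m, EvS a f m (E.C n m)) with hT
  have hall : ∀ᵐ m ∂E.ρ, LC T m ∧ Measurable (F m) ∧ DependsOn (F m) (inn k (E.C n m)) ∧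
      Adm a m (E.C n m) ∧ P (EvS a f m (E.C n m)) ≠ 0 := by
    filter_upwards [hF, E.ae_good, hE.ae_lc_EvS h f, hE.ae_adm0 h, ae_EvS_pos h hE P hf hlaw]
      with m h1 h2 h3 h4 h5
    exact ⟨(h2.lc n).pair (h1.1.pair (h3 n)), h1.2.1, h1.2.2, h4 n, h5 n⟩
  obtain ⟨G, hGae, hGm, hG⟩ := hall.exists_measurable_mem
  let c : Finset (V d) × (Cf d S → ℝ≥0∞) × Set (Cf d S) := (∅, 0, ∅)
  let Gb := fun b => G ∩ ver T c ⁻¹' {b}
  have hGb : ∀ b, MeasurableSet (Gb b) := fun b => hGm.inter (measurableSet_ver T c _)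
  have hU : G = ⋃ b ∈ range (ver T c), Gb b := by
    ext m; simp [Gb]
  have hdisj : (range (ver T c)).PairwiseDisjoint Gb := fun b _ b' _ hne =>
    Set.disjoint_left.2 fun m h1 h2 => hne (h1.2.symm.trans h2.2)
  have hTb : ∀ b, ∀ m ∈ Gb b, T m = b := fun b m hm => by
    rw [← ver_eq (c := c) (hG m hm.1).1]; exact hm.2
  have hGae' : ∀ᵐ x ∂P, x ∈ (fun x => M0 a (Dp f x)) ⁻¹' G :=
    ae_of_ae_map hM.aemeasurable (hlaw.symm ▸ hGae)
  rw [← Measure.restrict_eq_self_of_ae_mem hGae', ← Measure.restrict_eq_self_of_ae_mem hGae]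
  conv_lhs => rw [hU, preimage_iUnion₂]
  conv_rhs => rw [Measure.restrict_eq_self_of_ae_mem hGae', hU]
  rw [lintegral_biUnion (countable_range_ver T c) (fun b _ => hM (hGb b))
      (fun b hb b' hb' hne => (hdisj hb hb' hne).preimage _),
    lintegral_biUnion (countable_range_ver T c) (fun b _ => hGb b) hdisj]
  refine tsum_congr fun ⟨b, _⟩ => ?_
  rcases (Gb b).eq_empty_or_nonempty with he | ⟨m0, hm0⟩
  · simp [he]
  have h0 := hG m0 hm0.1
  have e1 : ∀ m ∈ Gb b, E.C n m = E.C n m0 ∧ F m = F m0 ∧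
      EvS a f m (E.C n m) = EvS a f m0 (E.C n m0) := fun m hm => by
    have := (hTb b m hm).trans (hTb b m0 hm0).symm
    simpa only [hT, Prod.mk.injEq] using this
  rw [setLIntegral_congr_fun (hM (hGb b)) (g := F m0) (fun x hx => by rw [(e1 _ hx).2.1]),
    setLIntegral_congr_fun (hGb b)
      (g := fun _ => ∫⁻ x, F m0 x ∂(cnd P (EvS a f m0 (E.C n m0))))
      (fun m hm => by simp only [(e1 _ hm).2.1, (e1 _ hm).2.2]),
    side_piece P hk hf hl hla h0.2.2.2.2 (hGb b)
      (fun m hm => ⟨(e1 m hm).1 ▸ (hG m hm.1).2.2.2.1, (e1 m hm).1 ▸ (e1 m hm).2.2⟩)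
      h0.2.1 h0.2.2.1, setLIntegral_const, mul_comm, ← hlaw, Measure.map_apply hM (hGb b)]

theorem exists_side {a k l : ℕ} {δ : Measure (Cf d Bool)} (h : Sparse a δ) {E : Env d}
    (hE : IsTileEnv a δ E) (P : Measure (Cf d S)) [IsProbabilityMeasure P] (hP : Stat P)
    (hk : KDep k P) (f : Cf d S → Bool) (hf : Measurable f) (hl : DependsOn f (ball d l))
    (hla : l + k ≤ a) (hlaw : P.map (Dp f) = δ) :
    ∃ s : Side E S, s.P = P ∧ s.k = k ∧ IsTileSide a s f := by
  have hM : Measurable fun x : Cf d S => M0 a (Dp f x) := measurable_M0.comp (measurable_Dp hf)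
  have hlaw' : P.map (fun x => M0 a (Dp f x)) = E.ρ := by
    rw [hE.1, ← hlaw, Measure.map_map measurable_M0 (measurable_Dp hf)]; rfl
  refine ⟨{ P := P, prob := inferInstance, stat := hP, k := k, dep := hk
            M := fun x => M0 a (Dp f x), measM := hM
            equiv := fun v x => by rw [Dp_sh, M0_sh]
            lcM := ?_, law := hlaw'
            κ := fun n m => cnd P (EvS a f m (E.C n m))
            κprob := fun _ _ => inferInstance
            κlc := (hE.ae_lc_EvS h f).mono fun m hm n => (hm n).post (cnd P)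
            prod := ?_
            cond := side_cond h hE P hk hf hl hla hlaw' }, rfl, rfl, fun _ => rfl, fun _ _ => rfl⟩
  · have : ∀ᵐ x ∂P, Free (GG a (Dp f x)) :=
      ae_of_ae_map (measurable_Dp hf).aemeasurable (hlaw.symm ▸ h.ae_free)
    exact this.mono fun x hx => (tendsto_M0 hx).comp (tendsto_Dp hl x)
  · filter_upwards [E.ae_good, E.ae_sh (hE.ae_adm0 h), E.ae_sh (ae_EvS_pos h hE P hf hlaw')]
      with m hm hadm hpos n N hn g hg
    have hpN : P (EvS a f m (E.C N m)) ≠ 0 := by simpa using hpos 0 N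
    have h1 := side_prod P hP hk hf hl hla hm hn (fun z => hadm z n) (fun _ _ => 1)
      (fun _ _ => ⟨measurable_const, fun _ _ _ => rfl⟩)
    simp only [Finset.prod_const_one] at h1
    rw [lintegral_indicator_const (measurableSet_EvS hf _ _), one_mul,
      Finset.prod_congr rfl fun z _ => lintegral_indicator_const (measurableSet_EvS hf _ _) _]
      at h1
    simp only [one_mul] at h1
    rw [lintegral_cnd (measurableSet_EvS hf _ _) hpN,
      side_prod P hP hk hf hl hla hm hn (fun z => hadm z n) g hg, h1,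
      Finset.prod_congr rfl fun z _ => lintegral_cnd (measurableSet_EvS hf _ _) (hpos z n) _,
      Finset.prod_mul_distrib, ENNReal.prod_inv_distrib]
    intro z _ z' _ _
    exact Or.inl (hpos z n)

end SIDE

end Pool.Agent.P.MP_1a5a6a_pr
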