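import Pool.Agent.P.MP_1a5a6a_pr.FI.KS
import Pool.Agent.P.MP_1a5a6a_pr.FI.Bounds
import Pool.Agent.P.MP_1a5a6a_pr.FI.MkSide
import Pool.Agent.P.MP_1a5a6a_pr.FI.Choose
import Pool.Agent.P.MP_1a5a6a_pr.FI.Atomless

set_option autoImplicit false
set_option linter.unusedSectionVars false
open MeasureTheory ProbabilityTheory Filter Set
open scoped ENNReal Classical

namespace Pool.Agent.P.MP_1a5a6a_pr

variable {d : ℕ}

theorem Stat.map_apply_eq {S : Type} [MeasurableSpace S] {μ : Measure (Cf d S)} (h : Stat μ)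
    (v : V d) (p : S → Prop) : μ {x | p (x v)} = μ {x | p (x 0)} := by
  rw [← h.measure_sh v {x | p (x 0)}]
  congr 1
  ext x
  simp

/-- the side of a product whose markers are read off the first factor -/
theorem exists_side_zip {S T : Type} [MeasurableSpace S] [MeasurableSpace T] {a k l : ℕ}
    {δ : Measure (Cf d Bool)} (h : Sparse a δ) {E : Env d} (hE : IsTileEnv a δ E)
    (P : Measure (Cf d S)) [IsProbabilityMeasure P] (hP : Stat P) (hk : KDep k P)
    (Q : Measure (Cf d T)) [IsProbabilityMeasure Q] (hQ : Stat Q) (hkQ : KDep k Q)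
    (f : Cf d S → Bool) (hf : Measurable f) (hl : DependsOn f (ball d l))
    (hla : l + k ≤ a) (hlaw : P.map (Dp f) = δ) :
    ∃ s : Side E (S × T), s.P = zip P Q ∧ s.k = k ∧
      IsTileSide a s fun x => f fun v => (x v).1 := by
  have hm : Measurable fun (x : Cf d (S × T)) (v : V d) => (x v).1 := measurable_site measurable_fst
  refine exists_side (l := l) h hE (zip P Q) (hP.zip hQ) (hk.zip hkQ) _ (hf.comp hm) ?_ hla ?_
  · intro x y hxy
    exact hl fun v hv => by simp only [hxy v hv]
  · have h1 : Measurable (Dp f) := measurable_block hf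
    rw [← hlaw]
    conv_rhs => rw [← zip_map_fst P Q, Measure.map_map h1 hm]
    rfl

theorem map_Dp_zero (δ : Measure (Cf d Bool)) : δ.map (Dp fun x => x 0) = δ := by
  have : (Dp fun x : Cf d Bool => x 0) = id := by
    funext x u; simp [Dp]
  rw [this, Measure.map_id]

theorem dependsOn_zero {S : Type} : DependsOn (fun x : Cf d S => x 0) (ball d 0) :=
  fun _ _ h => h 0 (zero_mem_ball 0)

theorem measurableSet_zero {T : Type} [MeasurableSpace T] [MeasurableSingletonClass T] (t : T) :
    MeasurableSet {y : Cf d T | y 0 = t} :=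
  (measurable_pi_apply (0 : V d) : Measurable fun y : Cf d T => y 0) (measurableSet_singleton t)

theorem measurable_decide_mem {X : Type} [MeasurableSpace X] {B : Set X} (hB : MeasurableSet B) :
    Measurable fun t => decide (t ∈ B) :=
  (Measurable.of_discrete (f := fun p : Prop => decide p)).comp (measurable_mem.2 hB)

/-! ### the atomless case -/

theorem zip_snd_null {S T : Type} [MeasurableSpace S] [MeasurableSpace T] [StandardBorelSpace T]
    (P : Measure (Cf d S)) [IsProbabilityMeasure P] (ν : Measure T) [IsProbabilityMeasure ν]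
    [NullSingletonClass ν] (t : T) : zip P (iid d ν) {y | (y 0).2 = t} = 0 := by
  have h := zip_rect P (iid d ν) (A := univ) (B := {y | y 0 = t}) MeasurableSet.univ
    (measurableSet_zero t)
  have h2 : iid d ν {y | y 0 = t} = 0 := by
    have := Measure.map_apply (μ := iid d ν) (measurable_pi_apply (0 : V d))
      (measurableSet_singleton t)
    rw [iid_apply_zero] at this
    rw [← measure_singleton (μ := ν) t, this]; rfl
  simpa [h2] using h

theorem iid_null {T : Type} [MeasurableSpace T] [StandardBorelSpace T] (ν : Measure T)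
    [IsProbabilityMeasure ν] [NullSingletonClass ν] (t : T) : iid d ν {y | y 0 = t} = 0 := by
  have := Measure.map_apply (μ := iid d ν) (measurable_pi_apply (0 : V d))
    (measurableSet_singleton t)
  rw [iid_apply_zero] at this
  rw [← measure_singleton (μ := ν) t, this]; rfl

theorem zip_fst_null {S T : Type} [MeasurableSpace S] [MeasurableSpace T] [StandardBorelSpace T]
    (P : Measure (Cf d S)) [IsProbabilityMeasure P] (ν : Measure T) [IsProbabilityMeasure ν]
    [NullSingletonClass ν] (t : T) : zip (iid d ν) P {y | (y 0).1 = t} = 0 := by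
  have h := zip_rect (iid d ν) P (A := {y | y 0 = t}) (B := univ)
    (measurableSet_zero t) MeasurableSet.univ
  simpa [iid_null] using h

theorem iid_apply {T : Type} [MeasurableSpace T] (ν : Measure T) [IsProbabilityMeasure ν]
    {A : Set T} (hA : MeasurableSet A) : iid d ν {y | y 0 ∈ A} = ν A := by
  have := Measure.map_apply (μ := iid d ν) (measurable_pi_apply (0 : V d)) hA
  rw [iid_apply_zero] at this
  rw [this]; rfl

theorem atomless_case (hd : 0 < d) {S : Type} [MeasurableSpace S] [StandardBorelSpace S]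
    (P : Measure (Cf d S)) [IsProbabilityMeasure P] (hP : Stat P) {k : ℕ} (hk : KDep k P)
    {A : Set S} (hA : MeasurableSet A) (h0 : P {x | x 0 ∈ A} ≠ 0) (h1 : P {x | x 0 ∈ A} ≠ 1)
    (hat : ∀ t ∈ A, P {x | x 0 = t} = 0) :
    FinIso (iid d (volume : Measure unitInterval)) P := by
  set ν : Measure unitInterval := volume with hν
  obtain ⟨l, f, hf, hl, hsp, -, hfH⟩ := exists_sparse hd P hP hk (fun t => decide (t ∈ A))
    (measurable_decide_mem hA) (by simpa using h0) (by simpa using h1) one_pos
  set δ := P.map (Dp f) with hδ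
  have := hsp.prob
  obtain ⟨E, hE⟩ := hsp.exists_tileEnv hd
  obtain ⟨s1, hP1, hk1, hs1⟩ := exists_side hsp hE P hP hk f hf hl (by omega) rfl
  obtain ⟨s2, hP2, hk2, hs2⟩ := exists_side_zip (l := 0) hsp hE δ hsp.stat hsp.dep (iid d ν)
    (stat_iid ν) (kdep_iid ν _) (fun x => x 0) (measurable_pi_apply 0) dependsOn_zero (by omega)
    (map_Dp_zero δ)
  have i1 : FinIso P (zip E.ρ (iid d ν)) := by
    rw [← hP1]
    refine atomless_iso hd s1 (tileSide_atomless (l := l) hd hsp hE s1 hf hs1 (by omega) ?_) ν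
    intro x
    rw [hP1]
    refine measure_mono_null (t := ⋃ v ∈ ball d l, {y | y v = x v ∧ x v ∈ A}) ?_ ?_
    · rintro y ⟨hy, hy'⟩
      obtain ⟨v, hv, hv'⟩ := hfH y hy'
      refine mem_iUnion₂.2 ⟨v, hv, hy v hv, ?_⟩
      rw [← hy v hv]; simpa using hv'
    · refine (measure_biUnion_null_iff (ball d l).countable_toSet).2 fun v _ => ?_
      by_cases hv : x v ∈ A
      · simp only [hv, and_true]
        rw [hP.map_apply_eq v (· = x v)]
        exact hat _ hv
      · simp [hv]
  have i2 : FinIso (zip δ (iid d ν)) (zip E.ρ (iid d ν)) := by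
    rw [← hP2]
    refine atomless_iso hd s2 (tileSide_atomless (l := 0) hd hsp hE s2
      ((measurable_pi_apply 0).comp (measurable_site measurable_fst)) hs2 (by omega) ?_) ν
    intro x
    rw [hP2]
    exact measure_mono_null (fun y hy => by simpa using congrArg Prod.snd (hy.1 0 (zero_mem_ball 0)))
      (zip_snd_null δ ν (x 0).2)
  -- second round of markers
  obtain ⟨A', hA', -, h0', h1'⟩ := exists_split ν MeasurableSet.univ (by simp)
    (fun t _ => measure_singleton t)
  obtain ⟨l', f', hf', hl', hsp', -, -⟩ := exists_sparse hd (iid d ν) (stat_iid ν)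
    (kdep_iid ν (k + 2 * l)) (fun t => decide (t ∈ A')) (measurable_decide_mem hA')
    (by simpa [iid_apply ν hA'] using h0') (by simpa [iid_apply ν hA'] using h1') one_pos
  obtain ⟨E', hE'⟩ := hsp'.exists_tileEnv hd
  obtain ⟨s3, hP3, hk3, hs3⟩ := exists_side_zip hsp' hE' (iid d ν) (stat_iid ν)
    (kdep_iid ν (k + 2 * l)) δ hsp.stat hsp.dep f' hf' hl' (by omega) rfl
  obtain ⟨s4, hP4, hk4, hs4⟩ := exists_side hsp' hE' (iid d ν) (stat_iid ν)
    (kdep_iid ν (k + 2 * l)) f' hf' hl' (by omega) rfl
  have i3 : FinIso (zip (iid d ν) δ) (zip E'.ρ (iid d ν)) := by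
    rw [← hP3]
    refine atomless_iso hd s3 (tileSide_atomless (l := l') hd hsp' hE' s3
      (hf'.comp (measurable_site measurable_fst)) hs3 (by omega) ?_) ν
    intro x
    rw [hP3]
    exact measure_mono_null (fun y hy => by simpa using congrArg Prod.fst (hy.1 0 (zero_mem_ball _)))
      (zip_fst_null δ ν (x 0).1)
  have i4 : FinIso (iid d ν) (zip E'.ρ (iid d ν)) := by
    conv_lhs => rw [← hP4]
    refine atomless_iso hd s4 (tileSide_atomless (l := l') hd hsp' hE' s4 hf' hs4 (by omega) ?_) ν
    intro x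
    rw [hP4]
    exact measure_mono_null (fun y hy => hy.1 0 (zero_mem_ball _)) (iid_null ν (x 0))
  have j1 : FinIso (iid d ν) (zip (iid d ν) δ) :=
    i4.trans (stat_iid ν) ((stat_iid ν).zip hsp.stat) i3.symm
  have j2 : FinIso (iid d ν) (zip δ (iid d ν)) :=
    j1.trans (stat_iid ν) (hsp.stat.zip (stat_iid ν)) (finIso_zip_swap (stat_iid ν) hsp.stat)
  have j3 : FinIso (iid d ν) (zip E.ρ (iid d ν)) :=
    j2.trans (stat_iid ν) (E.stat.zip (stat_iid ν)) i2
  exact j3.trans (stat_iid ν) hP i1.symm

/-! ### the countable case -/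

theorem cross_bound {δ : Measure (Cf d Bool)} [IsProbabilityMeasure δ] {E : Env d}
    (s : Side E Bool) (hs : s.P = δ) {ε : ℝ} (h0 : 0 < ε) (h1 : ε ≤ 1 / 2) :
    s.g ≤ ENNReal.ofReal (δ.real {x | x 0 = true} / ε + 2 * ε) := by
  let ν : Measure Bool := ENNReal.ofReal ε • Measure.dirac true +
    ENNReal.ofReal (1 - ε) • Measure.dirac false
  have hν1 : ν {true} = ENNReal.ofReal ε := by simp [ν]
  have hν2 : ν {false} = ENNReal.ofReal (1 - ε) := by simp [ν]
  have : IsProbabilityMeasure ν := ⟨by
    simp only [ν, Measure.coe_add, Measure.coe_smul, Pi.add_apply, Pi.smul_apply, measure_univ,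
      smul_eq_mul, mul_one]
    rw [← ENNReal.ofReal_add h0.le (by linarith)]; simp⟩
  refine (s.g_le_cross ν ?_).trans ?_
  · intro t
    cases t
    · rw [hν2]; simp; linarith
    · rw [hν1]; simpa using h0
  rw [hs]
  have hm : MeasurableSet {x : Cf d Bool | x 0 = true} := measurableSet_zero true
  calc ∫⁻ x, ENNReal.ofReal (-Real.log (ν.real {x 0})) ∂δ
      ≤ ∫⁻ x, ({x : Cf d Bool | x 0 = true}.indicator (fun _ => ENNReal.ofReal (1 / ε)) x +
          ENNReal.ofReal (2 * ε)) ∂δ := by
        refine lintegral_mono fun x => ?_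
        cases hx : x 0
        · refine le_add_left (ENNReal.ofReal_le_ofReal ?_)
          rw [Measure.real, hν2, ENNReal.toReal_ofReal (by linarith)]
          have h2 : 0 < 1 - ε := by linarith
          have := Real.one_sub_inv_le_log_of_pos h2
          have h3 : (1 - ε)⁻¹ ≤ 1 + 2 * ε := by
            rw [inv_le_iff_one_le_mul₀ h2]; nlinarith
          linarith
        · refine le_add_right ?_
          rw [indicator_of_mem (by simpa using hx), Measure.real, hν1,
            ENNReal.toReal_ofReal h0.le]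
          refine ENNReal.ofReal_le_ofReal ?_
          have := Real.one_sub_inv_le_log_of_pos h0
          rw [one_div]; linarith
    _ = ENNReal.ofReal (1 / ε) * δ {x | x 0 = true} + ENNReal.ofReal (2 * ε) := by
        rw [lintegral_add_right _ measurable_const, lintegral_indicator hm]; simp
    _ = _ := by
        rw [ENNReal.ofReal_add (by positivity) (by positivity),
          div_eq_mul_one_div (δ.real _) ε, mul_comm (δ.real _) (1 / ε),
          ENNReal.ofReal_mul (p := 1 / ε) (by positivity), Measure.real,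
          ENNReal.ofReal_toReal (measure_ne_top _ _)]

theorem exists_marker (hd : 0 < d) {S : Type} [MeasurableSpace S] [Countable S]
    [MeasurableSingletonClass S] (P : Measure (Cf d S)) [IsProbabilityMeasure P] (hP : Stat P)
    {k : ℕ} (hk : KDep k P) {t : S} (h0 : P {x | x 0 = t} ≠ 0) (h1 : P {x | x 0 = t} ≠ 1) :
    ∃ (l : ℕ) (f : Cf d S → Bool), Measurable f ∧ DependsOn f (ball d l) ∧
      Sparse (k + 2 * l) (P.map (Dp f)) ∧ ∀ (E : Env d), IsTileEnv (k + 2 * l) (P.map (Dp f)) E →
        ∀ (s : Side E S) (s' : Side E Bool), s.P = P → s.k = k → IsTileSide (k + 2 * l) s f →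
          s'.P = P.map (Dp f) → s'.g < s.g := by
  set p := P.real {x | x 0 = t} with hp
  have hp0 : 0 < p := ENNReal.toReal_pos h0 (measure_ne_top _ _)
  have hp1 : p < 1 := by
    have : P {x | x 0 = t} < 1 := lt_of_le_of_ne prob_le_one h1
    simpa [hp, Measure.real] using ENNReal.toReal_strict_mono ENNReal.one_ne_top this
  set q0 := max p (1 - p) with hq0
  have hq01 : q0 < 1 := max_lt hp1 (by linarith)
  have hq00 : 0 < q0 := lt_max_of_lt_left hp0
  have hat : ∀ u, P.real {x | x 0 = u} ≤ q0 := fun u => by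
    by_cases hu : u = t
    · rw [hu]; exact le_max_left _ _
    · refine le_trans ?_ (le_max_right _ _)
      rw [hp, ← probReal_compl_eq_one_sub (measurableSet_zero t)]
      exact measureReal_mono fun x hx hx' => hu (hx.symm.trans hx')
  set q := (1 + q0) / 2 with hq
  have hq1 : q < 1 := by linarith
  have hqq : q0 < q := by linarith
  have hq0' : 0 < q := by linarith
  set c := -Real.log q with hc
  have hc0 : 0 < c := by simpa [hc] using Real.log_neg hq0' hq1
  set c' := min (c / 8) (1 / 2) with hc'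
  have hc'0 : 0 < c' := lt_min (by positivity) (by norm_num)
  have hη0 : 0 < 1 - q0 / q := by
    rw [sub_pos, div_lt_one hq0']; exact hqq
  obtain ⟨l, f, hf, hl, hsp, hθ, -⟩ := exists_sparse hd P hP hk (fun u => decide (u ∈ ({t} : Set S)))
    (measurable_decide_mem (measurableSet_singleton t)) (by simpa using h0) (by simpa using h1)
    (θ := min (1 - q0 / q) (c' * c / 8)) (lt_min hη0 (by positivity))
  refine ⟨l, f, hf, hl, hsp, fun E hE s s' hsP hsk hs hs'P => ?_⟩
  set a := k + 2 * l with ha
  set δ := P.map (Dp f) with hδ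
  have := hsp.prob
  have hη : δ.real {x | x 0 = true} = P.real {x | f x = true} := by
    have h1 : Measurable (Dp f) := measurable_block hf
    rw [hδ, map_measureReal_apply h1 (measurableSet_zero true)]
    congr 1
    ext x; simp [Dp]
  set η := P.real {x | f x = true} with hηdef
  have hη0' : 0 ≤ η := measureReal_nonneg
  set B : ℝ := ((ball d (4 * a)).card : ℝ) with hB
  have hB1 : 1 ≤ B := by
    rw [hB]; exact_mod_cast Finset.card_pos.2 ⟨0, zero_mem_ball _⟩
  have hBB : B ≤ (ball d (20 * a)).card := by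
    rw [hB]; exact_mod_cast Finset.card_le_card (ball_mono (by omega))
  have hθ' : B ^ 2 * η ≤ min (1 - q0 / q) (c' * c / 8) :=
    le_trans (by gcongr) hθ
  have hη1 : η ≤ 1 - q0 / q := by
    have h1 := hθ'.trans (min_le_left _ _)
    have h2 : 1 ≤ B ^ 2 := one_le_pow₀ hB1
    nlinarith
  have hlow := tileSide_g_lower hsp hE s hf hs (by omega) (by rw [hsP]) hq0' (fun u => by
    rw [hsP, hη]
    refine (hat u).trans ?_
    have : q0 = q * (q0 / q) := by field_simp
    rw [this]
    have h3 : q * (q0 / q) / q = q0 / q := by field_simp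
    gcongr
    linarith)
  have hup := cross_bound s' hs'P (ε := c' / B) (by positivity)
    (by rw [div_le_iff₀ (by linarith)]; nlinarith [min_le_right (c / 8) (1 / 2)])
  refine lt_of_le_of_lt hup (lt_of_lt_of_le ?_ hlow)
  rw [ENNReal.ofReal_lt_ofReal_iff (by positivity), hη]
  have h4 : B ^ 2 * η ≤ c' * c / 8 := hθ'.trans (min_le_right _ _)
  have h5 : c' ≤ c / 8 := min_le_left _ _
  have h6 : η / (c' / B) ≤ c / (8 * B) := by
    rw [div_le_div_iff₀ (by positivity) (by positivity)]
    have : c * (c' / B) = c * c' / B := by ring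
    rw [this, le_div_iff₀ (by positivity)]
    nlinarith
  have h7 : 2 * (c' / B) ≤ c / (4 * B) := by
    rw [← mul_div_assoc, div_le_div_iff₀ (by positivity) (by positivity)]
    nlinarith
  have h8 : c / (8 * B) + c / (4 * B) < c / (2 * B) := by
    have : c / (8 * B) + c / (4 * B) = (3 / 4) * (c / (2 * B)) := by field_simp; ring
    rw [this]
    have : 0 < c / (2 * B) := by positivity
    linarith
  linarith

theorem countable_case (hd : 0 < d) (P : Measure (Cf d ℕ)) [IsProbabilityMeasure P] (hP : Stat P)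
    {k : ℕ} (hk : KDep k P) {t : ℕ} (h0 : P {x | x 0 = t} ≠ 0) (h1 : P {x | x 0 = t} ≠ 1) :
    ∃ ν : Measure (ℕ × ℕ), IsProbabilityMeasure ν ∧ FinIso (iid d ν) P := by
  obtain ⟨l, f, hf, hl, hsp, hgap⟩ := exists_marker hd P hP hk h0 h1
  set a := k + 2 * l with ha
  set δ := P.map (Dp f) with hδ
  have := hsp.prob
  obtain ⟨E, hE⟩ := hsp.exists_tileEnv hd
  obtain ⟨s1, hP1, hk1, hs1⟩ := exists_side hsp hE P hP hk f hf hl (by omega) rfl
  obtain ⟨sD, hPD, hkD, hsD⟩ := exists_side (l := 0) hsp hE δ hsp.stat hsp.dep (fun x => x 0)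
    (measurable_pi_apply 0) dependsOn_zero (by omega) (map_Dp_zero δ)
  have hlt := hgap E hE s1 sD hP1 hk1 hs1 hPD
  obtain ⟨ν, hν, hνs⟩ := exists_shannon (s1.g - sD.g)
  obtain ⟨s2, hP2, hk2, hs2⟩ := exists_side_zip (l := 0) hsp hE δ hsp.stat hsp.dep (iid d ν)
    (stat_iid ν) (kdep_iid ν _) (fun x => x 0) (measurable_pi_apply 0) dependsOn_zero (by omega)
    (map_Dp_zero δ)
  have hg2 : s2.g = s1.g := by
    rw [tileSide_g_zip_iid sD s2 (measurable_pi_apply 0) hsD hs2 (by omega) ν (by rw [hP2, hPD]),
      hνs, add_tsub_cancel_of_le hlt.le]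
  have i1 : FinIso (zip δ (iid d ν)) P := by
    rw [← hP1, ← hP2]
    exact KS hd s2 s1 hg2 (by rw [hg2]; exact lt_of_le_of_lt bot_le hlt)
  -- second round
  obtain ⟨u, hu0, hu1⟩ := exists_atom_of_shannon (ν := ν) (by
    rw [hνs]; exact (tsub_pos_of_lt hlt).ne')
  have hu : iid d ν {x | x 0 = u} = ν {u} := iid_apply ν (measurableSet_singleton u)
  obtain ⟨l', f', hf', hl', hsp', hgap'⟩ := exists_marker hd (iid d ν) (stat_iid ν)
    (kdep_iid ν a) (t := u) (by rwa [hu]) (by rwa [hu])
  have := hsp'.prob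
  obtain ⟨E', hE'⟩ := hsp'.exists_tileEnv hd
  obtain ⟨sY, hPY, hkY, hsY⟩ := exists_side hsp' hE' (iid d ν) (stat_iid ν) (kdep_iid ν a) f' hf'
    hl' (by omega) rfl
  obtain ⟨sD', hPD', -, -⟩ := exists_side (l := 0) hsp' hE' _ hsp'.stat hsp'.dep (fun x => x 0)
    (measurable_pi_apply 0) dependsOn_zero (by omega) (map_Dp_zero _)
  have hlt' := hgap' E' hE' sY sD' hPY hkY hsY hPD'
  obtain ⟨s3, hP3, hk3, hs3⟩ := exists_side_zip hsp' hE' (iid d ν) (stat_iid ν)
    (kdep_iid ν a) δ hsp.stat hsp.dep f' hf' hl' (by omega) rfl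
  have hle : sY.g ≤ s3.g := tileSide_g_zip_le sY s3 hf' hsY hs3 (by omega) δ (by rw [hP3, hPY])
  obtain ⟨ν3, hν3, hν3s⟩ := exists_shannon (s3.g - sY.g)
  obtain ⟨s4, hP4, hk4, hs4⟩ := exists_side_zip hsp' hE' (iid d ν) (stat_iid ν)
    (kdep_iid ν a) (iid d ν3) (stat_iid ν3) (kdep_iid ν3 a) f' hf' hl' (by omega) rfl
  have hg4 : s4.g = s3.g := by
    rw [tileSide_g_zip_iid sY s4 hf' hsY hs4 (by omega) ν3 (by rw [hP4, hPY]),
      hν3s, add_tsub_cancel_of_le hle]
  have i2 : FinIso (iid d (ν.prod ν3)) (zip (iid d ν) δ) := by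
    rw [← zip_iid, ← hP3, ← hP4]
    exact KS hd s4 s3 hg4 (by rw [hg4]; exact lt_of_lt_of_le (lt_of_le_of_lt bot_le hlt') hle)
  refine ⟨ν.prod ν3, inferInstance, ?_⟩
  exact (i2.trans (stat_iid _) (hsp.stat.zip (stat_iid ν))
    (finIso_zip_swap (stat_iid ν) hsp.stat)).trans (stat_iid _) hP i1

theorem finIso_refl {S : Type} [MeasurableSpace S] {μ : Measure (Cf d S)} (h : Stat μ) :
    FinIso μ μ := by
  have := finIso_site h (f := id) (g := id) measurable_id measurable_id (by simp)
  simpa using this

theorem eq_iid_of_const {S : Type} [MeasurableSpace S] [MeasurableSingletonClass S]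
    (P : Measure (Cf d S)) [IsProbabilityMeasure P] (hP : Stat P) {t : S}
    (h : P {x | x 0 = t} = 1) : P = iid d (Measure.dirac t) := by
  have key : ∀ Q : Measure (Cf d S), IsProbabilityMeasure Q → Stat Q → Q {x | x 0 = t} = 1 →
      Q = Measure.dirac (fun _ => t) := fun Q _ hQ h => by
    have h1 : ∀ᵐ x ∂Q, x 0 = t := by
      rw [ae_iff]
      exact (prob_compl_eq_zero_iff (measurableSet_zero t)).2 h
    have h2 : id =ᵐ[Q] fun _ => (fun _ => t : Cf d S) :=
      (hQ.ae_sh h1).mono fun x hx => funext fun v => by simpa using hx v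
    have : Q.map id = Q.map fun _ => (fun _ => t : Cf d S) := Measure.map_congr h2
    simpa using this
  rw [key P inferInstance hP h, key (iid d (Measure.dirac t)) inferInstance (stat_iid _)]
  have := iid_apply (d := d) (Measure.dirac t) (measurableSet_singleton t)
  simpa using this

theorem main_iso (hd : 0 < d) {S : Type} [MeasurableSpace S] [StandardBorelSpace S]
    (P : Measure (Cf d S)) [IsProbabilityMeasure P] (hP : Stat P) {k : ℕ} (hk : KDep k P) :
    ∃ (T : Type) (_ : MeasurableSpace T) (_ : StandardBorelSpace T) (ν : Measure T)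
      (_ : IsProbabilityMeasure ν), FinIso (iid d ν) P := by
  set ν0 : Measure S := P.map fun x => x 0 with hν0
  have : IsProbabilityMeasure ν0 := Measure.isProbabilityMeasure_map
    (measurable_pi_apply (0 : V d)).aemeasurable
  have hap : ∀ {A : Set S}, MeasurableSet A → ν0 A = P {x | x 0 ∈ A} := fun hA => by
    rw [hν0, Measure.map_apply (measurable_pi_apply (0 : V d)) hA]; rfl
  have hAt : {t | 0 < ν0 {t}}.Countable := by
    have := Measure.countable_meas_level_set_pos (μ := ν0) (g := id) measurable_id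
    simpa using this
  by_cases hc : ν0 {t | 0 < ν0 {t}}ᶜ = 0
  swap
  · obtain ⟨A, hA, hAB, h0, h1⟩ := exists_split ν0 hAt.measurableSet.compl hc
      (fun t ht => by simpa using ht)
    refine ⟨unitInterval, inferInstance, inferInstance, volume, inferInstance,
      atomless_case hd P hP hk hA (by rwa [← hap hA]) (by rwa [← hap hA]) fun t ht => ?_⟩
    have := hap (measurableSet_singleton t)
    simp only [mem_singleton_iff] at this
    rw [← this]
    simpa using hAB ht
  -- countable case
  have hne : {t | 0 < ν0 {t}}.Nonempty := by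
    by_contra h
    rw [not_nonempty_iff_eq_empty] at h
    simp [h] at hc
  obtain ⟨i, hi⟩ := hAt.exists_eq_range hne
  let e : S → ℕ := fun t => if h : ∃ n, i n = t then Nat.find h else 0
  have hie : ∀ t ∈ range i, i (e t) = t := fun t ht => by
    simp only [e, dif_pos (show ∃ n, i n = t from ht)]
    exact Nat.find_spec (show ∃ n, i n = t from ht)
  have he : Measurable e := by
    refine measurable_to_countable' fun n => ?_
    have h1 : e ⁻¹' {n} = (e ⁻¹' {n} ∩ range i) ∪ (if n = 0 then (range i)ᶜ else ∅) := by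
      ext t
      by_cases ht : t ∈ range i
      · by_cases hn : n = 0 <;> simp [ht, hn]
      · have : e t = 0 := dif_neg ht
        by_cases hn : n = 0
        · simp [ht, hn, this]
        · simp [ht, hn, this, Ne.symm hn]
    rw [h1]
    refine ((countable_range i).mono inter_subset_right).measurableSet.union ?_
    split_ifs
    · exact (countable_range i).measurableSet.compl
    · exact MeasurableSet.empty
  have hae : ∀ᵐ x ∂P, i (e (x 0)) = x 0 := by
    rw [hi, hap (countable_range i).measurableSet.compl] at hc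
    exact measure_mono_null (fun x hx hx' => hx (hie _ hx')) hc
  have iso := finIso_site hP he (measurable_from_nat (f := i)) hae
  set P' : Measure (Cf d ℕ) := P.map fun x v => e (x v) with hP'
  have : IsProbabilityMeasure P' :=
    Measure.isProbabilityMeasure_map (measurable_site he).aemeasurable
  have hst : Stat P' := hP.site he
  by_cases hn : ∃ t, P' {x | x 0 = t} ≠ 0 ∧ P' {x | x 0 = t} ≠ 1
  · obtain ⟨t, h0, h1⟩ := hn
    obtain ⟨ν, hν, h⟩ := countable_case hd P' hst (hk.site he) h0 h1
    exact ⟨ℕ × ℕ, inferInstance, inferInstance, ν, hν, h.trans (stat_iid _) hP iso.symm⟩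
  · have : ∃ t, P' {x | x 0 = t} = 1 := by
      by_contra h
      push Not at h hn
      have h2 : P' (⋃ t, {x | x 0 = t}) = 0 :=
        measure_iUnion_null fun t => by_contra fun h' => h t (hn t h')
      have h3 : (⋃ t, {x : Cf d ℕ | x 0 = t}) = univ := by ext x; simp
      simp [h3] at h2
    obtain ⟨t, ht⟩ := this
    refine ⟨ℕ, inferInstance, inferInstance, Measure.dirac t, inferInstance, ?_⟩
    rw [← eq_iid_of_const P' hst ht]
    exact iso.symm

end Pool.Agent.P.MP_1a5a6a_pr
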