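import Pool.Agent.P.MP_1a5a6a_pr.FI.Basic

set_option autoImplicit false
set_option linter.unusedSectionVars false
open MeasureTheory ProbabilityTheory Filter Set
open scoped ENNReal Classical

namespace Pool.Agent.P.MP_1a5a6a_pr

variable {d : ℕ}

section forest
variable {I J : Type} [Fintype I] [Fintype J]

/-- support of a matrix -/
noncomputable def msupp (w : I → J → ℝ) : Finset (I × J) :=
  Finset.univ.filter fun p => w p.1 p.2 ≠ 0

/-- nonzero rows of a matrix -/
noncomputable def mrows (w : I → J → ℝ) : Finset I :=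
  Finset.univ.filter fun i => ∃ j, w i j ≠ 0

theorem mem_msupp {w : I → J → ℝ} {p : I × J} : p ∈ msupp w ↔ w p.1 p.2 ≠ 0 := by
  simp [msupp]

theorem mem_mrows {w : I → J → ℝ} {i : I} : i ∈ mrows w ↔ ∃ j, w i j ≠ 0 := by
  simp [mrows]

theorem branch_count (w : I → J → ℝ) :
    (mrows w).card + (Finset.univ.filter fun i =>
      ∃ j j', j ≠ j' ∧ w i j ≠ 0 ∧ w i j' ≠ 0).card ≤ (msupp w).card := by
  have h1 : (msupp w).card = ∑ i, (Finset.univ.filter fun j => w i j ≠ 0).card := by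
    rw [msupp, Finset.card_filter, Fintype.sum_prod_type]
    exact Finset.sum_congr rfl fun i _ => (Finset.card_filter _ _).symm
  rw [h1, mrows, Finset.card_filter, Finset.card_filter, ← Finset.sum_add_distrib]
  refine Finset.sum_le_sum fun i _ => ?_
  by_cases h2 : ∃ j j', j ≠ j' ∧ w i j ≠ 0 ∧ w i j' ≠ 0
  · obtain ⟨j, j', hne, hj, hj'⟩ := h2
    have h3 : ({j, j'} : Finset J) ⊆ Finset.univ.filter fun j => w i j ≠ 0 := by
      intro x hx
      simp only [Finset.mem_insert, Finset.mem_singleton] at hx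
      rcases hx with rfl | rfl <;> simp [hj, hj']
    have h4 := Finset.card_le_card h3
    rw [Finset.card_pair hne] at h4
    split_ifs <;> omega
  · rw [if_neg h2]
    by_cases h3 : ∃ j, w i j ≠ 0
    · rw [if_pos h3]
      obtain ⟨j, hj⟩ := h3
      have : (Finset.univ.filter fun j => w i j ≠ 0).Nonempty := ⟨j, by simp [hj]⟩
      have := this.card_pos
      omega
    · rw [if_neg h3]; omega

theorem exists_cycle (w : I → J → ℝ) (h : (mrows w).card + Fintype.card J < (msupp w).card) :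
    ∃ δ : I → J → ℝ, (∀ i, ∑ j, δ i j = 0) ∧ (∀ j, ∑ i, δ i j = 0) ∧
      (∀ i j, δ i j ≠ 0 → w i j ≠ 0) ∧ ∃ i j, δ i j ≠ 0 := by
  let v : msupp w → (mrows w ⊕ J → ℝ) := fun p s =>
    Sum.elim (fun i : mrows w => if p.1.1 = i.1 then (1 : ℝ) else 0)
      (fun j : J => if p.1.2 = j then (1 : ℝ) else 0) s
  have hv : ¬ LinearIndependent ℝ v := by
    intro hli
    have := hli.fintype_card_le_finrank
    rw [Module.finrank_fintype_fun_eq_card, Fintype.card_sum, Fintype.card_coe,
      Fintype.card_coe] at this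
    omega
  rw [Fintype.not_linearIndependent_iff] at hv
  obtain ⟨g, hg, p0, hp0⟩ := hv
  let δ : I → J → ℝ := fun i j => if hp : (i, j) ∈ msupp w then g ⟨(i, j), hp⟩ else 0
  have key : ∀ F : I × J → ℝ, ∑ p : I × J, δ p.1 p.2 * F p = ∑ p : msupp w, g p * F p.1 := by
    intro F
    rw [← Finset.sum_subset (Finset.subset_univ (msupp w))]
    · rw [← Finset.sum_coe_sort]
      refine Finset.sum_congr rfl fun p _ => ?_
      simp [δ, p.2]
    · intro p _ hp
      simp [δ, hp]
  have hδ : ∀ i j, δ i j ≠ 0 → w i j ≠ 0 := by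
    intro i j hij
    by_contra h0
    apply hij
    have : (i, j) ∉ msupp w := by rw [mem_msupp]; simpa using h0
    simp [δ, this]
  refine ⟨δ, fun i => ?_, fun j => ?_, hδ, p0.1.1, p0.1.2, ?_⟩
  · by_cases hi : i ∈ mrows w
    · have h1 := congrFun hg (Sum.inl ⟨i, hi⟩)
      simp only [Finset.sum_apply, Pi.smul_apply, smul_eq_mul, v, Sum.elim_inl,
        Pi.zero_apply] at h1
      rw [← key fun p => if p.1 = i then (1 : ℝ) else 0, Fintype.sum_prod_type,
        Finset.sum_eq_single i] at h1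
      · simpa using h1
      · intro i' _ hne; simp [hne]
      · simp
    · refine Finset.sum_eq_zero fun j _ => ?_
      by_contra h0
      exact hi (mem_mrows.2 ⟨j, hδ i j h0⟩)
  · have h1 := congrFun hg (Sum.inr j)
    simp only [Finset.sum_apply, Pi.smul_apply, smul_eq_mul, v, Sum.elim_inr,
      Pi.zero_apply] at h1
    rw [← key fun p => if p.2 = j then (1 : ℝ) else 0, Fintype.sum_prod_type] at h1
    simpa using h1
  · simpa [δ, p0.2] using hp0

theorem exists_smaller (w : I → J → ℝ) (hw : ∀ i j, 0 ≤ w i j)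
    (h : (mrows w).card + Fintype.card J < (msupp w).card) :
    ∃ w' : I → J → ℝ, (∀ i j, 0 ≤ w' i j) ∧ (∀ i, ∑ j, w' i j = ∑ j, w i j) ∧
      (∀ j, ∑ i, w' i j = ∑ i, w i j) ∧ (∀ i j, w' i j ≠ 0 → w i j ≠ 0) ∧
      (msupp w').card < (msupp w).card := by
  have main : ∀ δ : I → J → ℝ, (∀ i, ∑ j, δ i j = 0) → (∀ j, ∑ i, δ i j = 0) →
      (∀ i j, δ i j ≠ 0 → w i j ≠ 0) → (∃ i j, 0 < δ i j) →
      ∃ w' : I → J → ℝ, (∀ i j, 0 ≤ w' i j) ∧ (∀ i, ∑ j, w' i j = ∑ j, w i j) ∧
      (∀ j, ∑ i, w' i j = ∑ i, w i j) ∧ (∀ i j, w' i j ≠ 0 → w i j ≠ 0) ∧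
      (msupp w').card < (msupp w).card := by
    rintro δ hr hc hs ⟨i0, j0, h0⟩
    obtain ⟨p, hp, hmin⟩ := Finset.exists_min_image
      (Finset.univ.filter fun p : I × J => 0 < δ p.1 p.2) (fun p => w p.1 p.2 / δ p.1 p.2)
      ⟨(i0, j0), by simp [h0]⟩
    have hp' : 0 < δ p.1 p.2 := by simpa using hp
    set t := w p.1 p.2 / δ p.1 p.2 with ht
    have ht0 : 0 ≤ t := div_nonneg (hw _ _) hp'.le
    have hsub : ∀ i j, w i j - t * δ i j ≠ 0 → w i j ≠ 0 := by
      intro i j hij h1
      apply hij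
      have : δ i j = 0 := by
        by_contra h2
        exact hs i j h2 h1
      simp [h1, this]
    refine ⟨fun i j => w i j - t * δ i j, fun i j => ?_, fun i => ?_, fun j => ?_, hsub, ?_⟩
    · by_cases h1 : 0 < δ i j
      · have := hmin (i, j) (by simp [h1])
        rw [le_div_iff₀ h1] at this
        simpa using this
      · have := mul_nonpos_of_nonneg_of_nonpos ht0 (not_lt.1 h1)
        have := hw i j
        linarith
    · rw [Finset.sum_sub_distrib, ← Finset.mul_sum, hr]; simp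
    · rw [Finset.sum_sub_distrib, ← Finset.mul_sum, hc]; simp
    · refine Finset.card_lt_card ⟨fun q hq => mem_msupp.2 (hsub _ _ (mem_msupp.1 hq)), ?_⟩
      intro hh
      have h1 := mem_msupp.1 (hh (mem_msupp.2 (hs _ _ hp'.ne')))
      apply h1
      show w p.1 p.2 - t * δ p.1 p.2 = 0
      rw [ht, div_mul_cancel₀ _ hp'.ne', sub_self]
  obtain ⟨δ, hr, hc, hs, i, j, hij⟩ := exists_cycle w h
  rcases lt_or_gt_of_ne hij with h1 | h1
  · refine main (fun i j => -δ i j) (fun i => ?_) (fun j => ?_) (fun i j h2 => hs i j ?_)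
      ⟨i, j, by simpa using h1⟩
    · simp [Finset.sum_neg_distrib, hr]
    · simp [Finset.sum_neg_distrib, hc]
    · simpa using h2
  · exact main δ hr hc hs ⟨i, j, h1⟩

end forest

section MATCH

theorem forest {I J : Type} [Fintype I] [Fintype J] (w : I → J → ℝ) (hw : ∀ i j, 0 ≤ w i j) :
    ∃ w' : I → J → ℝ, (∀ i j, 0 ≤ w' i j) ∧ (∀ i, ∑ j, w' i j = ∑ j, w i j) ∧
      (∀ j, ∑ i, w' i j = ∑ i, w i j) ∧ (∀ i j, w' i j ≠ 0 → w i j ≠ 0) ∧
      (Finset.univ.filter fun i => ∃ j j', j ≠ j' ∧ w' i j ≠ 0 ∧ w' i j' ≠ 0).card ≤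
        Fintype.card J := by
  induction hn : (msupp w).card using Nat.strong_induction_on generalizing w with
  | _ n ih =>
    by_cases h : (mrows w).card + Fintype.card J < (msupp w).card
    · obtain ⟨w1, h1, h2, h3, h4, h5⟩ := exists_smaller w hw h
      obtain ⟨w2, k1, k2, k3, k4, k5⟩ := ih _ (hn ▸ h5) w1 h1 rfl
      exact ⟨w2, k1, fun i => (k2 i).trans (h2 i), fun j => (k3 j).trans (h3 j),
        fun i j hij => h4 i j (k4 i j hij), k5⟩
    · refine ⟨w, hw, fun _ => rfl, fun _ => rfl, fun _ _ h => h, ?_⟩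
      have := branch_count w
      omega

theorem mem_cls_out {Z : Type} (γ : Setoid Z) (c : Quotient γ) (z : Z) :
    z ∈ cls γ c.out ↔ Quotient.mk γ z = c := by
  constructor
  · intro h
    rw [← Quotient.out_eq c]
    exact Quotient.sound h
  · rintro rfl
    exact γ.symm (Quotient.mk_out z)

theorem cls_out_mk {Z : Type} (γ : Setoid Z) (z : Z) :
    cls γ (Quotient.mk γ z).out = cls γ z := by
  ext y
  rw [mem_cls_out]
  exact Quotient.eq

theorem lintegral_quot {Z : Type} [MeasurableSpace Z] (μ : Measure Z) (γ : Setoid Z)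
    [Fintype (Quotient γ)] (hγ : ∀ z, MeasurableSet (cls γ z)) (F : Quotient γ → ℝ≥0∞) :
    ∫⁻ z, F (Quotient.mk γ z) ∂μ = ∑ c, F c * μ (cls γ c.out) := by
  have : (fun z => F (Quotient.mk γ z)) =
      fun z => ∑ c, (cls γ c.out).indicator (fun _ => F c) z := by
    funext z
    rw [Finset.sum_eq_single (Quotient.mk γ z)]
    · rw [indicator_of_mem ((mem_cls_out γ _ z).2 rfl)]
    · intro c _ hc
      exact indicator_of_notMem (fun h => hc ((mem_cls_out γ c z).1 h).symm) _
    · simp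
  rw [this, lintegral_finsetSum]
  · exact Finset.sum_congr rfl fun c _ => lintegral_indicator_const (hγ _) _
  · intro c _
    exact measurable_const.indicator (hγ _)

theorem ae_quot {Z : Type} [MeasurableSpace Z] (μ : Measure Z) (γ : Setoid Z)
    [Finite (Quotient γ)] (P : Quotient γ → Prop) :
    (∀ᵐ z ∂μ, P (Quotient.mk γ z)) ↔ ∀ c, μ (cls γ c.out) ≠ 0 → P c := by
  constructor
  · intro h c hc
    by_contra hP
    apply hc
    refine measure_mono_null (fun z hz => ?_) (ae_iff.1 h)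
    have := (mem_cls_out γ c z).1 hz
    show ¬ P (Quotient.mk γ z)
    rwa [this]
  · intro h
    have : ∀ᵐ z ∂μ, ∀ c : Quotient γ, μ (cls γ c.out) = 0 → z ∉ cls γ c.out := by
      rw [ae_all_iff]
      intro c
      by_cases hc : μ (cls γ c.out) = 0
      · filter_upwards [measure_eq_zero_iff_ae_notMem.1 hc] with z hz _ using hz
      · exact Eventually.of_forall fun z h0 => absurd h0 hc
    filter_upwards [this] with z hz
    exact h _ fun h0 => hz _ h0 ((mem_cls_out γ _ z).2 rfl)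

theorem row_aux {J : Type} [Fintype J] {a : ℝ≥0∞} (ha : a ≠ 0) (ha' : a ≠ ⊤) (b : J → ℝ≥0∞)
    (hb : ∀ j, b j ≠ ⊤) (w : J → ℝ) (hw : ∀ j, 0 ≤ w j) (h0 : ∀ j, w j ≠ 0 → b j ≠ 0)
    (hs : ∑ j, w j = a.toReal) : ∑ j, ENNReal.ofReal (w j) / (a * b j) * b j = 1 := by
  have h1 : ∀ j, ENNReal.ofReal (w j) / (a * b j) * b j = ENNReal.ofReal (w j) * a⁻¹ := by
    intro j
    by_cases hj : w j = 0
    · simp [hj]
    · rw [div_eq_mul_inv, ENNReal.mul_inv (Or.inl ha) (Or.inl ha'), mul_assoc, mul_assoc,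
        ENNReal.inv_mul_cancel (h0 j hj) (hb j), mul_one]
  simp_rw [h1]
  rw [← Finset.sum_mul, ← ENNReal.ofReal_sum_of_nonneg fun j _ => hw j, hs,
    ENNReal.ofReal_toReal ha', ENNReal.mul_inv_cancel ha ha']

variable {X Y : Type} [MeasurableSpace X] [MeasurableSpace Y] {κ : Measure X} {κ' : Measure Y}
  [IsProbabilityMeasure κ] [IsProbabilityMeasure κ']

theorem matching (α : Setoid X) (β : Setoid Y) [Finite (Quotient α)] [Finite (Quotient β)]
    (hα : ∀ x, MeasurableSet (cls α x)) (hβ : ∀ y, MeasurableSet (cls β y))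
    (D : X → Y → ℝ≥0∞) (hsat : ∀ x x' y y', α x x' → β y y' → D x y = D x' y')
    (hD : Coupled κ κ' D) :
    ∃ D' : X → Y → ℝ≥0∞, (∀ x x' y y', α x x' → β y y' → D' x y = D' x' y') ∧
      Coupled κ κ' D' ∧ (∀ x y, D' x y ≠ 0 → D x y ≠ 0) ∧
      ∀ θ : ℝ≥0∞, κ {x | (∃ y y', D' x y ≠ 0 ∧ D' x y' ≠ 0 ∧ ¬ β y y') ∧ κ (cls α x) ≤ θ} ≤
        Nat.card (Quotient β) * θ := by
  let _ : Fintype (Quotient α) := Fintype.ofFinite _
  let _ : Fintype (Quotient β) := Fintype.ofFinite _
  set ka : Quotient α → ℝ≥0∞ := fun a => κ (cls α a.out) with hka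
  set kb : Quotient β → ℝ≥0∞ := fun b => κ' (cls β b.out) with hkb
  have hka' : ∀ a, ka a ≠ ⊤ := fun a => measure_ne_top _ _
  have hkb' : ∀ b, kb b ≠ ⊤ := fun b => measure_ne_top _ _
  set Dq : Quotient α → Quotient β → ℝ≥0∞ := fun a b => D a.out b.out with hDq
  have hDD : ∀ x y, D x y = Dq (Quotient.mk α x) (Quotient.mk β y) := fun x y =>
    hsat _ _ _ _ (α.symm (Quotient.mk_out x)) (β.symm (Quotient.mk_out y))
  have hrow : ∀ a, ka a ≠ 0 → ∑ b, Dq a b * kb b = 1 := by
    refine (ae_quot κ α fun a => ∑ b, Dq a b * kb b = 1).1 ?_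
    filter_upwards [hD.1] with x hx
    rw [← hx, ← lintegral_quot κ' β hβ]
    simp_rw [hDD]
  have hcol : ∀ b, kb b ≠ 0 → ∑ a, Dq a b * ka a = 1 := by
    refine (ae_quot κ' β fun b => ∑ a, Dq a b * ka a = 1).1 ?_
    filter_upwards [hD.2] with y hy
    rw [← hy, ← lintegral_quot κ α hα fun a => Dq a (Quotient.mk β y)]
    simp_rw [hDD]
  set W : Quotient α → Quotient β → ℝ≥0∞ := fun a b => Dq a b * kb b * ka a with hW
  have hWr : ∀ a, ∑ b, W a b = ka a := by
    intro a
    simp only [hW]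
    rw [← Finset.sum_mul]
    by_cases h : ka a = 0
    · simp [h]
    · rw [hrow a h, one_mul]
  have hWc : ∀ b, ∑ a, W a b = kb b := by
    intro b
    have : ∀ a, W a b = Dq a b * ka a * kb b := fun a => by simp only [hW]; ring
    simp only [this]
    rw [← Finset.sum_mul]
    by_cases h : kb b = 0
    · simp [h]
    · rw [hcol b h, one_mul]
  have hWt : ∀ a b, W a b ≠ ⊤ := fun a b =>
    ne_top_of_le_ne_top (hka' a)
      (hWr a ▸ Finset.single_le_sum (f := W a) (fun _ _ => zero_le) (Finset.mem_univ b))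
  obtain ⟨w, hw0, hwr, hwc, hws, hwb⟩ :=
    forest (fun a b => (W a b).toReal) fun _ _ => ENNReal.toReal_nonneg
  have hws' : ∀ a b, w a b ≠ 0 → Dq a b ≠ 0 ∧ kb b ≠ 0 ∧ ka a ≠ 0 := by
    intro a b h
    have h1 : W a b ≠ 0 := fun h0 => hws a b h (by simp [h0])
    simp only [hW, ne_eq, mul_eq_zero, not_or] at h1
    exact ⟨h1.1.1, h1.1.2, h1.2⟩
  have hwr' : ∀ a, ∑ b, w a b = (ka a).toReal := fun a => by
    rw [hwr, ← ENNReal.toReal_sum fun b _ => hWt a b, hWr]
  have hwc' : ∀ b, ∑ a, w a b = (kb b).toReal := fun b => by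
    rw [hwc, ← ENNReal.toReal_sum fun a _ => hWt a b, hWc]
  set Dn : Quotient α → Quotient β → ℝ≥0∞ :=
    fun a b => ENNReal.ofReal (w a b) / (ka a * kb b) with hDn
  have hDn0 : ∀ a b, Dn a b ≠ 0 → w a b ≠ 0 := fun a b h h0 => h (by simp [hDn, h0])
  refine ⟨fun x y => Dn (Quotient.mk α x) (Quotient.mk β y), fun x x' y y' hx hy => ?_,
    ⟨?_, ?_⟩, fun x y h => ?_, fun θ => ?_⟩
  · show Dn (Quotient.mk α x) (Quotient.mk β y) = Dn (Quotient.mk α x') (Quotient.mk β y')
    rw [Quotient.sound hx, Quotient.sound hy]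
  · refine (ae_quot κ α fun a => ∫⁻ y, Dn a (Quotient.mk β y) ∂κ' = 1).2 fun a ha => ?_
    rw [lintegral_quot κ' β hβ]
    exact row_aux ha (hka' a) kb hkb' (w a) (hw0 a) (fun b h => (hws' a b h).2.1) (hwr' a)
  · refine (ae_quot κ' β fun b => ∫⁻ x, Dn (Quotient.mk α x) b ∂κ = 1).2 fun b hb => ?_
    rw [lintegral_quot κ α hα fun a => Dn a b]
    have := row_aux hb (hkb' b) ka hka' (fun a => w a b) (fun a => hw0 a b)
      (fun a h => (hws' a b h).2.2) (hwc' b)
    simpa only [hDn, mul_comm (ka _) (kb b)] using this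
  · rw [hDD]
    exact (hws' _ _ (hDn0 _ _ h)).1
  · set Br := (Finset.univ.filter fun a => ∃ j j', j ≠ j' ∧ w a j ≠ 0 ∧ w a j' ≠ 0).filter
      fun a => ka a ≤ θ with hBr
    calc _ ≤ κ (⋃ a ∈ Br, cls α a.out) := by
          refine measure_mono ?_
          rintro x ⟨⟨y, y', h1, h2, h3⟩, h4⟩
          refine mem_biUnion (x := Quotient.mk α x) ?_ ((mem_cls_out α _ x).2 rfl)
          simp only [hBr, Finset.coe_filter, Finset.mem_filter, Finset.mem_univ, true_and,
            mem_ofPred_eq]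
          refine ⟨⟨_, _, fun h => h3 (Quotient.exact h), hDn0 _ _ h1, hDn0 _ _ h2⟩, ?_⟩
          simp only [hka]
          rwa [cls_out_mk]
      _ ≤ ∑ a ∈ Br, ka a := measure_biUnion_finset_le _ _
      _ ≤ Br.card • θ := Finset.sum_le_card_nsmul _ _ _ fun a ha => (Finset.mem_filter.1 ha).2
      _ ≤ _ := by
          rw [nsmul_eq_mul, Nat.card_eq_fintype_card]
          have hc : Br.card ≤ Fintype.card (Quotient β) := by
            refine le_trans (Finset.card_le_card fun a ha => ?_) hwb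
            have := (Finset.mem_filter.1 (Finset.mem_filter.1 ha).1).2
            simpa only [Finset.mem_filter, Finset.mem_univ, true_and] using this
          gcongr

theorem Coupled.le {D : X → Y → ℝ≥0∞} (hD : Coupled κ κ' D)
    (hm : Measurable (Function.uncurry D)) {A : Set X} {B : Set Y} (hB : MeasurableSet B)
    (h : ∀ x ∈ A, ∀ y, D x y ≠ 0 → y ∈ B) : κ A ≤ κ' B := by
  have hg : Measurable fun x => ∫⁻ y in B, D x y ∂κ' := hm.lintegral_prod_right
  calc κ A ≤ κ {x | 1 ≤ ∫⁻ y in B, D x y ∂κ'} := by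
        refine measure_mono_ae ?_
        filter_upwards [hD.1] with x hx hxA
        show 1 ≤ ∫⁻ y in B, D x y ∂κ'
        rw [← hx, ← lintegral_indicator hB]
        refine lintegral_mono fun y => ?_
        by_cases hy : y ∈ B
        · rw [indicator_of_mem hy]
        · have : D x y = 0 := by
            by_contra h0
            exact hy (h x hxA y h0)
          simp [this]
    _ ≤ ∫⁻ x, ∫⁻ y in B, D x y ∂κ' ∂κ := by
        simpa using mul_meas_ge_le_lintegral₀ (μ := κ) hg.aemeasurable 1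
    _ = ∫⁻ y in B, ∫⁻ x, D x y ∂κ ∂κ' := lintegral_lintegral_swap hm.aemeasurable
    _ = ∫⁻ _ in B, 1 ∂κ' := lintegral_congr_ae (ae_restrict_of_ae hD.2)
    _ = κ' B := by simp

theorem Coupled.exists_partner {D : X → Y → ℝ≥0∞} (hD : Coupled κ κ' D) :
    ∀ᵐ x ∂κ, ∃ y, D x y ≠ 0 := by
  filter_upwards [hD.1] with x hx
  by_contra h
  push Not at h
  simp [h] at hx

theorem Coupled.swap {D : X → Y → ℝ≥0∞} (hD : Coupled κ κ' D) :
    Coupled κ' κ fun y x => D x y := ⟨hD.2, hD.1⟩

theorem measurable_uncurry_of_agree {S S' : Type} [MeasurableSpace S] [Countable S]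
    [MeasurableSingletonClass S] [MeasurableSpace S'] [Countable S']
    [MeasurableSingletonClass S'] {D : Cf d S → Cf d S' → ℝ≥0∞} {I J : Finset (V d)}
    (h : ∀ x x' y y', agree I x x' → agree J y y' → D x y = D x' y') :
    Measurable (Function.uncurry D) := by
  let r : Cf d S × Cf d S' → (I → S) × (J → S') := fun p => (fun v => p.1 v, fun v => p.2 v)
  have hr : Measurable r :=
    (measurable_pi_lambda _ fun v => (measurable_pi_apply _).comp measurable_fst).prodMk
      (measurable_pi_lambda _ fun v => (measurable_pi_apply _).comp measurable_snd)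
  have hf : Function.FactorsThrough (Function.uncurry D) r := by
    intro p q hpq
    exact h _ _ _ _ (fun v hv => congrFun (congrArg Prod.fst hpq) ⟨v, hv⟩)
      (fun v hv => congrFun (congrArg Prod.snd hpq) ⟨v, hv⟩)
  obtain ⟨e, he⟩ := (Function.factorsThrough_iff _).1 hf
  rw [he]
  exact (measurable_of_countable e).comp hr
end MATCH

end Pool.Agent.P.MP_1a5a6a_pr
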