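import Pool.Agent.P.MP_1a5a6a_pr.FI.Cells

set_option autoImplicit false
set_option linter.unusedSectionVars false
open MeasureTheory ProbabilityTheory Filter Set
open scoped ENNReal Classical

namespace Pool.Agent.P.MP_1a5a6a_pr

variable {d : ℕ}

/-! ### greedy nets -/

theorem Free.shift {g : Cf d Bool} (h : Free g) (a : V d) : Free (sh a g) := by
  intro w hw
  obtain ⟨v, hv⟩ := h w hw
  refine ⟨v - a, ?_⟩
  simp only [sh_apply, sub_add_cancel]
  rwa [show v - a + w + a = v + w by abel]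

theorem col_sep {r i : ℕ} {g : Cf d Bool} {w : V d} (h : col r i g) (h' : col r i (sh w g))
    (hw : w ∈ ball d r) : w = 0 := by
  obtain ⟨p, hp, hs, hc⟩ := h
  obtain ⟨p', hp', -, hc'⟩ := h'
  have e : p = p' := Encodable.encode_injective (hp.trans hp'.symm)
  subst e
  by_contra h0
  obtain ⟨v, hv, hne⟩ := hs w hw h0
  have h1 := hc v hv
  have h2 := hc' v hv
  simp only [sh_apply] at h2
  exact hne (Bool.eq_iff_iff.2 (h1.trans h2.symm))

theorem netN_mono {r i j : ℕ} (hij : i ≤ j) {g : Cf d Bool} (h : netN r i g) : netN r j g := by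
  induction hij with
  | refl => exact h
  | step _ ih => exact Or.inl ih

theorem netN_sep {r : ℕ} (i : ℕ) : ∀ {g : Cf d Bool} {w : V d}, netN r i g → netN r i (sh w g) →
    w ∈ ball d r → w = 0 := by
  induction i with
  | zero => intro g w h; exact h.elim
  | succ i ih =>
    intro g w h h' hw
    rcases h with h | h
    · rcases h' with h' | h'
      · exact ih h h' hw
      · exact absurd (by simpa using h) (h'.2 (-w) (neg_mem_ball hw))
    · rcases h' with h' | h'
      · exact absurd h' (h.2 w hw)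
      · exact col_sep h.1 h'.1 hw

theorem net_sep {r : ℕ} {g : Cf d Bool} {w : V d} (h : net r g) (h' : net r (sh w g))
    (hw : w ∈ ball d r) : w = 0 := by
  obtain ⟨i, hi⟩ := h
  obtain ⟨j, hj⟩ := h'
  exact netN_sep (max i j) (netN_mono (le_max_left _ _) hi) (netN_mono (le_max_right _ _) hj) hw

theorem mem_netB {r t : ℕ} {g : Cf d Bool} {u : V d} :
    u ∈ netB r t g ↔ u ∈ ball d t ∧ net r (sh u g) := Finset.mem_filter

theorem exists_sepAt (r : ℕ) {g : Cf d Bool} (h : Free g) : ∃ R, sepAt r R g := by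
  have : ∀ w : V d, ∃ v, w ≠ 0 → g v ≠ g (v + w) := fun w => by
    by_cases hw : w = 0
    · exact ⟨0, fun h => absurd hw h⟩
    · obtain ⟨v, hv⟩ := h w hw
      exact ⟨v, fun _ => hv⟩
  choose f hf using this
  obtain ⟨R, hR⟩ := exists_subset_ball ((ball d r).image f)
  exact ⟨R, fun w hw h0 => ⟨f w, hR (Finset.mem_image_of_mem _ hw), hf w h0⟩⟩

theorem net_cover (r : ℕ) {g : Cf d Bool} (h : Free g) : (netB r r g).Nonempty := by
  obtain ⟨R, hR⟩ := exists_sepAt r h
  let p : ℕ × Finset (V d) := (R, (ball d R).filter fun v => g v = true)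
  have hc : col r (Encodable.encode p) g :=
    ⟨p, rfl, hR, fun v hv => by
      simp only [p, Finset.mem_filter]
      exact ⟨fun h => ⟨hv, h⟩, fun h => h.2⟩⟩
  by_cases hw : ∃ w ∈ ball d r, netN r (Encodable.encode p) (sh w g)
  · obtain ⟨w, hw, hn⟩ := hw
    exact ⟨w, mem_netB.2 ⟨hw, _, hn⟩⟩
  · push Not at hw
    refine ⟨0, mem_netB.2 ⟨zero_mem_ball r, Encodable.encode p + 1, ?_⟩⟩
    rw [sh_zero]
    exact Or.inr ⟨hc, hw⟩

theorem lc_col (r i : ℕ) (g : Cf d Bool) : LC (col r i) g := by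
  by_cases hp : ∃ p : ℕ × Finset (V d), Encodable.encode p = i
  · obtain ⟨p, hp⟩ := hp
    have key : ∀ y y' : Cf d Bool, (∀ v ∈ ball d (p.1 + r), y v = y' v) → col r i y →
        col r i y' := by
      rintro y y' hy ⟨q, hq, hs, hc⟩
      have e : q = p := Encodable.encode_injective (hq.trans hp.symm)
      subst e
      refine ⟨q, hq, fun w hw h0 => ?_, fun v hv => ?_⟩
      · obtain ⟨v, hv, hne⟩ := hs w hw h0
        refine ⟨v, hv, ?_⟩
        rwa [← hy v (ball_mono (Nat.le_add_right _ _) hv), ← hy _ (add_mem_ball hv hw)]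
      · rw [← hy v (ball_mono (Nat.le_add_right _ _) hv)]
        exact hc v hv
    refine (eventually_eq_on g (ball d (p.1 + r))).mono fun y hy => propext ⟨key y g hy, ?_⟩
    exact key g y fun v hv => (hy v hv).symm
  · refine Eventually.of_forall fun y => propext ⟨?_, ?_⟩
    · rintro ⟨q, hq, -⟩; exact absurd ⟨q, hq⟩ hp
    · rintro ⟨q, hq, -⟩; exact absurd ⟨q, hq⟩ hp

theorem lc_netN (r i : ℕ) : ∀ g : Cf d Bool, LC (netN r i) g := by
  induction i with
  | zero => intro g; exact Eventually.of_forall fun _ => rfl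
  | succ i ih =>
    intro g
    have h1 := lc_finset (f := fun w y => netN r i (sh w y)) (x := g) (ball d r)
      (fun w _ => (ih (sh w g)).comp_sh)
    refine ((ih g).and ((lc_col r i g).and h1)).mono fun y hy => ?_
    show (netN r i y ∨ (col r i y ∧ ∀ w ∈ ball d r, ¬ netN r i (sh w y))) =
      (netN r i g ∨ (col r i g ∧ ∀ w ∈ ball d r, ¬ netN r i (sh w g)))
    rw [hy.1, hy.2.1]
    congr 2
    refine propext (forall₂_congr fun w hw => ?_)
    rw [hy.2.2 w hw]

theorem eventually_net {r : ℕ} {g : Cf d Bool} (h : net r g) : ∀ᶠ y in nb g, net r y := by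
  obtain ⟨i, hi⟩ := h
  exact (lc_netN r i g).mono fun y hy => ⟨i, by rw [hy]; exact hi⟩

theorem lc_net (r : ℕ) {g : Cf d Bool} (h : Free g) : LC (net r) g := by
  by_cases hn : net r g
  · exact (eventually_net hn).mono fun y hy => propext ⟨fun _ => hn, fun _ => hy⟩
  · obtain ⟨w, hw⟩ := net_cover r h
    obtain ⟨hw, hw'⟩ := mem_netB.1 hw
    have h0 : w ≠ 0 := by
      rintro rfl
      exact hn (by simpa using hw')
    refine ((tendsto_sh w g).eventually (eventually_net hw')).mono fun y hy => ?_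
    exact propext ⟨fun hy' => absurd (net_sep hy' hy hw) h0, fun h' => absurd h' hn⟩

theorem lc_netB (r t : ℕ) {g : Cf d Bool} (h : Free g) : LC (netB r t) g := by
  have h1 := lc_finset (f := fun w y => net r (sh w y)) (x := g) (ball d t)
    (fun w _ => (lc_net r (h.shift w)).comp_sh)
  refine h1.mono fun y hy => ?_
  exact Finset.filter_congr fun w hw => by rw [hy w hw]

theorem measurableSet_net (r : ℕ) : MeasurableSet {g : Cf d Bool | net r g} :=
  measurableSet_of_open fun _ hx => eventually_net hx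

/-! ### coarsening a partition -/

theorem fstM_sh (a : V d) (m : Mk d) : fstM (sh a m) = sh a (fstM m) := rfl

theorem measurable_fstM : Measurable (fstM : Mk d → Cf d Bool) :=
  measurable_pi_lambda _ fun v => measurable_fst.comp (measurable_pi_apply v)

theorem tendsto_fstM (m : Mk d) : Tendsto fstM (nb m) (nb (fstM m)) :=
  tendsto_nb.2 fun v => (lc_apply v m).mono fun y hy => by
    simp only [fstM]; exact congrArg Prod.fst hy

/-- `C` behaves at `m` like the cell of the origin of a partition into finite cells -/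
def PartAt (C : Mk d → Finset (V d)) (m : Mk d) : Prop :=
  0 ∈ C m ∧ (∀ v ∈ C m, ∀ w, w ∈ C (sh v m) ↔ w + v ∈ C m) ∧ LC C m

/-- all shifts of `m` are good for `C` -/
def PGood (C : Mk d → Finset (V d)) (m : Mk d) : Prop :=
  Free (fstM m) ∧ ∀ z, PartAt C (sh z m)

theorem PGood.shift {C : Mk d → Finset (V d)} {m : Mk d} (h : PGood C m) (a : V d) :
    PGood C (sh a m) := ⟨h.1.shift a, fun z => by rw [sh_sh]; exact h.2 _⟩

theorem PGood.p0 {C : Mk d → Finset (V d)} {m : Mk d} (h : PGood C m) : PartAt C m := by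
  simpa using h.2 0

/-- a net point near the origin -/
noncomputable def np (r : ℕ) (m : Mk d) : V d := lexmin (netB r r (fstM m))

/-- the root of the cell of `v` -/
noncomputable def rtv (C : Mk d → Finset (V d)) (m : Mk d) (v : V d) : V d :=
  v + lexmin (C (sh v m))

/-- the net point to which `v` is attached -/
noncomputable def att (r : ℕ) (C : Mk d → Finset (V d)) (m : Mk d) (v : V d) : V d :=
  rtv C m v + np r (sh (rtv C m v) m)

/-- the coarsened partition -/
noncomputable def coarse (r : ℕ) (C : Mk d → Finset (V d)) (m : Mk d) : Finset (V d) :=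
  (((ball d r).image fun w => att r C m 0 + w).filter fun z =>
    lexmin (C (sh z m)) = 0 ∧ z + np r (sh z m) = att r C m 0).biUnion
      fun z => (C (sh z m)).image (· + z)

section coarse
variable {r : ℕ} {C : Mk d → Finset (V d)} {m : Mk d}

theorem rtv_sh (a v : V d) : rtv C (sh a m) v = rtv C m (v + a) - a := by
  simp only [rtv, sh_sh]; abel

theorem att_sh (a v : V d) : att r C (sh a m) v = att r C m (v + a) - a := by
  simp only [att, rtv_sh, sh_sh, sub_add_cancel]; abel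

theorem np_mem (h : Free (fstM m)) : np r m ∈ ball d r :=
  (mem_netB.1 (lexmin_mem (net_cover r h))).1

theorem PGood.lexmin_sh (h : PGood C m) {v : V d} (hv : v ∈ C m) :
    lexmin (C (sh v m)) = lexmin (C m) - v := lexmin_shift ⟨0, h.p0.1⟩ (h.p0.2.1 v hv)

theorem PGood.rtv_eq (h : PGood C m) {z w : V d} (hw : w ∈ C (sh z m)) :
    rtv C m (w + z) = rtv C m z := by
  have := (h.shift z).lexmin_sh hw
  rw [sh_sh] at this
  simp only [rtv, this]; abel

theorem PGood.mem_coarse (h : PGood C m) {v : V d} :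
    v ∈ coarse r C m ↔ att r C m v = att r C m 0 := by
  simp only [coarse, Finset.mem_biUnion, Finset.mem_filter, Finset.mem_image]
  constructor
  · rintro ⟨z, ⟨-, hz, hz'⟩, w, hw, rfl⟩
    have e : rtv C m (w + z) = z := by rw [h.rtv_eq hw]; simp [rtv, hz]
    rw [← hz']
    simp only [att, e]
  · intro hv
    have hl : lexmin (C (sh v m)) ∈ C (sh v m) := lexmin_mem ⟨0, (h.2 v).1⟩
    have e : sh (rtv C m v) m = sh (lexmin (C (sh v m))) (sh v m) := by
      rw [sh_sh, rtv, add_comm]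
    refine ⟨rtv C m v, ⟨⟨-np r (sh (rtv C m v) m), neg_mem_ball (np_mem (h.shift _).1), ?_⟩,
      ?_, hv⟩, -lexmin (C (sh v m)), ?_, ?_⟩
    · rw [← hv]; simp [att]
    · rw [e, (h.shift v).lexmin_sh hl, sub_self]
    · rw [e, (h.2 v).2.1 _ hl]; simpa using (h.2 v).1
    · simp [rtv]

theorem PGood.lc_np (h : PGood C m) (z : V d) : LC (fun y => np r (sh z y)) m := by
  have : LC (np r) (sh z m) :=
    ((lc_netB r r (h.shift z).1).comp (tendsto_fstM _)).post lexmin
  exact this.comp_sh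

theorem PGood.lc_C (h : PGood C m) (z : V d) : LC (fun y => C (sh z y)) m :=
  (h.2 z).2.2.comp_sh

theorem PGood.lc_rtv (h : PGood C m) (v : V d) : LC (fun y => rtv C y v) m :=
  (h.lc_C v).post fun F => v + lexmin F

theorem PGood.lc_att (h : PGood C m) (v : V d) : LC (fun y => att r C y v) m :=
  (h.lc_rtv v).bind (g := fun z y => z + np r (sh z y)) ((h.lc_np _).post fun u => _ + u)

theorem PGood.lc_coarse (h : PGood C m) : LC (coarse r C) m := by
  have h1 := lc_finset (f := fun z y => (C (sh z y), np r (sh z y))) (x := m)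
    ((ball d r).image fun w => att r C m 0 + w) (fun z _ => (h.lc_C z).pair (h.lc_np z))
  refine ((h.lc_att (r := r) 0).and h1).mono fun y hy => ?_
  have e0 : att r C y 0 = att r C m 0 := hy.1
  simp only [coarse, e0]
  have e1 : (((ball d r).image fun w => att r C m 0 + w).filter fun z =>
      lexmin (C (sh z y)) = 0 ∧ z + np r (sh z y) = att r C m 0) =
      (((ball d r).image fun w => att r C m 0 + w).filter fun z =>
      lexmin (C (sh z m)) = 0 ∧ z + np r (sh z m) = att r C m 0) := by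
    refine Finset.filter_congr fun z hz => ?_
    have := hy.2 z hz
    simp only [Prod.mk.injEq] at this
    rw [this.1, this.2]
  rw [e1]
  refine Finset.biUnion_congr rfl fun z hz => ?_
  have := hy.2 z (Finset.mem_filter.1 hz).1
  simp only [Prod.mk.injEq] at this
  rw [this.1]

theorem PGood.partAt_coarse (h : PGood C m) : PartAt (coarse r C) m := by
  refine ⟨h.mem_coarse.2 rfl, fun v hv w => ?_, h.lc_coarse⟩
  rw [(h.shift v).mem_coarse, h.mem_coarse, att_sh, att_sh, zero_add, h.mem_coarse.1 hv,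
    sub_left_inj]

theorem PGood.subset_coarse (h : PGood C m) : C m ⊆ coarse r C m := fun v hv => by
  rw [h.mem_coarse]
  have := h.rtv_eq (z := 0) (w := v) (by simpa using hv)
  rw [add_zero] at this
  simp only [att, this]

/-- with no net point in an annulus, the attached net point is constant on a ball -/
theorem np_const {s t : ℕ} (hf : Free (fstM m))
    (hA : ∀ u ∈ ball d (s + t + t), u ∉ ball d s → ¬ net (s + t) (sh u (fstM m))) {z : V d}
    (hz : z ∈ ball d t) : z + np (s + t) (sh z m) = np (s + t) m := by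
  have : np (s + t) (sh z m) = np (s + t) m - z := by
    refine lexmin_shift (net_cover _ hf) fun w => ?_
    simp only [mem_netB, fstM_sh, sh_sh]
    constructor
    · rintro ⟨hw, hn⟩
      refine ⟨?_, hn⟩
      by_contra hc
      exact hA _ (add_mem_ball hw hz) (fun h => hc (ball_mono (Nat.le_add_right _ _) h)) hn
    · rintro ⟨hw, hn⟩
      refine ⟨?_, hn⟩
      have h1 : w + z ∈ ball d s := by
        by_contra hc
        exact hA _ (ball_mono (Nat.le_add_right _ _) hw) hc hn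
      simpa using sub_mem_ball h1 hz
  rw [this]; abel

end coarse

/-! ### probability estimates -/

section prob
variable {ρ : Measure (Mk d)} [IsProbabilityMeasure ρ]

theorem net_prob_le (hρ : Stat ρ) (q : ℕ) :
    ((ball d q).card : ℝ≥0∞) * ρ {m | net (q + q) (fstM m)} ≤ 1 := by
  have hm : MeasurableSet {m : Mk d | net (q + q) (fstM m)} :=
    measurable_fstM (measurableSet_net (q + q))
  have h1 : ρ (⋃ w ∈ ball d q, sh w ⁻¹' {m : Mk d | net (q + q) (fstM m)}) =
      ∑ w ∈ ball d q, ρ (sh w ⁻¹' {m : Mk d | net (q + q) (fstM m)}) := by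
    refine measure_biUnion_finset ?_ fun w _ => measurable_sh w hm
    intro w hw w' hw' hne
    refine Set.disjoint_left.2 fun m h h' => hne ?_
    have h2 : net (q + q) (sh w (fstM m)) := h
    have h3 : net (q + q) (sh (w' - w) (sh w (fstM m))) := by
      rw [sh_sh, sub_add_cancel]; exact h'
    have := net_sep h2 h3 (sub_mem_ball hw' hw)
    exact (sub_eq_zero.1 this).symm
  simp only [hρ.measure_sh, Finset.sum_const, nsmul_eq_mul] at h1
  rw [← h1]
  exact prob_le_one

theorem annulus_prob_le (hρ : Stat ρ) (r s t : ℕ) :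
    ρ {m | ∃ u ∈ ball d t, u ∉ ball d s ∧ net r (sh u (fstM m))} ≤
      ((ball d t \ ball d s).card : ℝ≥0∞) * ρ {m | net r (fstM m)} := by
  have : {m : Mk d | ∃ u ∈ ball d t, u ∉ ball d s ∧ net r (sh u (fstM m))} =
      ⋃ u ∈ ball d t \ ball d s, sh u ⁻¹' {m : Mk d | net r (fstM m)} := by
    ext m
    simp only [mem_ofPred_eq, mem_iUnion, Finset.mem_sdiff, mem_preimage, fstM_sh]
    exact ⟨fun ⟨u, h1, h2, h3⟩ => ⟨u, ⟨h1, h2⟩, h3⟩, fun ⟨u, ⟨h1, h2⟩, h3⟩ => ⟨u, h1, h2, h3⟩⟩
  rw [this]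
  refine (measure_biUnion_finset_le _ _).trans ?_
  simp only [hρ.measure_sh, Finset.sum_const, nsmul_eq_mul, le_refl]

theorem tendsto_ratio (A B : ℝ) :
    Tendsto (fun q : ℕ => (4 * (q : ℝ) + A) / (2 * (q : ℝ) + B)) atTop (nhds 2) := by
  have h1 : Tendsto (fun q : ℕ => 2 * (q : ℝ) + B) atTop atTop :=
    tendsto_atTop_add_const_right _ _
      (tendsto_natCast_atTop_atTop.const_mul_atTop (by norm_num))
  have h2 : Tendsto (fun q : ℕ => 2 + (A - 2 * B) / (2 * (q : ℝ) + B)) atTop (nhds (2 + 0)) :=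
    tendsto_const_nhds.add (tendsto_const_nhds.div_atTop h1)
  rw [add_zero] at h2
  refine h2.congr' ((h1.eventually_gt_atTop 0).mono fun q hq => ?_)
  field_simp
  ring

theorem exists_annulus_small (d t : ℕ) {ε : ℝ} (hε : 0 < ε) : ∃ q : ℕ,
    ((ball d (q + q + t + t + t) \ ball d (q + q + t)).card : ℝ) ≤
      ε * (ball d (q + t)).card := by
  have h1 := ((tendsto_ratio (6 * t + 1) (2 * t + 1)).pow d).sub
    ((tendsto_ratio (2 * t + 1) (2 * t + 1)).pow d)
  rw [sub_self] at h1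
  obtain ⟨q, hq⟩ := (h1.eventually (ge_mem_nhds hε)).exists
  refine ⟨q, ?_⟩
  have hsub : ball d (q + q + t) ⊆ ball d (q + q + t + t + t) := ball_mono (by omega)
  rw [Finset.card_sdiff_of_subset hsub, Nat.cast_sub (Finset.card_le_card hsub)]
  simp only [card_ball]
  push_cast
  have hpos : (0 : ℝ) < (2 * (q : ℝ) + (2 * t + 1)) ^ d := by positivity
  simp only [div_pow] at hq
  rw [← sub_div, div_le_iff₀ hpos] at hq
  rw [show 2 * ((q : ℝ) + q + t + t + t) + 1 = 4 * q + (6 * t + 1) by ring,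
    show 2 * ((q : ℝ) + q + t) + 1 = 4 * q + (2 * t + 1) by ring,
    show 2 * ((q : ℝ) + t) + 1 = 2 * q + (2 * t + 1) by ring]
  exact hq

theorem exists_roots_small {C : Mk d → Finset (V d)} (hC : ∀ᵐ m ∂ρ, PGood C m) (t : ℕ)
    {ε : ℝ≥0∞} (hε : 0 < ε) :
    ∃ t' : ℕ, ρ {m | ∃ v ∈ ball d t, rtv C m v ∉ ball d t'} ≤ ε := by
  have h := tendsto_measure_iInter_atTop (μ := ρ)
    (s := fun t' : ℕ => {m : Mk d | ∃ v ∈ ball d t, rtv C m v ∉ ball d t'}) ?_ ?_
    ⟨0, measure_ne_top _ _⟩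
  · have e : (⋂ t' : ℕ, {m : Mk d | ∃ v ∈ ball d t, rtv C m v ∉ ball d t'}) = ∅ := by
      refine eq_empty_of_forall_notMem fun m hm => ?_
      obtain ⟨t', ht'⟩ := exists_subset_ball ((ball d t).image (rtv C m))
      obtain ⟨v, hv, hv'⟩ := mem_iInter.1 hm t'
      exact hv' (ht' (Finset.mem_image_of_mem _ hv))
    rw [e, measure_empty] at h
    exact (h.eventually (ge_mem_nhds hε)).exists
  · intro t'
    refine nullMeasurableSet_of_lc (hC.mono fun m hm => ?_)
    have h1 := lc_finset (f := fun v y => rtv C y v) (x := m) (ball d t)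
      (fun v _ => hm.lc_rtv v)
    refine h1.mono fun y hy => propext ⟨?_, ?_⟩
    · rintro ⟨v, hv, hv'⟩
      exact ⟨v, hv, by rwa [← hy v hv]⟩
    · rintro ⟨v, hv, hv'⟩
      exact ⟨v, hv, by rwa [hy v hv]⟩
  · rintro a b hab m ⟨v, hv, hv'⟩
    exact ⟨v, hv, fun h => hv' (ball_mono hab h)⟩

theorem exists_coarse (hρ : Stat ρ) {C : Mk d → Finset (V d)} (hC : ∀ᵐ m ∂ρ, PGood C m)
    (t : ℕ) {ε : ℝ≥0∞} (hε : 0 < ε) :
    ∃ r, ρ {m | ¬ ball d t ⊆ coarse r C m} ≤ ε := by
  obtain ⟨η, hη0, hη⟩ : ∃ η : ℝ, 0 < η ∧ ENNReal.ofReal η + ENNReal.ofReal η ≤ ε := by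
    by_cases htop : ε = ⊤
    · exact ⟨1, one_pos, by simp [htop]⟩
    · have h0 : 0 < ε.toReal := ENNReal.toReal_pos hε.ne' htop
      refine ⟨ε.toReal / 2, by positivity, ?_⟩
      rw [← ENNReal.ofReal_add (by positivity) (by positivity), add_halves,
        ENNReal.ofReal_toReal htop]
  obtain ⟨t', ht'⟩ := exists_roots_small hC t (ENNReal.ofReal_pos.2 hη0)
  obtain ⟨q, hq⟩ := exists_annulus_small d t' hη0
  refine ⟨q + q + t' + t', ?_⟩
  have h1 : ρ {m | ∃ u ∈ ball d (q + q + t' + t' + t'), u ∉ ball d (q + q + t') ∧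
      net (q + q + t' + t') (sh u (fstM m))} ≤ ENNReal.ofReal η := by
    refine (annulus_prob_le hρ _ _ _).trans ?_
    have h2 := net_prob_le hρ (q + t')
    rw [show q + t' + (q + t') = q + q + t' + t' by omega] at h2
    have h3 : ((ball d (q + q + t' + t' + t') \ ball d (q + q + t')).card : ℝ≥0∞) ≤
        ENNReal.ofReal η * (ball d (q + t')).card := by
      have := ENNReal.ofReal_le_ofReal hq
      rwa [ENNReal.ofReal_mul hη0.le, ENNReal.ofReal_natCast, ENNReal.ofReal_natCast] at this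
    calc _ ≤ ENNReal.ofReal η * (ball d (q + t')).card *
          ρ {m | net (q + q + t' + t') (fstM m)} := by gcongr
      _ ≤ ENNReal.ofReal η * 1 := by rw [mul_assoc]; gcongr
      _ = _ := mul_one _
  refine le_trans ?_ ((add_le_add ht' h1).trans hη)
  refine le_trans (measure_mono_ae (hC.mono fun m hm hb => ?_)) (measure_union_le _ _)
  by_contra hc
  have hc1 : ∀ v ∈ ball d t, rtv C m v ∈ ball d t' := fun v hv => by
    by_contra h
    exact hc (Or.inl ⟨v, hv, h⟩)
  have hc2 : ∀ u ∈ ball d (q + q + t' + t' + t'), u ∉ ball d (q + q + t') →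
      ¬ net (q + q + t' + t') (sh u (fstM m)) := fun u hu hu' hn =>
    hc (Or.inr ⟨u, hu, hu', hn⟩)
  refine hb fun v hv => ?_
  rw [hm.mem_coarse]
  exact (np_const hm.1 hc2 (hc1 v hv)).trans (np_const hm.1 hc2 (hc1 0 (zero_mem_ball t))).symm

end prob

theorem exists_env (hd : 0 < d) (ρ : Measure (Mk d)) [IsProbabilityMeasure ρ] (hρ : Stat ρ)
    (hfree : ∀ᵐ m ∂ρ, Free (fstM m)) (C0 : Mk d → Finset (V d))
    (h0 : ∀ᵐ m ∂ρ, 0 ∈ C0 m ∧ (∀ v ∈ C0 m, ∀ w, w ∈ C0 (sh v m) ↔ w + v ∈ C0 m) ∧ LC C0 m) :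
    ∃ E : Env d, E.ρ = ρ ∧ ∀ m, E.C 0 m = C0 m := by
  have hgood : ∀ C : Mk d → Finset (V d), (∀ᵐ m ∂ρ, PartAt C m) → ∀ᵐ m ∂ρ, PGood C m :=
    fun C hC => hfree.and (hρ.ae_sh hC)
  have step : ∀ (n : ℕ) (C : {C : Mk d → Finset (V d) // ∀ᵐ m ∂ρ, PartAt C m}),
      ∃ C' : {C : Mk d → Finset (V d) // ∀ᵐ m ∂ρ, PartAt C m},
        (∀ᵐ m ∂ρ, C.1 m ⊆ C'.1 m) ∧ ρ {m | ¬ ball d n ⊆ C'.1 m} ≤ ((n : ℝ≥0∞) + 1)⁻¹ := by
    intro n C
    have hC := hgood C.1 C.2
    obtain ⟨r, hr⟩ := exists_coarse hρ hC n (ε := ((n : ℝ≥0∞) + 1)⁻¹) (by simp)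
    exact ⟨⟨coarse r C.1, hC.mono fun m hm => hm.partAt_coarse⟩,
      hC.mono fun m hm => hm.subset_coarse, hr⟩
  choose f hf1 hf2 using step
  let C : ℕ → {C : Mk d → Finset (V d) // ∀ᵐ m ∂ρ, PartAt C m} :=
    fun n => Nat.rec ⟨C0, h0⟩ f n
  have hsucc : ∀ n, C (n + 1) = f n (C n) := fun n => rfl
  have h1 : ∀ᵐ m ∂ρ, ∀ n, PartAt (C n).1 m := ae_all_iff.2 fun n => (C n).2
  have h2 : ∀ᵐ m ∂ρ, ∀ n, (C n).1 m ⊆ (C (n + 1)).1 m := ae_all_iff.2 fun n => hf1 n (C n)
  have h3 : ∀ᵐ m ∂ρ, ∀ v, ∃ n, v ∈ (C n).1 m := by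
    refine ae_all_iff.2 fun v => ?_
    obtain ⟨t, ht⟩ := exists_mem_ball v
    rw [ae_iff]
    have hle : ∀ n, t ≤ n → ρ {m | ¬ ∃ n, v ∈ (C n).1 m} ≤ ((n : ℝ≥0∞) + 1)⁻¹ := by
      intro n hn
      refine le_trans (measure_mono fun m hm => ?_) (hf2 n (C n))
      exact fun hb => hm ⟨n + 1, hb (ball_mono hn ht)⟩
    have hlim : Tendsto (fun n : ℕ => ((n : ℝ≥0∞) + 1)⁻¹) atTop (nhds 0) := by
      have := ENNReal.tendsto_inv_nat_nhds_zero.comp (tendsto_add_atTop_nat 1)
      refine this.congr fun n => ?_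
      simp
    exact le_antisymm (ge_of_tendsto hlim (eventually_atTop.2 ⟨t, hle⟩)) zero_le
  refine ⟨⟨ρ, inferInstance, hρ, fun n => (C n).1, ?_⟩, rfl, fun m => rfl⟩
  filter_upwards [h1, h2, h3] with m h1 h2 h3
  exact ⟨fun n => (h1 n).1, fun n => (h1 n).2.1, fun n => (h1 n).2.2, h2, h3⟩

end Pool.Agent.P.MP_1a5a6a_pr
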