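import Pool.Agent.P.MP_1a5a6a_pr.FI.Sch1
import Pool.Agent.P.MP_1a5a6a_pr.FI.LLN

set_option autoImplicit false
set_option linter.unusedSectionVars false
set_option warn.classDefReducibility false
open MeasureTheory ProbabilityTheory Filter Set
open scoped ENNReal Classical

namespace Pool.Agent.P.MP_1a5a6a_pr

variable {d : ℕ}

section general
variable {X : Type} [MeasurableSpace X]

/-- keep `γ` on its classes of mass at least `θ`, fall back to `α` elsewhere -/
def cutS (κ : Measure X) (θ : ℝ≥0∞) (α γ : Setoid X) : Setoid X where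
  r x y := α x y ∧ (θ ≤ κ (cls γ x) ∨ θ ≤ κ (cls γ y) → γ x y)
  iseqv :=
    ⟨fun x => ⟨α.refl x, fun _ => γ.refl x⟩,
     fun h => ⟨α.symm h.1, fun h' => γ.symm (h.2 h'.symm)⟩,
     fun {x y z} h h' => ⟨α.trans h.1 h'.1, fun hb => by
      rcases hb with hb | hb
      · have h1 := h.2 (Or.inl hb)
        exact γ.trans h1 (h'.2 (Or.inl (by rwa [← cls_eq_of_rel h1])))
      · have h1 := h'.2 (Or.inr hb)
        exact γ.trans (h.2 (Or.inr (by rwa [cls_eq_of_rel h1]))) h1⟩⟩

theorem cls_cutS {κ : Measure X} {θ : ℝ≥0∞} {α γ : Setoid X} (hle : ∀ x y, γ x y → α x y)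
    {x : X} (hx : θ ≤ κ (cls γ x)) : cls (cutS κ θ α γ) x = cls γ x := by
  ext y
  exact ⟨fun h => h.2 (Or.inr hx), fun h => ⟨hle _ _ h, fun _ => h⟩⟩

theorem card_big (κ : Measure X) [IsProbabilityMeasure κ] (γ : Setoid X)
    (hγ : ∀ x, MeasurableSet (cls γ x)) {θ : ℝ} (hθ : 0 < θ) (F : Finset (Quotient γ))
    (hF : ∀ c ∈ F, ENNReal.ofReal θ ≤ κ (cls γ c.out)) : (F.card : ℝ) ≤ 1 / θ := by
  have h1 : (F.card : ℝ≥0∞) * ENNReal.ofReal θ ≤ 1 := by
    calc (F.card : ℝ≥0∞) * ENNReal.ofReal θ = ∑ _c ∈ F, ENNReal.ofReal θ := by simp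
      _ ≤ ∑ c ∈ F, κ (cls γ c.out) := Finset.sum_le_sum hF
      _ = κ (⋃ c ∈ F, cls γ c.out) := by
          refine (measure_biUnion_finset ?_ fun c _ => hγ _).symm
          intro a _ b _ hab
          exact Set.disjoint_left.2 fun x ha hb =>
            hab ((mem_cls_out.1 ha).symm.trans (mem_cls_out.1 hb))
      _ ≤ 1 := prob_le_one
  rw [le_div_iff₀ hθ]
  have h2 := ENNReal.toReal_mono ENNReal.one_ne_top h1
  simpa [ENNReal.toReal_ofReal hθ.le] using h2

theorem card_cutS (κ : Measure X) [IsProbabilityMeasure κ] (α γ : Setoid X)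
    [Finite (Quotient α)] (hγ : ∀ x, MeasurableSet (cls γ x)) (hle : ∀ x y, γ x y → α x y)
    {θ : ℝ} (hθ : 0 < θ) :
    Finite (Quotient (cutS κ (ENNReal.ofReal θ) α γ)) ∧
      (Nat.card (Quotient (cutS κ (ENNReal.ofReal θ) α γ)) : ℝ) ≤
        1 / θ + Nat.card (Quotient α) := by
  set B := {c : Quotient γ | ENNReal.ofReal θ ≤ κ (cls γ c.out)} with hB
  have hBf : B.Finite := by
    by_contra h
    obtain ⟨F, hF, hc⟩ := Set.Infinite.exists_subset_card_eq h (⌊1 / θ⌋₊ + 1)
    have := card_big κ γ hγ hθ F fun c hc => hF hc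
    rw [hc] at this
    have h2 := Nat.lt_floor_add_one (1 / θ)
    push_cast at this
    linarith
  have hBc : (Nat.card B : ℝ) ≤ 1 / θ := by
    rw [Nat.card_coe_set_eq, Set.ncard_eq_toFinset_card _ hBf]
    exact card_big κ γ hγ hθ _ fun c hc => hBf.mem_toFinset.1 hc
  have := hBf.to_subtype
  let f : Quotient (cutS κ (ENNReal.ofReal θ) α γ) → B ⊕ Quotient α := fun c =>
    if h : ENNReal.ofReal θ ≤ κ (cls γ c.out) then
      Sum.inl ⟨Quotient.mk γ c.out, by simpa [hB, cls_out] using h⟩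
    else Sum.inr (Quotient.mk α c.out)
  have hf : Function.Injective f := by
    intro a b e
    rw [← Quotient.out_eq a, ← Quotient.out_eq b]
    apply Quotient.sound
    by_cases ha : ENNReal.ofReal θ ≤ κ (cls γ a.out) <;>
      by_cases hb : ENNReal.ofReal θ ≤ κ (cls γ b.out)
    · simp only [f, dif_pos ha, dif_pos hb, Sum.inl.injEq, Subtype.mk.injEq] at e
      have h1 : γ a.out b.out := Quotient.exact e
      exact ⟨hle _ _ h1, fun _ => h1⟩
    · simp [f, dif_pos ha, dif_neg hb] at e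
    · simp [f, dif_neg ha, dif_pos hb] at e
    · simp only [f, dif_neg ha, dif_neg hb, Sum.inr.injEq] at e
      exact ⟨Quotient.exact e, fun h => (h.elim ha hb).elim⟩
  refine ⟨Finite.of_injective f hf, ?_⟩
  have h3 := Nat.card_le_card_of_injective f hf
  rw [Nat.card_sum] at h3
  have h4 : (Nat.card (Quotient (cutS κ (ENNReal.ofReal θ) α γ)) : ℝ) ≤
      Nat.card B + Nat.card (Quotient α) := by exact_mod_cast h3
  linarith

end general

variable {E : Env d} {S : Type} [MeasurableSpace S] [Countable S] [MeasurableSingletonClass S]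

/-- threshold `exp (-a |C|)` -/
noncomputable def Env.thr (E : Env d) (N : ℕ) (a : ℝ) (m : Mk d) : ℝ≥0∞ :=
  ENNReal.ofReal (Real.exp (-(a * (E.C N m).card)))

noncomputable def Side.cut (s : Side E S) (N : ℕ) (a : ℝ) (α γ : Sch d S) : Sch d S := fun m =>
  cutS (s.κ N m) (E.thr N a m) (α m) (γ m)

theorem Env.Good.lc_thr {m : Mk d} (h : E.Good m) (N : ℕ) (a : ℝ) : LC (E.thr N a) m :=
  (h.lc N).post fun U => ENNReal.ofReal (Real.exp (-(a * U.card)))

theorem Side.pre_cut {s : Side E S} {N : ℕ} (a : ℝ) {α γ : Sch d S} (hα : s.Pre N α)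
    (hγ : s.Pre N γ) : s.Pre N (s.cut N a α γ) := by
  filter_upwards [hα, hγ, s.κlc, E.ae_good] with m h1 h2 h3 h4
  exact ⟨(((h3 N).pair (h4.lc_thr N a)).pair (h1.1.pair h2.1)).post
    fun p => cutS p.1.1 p.1.2 p.2.1 p.2.2, fun x y h => ⟨h1.2 x y h, fun _ => h2.2 x y h⟩⟩

theorem Side.card_cut {s : Side E S} {N : ℕ} (a : ℝ) {α γ : Sch d S} (hα : s.FinSch N α)
    (hγ : s.Pre N γ) (hle : ∀ᵐ m ∂E.ρ, ∀ x y, γ m x y → α m x y) :
    ∀ᵐ m ∂E.ρ, Finite (Quotient (s.cut N a α γ m)) ∧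
      (Nat.card (Quotient (s.cut N a α γ m)) : ℝ) ≤
        Real.exp (a * (E.C N m).card) + Nat.card (Quotient (α m)) := by
  filter_upwards [hα.2, hγ, hle] with m h1 h2 h3
  have := card_cutS (s.κ N m) (α m) (γ m) (measurableSet_cls h2.2) h3
    (Real.exp_pos (-(a * (E.C N m).card)))
  rwa [one_div, ← Real.exp_neg, neg_neg] at this

/-- local properties of sites -/
def Side.Loc (s : Side E S) (N : ℕ) (Q : Mk d → Cf d S → V d → Prop) : Prop :=
  ∀ᵐ m ∂E.ρ, LC Q m ∧ ∀ v, DependsOn (fun x => Q m x v) (s.R N m)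

theorem Side.Loc.nullMeasurableSet {s : Side E S} {N : ℕ} {Q : Mk d → Cf d S → V d → Prop}
    (h : s.Loc N Q) (v : V d) : NullMeasurableSet {x | Q (s.M x) x v} s.P :=
  s.nullMeasurableSet_pair (Q := fun m x => Q m x v) (h.mono fun _ hm =>
    ⟨hm.1.post fun q x => q x v, measurableSet_setOfPred.2 (measurable_of_dependsOn (hm.2 v))⟩)

theorem Side.Loc.den_eq {s : Side E S} {N : ℕ} {Q : Mk d → Cf d S → V d → Prop}
    (h : s.Loc N Q) : s.den N Q =
      ∫⁻ m, (if E.root N m then ∑ v ∈ E.C N m, s.κ N m {x | Q m x v} else 0) ∂E.ρ := by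
  have h1 := s.cond N (fun m x => if E.root N m then
    (((E.C N m).filter (Q m x)).card : ℝ≥0∞) else 0) (by
      filter_upwards [h, E.ae_good] with m hm hg
      have hd : DependsOn (fun x => if E.root N m then
          (((E.C N m).filter (Q m x)).card : ℝ≥0∞) else 0) (inn s.k (E.C N m)) := by
        intro x y hxy
        have : Q m x = Q m y := funext fun v => hm.2 v hxy
        simp only [this]
      exact ⟨(((hg.lc_root N).pair (hg.lc N)).pair hm.1).post fun p x =>
        if p.1.1 then ((p.1.2.filter (p.2 x)).card : ℝ≥0∞) else 0,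
        measurable_of_dependsOn hd, hd⟩)
  refine h1.trans (lintegral_congr_ae (h.mono fun m hm => ?_))
  by_cases hr : E.root N m
  · simp only [hr, if_true]
    have hms : ∀ v, MeasurableSet {x | Q m x v} := fun v =>
      measurableSet_setOfPred.2 (measurable_of_dependsOn (hm.2 v))
    simp_rw [← lintegral_indicator_one (hms _)]
    rw [← lintegral_finsetSum _ fun v _ => measurable_one.indicator (hms v)]
    refine lintegral_congr fun x => ?_
    simp [indicator_apply]
  · simp [hr]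

theorem tendsto_zero_of_le {f g : ℕ → ℝ≥0∞} (h : ∀ᶠ n in atTop, f n ≤ g n)
    (hg : Tendsto g atTop (nhds 0)) : Tendsto f atTop (nhds 0) :=
  tendsto_of_tendsto_of_tendsto_of_le_of_le' tendsto_const_nhds hg
    (Eventually.of_forall fun _ => bot_le) h

/-- weak law of large numbers over cells -/
theorem Side.den_lln (hd : 0 < d) (s : Side E S) (F : Cf d S → ℝ) (hF : Integrable F s.P)
    (hlc : ∀ᵐ x ∂s.P, LC F x) {δ : ℝ} (hδ : 0 < δ) :
    Tendsto (fun N => s.den N fun m x _ => δ * (E.C N m).card ≤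
      |∑ v ∈ E.C N m, F (sh v x) - (E.C N m).card * ∫ y, F y ∂s.P|) atTop (nhds 0) := by
  have h := ENNReal.Tendsto.const_mul (a := ENNReal.ofReal (1 / δ)) (s.lln hd F hF hlc)
    (Or.inr ENNReal.ofReal_ne_top)
  rw [mul_zero] at h
  refine tendsto_zero_of_le (Eventually.of_forall fun N => ?_) h
  rw [← lintegral_const_mul' _ _ ENNReal.ofReal_ne_top]
  refine lintegral_mono fun x => ?_
  by_cases hr : E.root N (s.M x)
  · simp only [hr, if_true]
    by_cases hq : δ * (E.C N (s.M x)).card ≤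
      |∑ v ∈ E.C N (s.M x), F (sh v x) - (E.C N (s.M x)).card * ∫ y, F y ∂s.P|
    · rw [Finset.filter_true_of_mem fun _ _ => hq, ← ENNReal.ofReal_mul (by positivity),
        ← ENNReal.ofReal_natCast]
      apply ENNReal.ofReal_le_ofReal
      rw [one_div, ← div_eq_inv_mul, le_div_iff₀ hδ]
      linarith
    · rw [Finset.filter_false_of_mem fun _ _ => hq]; simp
  · simp [hr]

theorem integrable_of_ofReal {X : Type} [MeasurableSpace X] {μ : Measure X} {F : X → ℝ}
    (hm : AEMeasurable F μ) (h0 : ∀ x, 0 ≤ F x) {c : ℝ≥0∞} (hc : c ≠ ⊤)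
    (h : ∫⁻ x, ENNReal.ofReal (F x) ∂μ = c) : Integrable F μ ∧ ∫ x, F x ∂μ = c.toReal := by
  refine ⟨(lintegral_ofReal_ne_top_iff_integrable hm.aestronglyMeasurable
    (Eventually.of_forall h0)).1 (h ▸ hc), ?_⟩
  rw [integral_eq_lintegral_of_nonneg_ae (Eventually.of_forall h0) hm.aestronglyMeasurable, h]

/-- information of a lifted scheme concentrates -/
theorem Side.Pre.den_info (hd : 0 < d) {s : Side E S} {j : ℕ} {γ : Sch d S} (h : s.Pre j γ)
    (hfin : s.ent j γ ≠ ⊤) {δ : ℝ} (hδ : 0 < δ) :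
    Tendsto (fun N => s.den N fun m x _ => δ * (E.C N m).card ≤
      |s.info N (E.lift j N γ) x - (E.C N m).card * (s.ent j γ).toReal|) atTop (nhds 0) := by
  let F : Cf d S → ℝ := fun x => if E.root j (s.M x) then s.info j γ x else 0
  have hlc : ∀ᵐ x ∂s.P, LC F x := (h.lc_info.and
    (s.lc_M (E.ae_good.mono fun _ hm => hm.lc_root j))).mono fun _ hx =>
      (hx.2.pair hx.1).post fun p => if p.1 then p.2 else 0
  have hF := integrable_of_ofReal (aemeasurable_of_lc hlc) (fun x => by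
    simp only [F]; split_ifs; exacts [s.info_nonneg _ _ _, le_rfl]) hfin (by
      refine lintegral_congr fun x => ?_
      simp only [F]; split_ifs <;> simp)
  refine tendsto_zero_of_le ?_ (s.den_lln hd F hF.1 hlc hδ)
  filter_upwards [eventually_ge_atTop j] with N hN
  refine s.den_mono N ((h.info_lift hN).mono fun x hx _ _ _ hq => ?_)
  rwa [hF.2, ← hx]

theorem Side.Pre.den_small (hd : 0 < d) {s : Side E S} {j : ℕ} {γ : Sch d S} (h : s.Pre j γ)
    (hfin : s.ent j γ ≠ ⊤) {b : ℝ} (hb : (s.ent j γ).toReal < b) :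
    Tendsto (fun N => s.den N fun m x _ =>
      ¬ E.thr N b m ≤ s.κ N m (cls (E.lift j N γ m) x)) atTop (nhds 0) := by
  refine tendsto_zero_of_le ?_ (h.den_info hd hfin (sub_pos.2 hb))
  filter_upwards [eventually_ge_atTop j] with N hN
  refine s.den_mono N ((h.lift hN).ae_pos.mono fun x hx _ _ _ hq => ?_)
  have h0 := hx 0
  simp only [sh_zero] at h0
  refine le_trans ?_ (le_abs_self _)
  rw [not_le, Env.thr, ← ENNReal.ofReal_toReal (measure_ne_top _ _),
    ENNReal.ofReal_lt_ofReal_iff (Real.exp_pos _)] at hq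
  have := (Real.log_lt_iff_lt_exp h0).2 hq
  simp only [Side.info]
  linarith

theorem Side.Pre.den_large (hd : 0 < d) {s : Side E S} {j : ℕ} {γ : Sch d S} (h : s.Pre j γ)
    (hfin : s.ent j γ ≠ ⊤) {a : ℝ} (ha : a < (s.ent j γ).toReal) :
    Tendsto (fun N => s.den N fun m x _ =>
      ¬ s.κ N m (cls (E.lift j N γ m) x) ≤ E.thr N a m) atTop (nhds 0) := by
  refine tendsto_zero_of_le (Eventually.of_forall fun N => ?_) (h.den_info hd hfin (sub_pos.2 ha))
  refine s.den_mono N (Eventually.of_forall fun x _ _ _ hq => ?_)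
  rw [abs_sub_comm]
  refine le_trans ?_ (le_abs_self _)
  rw [not_le, Env.thr, ← ENNReal.ofReal_toReal (measure_ne_top _ _),
    ENNReal.ofReal_lt_ofReal_iff_of_nonneg (Real.exp_pos _).le] at hq
  have := (Real.lt_log_iff_exp_lt ((Real.exp_pos _).trans hq)).2 hq
  simp only [Side.info, Measure.real]
  linarith

/-- per-site logarithm of the number of classes -/
noncomputable def Env.lcard (E : Env d) (n : ℕ) (α : Sch d S) (m : Mk d) : ℝ :=
  if E.root n m then Real.log (Nat.card (Quotient (α m))) else 0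

theorem Side.FinSch.lcard {s : Side E S} {n : ℕ} {α : Sch d S} (h : s.FinSch n α)
    (hfin : E.cnt n α ≠ ⊤) :
    (∀ᵐ x ∂s.P, LC (fun x => E.lcard n α (s.M x)) x) ∧
    Integrable (fun x => E.lcard n α (s.M x)) s.P ∧
    ∫ x, E.lcard n α (s.M x) ∂s.P = (E.cnt n α).toReal := by
  have h1 : ∀ᵐ m ∂E.ρ, LC (E.lcard n α) m := (E.ae_good.and h.1).mono fun m hm =>
    ((hm.1.lc_root n).pair hm.2.1).post fun p =>
      if p.1 then Real.log (Nat.card (Quotient p.2)) else 0
  refine ⟨s.lc_M h1, integrable_of_ofReal (s.aemeasurable_M h1) (fun x => ?_) hfin ?_⟩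
  · unfold Env.lcard; split_ifs; exacts [Real.log_natCast_nonneg _, le_rfl]
  · rw [s.lintegral_M (f := fun m => ENNReal.ofReal (E.lcard n α m))
      (aemeasurable_of_lc (h1.mono fun _ hm => hm.post _))]
    refine lintegral_congr fun m => ?_
    unfold Env.lcard; split_ifs <;> simp

theorem Side.FinSch.log_card_lift {s : Side E S} {n : ℕ} {α : Sch d S} (h : s.FinSch n α)
    (N : ℕ) : ∀ᵐ m ∂E.ρ, 0 < (Nat.card (Quotient (E.lift n N α m)) : ℝ) ∧
      Real.log (Nat.card (Quotient (E.lift n N α m))) ≤ ∑ v ∈ E.C N m, E.lcard n α (sh v m) := by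
  have hne : ∀ β : Setoid (Cf d S), Nonempty (Quotient β) := fun β =>
    (nonempty_of_isProbabilityMeasure s.P).map (Quotient.mk β)
  filter_upwards [E.card_lift_le n N h.2, E.ae_sh h.2] with m hm hfin
  have := hm.1
  have hpos : ∀ z, (0 : ℝ) < Nat.card (Quotient (α (sh z m))) := fun z => by
    have := hfin z
    exact_mod_cast Nat.card_pos
  refine ⟨by exact_mod_cast Nat.card_pos, ?_⟩
  unfold Env.lcard
  rw [← E.sum_ch n N m (fun z => Real.log (Nat.card (Quotient (α (sh z m))))),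
    ← Real.log_prod (fun z _ => (hpos z).ne')]
  apply Real.log_le_log (by exact_mod_cast Nat.card_pos)
  exact_mod_cast hm.2

/-- the number of old classes is rarely above budget; measured on any side `t` -/
theorem Side.FinSch.den_card (hd : 0 < d) {s : Side E S} {n : ℕ} {α : Sch d S}
    (h : s.FinSch n α) (hfin : E.cnt n α ≠ ⊤) {b : ℝ} (hb : (E.cnt n α).toReal < b) :
    Tendsto (fun N => s.den N fun m _ _ =>
      ¬ (Nat.card (Quotient (E.lift n N α m)) : ℝ) ≤ Real.exp (b * (E.C N m).card))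
      atTop (nhds 0) := by
  obtain ⟨h1, h2, h3⟩ := h.lcard hfin
  refine tendsto_zero_of_le (Eventually.of_forall fun N => ?_)
    (s.den_lln hd _ h2 h1 (sub_pos.2 hb))
  refine s.den_mono N ((s.ae_M (h.log_card_lift N)).mono fun x hx _ _ _ hq => ?_)
  refine le_trans ?_ (le_abs_self _)
  have := (Real.lt_log_iff_exp_lt hx.1).2 (not_le.1 hq)
  simp only [h3, s.equiv]
  linarith [hx.2]

theorem Side.eventually_cnt_cut (hd : 0 < d) {s : Side E S} {n j : ℕ} {α γ : Sch d S}
    (hnj : n ≤ j) (hα : s.FinSch n α) (hγ : s.Pre j γ)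
    (hle : ∀ᵐ m ∂E.ρ, ∀ x y, γ m x y → E.lift n j α m x y) {a : ℝ} (ha0 : 0 ≤ a)
    (ha : E.cnt n α ≤ ENNReal.ofReal a) {g : ℝ≥0∞} (hg : ENNReal.ofReal a < g) :
    ∀ᶠ N in atTop, (∀ᵐ m ∂E.ρ, ∀ x y, E.lift j N γ m x y → E.lift n N α m x y) ∧
      E.cnt N (s.cut N a (E.lift n N α) (E.lift j N γ)) < g := by
  have hfin : E.cnt n α ≠ ⊤ := ne_top_of_le_ne_top ENNReal.ofReal_ne_top ha
  obtain ⟨h1, h2, h3⟩ := hα.lcard hfin
  have ha' : (E.cnt n α).toReal ≤ a := ENNReal.toReal_le_of_le_ofReal ha0 ha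
  have t1 := s.lln hd _ h2 h1
  have t2 := ENNReal.Tendsto.const_mul (a := ENNReal.ofReal (Real.log 2)) (E.tendsto_root hd)
    (Or.inr ENNReal.ofReal_ne_top)
  have t3 := (t2.add t1).const_add (ENNReal.ofReal a)
  simp only [mul_zero, add_zero] at t3
  filter_upwards [t3.eventually (gt_mem_nhds hg), eventually_ge_atTop j] with N hN hjN
  have hle' : ∀ᵐ m ∂E.ρ, ∀ x y, E.lift j N γ m x y → E.lift n N α m x y := by
    filter_upwards [E.ae_sh hle, E.lift_lift hnj hjN α] with m hm he x y hxy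
    rw [← he]
    exact fun z hz => hm z _ _ (hxy z hz)
  refine ⟨hle', lt_of_le_of_lt ?_ hN⟩
  have hP := s.pre_cut a (hα.1.lift (hnj.trans hjN)) (hγ.lift hjN)
  have hroot : NullMeasurableSet {m | E.root N m} E.ρ :=
    nullMeasurableSet_of_lc (E.ae_good.mono fun m hm => hm.lc_root N)
  have e1 : ENNReal.ofReal a = ∫⁻ x, ENNReal.ofReal a *
      (if E.root N (s.M x) then ((E.C N (s.M x)).card : ℝ≥0∞) else 0) ∂s.P := by
    rw [lintegral_const_mul' _ _ ENNReal.ofReal_ne_top, s.root_card, mul_one]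
  have m2 : AEMeasurable (fun m => {m | E.root N m}.indicator
      (fun _ => ENNReal.ofReal (Real.log 2)) m) E.ρ := aemeasurable_const.indicator₀ hroot
  have e2 : ENNReal.ofReal (Real.log 2) * E.ρ {m | E.root N m} = ∫⁻ x, {m | E.root N m}.indicator
      (fun _ => ENNReal.ofReal (Real.log 2)) (s.M x) ∂s.P := by
    rw [s.lintegral_M m2, lintegral_indicator_const₀ hroot]
  have m1 : AEMeasurable (fun x => ENNReal.ofReal a *
      (if E.root N (s.M x) then ((E.C N (s.M x)).card : ℝ≥0∞) else 0)) s.P :=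
    s.aemeasurable_M (f := fun m => ENNReal.ofReal a *
      (if E.root N m then ((E.C N m).card : ℝ≥0∞) else 0)) (E.ae_good.mono fun m hm =>
        ((hm.lc_root N).pair (hm.lc N)).post fun p =>
          ENNReal.ofReal a * (if p.1 then (p.2.card : ℝ≥0∞) else 0))
  have m3 : AEMeasurable (fun x => {m | E.root N m}.indicator
      (fun _ => ENNReal.ofReal (Real.log 2)) (s.M x)) s.P :=
    m2.comp_quasiMeasurePreserving s.mp.quasiMeasurePreserving
  rw [e1, e2, ← lintegral_add_left' m3,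
    ← lintegral_add_left' m1, Env.cnt, ← s.lintegral_M (aemeasurable_of_lc
      ((E.ae_good.and hP).mono fun m hm => ((hm.1.lc_root N).pair hm.2.1).post fun p =>
        if p.1 then ENNReal.ofReal (Real.log (Nat.card (Quotient p.2))) else 0))]
  refine lintegral_mono_ae ?_
  filter_upwards [s.ae_M (s.card_cut a (hα.lift (hnj.trans hjN)) (hγ.lift hjN) hle'),
    s.ae_M (hα.log_card_lift N)] with x hc hl
  by_cases hr : E.root N (s.M x)
  swap
  · simp [hr]
  simp only [hr, if_true, indicator_of_mem (show s.M x ∈ {m | E.root N m} from hr)]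
  rw [← ENNReal.ofReal_natCast, ← ENNReal.ofReal_mul ha0,
    ← ENNReal.ofReal_add (Real.log_nonneg one_le_two) (abs_nonneg _),
    ← ENNReal.ofReal_add (mul_nonneg ha0 (Nat.cast_nonneg _))
      (add_nonneg (Real.log_nonneg one_le_two) (abs_nonneg _))]
  apply ENNReal.ofReal_le_ofReal
  set c : ℝ := ((E.C N (s.M x)).card : ℝ) with hcdef
  have hc0 : 0 ≤ c := Nat.cast_nonneg _
  set T := |∑ v ∈ E.C N (s.M x), E.lcard n α (s.M (sh v x)) -
    c * ∫ y, E.lcard n α (s.M y) ∂s.P| with hT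
  have hT0 : 0 ≤ T := abs_nonneg _
  have hL : Real.log (Nat.card (Quotient (E.lift n N α (s.M x)))) ≤ a * c + T := by
    have h4 := le_abs_self (∑ v ∈ E.C N (s.M x), E.lcard n α (s.M (sh v x)) -
      c * ∫ y, E.lcard n α (s.M y) ∂s.P)
    rw [← hT, h3] at h4
    have h5 := hl.2
    simp only [← s.equiv] at h5
    nlinarith
  have hL' : (Nat.card (Quotient (E.lift n N α (s.M x))) : ℝ) ≤ Real.exp (a * c + T) :=
    (Real.log_le_iff_le_exp hl.1).1 hL
  have h6 : Real.exp (a * c) ≤ Real.exp (a * c + T) := Real.exp_le_exp.2 (by linarith)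
  rcases Nat.eq_zero_or_pos (Nat.card (Quotient
    (s.cut N a (E.lift n N α) (E.lift j N γ) (s.M x)))) with h0 | h0
  · rw [h0, Nat.cast_zero, Real.log_zero]
    exact add_nonneg (mul_nonneg ha0 hc0) (add_nonneg (Real.log_nonneg one_le_two) hT0)
  · rw [Real.log_le_iff_le_exp (by exact_mod_cast h0),
      show a * c + (Real.log 2 + T) = Real.log 2 + (a * c + T) by ring, Real.exp_add,
      Real.exp_log two_pos]
    linarith [hc.2]

end Pool.Agent.P.MP_1a5a6a_pr
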