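import Pool.Agent.P.MP_1a5a6a_pr.FI.Net
import Pool.Agent.P.MP_1a5a6a_pr.FI.Dep

set_option autoImplicit false
set_option linter.unusedSectionVars false
open MeasureTheory ProbabilityTheory Filter Set
open scoped ENNReal Classical

namespace Pool.Agent.P.MP_1a5a6a_pr

variable {d : ℕ}

section TILE
variable {a : ℕ}

theorem GG_sh (v : V d) (δ : Cf d Bool) : GG a (sh v δ) = sh v (GG a δ) := by
  funext j
  simp [GG, add_assoc]

theorem M0_sh (v : V d) (δ : Cf d Bool) : M0 a (sh v δ) = sh v (M0 a δ) := by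
  funext j
  simp [M0, GG_sh, sh_sh]

theorem fstM_M0 (δ : Cf d Bool) : fstM (M0 a δ) = GG a δ := rfl

theorem lc_GG (j : V d) (δ : Cf d Bool) : LC (fun y => GG a y j) δ :=
  (lc_finset (f := fun w (y : Cf d Bool) => y (w + j)) (ball d (2 * a))
    (fun w _ => lc_apply (w + j) δ)).mono fun y hy => by
      simp only [GG, decide_eq_decide]
      exact forall₂_congr fun w hw => by rw [hy w hw]

theorem tendsto_GG (δ : Cf d Bool) : Tendsto (GG a) (nb δ) (nb (GG a δ)) :=
  tendsto_nb.2 fun j => lc_GG j δ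

theorem measurable_GG : Measurable (GG a : Cf d Bool → Cf d Bool) :=
  measurable_pi_lambda _ fun j => measurable_of_lc (lc_GG j)

theorem measurable_M0 : Measurable (M0 a : Cf d Bool → Mk d) := by
  refine measurable_pi_lambda _ fun v => Measurable.prodMk
    ((measurable_pi_apply v).comp measurable_GG) (measurable_to_bool ?_)
  have : (fun δ : Cf d Bool => decide (net (2 * a) (sh v (GG a δ)) ∧ δ v = true)) ⁻¹' {true} =
      (fun δ => sh v (GG a δ)) ⁻¹' {g | net (2 * a) g} ∩ (fun δ => δ v) ⁻¹' {true} := by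
    ext δ; simp
  rw [this]
  exact (((measurable_sh v).comp measurable_GG) (measurableSet_net _)).inter
    (measurable_pi_apply v (measurableSet_singleton _))

theorem tendsto_M0 {δ : Cf d Bool} (h : Free (GG a δ)) :
    Tendsto (M0 a) (nb δ) (nb (M0 a δ)) := by
  refine tendsto_nb.2 fun v => ?_
  have h1 : LC (fun y => net (2 * a) (sh v (GG a y))) δ :=
    ((lc_net (2 * a) (h.shift v)).comp_sh).comp (tendsto_GG δ)
  filter_upwards [h1, lc_GG (a := a) v δ, lc_apply v δ] with y e1 e2 e3
  simp only [M0, e1, e2, e3]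

theorem ev_M0 (δ : Cf d Bool) (U : Set (V d)) : Ev a (M0 a δ) U δ := by
  intro v _
  rw [← M0_sh]
  refine ⟨fun h => ?_, fun _ => rfl⟩
  rw [fstM_M0] at h
  simp [M0, h]

theorem glue.symm {m : Mk d} {v w : V d} (h : glue a m v w) : glue a m w v := Or.symm h

theorem Adm.compl {m : Mk d} {U : Set (V d)} (h : Adm a m U) : Adm a m Uᶜ :=
  fun v w hvw hv hw => hv (h w v hvw.symm hw)

theorem own_mem {g : Cf d Bool} (h : (netB (2 * a) (2 * a) g).Nonempty) :
    own a g ∈ ball d (2 * a) ∧ net (2 * a) (sh (own a g) g) := by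
  unfold own
  split_ifs with h1
  · obtain ⟨h2, h3⟩ := mem_netB.1 (lexmin_mem h1)
    exact ⟨ball_mono (by omega) h2, h3⟩
  · exact mem_netB.1 (lexmin_mem h)

theorem own_eq {g : Cf d Bool} {v w : V d} (h : net (2 * a) (sh v g)) (hw : w ∈ ball d a) :
    (netB (2 * a) (2 * a) (sh (v + w) g)).Nonempty ∧ own a (sh (v + w) g) = -w := by
  have e : sh (-w) (sh (v + w) g) = sh v g := by rw [sh_sh]; congr 1; abel
  have h1 : -w ∈ netB (2 * a) a (sh (v + w) g) := mem_netB.2 ⟨neg_mem_ball hw, by rwa [e]⟩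
  refine ⟨⟨-w, mem_netB.2 ⟨ball_mono (by omega) (neg_mem_ball hw), by rwa [e]⟩⟩, ?_⟩
  have hne : (netB (2 * a) a (sh (v + w) g)).Nonempty := ⟨_, h1⟩
  rw [own, if_pos hne]
  obtain ⟨h2, h3⟩ := mem_netB.1 (lexmin_mem hne)
  set u := lexmin (netB (2 * a) a (sh (v + w) g))
  have h4 : net (2 * a) (sh (u + w) (sh v g)) := by
    rw [sh_sh] at h3 ⊢
    convert h3 using 2
    abel
  have := net_sep h h4 (by rw [two_mul]; exact add_mem_ball h2 hw)
  exact eq_neg_of_add_eq_zero_left this

theorem glue_of_net {m : Mk d} {v w : V d} (h : net (2 * a) (sh v (fstM m))) (hw : w ∈ ball d a) :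
    glue a m v (v + w) := by
  obtain ⟨h1, h2⟩ := own_eq h hw
  exact Or.inr (Or.inl ⟨h1, by rw [h2]; abel⟩)

/-- the event `Ev a m U` only looks at sites whose `a`-ball lies in `U` -/
theorem Adm.ev_congr {m : Mk d} {U : Set (V d)} (h : Adm a m U) {δ δ' : Cf d Bool}
    (he : ∀ u, (∀ w ∈ ball d a, u + w ∈ U) → δ' u = δ u) (hδ : Ev a m U δ) : Ev a m U δ' := by
  intro v hv
  obtain ⟨h1, h2⟩ := hδ v hv
  refine ⟨fun hn => ?_, fun hb => ?_⟩
  · rw [← h1 hn]
    simp only [sh_apply, zero_add]
    exact he v fun w hw => h _ _ (glue_of_net hn hw) hv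
  · rw [← h2 hb]
    simp only [GG, sh_apply, add_zero, decide_eq_decide]
    refine forall₂_congr fun w hw => ?_
    rw [he (w + v)]
    intro w' hw'
    refine h v _ (Or.inl (Or.inr ⟨hb, ?_⟩)) hv
    rw [show w + v + w' - v = w + w' by abel, show 3 * a = 2 * a + a by ring]
    exact add_mem_ball hw hw'

theorem M0_eq_of_ev {δ δ' : Cf d Bool} (h : Ev a (M0 a δ) univ δ') : M0 a δ' = M0 a δ := by
  have hn : ∀ u, net (2 * a) (sh u (GG a δ)) → δ' u = δ u := by
    intro u hu
    have := (h u (mem_univ _)).1 hu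
    simp only [sh_apply, zero_add, M0, hu, true_and, Bool.decide_eq_true] at this
    exact this
  have hG : GG a δ' = GG a δ := by
    funext j
    by_cases hb : bad a (sh j (M0 a δ))
    · have := (h j (mem_univ _)).2 hb
      rw [GG_sh] at this
      simpa [M0] using this
    · simp only [bad, not_not] at hb
      obtain ⟨h1, h2⟩ := hb
      rw [fstM_sh, fstM_M0] at h1 h2
      obtain ⟨h3, h4⟩ := own_mem h1
      rw [sh_sh] at h4
      have h5 := hn _ h4
      simp only [sh_apply, M0, h4, true_and, Bool.decide_eq_true] at h2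
      rw [h2] at h5
      have e1 : GG a δ' j = false := by
        simp only [GG, decide_eq_false_iff_not, not_forall]
        exact ⟨_, h3, by simp [h5]⟩
      have e2 : GG a δ j = false := by
        simp only [GG, decide_eq_false_iff_not, not_forall]
        exact ⟨_, h3, by simpa using h2⟩
      rw [e1, e2]
  funext v
  simp only [M0, hG, Prod.mk.injEq, true_and, decide_eq_decide]
  exact and_congr_right fun hv => by rw [hn v hv]

theorem measurableSet_ev (m : Mk d) (U : Set (V d)) : MeasurableSet {δ | Ev a m U δ} := by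
  have : {δ | Ev a m U δ} = ⋂ v ∈ U, {δ | Ev0 a (sh v m) (sh v δ)} := by
    ext δ; simp [Ev]
  rw [this]
  refine MeasurableSet.biInter U.to_countable fun v _ => ?_
  have h : ∀ δ : Cf d Bool, LC (Ev0 a (sh v m)) δ := fun δ => by
    filter_upwards [lc_apply 0 δ, lc_GG (a := a) 0 δ] with y e1 e2
    simp only [Ev0, e1, e2]
  exact measurable_sh v (measurable_of_lc h).setOf

theorem lc_own {g : Cf d Bool} (h : Free g) : LC (own a) g := by
  filter_upwards [lc_netB (2 * a) a h, lc_netB (2 * a) (2 * a) h] with y e1 e2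
  simp only [own, e1, e2]

theorem lc_bad {m : Mk d} (h : Free (fstM m)) : LC (bad a) m := by
  have h1 := (lc_netB (2 * a) (2 * a) h).comp (tendsto_fstM m)
  have h2 := (lc_own (a := a) h).comp (tendsto_fstM m)
  filter_upwards [h1, h2, lc_apply (own a (fstM m)) m] with y e1 e2 e3
  simp only [bad, e1, e2, e3]

theorem lc_Ev0 {m : Mk d} (h : Free (fstM m)) : LC (Ev0 a) m := by
  have h1 := (lc_net (2 * a) h).comp (tendsto_fstM m)
  filter_upwards [h1, lc_bad (a := a) h, lc_apply 0 m] with y e1 e2 e3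
  funext δ
  simp only [Ev0, e1, e2, e3]

theorem Sparse.half {δ : Measure (Cf d Bool)} (h : Sparse a δ) {r : ℕ} (hr : r ≤ 20 * a) :
    ((ball d r).card : ℝ≥0∞) * δ {x | x 0 = true} < 1 := by
  refine lt_of_le_of_lt (le_trans ?_ h.small) (by norm_num)
  gcongr
  exact ball_mono hr

theorem Sparse.ae_free {δ : Measure (Cf d Bool)} (h : Sparse a δ) :
    ∀ᵐ x ∂δ, Free (GG a x) := by
  have := h.prob
  have hf : Measurable fun x : Cf d Bool => GG a x 0 := measurable_of_lc (lc_GG 0)
  have e : (fun (x : Cf d Bool) (u : V d) => GG a (sh u x) 0) = GG a := by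
    funext x u; simp [GG_sh]
  have hs := h.stat.block hf
  have hk := h.dep.block (l := 2 * a) hf (by
    intro x y hxy
    simp only [GG, decide_eq_decide]
    exact forall₂_congr fun w hw => by rw [add_zero, hxy w hw])
  rw [e] at hs hk
  have : IsProbabilityMeasure (δ.map (GG a)) :=
    Measure.isProbabilityMeasure_map measurable_GG.aemeasurable
  have hm : δ.map (GG a) {x | x 0 = true} = δ {x | ∀ w ∈ ball d (2 * a), x w = true} := by
    rw [Measure.map_apply measurable_GG
      (show MeasurableSet {x : Cf d Bool | x 0 = true} from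
        measurableSet_eq_fun (measurable_pi_apply 0) measurable_const)]
    congr 1
    ext x
    simp [GG]
  refine ae_of_ae_map measurable_GG.aemeasurable
    (_root_.Pool.Agent.P.MP_1a5a6a_pr.ae_free hs hk (by rw [hm]; exact h.pos) ?_)
  rw [hm]
  refine ne_of_lt (lt_of_le_of_lt ?_ (h.half (r := 0) (Nat.zero_le _)))
  rw [card_ball]
  simp only [mul_zero, zero_add, one_pow, Nat.cast_one, one_mul]
  exact measure_mono fun x hx => hx 0 (zero_mem_ball _)

/-- absolute position of the owner of `v` -/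
noncomputable def ownAt (a : ℕ) (g : Cf d Bool) (v : V d) : V d := v + own a (sh v g)

theorem ownAt_spec {g : Cf d Bool} (h : Free g) (v : V d) :
    ownAt a g v - v ∈ ball d (2 * a) ∧ net (2 * a) (sh (ownAt a g v) g) := by
  obtain ⟨h1, h2⟩ := own_mem (net_cover (2 * a) (h.shift v))
  refine ⟨by simpa [ownAt] using h1, ?_⟩
  rwa [sh_sh, add_comm] at h2

theorem ownAt_net {g : Cf d Bool} {v : V d} (h : net (2 * a) (sh v g)) : ownAt a g v = v := by
  have := (own_eq h (zero_mem_ball a)).2
  rw [add_zero] at this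
  simp [ownAt, this]

theorem bad_iff {m : Mk d} (h : Free (fstM m)) (v : V d) :
    bad a (sh v m) ↔ (m (ownAt a (fstM m) v)).2 = true := by
  have := net_cover (2 * a) (h.shift v)
  simp [bad, fstM_sh, this, ownAt, add_comm]

theorem bad_M0 {x : Cf d Bool} (h : Free (GG a x)) (v : V d) :
    bad a (sh v (M0 a x)) ↔ x (ownAt a (GG a x) v) = true := by
  rw [bad_iff (m := M0 a x) h, fstM_M0]
  simp [M0, (ownAt_spec h v).2]

theorem tile_inv {x : Cf d Bool} (h : Free (GG a x)) {w : V d} (hw : w ∈ tile a (M0 a x)) :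
    ownAt a (GG a x) w = ownAt a (GG a x) 0 ∨
      ∃ u0 ∈ ball d (9 * a), x u0 = true ∧ ∃ u, u - ownAt a (GG a x) w ∈ ball d (7 * a) ∧
        Relation.ReflTransGen (fun p q : V d => q - p ∈ ball d (14 * a) ∧ x q = true) u0 u := by
  have near : ∀ v w : V d, w - v ∈ ball d (3 * a) →
      ownAt a (GG a x) w - ownAt a (GG a x) v ∈ ball d (7 * a) := by
    intro v w hvw
    have := sub_mem_ball (add_mem_ball (ownAt_spec (a := a) h w).1 hvw) (ownAt_spec (a := a) h v).1
    rw [show 2 * a + 3 * a + 2 * a = 7 * a by ring] at this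
    convert this using 1
    abel
  have h0 : ownAt a (GG a x) 0 ∈ ball d (2 * a) := by simpa using (ownAt_spec (a := a) h 0).1
  induction hw with
  | refl => exact Or.inl rfl
  | @tail w w' _ hg ih =>
    rcases hg with (⟨-, e⟩ | ⟨hb, e⟩) | (⟨-, e⟩ | ⟨hb, e⟩)
    · have e' : w' = ownAt a (GG a x) w := e
      have : ownAt a (GG a x) w' = ownAt a (GG a x) w := by
        rw [e']; exact ownAt_net (ownAt_spec h w).2
      rwa [this]
    · rw [bad_M0 h] at hb
      have h1 := neg_mem_ball (near w w' e)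
      rw [neg_sub] at h1
      right
      rcases ih with ih | ⟨u0, a1, a2, u, a3, a4⟩
      · exact ⟨_, by rw [ih]; exact ball_mono (by omega) h0, hb, _, h1,
          Relation.ReflTransGen.refl⟩
      · refine ⟨u0, a1, a2, _, h1, a4.tail ⟨?_, hb⟩⟩
        have := neg_mem_ball a3
        rw [neg_sub] at this
        exact ball_mono (by omega) this
    · have e' : w = ownAt a (GG a x) w' := e
      have : ownAt a (GG a x) w = ownAt a (GG a x) w' := by
        rw [e']; exact ownAt_net (ownAt_spec h w').2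
      rwa [← this]
    · rw [bad_M0 h] at hb
      have h1 := neg_mem_ball (near w' w e)
      rw [neg_sub] at h1
      right
      rcases ih with ih | ⟨u0, a1, a2, u, a3, a4⟩
      · refine ⟨_, ?_, hb, _, by simpa using zero_mem_ball _, Relation.ReflTransGen.refl⟩
        have := add_mem_ball h1 h0
        rw [ih, sub_add_cancel, show 7 * a + 2 * a = 9 * a by ring] at this
        exact this
      · refine ⟨u0, a1, a2, _, by simpa using zero_mem_ball _, a4.tail ⟨?_, hb⟩⟩
        have := sub_mem_ball h1 a3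
        rw [show 7 * a + 7 * a = 14 * a by ring] at this
        convert this using 1
        abel

theorem finite_near (r : ℕ) (u : V d) : {w : V d | u - w ∈ ball d r}.Finite :=
  ((ball d r).finite_toSet.image (fun t => u - t)).subset fun w hw => ⟨u - w, hw, by simp⟩

theorem Sparse.ae_tile_finite {δ : Measure (Cf d Bool)} (h : Sparse a δ) :
    ∀ᵐ x ∂δ, (tile a (M0 a x)).Finite := by
  have := h.prob
  filter_upwards [h.ae_free, ae_chain_finite h.stat (r := 14 * a) h.dep (h.half (by omega))]
    with x hf hc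
  have hfin : (⋃ u0 ∈ {u0 | u0 ∈ ball d (9 * a) ∧ x u0 = true},
      ⋃ u ∈ {u | Relation.ReflTransGen
        (fun p q : V d => q - p ∈ ball d (14 * a) ∧ x q = true) u0 u},
        {w : V d | u - w ∈ ball d (9 * a)}).Finite :=
    ((ball d (9 * a)).finite_toSet.subset fun _ h => h.1).biUnion fun u0 hu0 =>
      (hc u0 hu0.2).biUnion fun u _ => finite_near _ u
  refine ((finite_near (2 * a) (ownAt a (GG a x) 0)).union hfin).subset fun w hw => ?_
  rcases tile_inv hf hw with e | ⟨u0, a1, a2, u, a3, a4⟩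
  · left
    rw [← e]
    exact (ownAt_spec hf w).1
  · right
    refine mem_iUnion₂.2 ⟨u0, ⟨a1, a2⟩, mem_iUnion₂.2 ⟨u, a4, ?_⟩⟩
    have := add_mem_ball a3 (ownAt_spec (a := a) hf w).1
    rw [sub_add_sub_cancel, show 7 * a + 2 * a = 9 * a by ring] at this
    exact this

theorem glue0_sh (m : Mk d) (z v w : V d) :
    glue0 a (sh z m) v w ↔ glue0 a m (v + z) (w + z) := by
  simp only [glue0, fstM_sh, sh_sh, add_sub_add_right_eq_sub]
  refine or_congr (and_congr_right fun _ => ?_) Iff.rfl
  rw [add_right_comm, add_left_inj]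

theorem glue_sh (m : Mk d) (z v w : V d) :
    glue a (sh z m) v w ↔ glue a m (v + z) (w + z) := by
  simp only [glue, glue0_sh]

theorem mem_tile_sh (m : Mk d) (z w : V d) :
    w ∈ tile a (sh z m) ↔ Relation.ReflTransGen (glue a m) z (w + z) := by
  constructor
  · intro h
    induction h with
    | refl => rw [zero_add]
    | tail _ hg ih => exact ih.tail ((glue_sh m z _ _).1 hg)
  · intro h
    have : ∀ u, Relation.ReflTransGen (glue a m) z u → u - z ∈ tile a (sh z m) := by
      intro u hu
      induction hu with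
      | refl => rw [sub_self]; exact Relation.ReflTransGen.refl
      | tail _ hg ih =>
        exact Relation.ReflTransGen.tail ih ((glue_sh m z _ _).2 (by simpa using hg))
    simpa using this _ h

theorem tile_sh_iff {m : Mk d} {v : V d} (hv : v ∈ tile a m) (w : V d) :
    w ∈ tile a (sh v m) ↔ w + v ∈ tile a m := by
  rw [mem_tile_sh]
  have hs : Relation.ReflTransGen (glue a m) v 0 := by
    have hv' : Relation.ReflTransGen (glue a m) 0 v := hv
    clear hv
    induction hv' with
    | refl => exact Relation.ReflTransGen.refl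
    | tail _ hg ih => exact Relation.ReflTransGen.head hg.symm ih
  exact ⟨fun h => Relation.ReflTransGen.trans hv h, fun h => hs.trans h⟩

theorem glue0_near {m : Mk d} {v w : V d} (h : glue0 a m v w) : w - v ∈ ball d (3 * a) := by
  rcases h with ⟨h1, rfl⟩ | ⟨-, h⟩
  · simpa using ball_mono (by omega) (own_mem h1).1
  · exact h

theorem lc_glue0 {m : Mk d} (h : Free (fstM m)) (v : V d) : LC (fun y => glue0 a y v) m := by
  have h' : Free (fstM (sh v m)) := h.shift v
  have h1 := ((lc_netB (2 * a) (2 * a) h').comp (tendsto_fstM _)).comp_sh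
  have h2 := ((lc_own (a := a) h').comp (tendsto_fstM _)).comp_sh
  have h3 := (lc_bad (a := a) h').comp_sh
  filter_upwards [h1, h2, h3] with y e1 e2 e3
  funext w
  simp only [fstM_sh] at e1 e2
  simp only [glue0, e1, e2, e3]

theorem lc_tile {m : Mk d} (h : Free (fstM m)) (hfin : (tile a m).Finite) : LC (tile a) m := by
  have hF : (⋃ v ∈ tile a m, {w : V d | v - w ∈ ball d (3 * a)}).Finite :=
    hfin.biUnion fun v _ => finite_near _ v
  filter_upwards [lc_finset (f := fun v (y : Mk d) => glue0 a y v) hF.toFinset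
    (fun v _ => lc_glue0 h v)] with y hy
  have key : ∀ v ∈ tile a m, ∀ w, glue a y v w ↔ glue a m v w := by
    intro v hv w
    have e1 : glue0 a y v = glue0 a m v :=
      hy v (hF.mem_toFinset.2 (mem_iUnion₂.2 ⟨v, hv, by simpa using zero_mem_ball _⟩))
    have e2 : v - w ∈ ball d (3 * a) → glue0 a y w = glue0 a m w := fun hw =>
      hy w (hF.mem_toFinset.2 (mem_iUnion₂.2 ⟨v, hv, hw⟩))
    refine or_congr (by rw [e1]) ⟨fun h => ?_, fun h => ?_⟩
    · rwa [← e2 (glue0_near h)]
    · rwa [e2 (glue0_near h)]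
  ext w
  constructor
  · intro hw
    induction hw with
    | refl => exact Relation.ReflTransGen.refl
    | tail _ hg ih => exact Relation.ReflTransGen.tail ih ((key _ ih _).1 hg)
  · intro hw
    induction hw with
    | refl => exact Relation.ReflTransGen.refl
    | tail h1 hg ih => exact Relation.ReflTransGen.tail ih ((key _ h1 _).2 hg)

theorem mem_tileF {m : Mk d} (hfin : (tile a m).Finite) {w : V d} :
    w ∈ tileF a m ↔ w ∈ tile a m := by
  simp [tileF, hfin]

theorem measurableSet_free : MeasurableSet {m : Mk d | Free (fstM m)} := by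
  have : {m : Mk d | Free (fstM m)} =
      ⋂ w ∈ {w : V d | w ≠ 0}, ⋃ v, {m : Mk d | (m v).1 ≠ (m (v + w)).1} := by
    ext m; simp [Free, fstM]
  rw [this]
  refine MeasurableSet.biInter (to_countable _) fun w _ => MeasurableSet.iUnion fun v => ?_
  exact (measurableSet_eq_fun (measurable_pi_apply v).fst
    (measurable_pi_apply (v + w)).fst).compl

theorem Sparse.ae_map_free {δ : Measure (Cf d Bool)} (h : Sparse a δ) :
    ∀ᵐ m ∂(δ.map (M0 a)), Free (fstM m) ∧ (tile a m).Finite := by
  have : ∀ᵐ m ∂(δ.map (M0 a)), Free (fstM m) ∧ ∀ᶠ y in nb m, (tile a y).Finite := by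
    refine (ae_map_iff measurable_M0.aemeasurable
      (p := fun m => Free (fstM m) ∧ ∀ᶠ y in nb m, (tile a y).Finite)
      (measurableSet_free.inter (measurableSet_eventually _))).2 ?_
    filter_upwards [h.ae_free, h.ae_tile_finite] with x h1 h2
    exact ⟨h1, (lc_tile (m := M0 a x) h1 h2).mono fun y hy => by rwa [hy]⟩
  exact this.mono fun m hm => ⟨hm.1, self_of_nb (p := fun y => (tile a y).Finite) hm.2⟩

theorem Sparse.exists_tileEnv (hd : 0 < d) {δ : Measure (Cf d Bool)} (h : Sparse a δ) :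
    ∃ E : Env d, IsTileEnv a δ E := by
  have := h.prob
  have : IsProbabilityMeasure (δ.map (M0 a)) :=
    Measure.isProbabilityMeasure_map measurable_M0.aemeasurable
  refine exists_env hd (δ.map (M0 a)) ?_ (h.ae_map_free.mono fun _ hm => hm.1) (tileF a) ?_
  · intro z
    rw [Measure.map_map (measurable_sh z) measurable_M0]
    conv_rhs => rw [← h.stat z, Measure.map_map measurable_M0 (measurable_sh z)]
    congr 1
    funext x
    simp [M0_sh]
  · filter_upwards [h.ae_map_free] with m ⟨h1, h2⟩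
    refine ⟨(mem_tileF h2).2 Relation.ReflTransGen.refl, fun v hv w => ?_, ?_⟩
    · rw [mem_tileF h2] at hv ⊢
      have h3 : (tile a (sh v m)).Finite :=
        (h2.image (· - v)).subset fun u hu => ⟨u + v, (tile_sh_iff hv u).1 hu, by simp⟩
      rw [mem_tileF h3, tile_sh_iff hv]
    · exact (lc_tile h1 h2).post (fun T : Set (V d) => if h : T.Finite then h.toFinset else {0})

theorem IsTileEnv.ae_free {δ : Measure (Cf d Bool)} (h : Sparse a δ) {E : Env d}
    (hE : IsTileEnv a δ E) : ∀ᵐ m ∂E.ρ, Free (fstM m) ∧ (tile a m).Finite := by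
  rw [hE.1]; exact h.ae_map_free

theorem IsTileEnv.ae_adm {δ : Measure (Cf d Bool)} (h : Sparse a δ) {E : Env d}
    (hE : IsTileEnv a δ E) :
    ∀ᵐ m ∂E.ρ, ∀ n z, Adm a m {v | v - z ∈ E.C n (sh z m)} := by
  filter_upwards [E.ae_good, E.ae_sh (hE.ae_free h)] with m hg hf n z v w hvw hv
  have h1 : w - v ∈ E.C 0 (sh v m) := by
    rw [hE.2, mem_tileF (hf v).2, mem_tile_sh, sub_add_cancel]
    exact Relation.ReflTransGen.single hvw
  have h2 := (hg.shift v).mono (Nat.zero_le n) h1
  have h3 := (hg.shift z).inv hv (w - v)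
  rw [sh_sh, sub_add_cancel, sub_add_sub_cancel] at h3
  exact h3.1 h2

theorem ownAt_mem_tile {m : Mk d} (hf : Free (fstM m)) {v : V d} (hv : v ∈ tile a m) :
    ownAt a (fstM m) v ∈ tile a m ∧ ∀ w ∈ ball d a, ownAt a (fstM m) v + w ∈ tile a m := by
  have h1 : ownAt a (fstM m) v ∈ tile a m :=
    Relation.ReflTransGen.tail hv (Or.inl (Or.inl ⟨net_cover _ (hf.shift v), rfl⟩))
  exact ⟨h1, fun w hw => Relation.ReflTransGen.tail h1 (glue_of_net (ownAt_spec hf v).2 hw)⟩

/-- far from `true` sites the tile is a plain base tile -/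
theorem tile_plain {x : Cf d Bool} (hf : Free (GG a x)) (hx : ∀ w ∈ ball d (9 * a), x w = false) :
    ∃ u ∈ ball d (2 * a), (∀ w ∈ ball d a, u + w ∈ tile a (M0 a x)) ∧
      (∀ v ∈ tile a (M0 a x), v ∈ ball d (4 * a)) ∧
      ∀ y, Ev a (M0 a x) (tile a (M0 a x)) y ↔ y u = false := by
  have h0 : ownAt a (GG a x) 0 ∈ ball d (2 * a) := by simpa using (ownAt_spec (a := a) hf 0).1
  have h1 : ∀ v ∈ tile a (M0 a x), ownAt a (GG a x) v = ownAt a (GG a x) 0 := by
    intro v hv
    rcases tile_inv hf hv with e | ⟨u0, a1, a2, -⟩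
    · exact e
    · rw [hx u0 a1] at a2; exact absurd a2 (by simp)
  have h2 := ownAt_mem_tile (a := a) (m := M0 a x) hf Relation.ReflTransGen.refl
  rw [fstM_M0] at h2
  have h3 : x (ownAt a (GG a x) 0) = false := hx _ (ball_mono (by omega) h0)
  refine ⟨_, h0, h2.2, fun v hv => ?_, fun y => ⟨fun hy => ?_, fun hy v hv => ⟨fun hn => ?_,
    fun hb => ?_⟩⟩⟩
  · have := sub_mem_ball h0 (ownAt_spec (a := a) hf v).1
    rw [h1 v hv, sub_sub_cancel, show 2 * a + 2 * a = 4 * a by ring] at this
    exact this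
  · have := (hy _ h2.1).1 (ownAt_spec hf 0).2
    simpa [M0, h3] using this
  · have e : v = ownAt a (GG a x) 0 := (ownAt_net hn).symm.trans (h1 v hv)
    subst e
    simpa [M0, h3] using hy
  · rw [bad_M0 hf, h1 v hv, h3] at hb
    exact absurd hb (by simp)

/-- every finite tile contains a net point certified `false` -/
theorem tile_good_point (hd : 0 < d) (ha : 1 ≤ a) {m : Mk d} (hf : Free (fstM m))
    (hfin : (tile a m).Finite) :
    ∃ u, (∀ w ∈ ball d a, u + w ∈ tile a m) ∧ ∀ y, Ev a m (tile a m) y → y u = false := by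
  obtain ⟨v, hv, hmax⟩ := Set.exists_max_image (tile a m) (fun v => v ⟨0, hd⟩) hfin
    ⟨0, Relation.ReflTransGen.refl⟩
  have hb : ¬ bad a (sh v m) := by
    intro hb
    have h1 : v + (fun _ => 1) ∈ tile a m := by
      refine Relation.ReflTransGen.tail hv (Or.inl (Or.inr ⟨hb, ?_⟩))
      rw [add_sub_cancel_left, mem_ball]
      intro i
      simp only [abs_one]
      exact_mod_cast (by omega : 1 ≤ 3 * a)
    have := hmax _ h1
    simp at this
  rw [bad_iff hf] at hb
  obtain ⟨h1, h2⟩ := ownAt_mem_tile hf hv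
  refine ⟨_, h2, fun y hy => ?_⟩
  have := (hy _ h1).1 (ownAt_spec hf v).2
  simp only [sh_apply, zero_add] at this
  rw [this]
  simpa using hb

end TILE

end Pool.Agent.P.MP_1a5a6a_pr
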